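import Mathlib

set_option autoImplicit false

namespace Pool.Agent.Helper734.IB

open MeasureTheory Set Filter Topology Metric
open scoped ENNReal NNReal RealInnerProductSpace

variable {E : Type*} [NormedAddCommGroup E] [InnerProductSpace ℝ E] [FiniteDimensional ℝ E]
  [MeasurableSpace E] [BorelSpace E]

/-- Gaussian bump of width `ε`, total mass `√(2π)` -/
noncomputable def kk (ε r : ℝ) : ℝ := ε⁻¹ * Real.exp (-(r ^ 2) / (2 * ε ^ 2))

/-- its derivative -/
noncomputable def kd (ε r : ℝ) : ℝ := -(r / ε ^ 2) * kk ε r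

/-- Gaussian weight -/
noncomputable def ww {F : Type*} [NormedAddCommGroup F] (u : F) : ℝ := Real.exp (-(‖u‖ ^ 2) / 2)

/-- mollified section function of `K` -/
noncomputable def gg (K : Set E) (ε : ℝ) (u : E) : ℝ := ∫ x in K, kk ε ⟪u, x⟫

/-- mollified potential -/
noncomputable def WW (K : Set E) (i : ℕ) (ε : ℝ) (x : E) : ℝ :=
  ∫ u : E, kk ε ⟪u, x⟫ * gg K ε u ^ i * ww u

/-- its derivative in direction `e` -/
noncomputable def VV (K : Set E) (i : ℕ) (e : E) (ε : ℝ) (x : E) : ℝ :=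
  ∫ u : E, ⟪u, e⟫ * kd ε ⟪u, x⟫ * gg K ε u ^ i * ww u

/-- length of the maximal segment in `K` starting at `x` in direction `e` -/
noncomputable def tp (K : Set E) (e x : E) : ℝ :=
  sSup {t : ℝ | 0 ≤ t ∧ ∀ s ∈ Icc 0 t, x + s • e ∈ K}

/-- height of the midpoint of the component through `x` of the fibre of `K` in direction `e` -/
noncomputable def aa (K : Set E) (e x : E) : ℝ :=
  ⟪x, e⟫ + (tp K e x - tp K (-e) x) / 2

/-- limit of the mollified section function -/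
noncomputable def G0 (K : Set E) (u : E) : ℝ :=
  Real.sqrt (2 * Real.pi) / ‖u‖ * (volume {z : (ℝ ∙ u)ᗮ | (z : E) ∈ K}).toReal

/-- limit of the mollified potential -/
noncomputable def W0 (K : Set E) (i : ℕ) (x : E) : ℝ :=
  Real.sqrt (2 * Real.pi) / ‖x‖ * ∫ y : (ℝ ∙ x)ᗮ, G0 K (y : E) ^ i * ww (y : E)

/-- area of the parallelogram spanned by two vectors -/
noncomputable def DD (u v : E) : ℝ := Real.sqrt (‖u‖ ^ 2 * ‖v‖ ^ 2 - ⟪u, v⟫ ^ 2)

/-- integral over a symmetric box of the mollified function shifted by `l • c` -/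
noncomputable def Phi {F : Type*} [NormedAddCommGroup F] [InnerProductSpace ℝ F]
    [FiniteDimensional ℝ F] [MeasurableSpace F] [BorelSpace F] {s : ℕ} (y : Fin s → F)
    (t ε : ℝ) (c r : Fin s → ℝ) (l : ℝ) : ℝ≥0∞ :=
  ∫⁻ v : F, ∫⁻ h in Set.pi univ (fun j => Ioo (-(r j)) (r j)),
    ENNReal.ofReal ((∏ j, kk ε (⟪v, y j⟫ + t * (h j + l * c j))) * ww v)

/-- the majorant of the `L²` norm of the derivative of the potential -/
noncomputable def QQ (E : Type*) [NormedAddCommGroup E] [InnerProductSpace ℝ E]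
    [FiniteDimensional ℝ E] [MeasurableSpace E] [BorelSpace E] (i : ℕ) : ℝ≥0∞ :=
  ∫⁻ u : E, ∫⁻ v : E,
    ENNReal.ofReal (‖u‖ ^ 2 * ‖v‖ ^ 2 / (‖u‖ ^ i * ‖v‖ ^ i * DD u v ^ 3) * (ww u * ww v))

/-- points of `K` on long components and away from the axis -/
noncomputable def KD (K : Set E) (e : E) (δ : ℝ) : Set E :=
  {x | x ∈ K ∧ δ < tp K e x + tp K (-e) x ∧ δ < ‖x - ⟪x, e⟫ • e‖}

/-- open star shaped set with gauge-type radial function `f` -/
def KS {F : Type*} [NormedAddCommGroup F] (f : F → ℝ) : Set F := {x | x ≠ 0 ∧ ‖x‖ < f x}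

/-- constant in the polar form of the limit potential -/
noncomputable def CW (n i : ℕ) : ℝ :=
  Real.sqrt (2 * Real.pi) ^ (i + 1) *
    ∫ r in Ioi (0:ℝ), r ^ (n - 2 - i) * Real.exp (-(r ^ 2) / 2)

/-- radial function of a set -/
noncomputable def radial {F : Type*} [NormedAddCommGroup F] [NormedSpace ℝ F] (L : Set F)
    (u : F) : ℝ := sSup {c : ℝ | 0 ≤ c ∧ c • u ∈ L}

/-- star body -/
structure IsStarBody {F : Type*} [NormedAddCommGroup F] [NormedSpace ℝ F] (L : Set F) : Prop where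
  compact : IsCompact L
  zero_mem : (0 : F) ∈ L
  star : StarConvex ℝ 0 L
  cont : ContinuousOn (radial L) (sphere (0 : F) 1)

/-- the function that defines the intersection body of order `i` -/
noncomputable def ordRadial {n : ℕ} (i : ℝ) (L : Set (EuclideanSpace ℝ (Fin n)))
    (u : EuclideanSpace ℝ (Fin n)) : ℝ :=
  1 / ((n : ℝ) - 1) * ∫ v : sphere (0 : (ℝ ∙ u)ᗮ) 1,
    (radial L ((v : (ℝ ∙ u)ᗮ) : EuclideanSpace ℝ (Fin n))) ^ i
      ∂((volume : Measure (ℝ ∙ u)ᗮ).toSphere)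

/-- the intersection body of order `i` -/
def IBody {n : ℕ} (i : ℝ) (L : Set (EuclideanSpace ℝ (Fin n))) :
    Set (EuclideanSpace ℝ (Fin n)) :=
  {x | ∃ u ∈ sphere (0 : EuclideanSpace ℝ (Fin n)) 1, ∃ c : ℝ, 0 ≤ c ∧ c ≤ ordRadial i L u ∧
    x = c • u}

/-- regularised Gram determinant -/
noncomputable def Dl (ε : ℝ) (u v : E) : ℝ :=
  ε ^ 4 + ε ^ 2 * (‖u‖ ^ 2 + ‖v‖ ^ 2) + (‖u‖ ^ 2 * ‖v‖ ^ 2 - ⟪u, v⟫ ^ 2)

end Pool.Agent.Helper734.IB
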