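import Mathlib
import Pool.Agent.Helper734.IB.Defs

set_option autoImplicit false

namespace Pool.Agent.Helper734.IB

open MeasureTheory Set Filter Topology Metric
open scoped ENNReal NNReal RealInnerProductSpace

variable {E : Type*} [NormedAddCommGroup E] [InnerProductSpace ℝ E] [FiniteDimensional ℝ E]
  [MeasurableSpace E] [BorelSpace E]

theorem perp_inner (v : E) (z : (ℝ ∙ v)ᗮ) : ⟪(z : E), v⟫ = 0 ∧ ⟪v, (z : E)⟫ = 0 :=
  ⟨Submodule.mem_orthogonal_singleton_iff_inner_left.1 z.2,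
    Submodule.mem_orthogonal_singleton_iff_inner_right.1 z.2⟩

theorem norm_dec (v : E) (hv : ‖v‖ = 1) (z : (ℝ ∙ v)ᗮ) (r : ℝ) :
    ‖(z : E) + r • v‖ ^ 2 = ‖(z : E)‖ ^ 2 + r ^ 2 := by
  rw [norm_add_sq_real, inner_smul_right, (perp_inner v z).1, norm_smul, hv, Real.norm_eq_abs,
    mul_one, sq_abs]
  ring

theorem finrank_perp (v : E) (hv : v ≠ 0) :
    Module.finrank ℝ ((ℝ ∙ v)ᗮ : Submodule ℝ E) + 1 = Module.finrank ℝ E := by
  have h1 := Submodule.finrank_add_finrank_orthogonal (ℝ ∙ v)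
  rw [finrank_span_singleton hv] at h1
  omega

theorem dec_exists (v : E) (hv : ‖v‖ = 1) (x : E) :
    ∃ (z : (ℝ ∙ v)ᗮ), (z : E) = x - ⟪x, v⟫ • v ∧ x = (z : E) + ⟪x, v⟫ • v := by
  refine ⟨⟨x - ⟪x, v⟫ • v, ?_⟩, rfl, ?_⟩
  · rw [Submodule.mem_orthogonal_singleton_iff_inner_left, inner_sub_left, inner_smul_left,
      real_inner_self_eq_norm_sq, hv]
    simp
  · simp

end Pool.Agent.Helper734.IB
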