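import Mathlib
import Pool.Agent.Helper734.IB.Defs
import Pool.Agent.Helper734.IB.BasicA

set_option autoImplicit false

namespace Pool.Agent.Helper734.IB

open MeasureTheory Set Filter Topology Metric
open scoped ENNReal NNReal RealInnerProductSpace

variable {E : Type*} [NormedAddCommGroup E] [InnerProductSpace ℝ E] [FiniteDimensional ℝ E]
  [MeasurableSpace E] [BorelSpace E]

theorem aa_comp (K : Set E) (e : E) (he : ‖e‖ = 1) (y : (ℝ ∙ e)ᗮ) (b t : ℝ)
    (hsub : ∀ h ∈ Ioo b t, (y : E) + h • e ∈ K) (hb : (y : E) + b • e ∉ K)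
    (ht : (y : E) + t • e ∉ K) (h : ℝ) (hh : h ∈ Ioo b t) :
    tp K e ((y : E) + h • e) = t - h ∧ tp K (-e) ((y : E) + h • e) = h - b ∧
      aa K e ((y : E) + h • e) = (b + t) / 2 := by
  have h1 : tp K e ((y : E) + h • e) = t - h := by
    unfold tp
    have hset : {τ : ℝ | 0 ≤ τ ∧ ∀ s ∈ Icc 0 τ, (y : E) + h • e + s • e ∈ K} = Ico 0 (t - h) := by
      ext τ
      constructor
      · rintro ⟨h0, hK⟩
        refine ⟨h0, ?_⟩
        by_contra hge
        rw [not_lt] at hge
        have h2 := hK (t - h) ⟨by linarith [hh.2], hge⟩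
        apply ht
        have h3 : (y : E) + t • e = (y : E) + h • e + (t - h) • e := by
          rw [add_assoc, ← add_smul]
          congr 2
          ring
        rw [h3]
        exact h2
      · rintro ⟨h0, hlt⟩
        refine ⟨h0, fun s hs => ?_⟩
        rw [add_assoc, ← add_smul]
        exact hsub _ ⟨by linarith [hh.1, hs.1], by linarith [hs.2]⟩
    rw [hset]
    exact csSup_Ico (by linarith [hh.2])
  have h2 : tp K (-e) ((y : E) + h • e) = h - b := by
    unfold tp
    have hset : {τ : ℝ | 0 ≤ τ ∧ ∀ s ∈ Icc 0 τ, (y : E) + h • e + s • (-e) ∈ K} =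
        Ico 0 (h - b) := by
      ext τ
      constructor
      · rintro ⟨h0, hK⟩
        refine ⟨h0, ?_⟩
        by_contra hge
        rw [not_lt] at hge
        have h2 := hK (h - b) ⟨by linarith [hh.1], hge⟩
        apply hb
        have h3 : (y : E) + b • e = (y : E) + h • e + (h - b) • (-e) := by
          rw [smul_neg, ← neg_smul, add_assoc, ← add_smul]
          congr 2
          ring
        rw [h3]
        exact h2
      · rintro ⟨h0, hlt⟩
        refine ⟨h0, fun s hs => ?_⟩
        rw [smul_neg, ← neg_smul, add_assoc, ← add_smul]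
        exact hsub _ ⟨by linarith [hs.2], by linarith [hh.2, hs.1]⟩
    rw [hset]
    exact csSup_Ico (by linarith [hh.1])
  refine ⟨h1, h2, ?_⟩
  unfold aa
  rw [h1, h2, inner_add_left, (perp_inner e y).1, real_inner_smul_left,
    real_inner_self_eq_norm_sq, he]
  ring

end Pool.Agent.Helper734.IB
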