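import Mathlib
import Pool.Agent.Helper734.IB.Defs

set_option autoImplicit false

namespace Pool.Agent.Helper734.IB

open MeasureTheory Set Filter Topology Metric
open scoped ENNReal NNReal RealInnerProductSpace

variable {E : Type*} [NormedAddCommGroup E] [InnerProductSpace ℝ E] [FiniteDimensional ℝ E]
  [MeasurableSpace E] [BorelSpace E]

theorem comps (A : Set ℝ) (hA : IsOpen A) (hb : Bornology.IsBounded A) :
    ∃ S : Set (ℝ × ℝ), S.Countable ∧ (∀ p ∈ S, p.1 < p.2 ∧ p.1 ∉ A ∧ p.2 ∉ A) ∧
      S.PairwiseDisjoint (fun p => Ioo p.1 p.2) ∧ A = ⋃ p ∈ S, Ioo p.1 p.2 := by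
  set S : Set (ℝ × ℝ) := {p | p.1 < p.2 ∧ p.1 ∉ A ∧ p.2 ∉ A ∧ Ioo p.1 p.2 ⊆ A} with hS
  have hdis : S.PairwiseDisjoint (fun p => Ioo p.1 p.2) := by
    rintro p ⟨hp1, hp2, hp3, hp4⟩ q ⟨hq1, hq2, hq3, hq4⟩ hpq
    change Disjoint (Ioo p.1 p.2) (Ioo q.1 q.2)
    rw [Set.disjoint_left]
    intro z hz hz'
    apply hpq
    have h1 : p.1 = q.1 := by
      rcases lt_trichotomy p.1 q.1 with h | h | h
      · exact absurd (hp4 ⟨h, hz'.1.trans hz.2⟩) hq2
      · exact h
      · exact absurd (hq4 ⟨h, hz.1.trans hz'.2⟩) hp2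
    have h2 : p.2 = q.2 := by
      rcases lt_trichotomy p.2 q.2 with h | h | h
      · exact absurd (hq4 ⟨hz'.1.trans hz.2, h⟩) hp3
      · exact h
      · exact absurd (hp4 ⟨hz.1.trans hz'.2, h⟩) hq3
    exact Prod.ext h1 h2
  refine ⟨S, ?_, fun p hp => ⟨hp.1, hp.2.1, hp.2.2.1⟩, hdis, ?_⟩
  · exact hdis.countable_of_isOpen (fun p _ => isOpen_Ioo) (fun p hp => nonempty_Ioo.mpr hp.1)
  · apply Subset.antisymm
    · intro x hx
      obtain ⟨C, hC⟩ := hb.exists_norm_le
      have hcl : IsClosed Aᶜ := hA.isClosed_compl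
      -- right end point
      set R : Set ℝ := {s | x ≤ s} ∩ Aᶜ with hR
      have hRc : IsClosed R := isClosed_Ici.inter hcl
      have hRne : R.Nonempty := by
        refine ⟨max x C + 1, ?_, ?_⟩
        · change x ≤ max x C + 1
          have := le_max_left x C
          linarith
        · intro h
          have h1 := hC _ h
          have h2 := le_max_right x C
          rw [Real.norm_eq_abs] at h1
          have h3 := le_abs_self (max x C + 1)
          linarith
      have hRb : BddBelow R := ⟨x, fun s hs => hs.1⟩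
      have hRm := hRc.csInf_mem hRne hRb
      set t := sInf R with ht
      have hxt : x < t := by
        rcases (show x ≤ t from hRm.1).eq_or_lt with h | h
        · exact absurd (h ▸ hx) hRm.2
        · exact h
      have hxtA : ∀ s, x ≤ s → s < t → s ∈ A := by
        intro s h1 h2
        by_contra h3
        have : t ≤ s := csInf_le hRb ⟨h1, h3⟩
        linarith
      -- left end point
      set L : Set ℝ := {s | s ≤ x} ∩ Aᶜ with hL
      have hLc : IsClosed L := isClosed_Iic.inter hcl
      have hLne : L.Nonempty := by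
        refine ⟨min x (-C) - 1, ?_, ?_⟩
        · change min x (-C) - 1 ≤ x
          have := min_le_left x (-C)
          linarith
        · intro h
          have h1 := hC _ h
          have h2 := min_le_right x (-C)
          rw [Real.norm_eq_abs] at h1
          have h3 := neg_abs_le (min x (-C) - 1)
          linarith
      have hLb : BddAbove L := ⟨x, fun s hs => hs.1⟩
      have hLm := hLc.csSup_mem hLne hLb
      set l := sSup L with hl
      have hlx : l < x := by
        rcases (show l ≤ x from hLm.1).eq_or_lt with h | h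
        · exact absurd (h ▸ hx) hLm.2
        · exact h
      have hlxA : ∀ s, l < s → s ≤ x → s ∈ A := by
        intro s h1 h2
        by_contra h3
        have : s ≤ l := le_csSup hLb ⟨h2, h3⟩
        linarith
      rw [mem_iUnion₂]
      refine ⟨(l, t), ⟨hlx.trans hxt, hLm.2, hRm.2, ?_⟩, hlx, hxt⟩
      rintro s ⟨h1, h2⟩
      rcases le_total s x with h | h
      · exact hlxA s h1 h
      · exact hxtA s h h2
    · intro x hx
      rw [mem_iUnion₂] at hx
      obtain ⟨p, hp, hxp⟩ := hx
      exact hp.2.2.2 hxp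

end Pool.Agent.Helper734.IB
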