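import Mathlib
import Pool.Agent.Helper734.IB.Defs

set_option autoImplicit false

namespace Pool.Agent.Helper734.IB

open MeasureTheory Set Filter Topology Metric
open scoped ENNReal NNReal RealInnerProductSpace

variable {E : Type*} [NormedAddCommGroup E] [InnerProductSpace ℝ E] [FiniteDimensional ℝ E]
  [MeasurableSpace E] [BorelSpace E]

omit [MeasurableSpace E] [BorelSpace E] [FiniteDimensional ℝ E] in
theorem tpbound_tp_bound_aux (K : Set E) (R : ℝ) (hb : K ⊆ ball 0 R) (hK : IsOpen K) (e : E)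
    (he : ‖e‖ = 1) (x : E) (hx : x ∈ K) : 0 < tp K e x ∧ tp K e x < 2 * R ∧
      x + tp K e x • e ∈ closure K ∧ x + tp K e x • e ∉ K ∧
      (∀ s ∈ Ico 0 (tp K e x), x + s • e ∈ K) := by
  have hxR : ‖x‖ < R := by simpa using hb hx
  have h0 : (0 : ℝ) ∈ {t : ℝ | 0 ≤ t ∧ ∀ s ∈ Icc 0 t, x + s • e ∈ K} := by
    refine ⟨le_rfl, fun s hs => ?_⟩
    have : s = 0 := le_antisymm hs.2 hs.1
    rw [this, zero_smul, add_zero]
    exact hx
  have hbd : ∀ t ∈ {t : ℝ | 0 ≤ t ∧ ∀ s ∈ Icc 0 t, x + s • e ∈ K}, t ≤ R + ‖x‖ := by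
    rintro t ⟨ht0, ht⟩
    have h1 : ‖x + t • e‖ < R := by simpa using hb (ht t ⟨ht0, le_rfl⟩)
    have h2 : ‖t • e‖ = t := by rw [norm_smul, he, mul_one, Real.norm_eq_abs, abs_of_nonneg ht0]
    have h3 : ‖t • e‖ ≤ ‖x + t • e‖ + ‖x‖ := by
      calc ‖t • e‖ = ‖(x + t • e) - x‖ := by congr 1; abel
        _ ≤ _ := norm_sub_le _ _
    linarith
  have hBA : BddAbove {t : ℝ | 0 ≤ t ∧ ∀ s ∈ Icc 0 t, x + s • e ∈ K} := ⟨_, hbd⟩
  have hpos : 0 < tp K e x := by
    obtain ⟨ε, hε, hball⟩ := Metric.isOpen_iff.1 hK x hx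
    have h1 : ε / 2 ∈ {t : ℝ | 0 ≤ t ∧ ∀ s ∈ Icc 0 t, x + s • e ∈ K} := by
      refine ⟨by linarith, fun s hs => hball ?_⟩
      rw [Metric.mem_ball, dist_eq_norm]
      have : x + s • e - x = s • e := by abel
      rw [this, norm_smul, he, mul_one, Real.norm_eq_abs, abs_of_nonneg hs.1]
      linarith [hs.2]
    have := le_csSup hBA h1
    unfold tp
    linarith
  have hIco : ∀ s ∈ Ico 0 (tp K e x), x + s • e ∈ K := by
    intro s hs
    obtain ⟨t, ht, hst⟩ := exists_lt_of_lt_csSup ⟨0, h0⟩ hs.2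
    exact ht.2 s ⟨hs.1, hst.le⟩
  refine ⟨hpos, ?_, ?_, ?_, hIco⟩
  · have : tp K e x ≤ R + ‖x‖ := csSup_le ⟨0, h0⟩ hbd
    linarith
  · have hc : Continuous (fun s : ℝ => x + s • e) := by fun_prop
    have hmem : tp K e x ∈ closure (Ico 0 (tp K e x)) := by
      rw [closure_Ico hpos.ne]
      exact ⟨hpos.le, le_rfl⟩
    exact map_mem_closure (f := fun s : ℝ => x + s • e) hc hmem hIco
  · intro hmem
    obtain ⟨ε, hε, hball⟩ := Metric.isOpen_iff.1 hK _ hmem
    have h1 : tp K e x + ε / 2 ∈ {t : ℝ | 0 ≤ t ∧ ∀ s ∈ Icc 0 t, x + s • e ∈ K} := by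
      refine ⟨by linarith, fun s hs => ?_⟩
      rcases lt_or_ge s (tp K e x) with h | h
      · exact hIco s ⟨hs.1, h⟩
      · apply hball
        rw [Metric.mem_ball, dist_eq_norm]
        have : x + s • e - (x + tp K e x • e) = (s - tp K e x) • e := by
          rw [sub_smul]; abel
        rw [this, norm_smul, he, mul_one, Real.norm_eq_abs, abs_of_nonneg (by linarith)]
        linarith [hs.2]
    have h2 : tp K e x + ε / 2 ≤ tp K e x := le_csSup hBA h1
    linarith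

theorem tp_bound (K : Set E) (R : ℝ) (hb : K ⊆ ball 0 R) (hK : IsOpen K) (e : E) (he : ‖e‖ = 1)
    (x : E) (hx : x ∈ K) : 0 < tp K e x ∧ tp K e x < 2 * R ∧ |aa K e x| < R ∧
      x + tp K e x • e ∈ frontier K ∧ x + tp K e x • e ∉ K ∧
      (∀ s ∈ Ico 0 (tp K e x), x + s • e ∈ K) := by
  obtain ⟨h1, h2, h3, h4, h5⟩ := tpbound_tp_bound_aux K R hb hK e he x hx
  obtain ⟨g1, g2, g3, g4, g5⟩ := tpbound_tp_bound_aux K R hb hK (-e) (by rw [norm_neg, he]) x hx
  refine ⟨h1, h2, ?_, ?_, h4, h5⟩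
  · have hcl : closure K ⊆ closedBall 0 R :=
      (closure_mono hb).trans Metric.closure_ball_subset_closedBall
    have a1 : ‖x + tp K e x • e‖ ≤ R := by simpa using hcl h3
    have b1 : ‖x + tp K (-e) x • (-e)‖ ≤ R := by simpa using hcl g3
    have a2 : ⟪x + tp K e x • e, e⟫ = ⟪x, e⟫ + tp K e x := by
      rw [inner_add_left, real_inner_smul_left, real_inner_self_eq_norm_sq, he]; ring
    have b2 : ⟪x + tp K (-e) x • (-e), e⟫ = ⟪x, e⟫ - tp K (-e) x := by
      rw [inner_add_left, real_inner_smul_left, inner_neg_left, real_inner_self_eq_norm_sq, he]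
      ring
    have a3 := abs_real_inner_le_norm (x + tp K e x • e) e
    have b3 := abs_real_inner_le_norm (x + tp K (-e) x • (-e)) e
    rw [a2, he, mul_one] at a3
    rw [b2, he, mul_one] at b3
    have a4 := abs_le.1 (a3.trans a1)
    have b4 := abs_le.1 (b3.trans b1)
    unfold aa
    rw [abs_lt]
    constructor <;> linarith [a4.1, a4.2, b4.1, b4.2]
  · rw [hK.frontier_eq]
    exact ⟨h3, h4⟩

end Pool.Agent.Helper734.IB
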