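import Mathlib
import Pool.Agent.Helper734.IB.Defs
import Pool.Agent.Helper734.IB.Aa_comp
import Pool.Agent.Helper734.IB.BasicA
import Pool.Agent.Helper734.IB.Comps
import Pool.Agent.Helper734.IB.Tpbound

set_option autoImplicit false

namespace Pool.Agent.Helper734.IB

open MeasureTheory Set Filter Topology Metric
open scoped ENNReal NNReal RealInnerProductSpace

variable {E : Type*} [NormedAddCommGroup E] [InnerProductSpace ℝ E] [FiniteDimensional ℝ E]
  [MeasurableSpace E] [BorelSpace E]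

theorem fibavg_fibavg_piece (K : Set E) (e : E) (he : ‖e‖ = 1) (y : (ℝ ∙ e)ᗮ) (W V : E → ℝ)
    (hV : Continuous V)
    (hW : ∀ (x : E) (l : ℝ), HasDerivAt (fun l : ℝ => W (x + l • e)) (V (x + l • e)) l)
    (b t : ℝ) (hbt : b < t)
    (hsub : ∀ h ∈ Ioo b t, (y : E) + h • e ∈ K) (hb : (y : E) + b • e ∉ K)
    (ht : (y : E) + t • e ∉ K) :
    IntegrableOn (fun h : ℝ => aa K e ((y : E) + h • e) * V ((y : E) + h • e)) (Ioo b t) ∧
    IntegrableOn (fun h : ℝ => aa K e ((y : E) + h • e) *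
      ((W ((y : E) + h • e + tp K e ((y : E) + h • e) • e) -
        W ((y : E) + h • e - tp K (-e) ((y : E) + h • e) • e)) /
        (tp K e ((y : E) + h • e) + tp K (-e) ((y : E) + h • e)))) (Ioo b t) ∧
    ∫ h in Ioo b t, aa K e ((y : E) + h • e) * V ((y : E) + h • e) =
    ∫ h in Ioo b t, aa K e ((y : E) + h • e) *
      ((W ((y : E) + h • e + tp K e ((y : E) + h • e) • e) -
        W ((y : E) + h • e - tp K (-e) ((y : E) + h • e) • e)) /
        (tp K e ((y : E) + h • e) + tp K (-e) ((y : E) + h • e))) := by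
  have hfacts := aa_comp K e he y b t hsub hb ht
  have hVc : Continuous (fun h : ℝ => V ((y : E) + h • e)) := by fun_prop
  have e1 : Set.EqOn (fun h : ℝ => aa K e ((y : E) + h • e) * V ((y : E) + h • e))
      (fun h => (b + t) / 2 * V ((y : E) + h • e)) (Ioo b t) := by
    intro h hh
    simp only
    rw [(hfacts h hh).2.2]
  have e2 : Set.EqOn (fun h : ℝ => aa K e ((y : E) + h • e) *
      ((W ((y : E) + h • e + tp K e ((y : E) + h • e) • e) -
        W ((y : E) + h • e - tp K (-e) ((y : E) + h • e) • e)) /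
        (tp K e ((y : E) + h • e) + tp K (-e) ((y : E) + h • e))))
      (fun _ => (b + t) / 2 * ((W ((y : E) + t • e) - W ((y : E) + b • e)) / (t - b)))
      (Ioo b t) := by
    intro h hh
    simp only
    obtain ⟨h1, h2, h3⟩ := hfacts h hh
    rw [h1, h2, h3]
    have p1 : (y : E) + h • e + (t - h) • e = (y : E) + t • e := by
      rw [sub_smul]; abel
    have p2 : (y : E) + h • e - (h - b) • e = (y : E) + b • e := by
      rw [sub_smul]; abel
    rw [p1, p2, show t - h + (h - b) = t - b by ring]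
  have i1 : IntegrableOn (fun h : ℝ => (b + t) / 2 * V ((y : E) + h • e)) (Ioo b t) :=
    ((continuous_const.mul hVc).integrableOn_Icc (a := b) (b := t)).mono_set Ioo_subset_Icc_self
  have i2 : IntegrableOn (fun _ : ℝ => (b + t) / 2 *
      ((W ((y : E) + t • e) - W ((y : E) + b • e)) / (t - b))) (Ioo b t) :=
    integrableOn_const (by rw [Real.volume_Ioo]; exact ENNReal.ofReal_ne_top)
  refine ⟨i1.congr_fun e1.symm measurableSet_Ioo, i2.congr_fun e2.symm measurableSet_Ioo, ?_⟩
  rw [setIntegral_congr_fun measurableSet_Ioo e1, setIntegral_congr_fun measurableSet_Ioo e2]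
  rw [integral_const_mul, setIntegral_const]
  have h3 : ∫ h in Ioo b t, V ((y : E) + h • e) =
      W ((y : E) + t • e) - W ((y : E) + b • e) := by
    rw [← integral_Ioc_eq_integral_Ioo, ← intervalIntegral.integral_of_le hbt.le]
    exact intervalIntegral.integral_eq_sub_of_hasDerivAt
      (f := fun l : ℝ => W ((y : E) + l • e)) (fun x _ => hW (y : E) x)
      (hVc.intervalIntegrable b t)
  rw [h3]
  have hne : t - b ≠ 0 := by linarith
  have hvol : (volume : Measure ℝ).real (Ioo b t) = t - b := by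
    rw [Real.volume_real_Ioo_of_le hbt.le]
  rw [hvol, smul_eq_mul]
  field_simp

theorem fibavg (K : Set E) (hK : IsOpen K) (hbd : Bornology.IsBounded K) (e : E) (he : ‖e‖ = 1)
    (y : (ℝ ∙ e)ᗮ) (δ : ℝ) (hδ : 0 < δ) (W V : E → ℝ) (hV : Continuous V)
    (hW : ∀ (x : E) (l : ℝ), HasDerivAt (fun l : ℝ => W (x + l • e)) (V (x + l • e)) l) :
    ∫ h in {h : ℝ | (y : E) + h • e ∈ K ∧
        δ < tp K e ((y : E) + h • e) + tp K (-e) ((y : E) + h • e)},
      aa K e ((y : E) + h • e) * V ((y : E) + h • e) =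
    ∫ h in {h : ℝ | (y : E) + h • e ∈ K ∧
        δ < tp K e ((y : E) + h • e) + tp K (-e) ((y : E) + h • e)},
      aa K e ((y : E) + h • e) * ((W ((y : E) + h • e + tp K e ((y : E) + h • e) • e) -
        W ((y : E) + h • e - tp K (-e) ((y : E) + h • e) • e)) /
        (tp K e ((y : E) + h • e) + tp K (-e) ((y : E) + h • e))) := by
  let A : Set ℝ := {h : ℝ | (y : E) + h • e ∈ K}
  have hAo : IsOpen A := hK.preimage (by fun_prop : Continuous fun h : ℝ => (y : E) + h • e)
  have hAb : Bornology.IsBounded A := by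
    obtain ⟨R, hR⟩ := hbd.subset_ball 0
    apply (Metric.isBounded_Icc (-R) R).subset
    intro h hh
    have h1 : ‖(y : E) + h • e‖ < R := by
      have := hR hh
      rwa [mem_ball_zero_iff] at this
    have h2 : ⟪(y : E) + h • e, e⟫ = h := by
      rw [inner_add_left, (perp_inner e y).1, real_inner_smul_left, real_inner_self_eq_norm_sq, he]
      ring
    have h3 := abs_real_inner_le_norm ((y : E) + h • e) e
    rw [h2, he, mul_one] at h3
    exact ⟨(abs_le.mp (h3.trans h1.le)).1, (abs_le.mp (h3.trans h1.le)).2⟩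
  obtain ⟨S, hSc, hS1, hSd, hSA⟩ := comps A hAo hAb
  -- facts for a component
  have hsub : ∀ p ∈ S, ∀ h ∈ Ioo p.1 p.2, (y : E) + h • e ∈ K := by
    intro p hp h hh
    have : h ∈ A := by rw [hSA]; exact mem_biUnion hp hh
    exact this
  have hfacts : ∀ p ∈ S, ∀ h ∈ Ioo p.1 p.2, tp K e ((y : E) + h • e) = p.2 - h ∧
      tp K (-e) ((y : E) + h • e) = h - p.1 ∧ aa K e ((y : E) + h • e) = (p.1 + p.2) / 2 :=
    fun p hp h hh => aa_comp K e he y p.1 p.2 (hsub p hp) (hS1 p hp).2.1 (hS1 p hp).2.2 h hh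
  let S' : Set (ℝ × ℝ) := {p | p ∈ S ∧ δ < p.2 - p.1}
  have hfin : S'.Finite := by
    have h1 := Measure.finite_const_le_meas_of_disjoint_iUnion (volume : Measure ℝ)
      (ε := ENNReal.ofReal δ) (ENNReal.ofReal_pos.mpr hδ)
      (As := fun p : S => Ioo (p : ℝ × ℝ).1 (p : ℝ × ℝ).2) (fun p => measurableSet_Ioo)
      (fun p q hpq => hSd p.2 q.2 (fun h => hpq (Subtype.ext h)))
      (by
        have : (⋃ p : S, Ioo (p : ℝ × ℝ).1 (p : ℝ × ℝ).2) = A := by
          rw [hSA, Set.biUnion_eq_iUnion]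
        rw [this]
        exact hAb.measure_lt_top.ne)
    refine (h1.image Subtype.val).subset ?_
    rintro p ⟨hp, hpd⟩
    refine ⟨⟨p, hp⟩, ?_, rfl⟩
    show ENNReal.ofReal δ ≤ volume (Ioo p.1 p.2)
    rw [Real.volume_Ioo]
    exact ENNReal.ofReal_le_ofReal hpd.le
  have hset : {h : ℝ | (y : E) + h • e ∈ K ∧
        δ < tp K e ((y : E) + h • e) + tp K (-e) ((y : E) + h • e)}
      = ⋃ p ∈ hfin.toFinset, Ioo p.1 p.2 := by
    ext h
    simp only [mem_setOf_eq, mem_iUnion, Set.Finite.mem_toFinset, exists_prop]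
    constructor
    · rintro ⟨h1, h2⟩
      have h3 : h ∈ A := h1
      rw [hSA] at h3
      obtain ⟨p, hp, hhp⟩ := mem_iUnion₂.mp h3
      refine ⟨p, ⟨hp, ?_⟩, hhp⟩
      obtain ⟨f1, f2, -⟩ := hfacts p hp h hhp
      rw [f1, f2] at h2
      linarith
    · rintro ⟨p, ⟨hp, hpd⟩, hhp⟩
      refine ⟨hsub p hp h hhp, ?_⟩
      obtain ⟨f1, f2, -⟩ := hfacts p hp h hhp
      rw [f1, f2]
      linarith
  have hpiece : ∀ p ∈ hfin.toFinset, _ := fun p hp =>
    fibavg_fibavg_piece K e he y W V hV hW p.1 p.2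
      (hS1 p (hfin.mem_toFinset.mp hp).1).1 (hsub p (hfin.mem_toFinset.mp hp).1)
      (hS1 p (hfin.mem_toFinset.mp hp).1).2.1 (hS1 p (hfin.mem_toFinset.mp hp).1).2.2
  have hpw : Set.Pairwise (↑hfin.toFinset) (Function.onFun Disjoint fun p : ℝ × ℝ => Ioo p.1 p.2) := by
    intro p hp q hq hpq
    have hp' : p ∈ hfin.toFinset := hp
    have hq' : q ∈ hfin.toFinset := hq
    exact hSd (hfin.mem_toFinset.mp hp').1 (hfin.mem_toFinset.mp hq').1 hpq
  rw [hset]
  rw [integral_biUnion_finset hfin.toFinset (fun p _ => measurableSet_Ioo) hpw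
      (fun p hp => (hpiece p hp).1),
    integral_biUnion_finset hfin.toFinset (fun p _ => measurableSet_Ioo) hpw
      (fun p hp => (hpiece p hp).2.1)]
  exact Finset.sum_congr rfl (fun p hp => (hpiece p hp).2.2)

end Pool.Agent.Helper734.IB
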