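import Mathlib
import Pool.Agent.Helper734.IB.Defs
import Pool.Agent.Helper734.IB.BasicA

set_option autoImplicit false

namespace Pool.Agent.Helper734.IB

open MeasureTheory Set Filter Topology Metric
open scoped ENNReal NNReal RealInnerProductSpace

variable {E : Type*} [NormedAddCommGroup E] [InnerProductSpace ℝ E] [FiniteDimensional ℝ E]
  [MeasurableSpace E] [BorelSpace E]

noncomputable def mpdec_mpL (v : E) : WithLp 2 ((ℝ ∙ v)ᗮ × ℝ) →ₗ[ℝ] E where
  toFun p := (p.fst : E) + p.snd • v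
  map_add' p q := by
    simp only [WithLp.add_fst, WithLp.add_snd, Submodule.coe_add, add_smul]
    abel
  map_smul' c p := by
    simp only [WithLp.smul_fst, WithLp.smul_snd, Submodule.coe_smul, smul_add, smul_eq_mul,
      mul_smul, RingHom.id_apply]

noncomputable def mpdec_mpI (v : E) (hv : ‖v‖ = 1) : WithLp 2 ((ℝ ∙ v)ᗮ × ℝ) ≃ₗᵢ[ℝ] E :=
  LinearIsometryEquiv.ofSurjective
    { toLinearMap := mpdec_mpL v
      norm_map' := by
        intro p
        have h := norm_dec v hv p.fst p.snd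
        have h2 := WithLp.prod_norm_sq_eq_of_L2 p
        rw [Real.norm_eq_abs, sq_abs] at h2
        have h3 : ‖(p.fst : E)‖ = ‖p.fst‖ := rfl
        rw [h3, ← h2] at h
        exact (sq_eq_sq₀ (norm_nonneg _) (norm_nonneg _)).1 h }
    (by
      intro x
      obtain ⟨z, -, hz⟩ := dec_exists v hv x
      exact ⟨WithLp.toLp 2 (z, ⟪x, v⟫), hz.symm⟩)

theorem mpdec (v : E) (hv : ‖v‖ = 1) :
    MeasurePreserving (fun p : (ℝ ∙ v)ᗮ × ℝ => (p.1 : E) + p.2 • v)
      (volume : Measure ((ℝ ∙ v)ᗮ × ℝ)) (volume : Measure E) ∧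
    MeasurableEmbedding (fun p : (ℝ ∙ v)ᗮ × ℝ => (p.1 : E) + p.2 • v) := by
  have e : (fun p : (ℝ ∙ v)ᗮ × ℝ => (p.1 : E) + p.2 • v) =
      (mpdec_mpI v hv) ∘ (MeasurableEquiv.toLp 2 ((ℝ ∙ v)ᗮ × ℝ)) := rfl
  rw [e]
  constructor
  · exact (mpdec_mpI v hv).measurePreserving.comp (WithLp.volume_preserving_toLp _ _)
  · exact (mpdec_mpI v hv).toHomeomorph.measurableEmbedding.comp
      (MeasurableEquiv.toLp 2 ((ℝ ∙ v)ᗮ × ℝ)).measurableEmbedding

end Pool.Agent.Helper734.IB
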