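import Mathlib
import Pool.Agent.Helper734.IB.Defs
import Pool.Agent.Helper734.IB.BasicA
import Pool.Agent.Helper734.IB.Mpdec

set_option autoImplicit false

namespace Pool.Agent.Helper734.IB

open MeasureTheory Set Filter Topology Metric
open scoped ENNReal NNReal RealInnerProductSpace

variable {E : Type*} [NormedAddCommGroup E] [InnerProductSpace ℝ E] [FiniteDimensional ℝ E]
  [MeasurableSpace E] [BorelSpace E]

theorem ldec (v : E) (hv : ‖v‖ = 1) (f : E → ℝ≥0∞) (hf : Measurable f) :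
    ∫⁻ x, f x = ∫⁻ z : (ℝ ∙ v)ᗮ, ∫⁻ r : ℝ, f ((z : E) + r • v) := by
  obtain ⟨hmp, hme⟩ := mpdec (E := E) v hv
  have hmeas : Measurable (fun p : (ℝ ∙ v)ᗮ × ℝ => (p.1 : E) + p.2 • v) := hme.measurable
  rw [← hmp.lintegral_comp_emb hme f, Measure.volume_eq_prod]
  exact lintegral_prod _ (hf.comp hmeas).aemeasurable

theorem idec (v : E) (hv : ‖v‖ = 1) (f : E → ℝ) (hf : Integrable f) :
    ∫ x, f x = (∫ z : (ℝ ∙ v)ᗮ, ∫ r : ℝ, f ((z : E) + r • v)) ∧
    (∀ᵐ z : (ℝ ∙ v)ᗮ, Integrable (fun r : ℝ => f ((z : E) + r • v))) ∧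
    Integrable (fun z : (ℝ ∙ v)ᗮ => ∫ r : ℝ, f ((z : E) + r • v)) := by
  obtain ⟨hmp, hme⟩ := mpdec (E := E) v hv
  have hint : Integrable (fun p : (ℝ ∙ v)ᗮ × ℝ => f ((p.1 : E) + p.2 • v))
      ((volume : Measure (ℝ ∙ v)ᗮ).prod (volume : Measure ℝ)) := by
    have h := (hmp.integrable_comp_emb hme (g := f)).2 hf
    rw [Measure.volume_eq_prod] at h
    exact h
  refine ⟨?_, hint.prod_right_ae, hint.integral_prod_left⟩
  rw [← hmp.integral_comp hme f, Measure.volume_eq_prod]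
  exact integral_prod _ hint

end Pool.Agent.Helper734.IB
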