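import Mathlib
import Pool.Agent.Helper734.IB.Defs

set_option autoImplicit false

namespace Pool.Agent.Helper734.IB

open MeasureTheory Set Filter Topology Metric
open scoped ENNReal NNReal RealInnerProductSpace

variable {E : Type*} [NormedAddCommGroup E] [InnerProductSpace ℝ E] [FiniteDimensional ℝ E]
  [MeasurableSpace E] [BorelSpace E]

omit [FiniteDimensional ℝ E] [MeasurableSpace E] [BorelSpace E] in
theorem tpmeas_tp_nonneg' (K : Set E) (e x : E) : 0 ≤ tp K e x :=
  Real.sSup_nonneg (fun _ ht => ht.1)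

omit [FiniteDimensional ℝ E] [MeasurableSpace E] [BorelSpace E] in
theorem tpmeas_tp_bdd' (K : Set E) (hbd : Bornology.IsBounded K) (e : E) (he : ‖e‖ = 1) (x : E) :
    BddAbove {t : ℝ | 0 ≤ t ∧ ∀ s ∈ Icc 0 t, x + s • e ∈ K} := by
  obtain ⟨R, hR⟩ := hbd.subset_closedBall (0 : E)
  refine ⟨2 * R, ?_⟩
  rintro t ⟨ht0, ht⟩
  have h0 := hR (ht 0 ⟨le_refl _, ht0⟩)
  have h1 := hR (ht t ⟨ht0, le_refl _⟩)
  rw [mem_closedBall_zero_iff] at h0 h1
  rw [zero_smul, add_zero] at h0
  have h2 : ‖t • e‖ = t := by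
    rw [norm_smul, he, mul_one, Real.norm_eq_abs, abs_of_nonneg ht0]
  have h3 : ‖t • e‖ ≤ ‖x + t • e‖ + ‖x‖ := by
    have h4 : t • e = (x + t • e) - x := by abel
    calc ‖t • e‖ = ‖(x + t • e) - x‖ := by rw [← h4]
      _ ≤ _ := norm_sub_le _ _
  linarith

omit [FiniteDimensional ℝ E] [MeasurableSpace E] [BorelSpace E] in
theorem tpmeas_tp_open' (K : Set E) (hK : IsOpen K) (e : E) (t : ℝ) :
    IsOpen {x : E | ∀ s ∈ Icc 0 t, x + s • e ∈ K} := by
  rw [isOpen_iff_eventually]
  intro x hx
  refine (isCompact_Icc (a := (0 : ℝ)) (b := t)).eventually_forall_of_forall_eventually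
    (P := fun x s => x + s • e ∈ K) ?_
  intro s hs
  have hc : Continuous (fun z : E × ℝ => z.1 + z.2 • e) := by fun_prop
  exact (hK.preimage hc).mem_nhds (hx s hs)

theorem tp_meas (K : Set E) (hK : IsOpen K) (hbd : Bornology.IsBounded K) (e : E)
    (he : ‖e‖ = 1) : Measurable (K.indicator (tp K e)) := by
  refine measurable_of_Ioi (fun c => ?_)
  by_cases hc : c < 0
  · have h1 : K.indicator (tp K e) ⁻¹' Ioi c = Set.univ := by
      ext x
      simp only [mem_preimage, mem_Ioi, mem_univ, iff_true]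
      exact lt_of_lt_of_le hc (Set.indicator_nonneg (fun x _ => tpmeas_tp_nonneg' K e x) x)
    rw [h1]
    exact MeasurableSet.univ
  · push Not at hc
    have h1 : K.indicator (tp K e) ⁻¹' Ioi c =
        ⋃ t ∈ Ioi c, {x : E | ∀ s ∈ Icc 0 t, x + s • e ∈ K} := by
      ext x
      simp only [mem_preimage, mem_Ioi, mem_iUnion, exists_prop]
      constructor
      · intro hx
        by_cases hxK : x ∈ K
        · rw [Set.indicator_of_mem hxK] at hx
          have hne : {t : ℝ | 0 ≤ t ∧ ∀ s ∈ Icc 0 t, x + s • e ∈ K}.Nonempty := by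
            by_contra hcon
            rw [Set.not_nonempty_iff_eq_empty] at hcon
            unfold tp at hx
            rw [hcon, Real.sSup_empty] at hx
            linarith
          obtain ⟨t, ht, hct⟩ := exists_lt_of_lt_csSup hne hx
          exact ⟨t, hct, ht.2⟩
        · rw [Set.indicator_of_notMem hxK] at hx
          exact absurd hx (not_lt.mpr hc)
      · rintro ⟨t, hct, ht⟩
        have ht0 : 0 ≤ t := le_trans hc hct.le
        have ht' : ∀ s ∈ Icc 0 t, x + s • e ∈ K := ht
        have hxK : x ∈ K := by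
          have := ht' 0 ⟨le_refl _, ht0⟩
          rwa [zero_smul, add_zero] at this
        rw [Set.indicator_of_mem hxK]
        exact lt_of_lt_of_le hct (le_csSup (tpmeas_tp_bdd' K hbd e he x) ⟨ht0, ht'⟩)
    rw [h1]
    exact (isOpen_biUnion (fun t _ => tpmeas_tp_open' K hK e t)).measurableSet

theorem aa_meas (K : Set E) (hK : IsOpen K) (hbd : Bornology.IsBounded K) (e : E)
    (he : ‖e‖ = 1) : Measurable (K.indicator (aa K e)) := by
  have h1 := tp_meas K hK hbd e he
  have h2 := tp_meas K hK hbd (-e) (by rw [norm_neg]; exact he)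
  have h3 : Measurable (K.indicator (fun x : E => ⟪x, e⟫)) :=
    Measurable.indicator (by fun_prop) hK.measurableSet
  have h4 : K.indicator (aa K e) = fun x => K.indicator (fun x : E => ⟪x, e⟫) x +
      (K.indicator (tp K e) x - K.indicator (tp K (-e)) x) / 2 := by
    funext x
    by_cases hx : x ∈ K
    · simp only [Set.indicator_of_mem hx]
      rfl
    · simp only [Set.indicator_of_notMem hx]
      norm_num
  rw [h4]
  exact h3.add ((h1.sub h2).div_const 2)

end Pool.Agent.Helper734.IB
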