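import Mathlib
import Pool.Agent.Helper734.IB.Defs
import Pool.Agent.Helper734.IB.BasicA
import Pool.Agent.Helper734.IB.Fibavg
import Pool.Agent.Helper734.IB.Ldec
import Pool.Agent.Helper734.IB.Mpdec
import Pool.Agent.Helper734.IB.Tpbound
import Pool.Agent.Helper734.IB.Tpmeas

set_option autoImplicit false

namespace Pool.Agent.Helper734.IB

open MeasureTheory Set Filter Topology Metric
open scoped ENNReal NNReal RealInnerProductSpace

variable {E : Type*} [NormedAddCommGroup E] [InnerProductSpace ℝ E] [FiniteDimensional ℝ E]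
  [MeasurableSpace E] [BorelSpace E]

theorem KD_meas (K : Set E) (hK : IsOpen K) (hbd : Bornology.IsBounded K) (e : E) (he : ‖e‖ = 1)
    (δ : ℝ) (hδ : 0 < δ) : MeasurableSet (KD K e δ) := by
  have hne : ‖-e‖ = 1 := by rw [norm_neg, he]
  have h1 := tp_meas K hK hbd e he
  have h2 := tp_meas K hK hbd (-e) hne
  have h3 : MeasurableSet {x | δ < K.indicator (tp K e) x + K.indicator (tp K (-e)) x} :=
    measurableSet_lt measurable_const (h1.add h2)
  have h4 : MeasurableSet {x : E | δ < ‖x - ⟪x, e⟫ • e‖} := by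
    apply IsOpen.measurableSet
    exact isOpen_lt continuous_const (by fun_prop)
  have e1 : KD K e δ = (K ∩ {x | δ < K.indicator (tp K e) x + K.indicator (tp K (-e)) x}) ∩
      {x : E | δ < ‖x - ⟪x, e⟫ • e‖} := by
    ext x
    constructor
    · rintro ⟨hx1, hx2, hx3⟩
      refine ⟨⟨hx1, ?_⟩, hx3⟩
      show δ < K.indicator (tp K e) x + K.indicator (tp K (-e)) x
      rw [Set.indicator_of_mem hx1, Set.indicator_of_mem hx1]
      exact hx2
    · rintro ⟨⟨hx1, hx2⟩, hx3⟩
      refine ⟨hx1, ?_, hx3⟩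
      have hx2' : δ < K.indicator (tp K e) x + K.indicator (tp K (-e)) x := hx2
      rw [Set.indicator_of_mem hx1, Set.indicator_of_mem hx1] at hx2'
      exact hx2'
  rw [e1]
  exact (hK.measurableSet.inter h3).inter h4

theorem KDmeas_j8913_slice (K : Set E) (e : E) (he : ‖e‖ = 1) (δ : ℝ) (y : (ℝ ∙ e)ᗮ) :
    {h : ℝ | (y : E) + h • e ∈ KD K e δ} = {h : ℝ | δ < ‖(y : E)‖ ∧ ((y : E) + h • e ∈ K ∧
        δ < tp K e ((y : E) + h • e) + tp K (-e) ((y : E) + h • e))} := by
  ext h
  have e1 : (y : E) + h • e - ⟪(y : E) + h • e, e⟫ • e = (y : E) := by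
    rw [inner_add_left, (perp_inner e y).1, zero_add, real_inner_smul_left, real_inner_self_eq_norm_sq,
      he, one_pow, mul_one, add_sub_cancel_right]
  constructor
  · rintro ⟨h1, h2, h3⟩
    rw [e1] at h3
    exact ⟨h3, h1, h2⟩
  · rintro ⟨h3, h1, h2⟩
    refine ⟨h1, h2, ?_⟩
    rw [e1]
    exact h3

theorem KDmeas_j8913_red (K : Set E) (hK : IsOpen K) (hbd : Bornology.IsBounded K) (e : E) (he : ‖e‖ = 1)
    (δ : ℝ) (hδ : 0 < δ) (f : E → ℝ) (hf : Integrable ((KD K e δ).indicator f)) :
    ∫ x in KD K e δ, f x = ∫ z : (ℝ ∙ e)ᗮ, ∫ h in {h : ℝ | (z : E) + h • e ∈ KD K e δ},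
      f ((z : E) + h • e) := by
  have hm := KD_meas K hK hbd e he δ hδ
  rw [← integral_indicator hm, (idec e he _ hf).1]
  congr 1
  funext z
  have hc : Continuous (fun h : ℝ => (z : E) + h • e) := by fun_prop
  have hm2 : MeasurableSet {h : ℝ | (z : E) + h • e ∈ KD K e δ} := hc.measurable hm
  rw [← integral_indicator hm2]
  rfl

theorem KDmeas_j8913_int (S : Set E) (hS : MeasurableSet S) (R : ℝ) (hSR : S ⊆ ball 0 R) (f g : E → ℝ)
    (hg : Measurable g) (hfg : ∀ x ∈ S, f x = g x) (C : ℝ) (hC : ∀ x ∈ S, |f x| ≤ C) :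
    Integrable (S.indicator f) := by
  have e1 : S.indicator f = S.indicator g := by
    funext x
    by_cases hx : x ∈ S
    · rw [Set.indicator_of_mem hx, Set.indicator_of_mem hx, hfg x hx]
    · rw [Set.indicator_of_notMem hx, Set.indicator_of_notMem hx]
  rw [e1, integrable_indicator_iff hS]
  have hfin : volume S < ⊤ := lt_of_le_of_lt (measure_mono hSR) measure_ball_lt_top
  refine Measure.integrableOn_of_bounded (M := C) hfin.ne hg.aestronglyMeasurable ?_
  rw [ae_restrict_iff' hS]
  refine Filter.Eventually.of_forall fun x hx => ?_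
  rw [Real.norm_eq_abs, ← hfg x hx]
  exact hC x hx


theorem KDavg (K : Set E) (hK : IsOpen K) (hbd : Bornology.IsBounded K) (e : E) (he : ‖e‖ = 1)
    (δ : ℝ) (hδ : 0 < δ) (W V : E → ℝ) (hV : Continuous V) (hWc : Continuous W)
    (hW : ∀ (x : E) (l : ℝ), HasDerivAt (fun l : ℝ => W (x + l • e)) (V (x + l • e)) l) :
    ∫ x in KD K e δ, aa K e x * V x =
    ∫ x in KD K e δ, aa K e x * ((W (x + tp K e x • e) - W (x - tp K (-e) x • e)) /
      (tp K e x + tp K (-e) x)) := by
  have hne : ‖-e‖ = 1 := by rw [norm_neg, he]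
  obtain ⟨R, hR, hKR⟩ := hbd.subset_ball_lt 0 (0 : E)
  have hm := KD_meas K hK hbd e he δ hδ
  have hKDK : KD K e δ ⊆ K := fun x hx => hx.1
  have hKDR : KD K e δ ⊆ ball 0 R := hKDK.trans hKR
  obtain ⟨CV, hCV⟩ := (isCompact_closedBall (0 : E) (3 * R)).exists_bound_of_continuousOn hV.continuousOn
  obtain ⟨CW, hCW⟩ := (isCompact_closedBall (0 : E) (3 * R)).exists_bound_of_continuousOn hWc.continuousOn
  have m1 := tp_meas K hK hbd e he
  have m2 := tp_meas K hK hbd (-e) hne
  have m3 := aa_meas K hK hbd e he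
  have hb1 : ∀ x ∈ KD K e δ, ‖x‖ < R := fun x hx => by
    have := hKDR hx
    rwa [mem_ball_zero_iff] at this
  have hCV0 : 0 ≤ CV := by
    have := hCV 0 (by rw [mem_closedBall_zero_iff, norm_zero]; positivity)
    exact (norm_nonneg _).trans this
  have hCW0 : 0 ≤ CW := by
    have := hCW 0 (by rw [mem_closedBall_zero_iff, norm_zero]; positivity)
    exact (norm_nonneg _).trans this
  have hi1 : Integrable ((KD K e δ).indicator (fun x => aa K e x * V x)) := by
    refine KDmeas_j8913_int _ hm R hKDR _ (fun x => K.indicator (aa K e) x * V x) (m3.mul hV.measurable) ?_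
      (R * CV) ?_
    · intro x hx
      show _ = K.indicator (aa K e) x * V x
      rw [Set.indicator_of_mem (hKDK hx)]
    · intro x hx
      rw [abs_mul]
      have h1 := (tp_bound K R hKR hK e he x (hKDK hx)).2.2.1
      have h2 := hCV x (by rw [mem_closedBall_zero_iff]; linarith [hb1 x hx])
      exact mul_le_mul h1.le h2 (abs_nonneg _) hR.le
  have hi2 : Integrable ((KD K e δ).indicator (fun x => aa K e x * ((W (x + tp K e x • e) -
      W (x - tp K (-e) x • e)) / (tp K e x + tp K (-e) x)))) := by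
    have q1 : Measurable (fun x => W (x + K.indicator (tp K e) x • e)) :=
      hWc.measurable.comp (measurable_id.add (m1.smul_const e))
    have q2 : Measurable (fun x => W (x - K.indicator (tp K (-e)) x • e)) :=
      hWc.measurable.comp (measurable_id.sub (m2.smul_const e))
    refine KDmeas_j8913_int _ hm R hKDR _ (fun x => K.indicator (aa K e) x * ((W (x + K.indicator (tp K e) x • e) -
      W (x - K.indicator (tp K (-e)) x • e)) / (K.indicator (tp K e) x + K.indicator (tp K (-e)) x)))
      (m3.mul ((q1.sub q2).div (m1.add m2))) ?_ (R * (2 * CW / δ)) ?_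
    · intro x hx
      show _ = K.indicator (aa K e) x * ((W (x + K.indicator (tp K e) x • e) -
        W (x - K.indicator (tp K (-e)) x • e)) / (K.indicator (tp K e) x + K.indicator (tp K (-e)) x))
      rw [Set.indicator_of_mem (hKDK hx), Set.indicator_of_mem (hKDK hx), Set.indicator_of_mem (hKDK hx)]
    · intro x hx
      rw [abs_mul]
      obtain ⟨t1, t2, t3, _⟩ := tp_bound K R hKR hK e he x (hKDK hx)
      obtain ⟨s1, s2, _, _⟩ := tp_bound K R hKR hK (-e) hne x (hKDK hx)
      have hx1 := hb1 x hx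
      have n1 : ‖x + tp K e x • e‖ ≤ 3 * R := by
        have := norm_add_le x (tp K e x • e)
        rw [norm_smul, he, mul_one, Real.norm_eq_abs, abs_of_pos t1] at this
        linarith
      have n2 : ‖x - tp K (-e) x • e‖ ≤ 3 * R := by
        have := norm_sub_le x (tp K (-e) x • e)
        rw [norm_smul, he, mul_one, Real.norm_eq_abs, abs_of_pos s1] at this
        linarith
      have w1 := hCW _ (by rw [mem_closedBall_zero_iff]; exact n1)
      have w2 := hCW _ (by rw [mem_closedBall_zero_iff]; exact n2)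
      rw [Real.norm_eq_abs] at w1 w2
      have hden : δ ≤ tp K e x + tp K (-e) x := hx.2.1.le
      refine mul_le_mul t3.le ?_ (abs_nonneg _) hR.le
      rw [abs_div, abs_of_pos (show 0 < tp K e x + tp K (-e) x by linarith)]
      refine div_le_div₀ (by positivity) ?_ hδ hden
      have := abs_sub (W (x + tp K e x • e)) (W (x - tp K (-e) x • e))
      linarith
  rw [KDmeas_j8913_red K hK hbd e he δ hδ _ hi1, KDmeas_j8913_red K hK hbd e he δ hδ _ hi2]
  congr 1
  funext z
  rw [KDmeas_j8913_slice K e he δ z]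
  by_cases hz : δ < ‖(z : E)‖
  · have e1 : {h : ℝ | δ < ‖(z : E)‖ ∧ ((z : E) + h • e ∈ K ∧
        δ < tp K e ((z : E) + h • e) + tp K (-e) ((z : E) + h • e))} =
      {h : ℝ | (z : E) + h • e ∈ K ∧
        δ < tp K e ((z : E) + h • e) + tp K (-e) ((z : E) + h • e)} := by
      ext h
      exact ⟨fun q => q.2, fun q => ⟨hz, q⟩⟩
    rw [e1]
    exact fibavg K hK hbd e he z δ hδ W V hV hW
  · have e1 : {h : ℝ | δ < ‖(z : E)‖ ∧ ((z : E) + h • e ∈ K ∧
        δ < tp K e ((z : E) + h • e) + tp K (-e) ((z : E) + h • e))} = ∅ := by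
      ext h
      exact ⟨fun q => absurd q.1 hz, fun q => q.elim⟩
    rw [e1]
    simp

end Pool.Agent.Helper734.IB
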