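import Mathlib
import Pool.Agent.Helper734.IB.Defs

set_option autoImplicit false

namespace Pool.Agent.Helper734.IB

open MeasureTheory Set Filter Topology Metric
open scoped ENNReal NNReal RealInnerProductSpace

variable {E : Type*} [NormedAddCommGroup E] [InnerProductSpace ℝ E] [FiniteDimensional ℝ E]
  [MeasurableSpace E] [BorelSpace E]

theorem kk_pos (ε r : ℝ) (hε : 0 < ε) : 0 < kk ε r := by
  unfold kk
  positivity

theorem kk_le (ε r : ℝ) (hε : 0 < ε) : kk ε r ≤ ε⁻¹ := by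
  unfold kk
  have h1 : Real.exp (-(r ^ 2) / (2 * ε ^ 2)) ≤ 1 := by
    rw [Real.exp_le_one_iff]
    apply div_nonpos_of_nonpos_of_nonneg
    · nlinarith [sq_nonneg r]
    · positivity
  have h2 : 0 < ε⁻¹ := by positivity
  nlinarith

theorem kk_cont (ε : ℝ) : Continuous (kk ε) := by
  unfold kk
  fun_prop

theorem kd_cont (ε : ℝ) : Continuous (kd ε) := by
  unfold kd kk
  fun_prop

theorem kd_le (ε r : ℝ) (hε : 0 < ε) : |kd ε r| ≤ (ε ^ 2)⁻¹ := by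
  unfold kd kk
  have h1 : |r / ε| ≤ Real.exp ((r / ε) ^ 2 / 2) := by
    have := Real.add_one_le_exp ((r / ε) ^ 2 / 2)
    have h2 : |r / ε| ≤ (r / ε) ^ 2 / 2 + 1 := by
      rw [← sq_abs (r / ε)]
      nlinarith [sq_nonneg (|r / ε| - 1)]
    linarith
  have h3 : Real.exp (-(r ^ 2) / (2 * ε ^ 2)) = (Real.exp ((r / ε) ^ 2 / 2))⁻¹ := by
    rw [← Real.exp_neg]
    congr 1
    field_simp
  have h4 : |-(r / ε ^ 2) * (ε⁻¹ * Real.exp (-(r ^ 2) / (2 * ε ^ 2)))| =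
      (ε ^ 2)⁻¹ * (|r / ε| * (Real.exp ((r / ε) ^ 2 / 2))⁻¹) := by
    rw [h3, abs_mul, abs_neg, abs_mul, abs_of_pos (inv_pos.mpr (Real.exp_pos _)),
      abs_of_pos (inv_pos.mpr hε), abs_div, abs_div, abs_of_pos (by positivity : 0 < ε ^ 2),
      abs_of_pos hε]
    field_simp
  rw [h4]
  have h5 : |r / ε| * (Real.exp ((r / ε) ^ 2 / 2))⁻¹ ≤ 1 := by
    rw [← div_eq_mul_inv, div_le_one (Real.exp_pos _)]
    exact h1
  have h6 : 0 < (ε ^ 2)⁻¹ := by positivity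
  nlinarith

theorem kk_deriv (ε r : ℝ) (hε : 0 < ε) : HasDerivAt (kk ε) (kd ε r) r := by
  unfold kd kk
  have h1 : HasDerivAt (fun r : ℝ => -(r ^ 2) / (2 * ε ^ 2)) (-(2 * r) / (2 * ε ^ 2)) r := by
    have := ((hasDerivAt_pow 2 r).neg).div_const (2 * ε ^ 2)
    simpa using this
  have h2 := (h1.exp).const_mul ε⁻¹
  have h3 : -(r / ε ^ 2) * (ε⁻¹ * Real.exp (-(r ^ 2) / (2 * ε ^ 2))) =
      ε⁻¹ * (Real.exp (-(r ^ 2) / (2 * ε ^ 2)) * (-(2 * r) / (2 * ε ^ 2))) := by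
    have : -(2 * r) / (2 * ε ^ 2) = -(r / ε ^ 2) := by field_simp
    rw [this]; ring
  rw [h3]
  exact h2

theorem kk_even (ε r : ℝ) : kk ε (-r) = kk ε r := by
  unfold kk
  rw [neg_sq]

theorem kk_scale (ε r : ℝ) (hε : 0 < ε) : kk ε (ε * r) = ε⁻¹ * kk 1 r := by
  unfold kk
  rw [inv_one, one_mul]
  congr 1
  have : -((ε * r) ^ 2) / (2 * ε ^ 2) = -(r ^ 2) / (2 * 1 ^ 2) := by
    field_simp
  rw [this]

end Pool.Agent.Helper734.IB
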