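import Mathlib
import Pool.Agent.Helper734.IB.Defs
import Pool.Agent.Helper734.IB.KkA

set_option autoImplicit false

namespace Pool.Agent.Helper734.IB

open MeasureTheory Set Filter Topology Metric
open scoped ENNReal NNReal RealInnerProductSpace

variable {E : Type*} [NormedAddCommGroup E] [InnerProductSpace ℝ E] [FiniteDimensional ℝ E]
  [MeasurableSpace E] [BorelSpace E]

theorem gg_nonneg (K : Set E) (ε : ℝ) (u : E) (hε : 0 < ε) : 0 ≤ gg K ε u := by
  unfold gg
  exact integral_nonneg (fun x => (kk_pos ε _ hε).le)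

theorem ggA_gg_norm_le (ε r : ℝ) (hε : 0 < ε) : ‖kk ε r‖ ≤ ε⁻¹ := by
  rw [Real.norm_eq_abs, abs_of_pos (kk_pos ε r hε)]
  exact kk_le ε r hε

theorem gg_le (K : Set E) (hK : IsOpen K) (hb : Bornology.IsBounded K) (ε : ℝ) (hε : 0 < ε)
    (u : E) : gg K ε u ≤ ε⁻¹ * (volume K).toReal := by
  have h := norm_setIntegral_le_of_norm_le_const (μ := (volume : Measure E)) (s := K)
    (f := fun x => kk ε ⟪u, x⟫) (C := ε⁻¹) hb.measure_lt_top
    (fun x _ => ggA_gg_norm_le ε _ hε)
  exact (le_abs_self _).trans h

theorem gg_cont (K : Set E) (hK : IsOpen K) (hb : Bornology.IsBounded K) (ε : ℝ) (hε : 0 < ε) :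
    Continuous (gg K ε) := by
  have hfin : IsFiniteMeasure ((volume : Measure E).restrict K) :=
    ⟨by rw [Measure.restrict_apply_univ]; exact hb.measure_lt_top⟩
  unfold gg
  apply continuous_of_dominated (bound := fun _ => ε⁻¹)
  · intro u
    exact ((kk_cont ε).comp (continuous_const.inner continuous_id)).aestronglyMeasurable
  · intro u
    exact Filter.Eventually.of_forall (fun x => ggA_gg_norm_le ε _ hε)
  · exact integrable_const _
  · exact Filter.Eventually.of_forall
      (fun x => (kk_cont ε).comp (continuous_id.inner continuous_const))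

end Pool.Agent.Helper734.IB
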