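import Mathlib
import Pool.Agent.Helper734.IB.Defs
import Pool.Agent.Helper734.IB.KkA

set_option autoImplicit false

namespace Pool.Agent.Helper734.IB

open MeasureTheory Set Filter Topology Metric
open scoped ENNReal NNReal RealInnerProductSpace

variable {E : Type*} [NormedAddCommGroup E] [InnerProductSpace ℝ E] [FiniteDimensional ℝ E]
  [MeasurableSpace E] [BorelSpace E]

theorem kk_int (ε a c : ℝ) (hε : 0 < ε) (hc : c ≠ 0) :
    Integrable (fun r : ℝ => kk ε (a + c * r)) ∧
    ∫ r : ℝ, kk ε (a + c * r) = Real.sqrt (2 * Real.pi) / |c| := by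
  have hb : (0:ℝ) < 1 / (2 * ε ^ 2) := by positivity
  have hkk : kk ε = fun x => ε⁻¹ * Real.exp (-(1 / (2 * ε ^ 2)) * x ^ 2) := by
    funext x
    unfold kk
    congr 2
    ring
  have hg : Integrable (kk ε) := by
    rw [hkk]; exact (integrable_exp_neg_mul_sq hb).const_mul _
  have hgi : ∫ x : ℝ, kk ε x = Real.sqrt (2 * Real.pi) := by
    rw [hkk, integral_const_mul, integral_gaussian]
    have h1 : Real.pi / (1 / (2 * ε ^ 2)) = (2 * Real.pi) * ε ^ 2 := by
      field_simp
    rw [h1, Real.sqrt_mul (by positivity), Real.sqrt_sq hε.le]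
    field_simp
  refine ⟨(hg.comp_add_left a).comp_mul_left' hc, ?_⟩
  have h2 := Measure.integral_comp_mul_left (fun x => kk ε (a + x)) c
  rw [h2, integral_add_left_eq_self (fun x => kk ε x) a, hgi, abs_inv, smul_eq_mul]
  rw [div_eq_mul_inv, mul_comm]

theorem kk_lint (ε a c : ℝ) (hε : 0 < ε) (hc : c ≠ 0) :
    ∫⁻ r : ℝ, ENNReal.ofReal (kk ε (a + c * r)) =
      ENNReal.ofReal (Real.sqrt (2 * Real.pi) / |c|) := by
  obtain ⟨h1, h2⟩ := kk_int ε a c hε hc
  rw [← h2, ofReal_integral_eq_lintegral_ofReal h1]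
  exact Filter.Eventually.of_forall (fun r => (kk_pos ε _ hε).le)

end Pool.Agent.Helper734.IB
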