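import Mathlib
import Pool.Agent.Helper734.IB.Defs
import Pool.Agent.Helper734.IB.BasicA

set_option autoImplicit false

namespace Pool.Agent.Helper734.IB

open MeasureTheory Set Filter Topology Metric
open scoped ENNReal NNReal RealInnerProductSpace

variable {E : Type*} [NormedAddCommGroup E] [InnerProductSpace ℝ E] [FiniteDimensional ℝ E]
  [MeasurableSpace E] [BorelSpace E]

theorem ww_pos {F : Type*} [NormedAddCommGroup F] (u : F) : 0 < ww u ∧ ww u ≤ 1 := by
  unfold ww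
  refine ⟨Real.exp_pos _, ?_⟩
  rw [Real.exp_le_one_iff]
  have := sq_nonneg ‖u‖
  linarith

theorem ww_cont {F : Type*} [NormedAddCommGroup F] : Continuous (ww : F → ℝ) := by
  unfold ww
  fun_prop

omit [MeasurableSpace E] [BorelSpace E] in
lemma wwA_int_exp_aux [MeasurableSpace E] [BorelSpace E] {b : ℝ} (hb : 0 < b) :
    Integrable (fun z : E => Real.exp (-b * ‖z‖ ^ 2)) := by
  by_contra h
  have h1 := integral_undef h
  rw [GaussianFourier.integral_rexp_neg_mul_sq_norm hb] at h1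
  have h2 : 0 < (Real.pi / b) ^ ((Module.finrank ℝ E : ℝ) / 2) := by
    apply Real.rpow_pos_of_pos
    positivity
  exact h2.ne' h1

theorem ww_int (p : ℕ) : Integrable (fun u : E => ‖u‖ ^ p * ww u) := by
  have h1 : Integrable (fun u : E => (1 + 4 ^ p * (p.factorial : ℝ)) *
      Real.exp (-(1/4) * ‖u‖ ^ 2)) := (wwA_int_exp_aux (by norm_num)).const_mul _
  refine h1.mono' (by
    apply Continuous.aestronglyMeasurable
    exact (continuous_norm.pow p).mul ww_cont) ?_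
  filter_upwards with u
  have ht : 0 ≤ ‖u‖ := norm_nonneg u
  rw [Real.norm_of_nonneg (mul_nonneg (pow_nonneg ht p) (ww_pos u).1.le)]
  set t := ‖u‖ with htdef
  have e1 : ww u = Real.exp (-(1/4) * t ^ 2) * Real.exp (-(1/4) * t ^ 2) := by
    unfold ww
    rw [← Real.exp_add]
    congr 1
    rw [← htdef]
    ring
  rw [e1, ← mul_assoc]
  apply mul_le_mul_of_nonneg_right _ (Real.exp_pos _).le
  have h2 : (t ^ 2 / 4) ^ p / (p.factorial : ℝ) ≤ Real.exp (t ^ 2 / 4) :=
    Real.pow_div_factorial_le_exp _ (by positivity) p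
  have hf : (0:ℝ) < p.factorial := by exact_mod_cast p.factorial_pos
  have h3 : t ^ (2 * p) ≤ 4 ^ p * p.factorial * Real.exp (t ^ 2 / 4) := by
    rw [div_le_iff₀ hf, div_pow, div_le_iff₀ (by positivity), ← pow_mul] at h2
    calc t ^ (2 * p) ≤ _ := h2
      _ = _ := by ring
  have h4 : t ^ p ≤ 1 + t ^ (2 * p) := by
    have h5 : t ^ (2 * p) = (t ^ p) ^ 2 := by rw [mul_comm, pow_mul]
    rw [h5]
    nlinarith [sq_nonneg (t ^ p - 1), sq_nonneg (t ^ p)]
  have h6 : Real.exp (t ^ 2 / 4) * Real.exp (-(1/4) * t ^ 2) = 1 := by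
    rw [← Real.exp_add]
    have : t ^ 2 / 4 + -(1/4) * t ^ 2 = 0 := by ring
    rw [this, Real.exp_zero]
  have h7 : Real.exp (-(1/4) * t ^ 2) ≤ 1 := by
    rw [Real.exp_le_one_iff]
    nlinarith [sq_nonneg t]
  have h8 : 0 < Real.exp (-(1/4) * t ^ 2) := Real.exp_pos _
  calc t ^ p * Real.exp (-(1/4) * t ^ 2) ≤ (1 + t ^ (2 * p)) * Real.exp (-(1/4) * t ^ 2) :=
        mul_le_mul_of_nonneg_right h4 h8.le
    _ ≤ (1 + 4 ^ p * p.factorial * Real.exp (t ^ 2 / 4)) * Real.exp (-(1/4) * t ^ 2) :=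
        mul_le_mul_of_nonneg_right (by linarith) h8.le
    _ = Real.exp (-(1/4) * t ^ 2) +
        4 ^ p * p.factorial * (Real.exp (t ^ 2 / 4) * Real.exp (-(1/4) * t ^ 2)) := by ring
    _ ≤ 1 + 4 ^ p * p.factorial := by rw [h6, mul_one]; linarith

omit [FiniteDimensional ℝ E] [MeasurableSpace E] [BorelSpace E] in
lemma wwA_ww_real_aux (r : ℝ) : ww r = Real.exp (-(r ^ 2) / 2) := by
  unfold ww
  rw [Real.norm_eq_abs, sq_abs]

theorem ww_dec (v : E) (hv : ‖v‖ = 1) (z : (ℝ ∙ v)ᗮ) (r : ℝ) :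
    ww ((z : E) + r • v) = ww (z : E) * ww r := by
  rw [wwA_ww_real_aux]
  unfold ww
  rw [norm_dec v hv z r, ← Real.exp_add]
  congr 1
  ring

theorem gauss4 : ∫ z : E, Real.exp (-(‖z‖ ^ 2) / 4) =
    (4 * Real.pi) ^ ((Module.finrank ℝ E : ℝ) / 2) ∧
    Integrable (fun z : E => Real.exp (-(‖z‖ ^ 2) / 4)) := by
  have h1 : (fun z : E => Real.exp (-(‖z‖ ^ 2) / 4)) =
      fun z : E => Real.exp (-(1/4) * ‖z‖ ^ 2) := by
    funext z
    congr 1
    ring
  constructor
  · rw [h1, GaussianFourier.integral_rexp_neg_mul_sq_norm (by norm_num)]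
    congr 1
    ring
  · rw [h1]
    exact wwA_int_exp_aux (by norm_num)

end Pool.Agent.Helper734.IB
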