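import Mathlib
import Pool.Agent.Helper734.IB.Defs
import Pool.Agent.Helper734.IB.WwA

set_option autoImplicit false

namespace Pool.Agent.Helper734.IB

open MeasureTheory Set Filter Topology Metric
open scoped ENNReal NNReal RealInnerProductSpace

variable {E : Type*} [NormedAddCommGroup E] [InnerProductSpace ℝ E] [FiniteDimensional ℝ E]
  [MeasurableSpace E] [BorelSpace E]

theorem rad_eq {F : Type*} [NormedAddCommGroup F] [InnerProductSpace ℝ F] [FiniteDimensional ℝ F]
    [MeasurableSpace F] [BorelSpace F] (d : ℕ) (hd : Module.finrank ℝ F = d) (f : ℝ → ℝ≥0∞)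
    (hf : Measurable f) :
    ∫⁻ z : F, f ‖z‖ = ∫⁻ z : EuclideanSpace ℝ (Fin d), f ‖z‖ := by
  subst hd
  have h := (stdOrthonormalBasis ℝ F).repr.measurePreserving.lintegral_comp
    (f := fun z : EuclideanSpace ℝ (Fin (Module.finrank ℝ F)) => f ‖z‖) (hf.comp measurable_norm)
  rw [← h]
  apply lintegral_congr
  intro z
  rw [LinearIsometryEquiv.norm_map]

theorem rad_fin (p : ℝ) (hp0 : 0 ≤ p) (hp : p < Module.finrank ℝ E) :
    ∫⁻ z : E, ENNReal.ofReal (‖z‖ ^ (-p) * ww z) < ∞ := by
  have hpos : 0 < Module.finrank ℝ E := by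
    have : (0 : ℝ) < Module.finrank ℝ E := lt_of_le_of_lt hp0 hp
    exact_mod_cast this
  have hnt : Nontrivial E := Module.nontrivial_of_finrank_pos hpos
  have hint : Integrable (fun z : E => ‖z‖ ^ (-p) * Real.exp (-(‖z‖ ^ 2) / 2)) := by
    rw [integrable_fun_norm_addHaar (volume : Measure E)
      (f := fun r : ℝ => r ^ (-p) * Real.exp (-(r ^ 2) / 2))]
    have h1 := integrableOn_rpow_mul_exp_neg_mul_sq (b := 1 / 2) (by norm_num)
      (s := (Module.finrank ℝ E : ℝ) - 1 - p) (by linarith)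
    refine h1.congr_fun ?_ measurableSet_Ioi
    intro y hy
    have hy0 : (0 : ℝ) < y := hy
    have h2 : y ^ (Module.finrank ℝ E - 1) = y ^ ((Module.finrank ℝ E : ℝ) - 1) := by
      rw [← Real.rpow_natCast]
      congr 1
      rw [Nat.cast_sub hpos]
      simp
    show y ^ ((Module.finrank ℝ E : ℝ) - 1 - p) * Real.exp (-(1 / 2) * y ^ 2) =
      y ^ (Module.finrank ℝ E - 1) • (y ^ (-p) * Real.exp (-(y ^ 2) / 2))
    rw [smul_eq_mul, h2, ← mul_assoc, ← Real.rpow_add hy0]
    congr 2
    ring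
  have h := hint.lintegral_lt_top
  exact h

end Pool.Agent.Helper734.IB
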