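import Mathlib
import Pool.Agent.Helper734.IB.Defs
import Pool.Agent.Helper734.IB.BasicA
import Pool.Agent.Helper734.IB.GgA
import Pool.Agent.Helper734.IB.KkA
import Pool.Agent.Helper734.IB.KkB
import Pool.Agent.Helper734.IB.Ldec
import Pool.Agent.Helper734.IB.Mpdec
import Pool.Agent.Helper734.IB.WwA

set_option autoImplicit false

namespace Pool.Agent.Helper734.IB

open MeasureTheory Set Filter Topology Metric
open scoped ENNReal NNReal RealInnerProductSpace

variable {E : Type*} [NormedAddCommGroup E] [InnerProductSpace ℝ E] [FiniteDimensional ℝ E]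
  [MeasurableSpace E] [BorelSpace E]

theorem slab (ε a : ℝ) (hε : 0 < ε) (y : E) (hy : y ≠ 0) :
    ∫⁻ z : E, ENNReal.ofReal (kk ε (a + ⟪y, z⟫) * Real.exp (-(‖z‖ ^ 2) / 4)) ≤
      ENNReal.ofReal (Real.sqrt (2 * Real.pi) / ‖y‖ *
        (4 * Real.pi) ^ (((Module.finrank ℝ E : ℝ) - 1) / 2)) := by
  have hy0 : 0 < ‖y‖ := norm_pos_iff.2 hy
  obtain ⟨v, hvdef⟩ : ∃ v : E, v = ‖y‖⁻¹ • y := ⟨_, rfl⟩
  have hv : ‖v‖ = 1 := by
    rw [hvdef, norm_smul, norm_inv, norm_norm, inv_mul_cancel₀ hy0.ne']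
  have hv0 : v ≠ 0 := by
    intro h; rw [h, norm_zero] at hv; exact zero_ne_one hv
  have hyv : y = ‖y‖ • v := by
    rw [hvdef, smul_smul, mul_inv_cancel₀ hy0.ne', one_smul]
  have hcont : Continuous fun z : E =>
      kk ε (a + ⟪y, z⟫) * Real.exp (-(‖z‖ ^ 2) / 4) := by
    refine Continuous.mul ((kk_cont ε).comp ?_) ?_
    · exact continuous_const.add (continuous_const.inner continuous_id)
    · fun_prop
  rw [ldec v hv (fun z => ENNReal.ofReal (kk ε (a + ⟪y, z⟫) * Real.exp (-(‖z‖ ^ 2) / 4)))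
    (ENNReal.measurable_ofReal.comp hcont.measurable)]
  have hinner : ∀ (z : (ℝ ∙ v)ᗮ) (r : ℝ), ⟪y, (z : E) + r • v⟫ = ‖y‖ * r := by
    intro z r
    have h1 : ⟪y, (z : E)⟫ = 0 := by
      rw [hyv, real_inner_smul_left, (perp_inner v z).2, mul_zero]
    have h2 : ⟪y, v⟫ = ‖y‖ := by
      conv_lhs => rw [hyv]
      rw [real_inner_smul_left, real_inner_self_eq_norm_sq, hv]
      ring
    rw [inner_add_right, h1, real_inner_smul_right, h2]
    ring
  have hbound : ∀ z : (ℝ ∙ v)ᗮ, ∫⁻ r : ℝ, ENNReal.ofReal (kk ε (a + ⟪y, (z : E) + r • v⟫) *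
      Real.exp (-(‖(z : E) + r • v‖ ^ 2) / 4)) ≤
      ENNReal.ofReal (Real.exp (-(‖z‖ ^ 2) / 4)) *
        ENNReal.ofReal (Real.sqrt (2 * Real.pi) / ‖y‖) := by
    intro z
    have h1 := kk_lint ε a ‖y‖ hε hy0.ne'
    rw [abs_of_pos hy0] at h1
    rw [← h1, ← lintegral_const_mul' _ _ ENNReal.ofReal_ne_top]
    refine lintegral_mono fun r => ?_
    rw [← ENNReal.ofReal_mul (Real.exp_nonneg _)]
    refine ENNReal.ofReal_le_ofReal ?_
    rw [hinner, mul_comm (Real.exp _)]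
    refine mul_le_mul_of_nonneg_left ?_ (kk_pos ε _ hε).le
    rw [Real.exp_le_exp, norm_dec v hv z r]
    have : ‖(z : E)‖ = ‖z‖ := rfl
    rw [this]
    nlinarith [sq_nonneg r]
  refine (lintegral_mono hbound).trans ?_
  have hg := gauss4 (E := (ℝ ∙ v)ᗮ)
  have hfr : (Module.finrank ℝ ((ℝ ∙ v)ᗮ : Submodule ℝ E) : ℝ) =
      (Module.finrank ℝ E : ℝ) - 1 := by
    have := finrank_perp v hv0
    rw [← this]; push_cast; ring
  rw [hfr] at hg
  rw [lintegral_mul_const' _ _ ENNReal.ofReal_ne_top,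
    ← ofReal_integral_eq_lintegral_ofReal hg.2 (Filter.Eventually.of_forall fun z =>
      Real.exp_nonneg _), hg.1, mul_comm (Real.sqrt (2 * Real.pi) / ‖y‖),
    ENNReal.ofReal_mul (by positivity)]

theorem gg_bound (K : Set E) (R : ℝ) (hR : 0 < R) (hK : IsOpen K) (hb : K ⊆ ball 0 R) :
    ∃ C : ℝ, 0 < C ∧ ∀ (ε : ℝ), 0 < ε → ∀ u : E, u ≠ 0 → gg K ε u ≤ C / ‖u‖ := by
  refine ⟨Real.exp (R ^ 2 / 4) * (Real.sqrt (2 * Real.pi) *
    (4 * Real.pi) ^ (((Module.finrank ℝ E : ℝ) - 1) / 2)), by positivity, ?_⟩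
  intro ε hε u hu
  have hu0 : 0 < ‖u‖ := norm_pos_iff.2 hu
  have h0 := slab ε 0 hε u hu
  unfold gg
  rw [integral_eq_lintegral_of_nonneg_ae (Filter.Eventually.of_forall fun z =>
      (kk_pos ε _ hε).le)]
  · refine ENNReal.toReal_le_of_le_ofReal (by positivity) ?_
    have h1 : ∫⁻ x in K, ENNReal.ofReal (kk ε ⟪u, x⟫) ≤
        ∫⁻ x in K, ENNReal.ofReal (Real.exp (R ^ 2 / 4)) *
          ENNReal.ofReal (kk ε (0 + ⟪u, x⟫) * Real.exp (-(‖x‖ ^ 2) / 4)) := by
      refine setLIntegral_mono' hK.measurableSet fun x hx => ?_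
      rw [← ENNReal.ofReal_mul (Real.exp_nonneg _)]
      refine ENNReal.ofReal_le_ofReal ?_
      rw [zero_add]
      have hxR : ‖x‖ < R := by simpa using hb hx
      have h2 : 1 ≤ Real.exp (R ^ 2 / 4) * Real.exp (-(‖x‖ ^ 2) / 4) := by
        rw [← Real.exp_add]
        apply Real.one_le_exp
        nlinarith [norm_nonneg x]
      have h3 := (kk_pos ε ⟪u, x⟫ hε).le
      nlinarith
    refine h1.trans ?_
    refine (setLIntegral_le_lintegral _ _).trans ?_
    rw [lintegral_const_mul' _ _ ENNReal.ofReal_ne_top]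
    refine (mul_le_mul_right h0 _).trans ?_
    rw [← ENNReal.ofReal_mul (Real.exp_nonneg _)]
    refine ENNReal.ofReal_le_ofReal (le_of_eq ?_)
    ring
  · exact ((kk_cont ε).comp (continuous_const.inner continuous_id)).aestronglyMeasurable

end Pool.Agent.Helper734.IB
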