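import Mathlib
import Pool.Agent.Helper734.IB.Defs
import Pool.Agent.Helper734.IB.BasicA
import Pool.Agent.Helper734.IB.GgA
import Pool.Agent.Helper734.IB.KkA
import Pool.Agent.Helper734.IB.KkB
import Pool.Agent.Helper734.IB.Ldec
import Pool.Agent.Helper734.IB.Rad
import Pool.Agent.Helper734.IB.Slab
import Pool.Agent.Helper734.IB.WwA

set_option autoImplicit false

namespace Pool.Agent.Helper734.IB

open MeasureTheory Set Filter Topology Metric
open scoped ENNReal NNReal RealInnerProductSpace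

variable {E : Type*} [NormedAddCommGroup E] [InnerProductSpace ℝ E] [FiniteDimensional ℝ E]
  [MeasurableSpace E] [BorelSpace E]

theorem WW_bound (K : Set E) (R : ℝ) (hR : 0 < R) (hK : IsOpen K) (hb : K ⊆ ball 0 R) (i : ℕ)
    (hin : i + 2 ≤ Module.finrank ℝ E) :
    ∃ C : ℝ, 0 < C ∧ ∀ ε : ℝ, 0 < ε → ∀ x : E, x ≠ 0 → |WW K i ε x| ≤ C / ‖x‖ := by
  obtain ⟨Cg, hCg, hgb⟩ := gg_bound K R hR hK hb
  have hbd : Bornology.IsBounded K := Metric.isBounded_ball.subset hb
  obtain ⟨d, hd⟩ : ∃ d, d + 1 = Module.finrank ℝ E := ⟨Module.finrank ℝ E - 1, by omega⟩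
  have hid : i < d := by omega
  obtain ⟨f, hf⟩ : ∃ f : ℝ → ℝ≥0∞, ∀ r, f r =
      ENNReal.ofReal (Cg ^ i) * ENNReal.ofReal (r ^ (-(i : ℝ)) * Real.exp (-(r ^ 2) / 2)) :=
    ⟨_, fun _ => rfl⟩
  have hfm : Measurable f := by
    have : f = fun r => ENNReal.ofReal (Cg ^ i) *
        ENNReal.ofReal (r ^ (-(i : ℝ)) * Real.exp (-(r ^ 2) / 2)) := funext hf
    rw [this]
    have h1 : Measurable (fun r : ℝ => r ^ (-(i : ℝ))) := by fun_prop
    have h2 : Measurable (fun r : ℝ => Real.exp (-(r ^ 2) / 2)) := by fun_prop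
    exact ((h1.mul h2).ennreal_ofReal).const_mul _
  obtain ⟨I0, hI0⟩ : ∃ I0 : ℝ≥0∞, I0 = ∫⁻ z : EuclideanSpace ℝ (Fin d), f ‖z‖ := ⟨_, rfl⟩
  have hI0fin : I0 < ∞ := by
    have h1 := rad_fin (E := EuclideanSpace ℝ (Fin d)) (i : ℝ) (by positivity) (by
      rw [finrank_euclideanSpace, Fintype.card_fin]
      exact_mod_cast hid)
    have h2 : I0 = ENNReal.ofReal (Cg ^ i) *
        ∫⁻ z : EuclideanSpace ℝ (Fin d), ENNReal.ofReal (‖z‖ ^ (-(i : ℝ)) * ww z) := by
      rw [hI0, ← lintegral_const_mul']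
      · refine lintegral_congr fun z => ?_
        rw [hf]
        rfl
      · exact ENNReal.ofReal_ne_top
    rw [h2]
    exact ENNReal.mul_lt_top ENNReal.ofReal_lt_top h1
  refine ⟨I0.toReal * Real.sqrt (2 * Real.pi) + 1, by positivity, ?_⟩
  intro ε hε x hx
  have hxn : 0 < ‖x‖ := norm_pos_iff.2 hx
  obtain ⟨w, hw⟩ : ∃ w : E, w = ‖x‖⁻¹ • x := ⟨_, rfl⟩
  have hw1 : ‖w‖ = 1 := by
    rw [hw, norm_smul, norm_inv, norm_norm, inv_mul_cancel₀ hxn.ne']
  have hxw : x = ‖x‖ • w := by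
    rw [hw, smul_smul, mul_inv_cancel₀ hxn.ne', one_smul]
  have hw0 : w ≠ 0 := by
    intro h
    rw [h, norm_zero] at hw1
    exact zero_ne_one hw1
  have hfr : Module.finrank ℝ ((ℝ ∙ w)ᗮ : Submodule ℝ E) = d := by
    have := finrank_perp w hw0
    omega
  have hnt : Nontrivial ((ℝ ∙ w)ᗮ : Submodule ℝ E) := by
    apply Module.nontrivial_of_finrank_pos (R := ℝ)
    rw [hfr]; omega
  -- the integrand
  have hF0 : ∀ u : E, 0 ≤ kk ε ⟪u, x⟫ * gg K ε u ^ i * ww u := fun u =>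
    mul_nonneg (mul_nonneg (kk_pos ε _ hε).le (pow_nonneg (gg_nonneg K ε u hε) i)) (ww_pos u).1.le
  have hFc : Continuous (fun u : E => kk ε ⟪u, x⟫ * gg K ε u ^ i * ww u) := by
    have h1 : Continuous (fun u : E => kk ε ⟪u, x⟫) := (kk_cont ε).comp (by fun_prop)
    exact (h1.mul ((gg_cont K hK hbd ε hε).pow i)).mul ww_cont
  have h1 : |WW K i ε x| ≤ ENNReal.toReal
      (∫⁻ u : E, ENNReal.ofReal (kk ε ⟪u, x⟫ * gg K ε u ^ i * ww u)) := by
    have := norm_integral_le_lintegral_norm (μ := (volume : Measure E))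
      (fun u : E => kk ε ⟪u, x⟫ * gg K ε u ^ i * ww u)
    rw [Real.norm_eq_abs] at this
    unfold WW
    refine this.trans (le_of_eq ?_)
    congr 1
    refine lintegral_congr fun u => ?_
    rw [Real.norm_eq_abs, abs_of_nonneg (hF0 u)]
  have h2 : ∫⁻ u : E, ENNReal.ofReal (kk ε ⟪u, x⟫ * gg K ε u ^ i * ww u) ≤
      I0 * ENNReal.ofReal (Real.sqrt (2 * Real.pi) / ‖x‖) := by
    rw [ldec w hw1 _ hFc.measurable.ennreal_ofReal]
    have hae : ∀ᵐ z : (ℝ ∙ w)ᗮ, z ≠ 0 := by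
      rw [ae_iff]
      simp only [not_not]
      exact measure_singleton 0
    have h3 : ∀ᵐ z : (ℝ ∙ w)ᗮ, ∫⁻ r : ℝ, ENNReal.ofReal (kk ε ⟪(z : E) + r • w, x⟫ *
        gg K ε ((z : E) + r • w) ^ i * ww ((z : E) + r • w)) ≤
        f ‖z‖ * ENNReal.ofReal (Real.sqrt (2 * Real.pi) / ‖x‖) := by
      filter_upwards [hae] with z hz
      have hzn : 0 < ‖(z : E)‖ := by
        rw [norm_pos_iff]
        intro h
        exact hz (Subtype.ext h)
      have h4 : ∀ r : ℝ, ENNReal.ofReal (kk ε ⟪(z : E) + r • w, x⟫ *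
          gg K ε ((z : E) + r • w) ^ i * ww ((z : E) + r • w)) ≤
          f ‖z‖ * ENNReal.ofReal (kk ε (0 + ‖x‖ * r)) := by
        intro r
        have e1 : (⟪(z : E) + r • w, x⟫ : ℝ) = 0 + ‖x‖ * r := by
          have e2 : (⟪(z : E), w⟫ : ℝ) = 0 := (perp_inner w z).1
          conv_lhs => rw [hxw]
          rw [inner_smul_right, inner_add_left, inner_smul_left, e2,
            real_inner_self_eq_norm_sq, hw1]
          simp
        have e3 : ‖(z : E)‖ ≤ ‖(z : E) + r • w‖ := by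
          have := norm_dec w hw1 z r
          have h5 : ‖(z : E)‖ ^ 2 ≤ ‖(z : E) + r • w‖ ^ 2 := by
            rw [this]; nlinarith [sq_nonneg r]
          exact le_of_sq_le_sq h5 (norm_nonneg _)
        have e4 : (z : E) + r • w ≠ 0 := by
          intro h
          rw [h, norm_zero] at e3
          linarith
        have e5 : gg K ε ((z : E) + r • w) ≤ Cg / ‖(z : E)‖ :=
          (hgb ε hε _ e4).trans (div_le_div_of_nonneg_left hCg.le hzn e3)
        have e6 : ww ((z : E) + r • w) ≤ ww (z : E) := by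
          rw [ww_dec w hw1 z r]
          exact mul_le_of_le_one_right (ww_pos _).1.le (ww_pos _).2
        have e7 : kk ε (0 + ‖x‖ * r) * gg K ε ((z : E) + r • w) ^ i * ww ((z : E) + r • w) ≤
            (Cg ^ i * (‖(z : E)‖ ^ (-(i : ℝ)) * Real.exp (-(‖(z : E)‖ ^ 2) / 2))) *
              kk ε (0 + ‖x‖ * r) := by
          have k0 : 0 < kk ε (0 + ‖x‖ * r) := kk_pos _ _ hε
          have k1 : gg K ε ((z : E) + r • w) ^ i ≤ (Cg / ‖(z : E)‖) ^ i :=
            pow_le_pow_left₀ (gg_nonneg K ε _ hε) e5 i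
          calc kk ε (0 + ‖x‖ * r) * gg K ε ((z : E) + r • w) ^ i * ww ((z : E) + r • w)
              ≤ kk ε (0 + ‖x‖ * r) * (Cg / ‖(z : E)‖) ^ i * ww (z : E) := by
                refine mul_le_mul (mul_le_mul_of_nonneg_left k1 k0.le) e6 (ww_pos _).1.le ?_
                positivity
            _ = _ := by
                rw [Real.rpow_neg hzn.le, Real.rpow_natCast, div_pow]
                unfold ww
                field_simp
        rw [e1]
        refine (ENNReal.ofReal_le_ofReal e7).trans (le_of_eq ?_)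
        rw [hf, ENNReal.ofReal_mul (by positivity), ENNReal.ofReal_mul (by positivity)]
        rfl
      calc ∫⁻ r : ℝ, ENNReal.ofReal (kk ε ⟪(z : E) + r • w, x⟫ *
          gg K ε ((z : E) + r • w) ^ i * ww ((z : E) + r • w))
          ≤ ∫⁻ r : ℝ, f ‖z‖ * ENNReal.ofReal (kk ε (0 + ‖x‖ * r)) := lintegral_mono h4
        _ = f ‖z‖ * ∫⁻ r : ℝ, ENNReal.ofReal (kk ε (0 + ‖x‖ * r)) := by
            refine lintegral_const_mul _ ?_
            have : Continuous (fun r : ℝ => kk ε (0 + ‖x‖ * r)) := (kk_cont ε).comp (by fun_prop)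
            exact this.measurable.ennreal_ofReal
        _ = f ‖z‖ * ENNReal.ofReal (Real.sqrt (2 * Real.pi) / ‖x‖) := by
            rw [kk_lint ε 0 ‖x‖ hε hxn.ne', abs_of_pos hxn]
    refine (lintegral_mono_ae h3).trans (le_of_eq ?_)
    rw [lintegral_mul_const' _ _ ENNReal.ofReal_ne_top, rad_eq d hfr f hfm, hI0]
  have h3 : I0 * ENNReal.ofReal (Real.sqrt (2 * Real.pi) / ‖x‖) ≠ ∞ :=
    ENNReal.mul_ne_top hI0fin.ne ENNReal.ofReal_ne_top
  have h4 := ENNReal.toReal_mono h3 h2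
  rw [ENNReal.toReal_mul, ENNReal.toReal_ofReal (by positivity)] at h4
  refine (h1.trans h4).trans ?_
  rw [← mul_div_assoc]
  refine div_le_div_of_nonneg_right ?_ hxn.le
  linarith

end Pool.Agent.Helper734.IB
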