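import Mathlib
import Pool.Agent.Helper734.IB.Defs
import Pool.Agent.Helper734.IB.GgA
import Pool.Agent.Helper734.IB.KkA
import Pool.Agent.Helper734.IB.WwA

set_option autoImplicit false

namespace Pool.Agent.Helper734.IB

open MeasureTheory Set Filter Topology Metric
open scoped ENNReal NNReal RealInnerProductSpace

variable {E : Type*} [NormedAddCommGroup E] [InnerProductSpace ℝ E] [FiniteDimensional ℝ E]
  [MeasurableSpace E] [BorelSpace E]

theorem WWcont_WWc_gg_pow (K : Set E) (hK : IsOpen K) (hbd : Bornology.IsBounded K) (i : ℕ) (ε : ℝ)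
    (hε : 0 < ε) (u : E) : |gg K ε u ^ i| ≤ (ε⁻¹ * (volume K).toReal) ^ i := by
  rw [abs_of_nonneg (pow_nonneg (gg_nonneg K ε u hε) i)]
  exact pow_le_pow_left₀ (gg_nonneg K ε u hε) (gg_le K hK hbd ε hε u) i

theorem WW_cont (K : Set E) (hK : IsOpen K) (hbd : Bornology.IsBounded K) (i : ℕ) (ε : ℝ)
    (hε : 0 < ε) : Continuous (WW K i ε) := by
  have hg := gg_cont K hK hbd ε hε
  have hw : Continuous (ww : E → ℝ) := ww_cont
  unfold WW
  refine continuous_of_dominated (bound := fun u => ε⁻¹ * (ε⁻¹ * (volume K).toReal) ^ i * ww u)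
    ?_ ?_ ?_ ?_
  · intro x
    have h1 : Continuous fun u : E => kk ε ⟪u, x⟫ :=
      (kk_cont ε).comp (continuous_id.inner continuous_const)
    exact ((h1.mul (hg.pow i)).mul hw).aestronglyMeasurable
  · intro x
    refine Filter.Eventually.of_forall fun u => ?_
    rw [Real.norm_eq_abs, abs_mul, abs_mul, abs_of_pos (kk_pos ε _ hε), abs_of_pos (ww_pos u).1]
    apply mul_le_mul_of_nonneg_right _ (ww_pos u).1.le
    exact mul_le_mul (kk_le ε _ hε) (WWcont_WWc_gg_pow K hK hbd i ε hε u) (abs_nonneg _)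
      (inv_pos.2 hε).le
  · have h := (ww_int (E := E) 0).const_mul (ε⁻¹ * (ε⁻¹ * (volume K).toReal) ^ i)
    simpa using h
  · refine Filter.Eventually.of_forall fun u => ?_
    have h1 : Continuous fun x : E => kk ε ⟪u, x⟫ :=
      (kk_cont ε).comp (continuous_const.inner continuous_id)
    exact (h1.mul continuous_const).mul continuous_const

theorem VV_cont (K : Set E) (hK : IsOpen K) (hbd : Bornology.IsBounded K) (e : E)
    (i : ℕ) (ε : ℝ) (hε : 0 < ε) : Continuous (VV K i e ε) ∧ ∃ C : ℝ, ∀ x, |VV K i e ε x| ≤ C := by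
  have hg := gg_cont K hK hbd ε hε
  have hw : Continuous (ww : E → ℝ) := ww_cont
  have hB : ∀ x u : E, ‖⟪u, e⟫ * kd ε ⟪u, x⟫ * gg K ε u ^ i * ww u‖ ≤
      (‖e‖ * (ε ^ 2)⁻¹ * (ε⁻¹ * (volume K).toReal) ^ i) * (‖u‖ ^ 1 * ww u) := by
    intro x u
    rw [Real.norm_eq_abs, abs_mul, abs_mul, abs_mul, abs_of_pos (ww_pos u).1]
    have h1 : |⟪u, e⟫| ≤ ‖u‖ * ‖e‖ := abs_real_inner_le_norm u e
    have h2 : |kd ε ⟪u, x⟫| ≤ (ε ^ 2)⁻¹ := kd_le ε _ hε
    have h3 := WWcont_WWc_gg_pow K hK hbd i ε hε u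
    have h4 : |⟪u, e⟫| * |kd ε ⟪u, x⟫| ≤ (‖u‖ * ‖e‖) * (ε ^ 2)⁻¹ :=
      mul_le_mul h1 h2 (abs_nonneg _) (by positivity)
    have h5 : |⟪u, e⟫| * |kd ε ⟪u, x⟫| * |gg K ε u ^ i| ≤
        (‖u‖ * ‖e‖) * (ε ^ 2)⁻¹ * (ε⁻¹ * (volume K).toReal) ^ i :=
      mul_le_mul h4 h3 (abs_nonneg _) (by positivity)
    calc |⟪u, e⟫| * |kd ε ⟪u, x⟫| * |gg K ε u ^ i| * ww u
        ≤ (‖u‖ * ‖e‖) * (ε ^ 2)⁻¹ * (ε⁻¹ * (volume K).toReal) ^ i * ww u :=
          mul_le_mul_of_nonneg_right h5 (ww_pos u).1.le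
      _ = (‖e‖ * (ε ^ 2)⁻¹ * (ε⁻¹ * (volume K).toReal) ^ i) * (‖u‖ ^ 1 * ww u) := by ring
  have hI : Integrable (fun u : E =>
      (‖e‖ * (ε ^ 2)⁻¹ * (ε⁻¹ * (volume K).toReal) ^ i) * (‖u‖ ^ 1 * ww u)) :=
    (ww_int (E := E) 1).const_mul _
  constructor
  · unfold VV
    refine continuous_of_dominated (bound := fun u : E =>
      (‖e‖ * (ε ^ 2)⁻¹ * (ε⁻¹ * (volume K).toReal) ^ i) * (‖u‖ ^ 1 * ww u)) ?_ ?_ hI ?_
    · intro x
      have h1 : Continuous fun u : E => kd ε ⟪u, x⟫ :=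
        (kd_cont ε).comp (continuous_id.inner continuous_const)
      have h0 : Continuous fun u : E => ⟪u, e⟫ := continuous_id.inner continuous_const
      exact (((h0.mul h1).mul (hg.pow i)).mul hw).aestronglyMeasurable
    · intro x
      exact Filter.Eventually.of_forall fun u => hB x u
    · refine Filter.Eventually.of_forall fun u => ?_
      have h1 : Continuous fun x : E => kd ε ⟪u, x⟫ :=
        (kd_cont ε).comp (continuous_const.inner continuous_id)
      exact ((continuous_const.mul h1).mul continuous_const).mul continuous_const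
  · refine ⟨∫ u : E, (‖e‖ * (ε ^ 2)⁻¹ * (ε⁻¹ * (volume K).toReal) ^ i) * (‖u‖ ^ 1 * ww u),
      fun x => ?_⟩
    unfold VV
    rw [← Real.norm_eq_abs]
    exact norm_integral_le_of_norm_le hI (Filter.Eventually.of_forall fun u => hB x u)

end Pool.Agent.Helper734.IB
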