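import Mathlib
import Pool.Agent.Helper734.IB.Defs
import Pool.Agent.Helper734.IB.GgA
import Pool.Agent.Helper734.IB.KkA
import Pool.Agent.Helper734.IB.WwA

set_option autoImplicit false

namespace Pool.Agent.Helper734.IB

open MeasureTheory Set Filter Topology Metric
open scoped ENNReal NNReal RealInnerProductSpace

variable {E : Type*} [NormedAddCommGroup E] [InnerProductSpace ℝ E] [FiniteDimensional ℝ E]
  [MeasurableSpace E] [BorelSpace E]

theorem WW_deriv (K : Set E) (hK : IsOpen K) (hbd : Bornology.IsBounded K) (e : E)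
    (i : ℕ) (ε : ℝ) (hε : 0 < ε) (x : E) (l : ℝ) :
    HasDerivAt (fun l : ℝ => WW K i ε (x + l • e)) (VV K i e ε (x + l • e)) l := by
  have hgc := gg_cont K hK hbd ε hε
  have hwc : Continuous (ww : E → ℝ) := ww_cont
  have hkc := kk_cont ε
  have hkd := kd_cont ε
  set V : ℝ := (volume K).toReal with hV
  have hV0 : 0 ≤ V := ENNReal.toReal_nonneg
  have hg0 : ∀ u : E, 0 ≤ gg K ε u := fun u => gg_nonneg K ε u hε
  have hg1 : ∀ u : E, gg K ε u ^ i ≤ (ε⁻¹ * V) ^ i := fun u =>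
    pow_le_pow_left₀ (hg0 u) (gg_le K hK hbd ε hε u) i
  have hε1 : 0 < ε⁻¹ := inv_pos.2 hε
  have hw1 : Integrable (fun u : E => ‖u‖ * ww u) := by
    have := ww_int (E := E) 1
    simpa using this
  have hw0 : Integrable (fun u : E => ww u) := by
    have := ww_int (E := E) 0
    simpa using this
  have key := hasDerivAt_integral_of_dominated_loc_of_deriv_le (μ := (volume : Measure E))
    (s := Set.univ) (x₀ := l)
    (F := fun (l : ℝ) (u : E) => kk ε ⟪u, x + l • e⟫ * gg K ε u ^ i * ww u)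
    (F' := fun (l : ℝ) (u : E) => ⟪u, e⟫ * kd ε ⟪u, x + l • e⟫ * gg K ε u ^ i * ww u)
    (bound := fun u : E => ‖e‖ * (ε ^ 2)⁻¹ * (ε⁻¹ * V) ^ i * (‖u‖ * ww u))
    Filter.univ_mem ?_ ?_ ?_ ?_ ?_ ?_
  · exact key.2
  · refine Eventually.of_forall (fun t => ?_)
    have : Continuous (fun u : E => kk ε ⟪u, x + t • e⟫ * gg K ε u ^ i * ww u) := by
      refine Continuous.mul (Continuous.mul (hkc.comp (by fun_prop)) (hgc.pow i)) hwc
    exact this.aestronglyMeasurable
  · refine Integrable.mono' (hw0.const_mul (ε⁻¹ * (ε⁻¹ * V) ^ i)) ?_ ?_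
    · have : Continuous (fun u : E => kk ε ⟪u, x + l • e⟫ * gg K ε u ^ i * ww u) := by
        refine Continuous.mul (Continuous.mul (hkc.comp (by fun_prop)) (hgc.pow i)) hwc
      exact this.aestronglyMeasurable
    · refine Eventually.of_forall (fun u => ?_)
      have h1 := kk_pos ε ⟪u, x + l • e⟫ hε
      have h2 := kk_le ε ⟪u, x + l • e⟫ hε
      have h3 := (ww_pos u).1
      have h4 : 0 ≤ gg K ε u ^ i := pow_nonneg (hg0 u) i
      rw [Real.norm_eq_abs, abs_of_nonneg (by positivity)]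
      refine mul_le_mul_of_nonneg_right ?_ h3.le
      exact mul_le_mul h2 (hg1 u) h4 hε1.le
  · have : Continuous (fun u : E => ⟪u, e⟫ * kd ε ⟪u, x + l • e⟫ * gg K ε u ^ i * ww u) := by
      refine Continuous.mul (Continuous.mul (Continuous.mul (by fun_prop)
        (hkd.comp (by fun_prop))) (hgc.pow i)) hwc
    exact this.aestronglyMeasurable
  · refine Eventually.of_forall (fun u => ?_)
    intro t _
    have h1 : |(⟪u, e⟫ : ℝ)| ≤ ‖u‖ * ‖e‖ := abs_real_inner_le_norm u e
    have h2 := kd_le ε ⟪u, x + t • e⟫ hε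
    have h3 := (ww_pos u).1
    have h4 : 0 ≤ gg K ε u ^ i := pow_nonneg (hg0 u) i
    rw [Real.norm_eq_abs, abs_mul, abs_mul, abs_mul, abs_of_nonneg h4, abs_of_pos h3]
    calc |(⟪u, e⟫ : ℝ)| * |kd ε ⟪u, x + t • e⟫| * gg K ε u ^ i * ww u
        ≤ (‖u‖ * ‖e‖) * (ε ^ 2)⁻¹ * (ε⁻¹ * V) ^ i * ww u := by
          refine mul_le_mul_of_nonneg_right ?_ h3.le
          exact mul_le_mul (mul_le_mul h1 h2 (abs_nonneg _) (by positivity)) (hg1 u) h4
            (by positivity)
      _ = _ := by ring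
  · exact hw1.const_mul _
  · refine Eventually.of_forall (fun u => ?_)
    intro t _
    have h1 : HasDerivAt (fun t : ℝ => (⟪u, x + t • e⟫ : ℝ)) ⟪u, e⟫ t := by
      have : (fun t : ℝ => (⟪u, x + t • e⟫ : ℝ)) = fun t => ⟪u, x⟫ + t * ⟪u, e⟫ := by
        ext t
        rw [inner_add_right, inner_smul_right]
      rw [this]
      simpa using ((hasDerivAt_id t).mul_const (⟪u, e⟫ : ℝ)).const_add (⟪u, x⟫ : ℝ)
    have h2 := (kk_deriv ε ⟪u, x + t • e⟫ hε).comp t h1
    have h3 := (h2.mul_const (gg K ε u ^ i)).mul_const (ww u)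
    refine h3.congr_deriv ?_
    ring

end Pool.Agent.Helper734.IB
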