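import Mathlib
import Pool.Agent.Helper734.IB.Defs
import Pool.Agent.Helper734.IB.BasicA
import Pool.Agent.Helper734.IB.KkA
import Pool.Agent.Helper734.IB.KkB
import Pool.Agent.Helper734.IB.Ldec
import Pool.Agent.Helper734.IB.Mpdec

set_option autoImplicit false

namespace Pool.Agent.Helper734.IB

open MeasureTheory Set Filter Topology Metric
open scoped ENNReal NNReal RealInnerProductSpace

variable {E : Type*} [NormedAddCommGroup E] [InnerProductSpace ℝ E] [FiniteDimensional ℝ E]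
  [MeasurableSpace E] [BorelSpace E]

theorem ggtendsto_mpS_h411 (w : E) (hw : ‖w‖ = 1) (S : Submodule ℝ E) (hS : S = (ℝ ∙ w)) :
    MeasurePreserving (fun p : Sᗮ × ℝ => (p.1 : E) + p.2 • w)
      (volume : Measure (Sᗮ × ℝ)) (volume : Measure E) ∧
    MeasurableEmbedding (fun p : Sᗮ × ℝ => (p.1 : E) + p.2 • w) := by
  subst hS
  exact mpdec w hw

theorem ggtendsto_nmS_h411 (w : E) (hw : ‖w‖ = 1) (S : Submodule ℝ E) (hS : S = (ℝ ∙ w)) (z : Sᗮ) (r : ℝ) :
    ‖(z : E) + r • w‖ ^ 2 = ‖(z : E)‖ ^ 2 + r ^ 2 := by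
  subst hS
  exact norm_dec w hw z r

theorem ggtendsto_kk1_int_h411 : Integrable (fun r : ℝ => kk 1 r) ∧ ∫ r : ℝ, kk 1 r = Real.sqrt (2 * Real.pi) := by
  have := kk_int 1 0 1 zero_lt_one one_ne_zero
  simpa using this

theorem ggtendsto_bound_int_h411 (S : Submodule ℝ E) (R : ℝ) :
    Integrable (fun p : Sᗮ × ℝ =>
      (closedBall (0 : Sᗮ) R).indicator (fun _ => (1:ℝ)) p.1 * kk 1 p.2) := by
  have h1 : Integrable ((closedBall (0 : Sᗮ) R).indicator (fun _ => (1:ℝ))) := by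
    rw [integrable_indicator_iff measurableSet_closedBall]
    exact integrableOn_const (by
      exact (isCompact_closedBall (0 : Sᗮ) R).measure_lt_top.ne)
  exact h1.mul_prod ggtendsto_kk1_int_h411.1

theorem ggtendsto_dom_h411 (K : Set E) (R : ℝ) (hR : ∀ x ∈ K, ‖x‖ ≤ R) (w : E) (hw : ‖w‖ = 1)
    (S : Submodule ℝ E) (hS : S = (ℝ ∙ w)) (z : Sᗮ) (r ρ : ℝ) :
    ‖K.indicator (fun _ => (1:ℝ)) ((z : E) + r • w) * kk 1 ρ‖ ≤
      (closedBall (0 : Sᗮ) R).indicator (fun _ => (1:ℝ)) z * kk 1 ρ := by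
  have hk := kk_pos 1 ρ zero_lt_one
  rw [norm_mul, Real.norm_of_nonneg hk.le]
  refine mul_le_mul_of_nonneg_right ?_ hk.le
  by_cases h : (z : E) + r • w ∈ K
  · have h1 := hR _ h
    have h2 := ggtendsto_nmS_h411 w hw S hS z r
    have h3 : z ∈ closedBall (0 : Sᗮ) R := by
      rw [mem_closedBall_zero_iff, Submodule.coe_norm]
      have h4 : ‖(z : E)‖ ^ 2 ≤ ‖(z : E) + r • w‖ ^ 2 := by
        rw [h2]; nlinarith [sq_nonneg r]
      have h5 : ‖(z : E)‖ ≤ ‖(z : E) + r • w‖ := by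
        exact le_of_sq_le_sq h4 (norm_nonneg _)
      linarith
    rw [indicator_of_mem h, indicator_of_mem h3]
    simp
  · rw [indicator_of_notMem h]
    simp only [norm_zero]
    exact indicator_nonneg (fun _ _ => zero_le_one) _

theorem ggtendsto_meas_G_h411 (K : Set E) (hK : IsOpen K) (w : E) (S : Submodule ℝ E) (ε : ℝ) (u1 : E)
    (c : ℝ) :
    Measurable (fun p : Sᗮ × ℝ => K.indicator (fun _ => (1:ℝ))
      ((p.1 : E) + ((ε * p.2 - ⟪u1, (p.1 : E)⟫) / c) • w) * kk 1 p.2) := by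
  have hc : Continuous (fun p : Sᗮ × ℝ => (p.1 : E) + ((ε * p.2 - ⟪u1, (p.1 : E)⟫) / c) • w) := by
    have h1 : Continuous (fun p : Sᗮ × ℝ => (p.1 : E)) := continuous_subtype_val.comp continuous_fst
    have h2 : Continuous (fun p : Sᗮ × ℝ => ⟪u1, (p.1 : E)⟫) := continuous_const.inner h1
    exact h1.add ((((continuous_const.mul continuous_snd).sub h2).div_const c).smul
      continuous_const)
  have hm : Measurable (K.indicator (fun _ => (1:ℝ))) := measurable_const.indicator hK.measurableSet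
  exact (hm.comp hc.measurable).mul ((kk_cont 1).measurable.comp measurable_snd)

theorem ggtendsto_gg_formula_h411 (K : Set E) (hK : IsOpen K) (R : ℝ) (hR : ∀ x ∈ K, ‖x‖ ≤ R) (w : E)
    (hw : ‖w‖ = 1) (S : Submodule ℝ E) (hS : S = (ℝ ∙ w)) (ε : ℝ) (hε : 0 < ε) (u1 : E) (c : ℝ)
    (hc : c = ⟪u1, w⟫) (hcpos : 0 < c) :
    gg K ε u1 = c⁻¹ * ∫ p : Sᗮ × ℝ, K.indicator (fun _ => (1:ℝ))
      ((p.1 : E) + ((ε * p.2 - ⟪u1, (p.1 : E)⟫) / c) • w) * kk 1 p.2 := by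
  obtain ⟨hmp, hme⟩ := ggtendsto_mpS_h411 w hw S hS
  unfold gg
  have hint : Integrable (K.indicator (fun x : E => kk ε ⟪u1, x⟫)) := by
    rw [integrable_indicator_iff hK.measurableSet]
    have hcont : Continuous (fun x : E => kk ε ⟪u1, x⟫) :=
      (kk_cont ε).comp (continuous_const.inner continuous_id)
    have h1 : IntegrableOn (fun x : E => kk ε ⟪u1, x⟫) (closedBall (0 : E) R) :=
      hcont.continuousOn.integrableOn_compact (isCompact_closedBall _ _)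
    refine h1.mono_set fun x hx => ?_
    rw [mem_closedBall_zero_iff]
    exact hR x hx
  rw [← integral_indicator hK.measurableSet]
  rw [← hmp.integral_comp hme]
  have hint2 : Integrable (fun p : Sᗮ × ℝ =>
      K.indicator (fun x : E => kk ε ⟪u1, x⟫) ((p.1 : E) + p.2 • w)) :=
    hmp.integrable_comp_of_integrable hint
  have hint3 : Integrable (fun p : Sᗮ × ℝ => K.indicator (fun _ => (1:ℝ))
      ((p.1 : E) + ((ε * p.2 - ⟪u1, (p.1 : E)⟫) / c) • w) * kk 1 p.2) := by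
    refine (ggtendsto_bound_int_h411 S R).mono' (ggtendsto_meas_G_h411 K hK w S ε u1 c).aestronglyMeasurable ?_
    refine Filter.Eventually.of_forall fun p => ?_
    exact ggtendsto_dom_h411 K R hR w hw S hS p.1 _ p.2
  rw [Measure.volume_eq_prod] at hint2 hint3 ⊢
  rw [integral_prod _ hint2, integral_prod _ hint3, ← integral_const_mul]
  congr 1
  ext z
  obtain ⟨a, ha⟩ : ∃ a, a = ε / c := ⟨_, rfl⟩
  obtain ⟨b, hb⟩ : ∃ b, b = -⟪u1, (z : E)⟫ / c := ⟨_, rfl⟩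
  have hapos : 0 < a := by rw [ha]; positivity
  obtain ⟨g, hg⟩ : ∃ g : ℝ → ℝ, g = fun r => K.indicator (fun x : E => kk ε ⟪u1, x⟫)
    ((z : E) + r • w) := ⟨_, rfl⟩
  have e1 : ∫ ρ : ℝ, g (a * ρ + b) = |a⁻¹| * ∫ r : ℝ, g r := by
    have h1 := Measure.integral_comp_mul_left (fun r => g (r + b)) a
    rw [h1, integral_add_right_eq_self g b, smul_eq_mul]
  have e2 : ∀ ρ : ℝ, g (a * ρ + b) = ε⁻¹ * (K.indicator (fun _ => (1:ℝ))
      ((z : E) + ((ε * ρ - ⟪u1, (z : E)⟫) / c) • w) * kk 1 ρ) := by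
    intro ρ
    have h1 : a * ρ + b = (ε * ρ - ⟪u1, (z : E)⟫) / c := by
      rw [ha, hb]; field_simp
      ring
    rw [hg, h1]
    beta_reduce
    by_cases h : (z : E) + ((ε * ρ - ⟪u1, (z : E)⟫) / c) • w ∈ K
    · rw [indicator_of_mem h, indicator_of_mem h]
      rw [inner_add_right, real_inner_smul_right, ← hc]
      have h2 : ⟪u1, (z : E)⟫ + (ε * ρ - ⟪u1, (z : E)⟫) / c * c = ε * ρ := by
        field_simp
        ring
      rw [h2, kk_scale ε ρ hε]
      ring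
    · rw [indicator_of_notMem h, indicator_of_notMem h]
      ring
  have e3 : ∫ r : ℝ, g r = a * ∫ ρ : ℝ, g (a * ρ + b) := by
    rw [e1, abs_of_pos (inv_pos.mpr hapos)]
    field_simp
  have e4 : ∫ r : ℝ, K.indicator (fun x : E => kk ε ⟪u1, x⟫) ((z : E) + r • w) = ∫ r : ℝ, g r := by
    rw [hg]
  change ∫ r : ℝ, K.indicator (fun x : E => kk ε ⟪u1, x⟫) ((z : E) + r • w) = _
  rw [e4, e3]
  simp only [e2]
  rw [integral_const_mul, ha]
  field_simp



theorem gg_tendsto (K : Set E) (hK : IsOpen K) (hbd : Bornology.IsBounded K) (u : E) (hu : u ≠ 0)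
    (hfr : volume {z : (ℝ ∙ u)ᗮ | (z : E) ∈ frontier K} = 0) :
    Tendsto (fun p : ℝ × E => gg K p.1 p.2) (𝓝[>] (0:ℝ) ×ˢ 𝓝 u) (𝓝 (G0 K u)) := by
  obtain ⟨R, hR⟩ : ∃ R, ∀ x ∈ K, ‖x‖ ≤ R := hbd.exists_norm_le
  have hu0 : 0 < ‖u‖ := norm_pos_iff.mpr hu
  obtain ⟨w, hwdef⟩ : ∃ w : E, w = ‖u‖⁻¹ • u := ⟨_, rfl⟩
  have hw : ‖w‖ = 1 := by
    rw [hwdef, norm_smul, norm_inv, norm_norm, inv_mul_cancel₀ hu0.ne']
  have hS : (ℝ ∙ u) = (ℝ ∙ w) := by
    rw [hwdef]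
    exact (Submodule.span_singleton_smul_eq (IsUnit.mk0 _ (inv_ne_zero hu0.ne')) u).symm
  have huw : ⟪u, w⟫ = ‖u‖ := by
    rw [hwdef, real_inner_smul_right, real_inner_self_eq_norm_sq]
    field_simp
  have hcw : Continuous (fun v : E => ⟪v, w⟫) := continuous_id.inner continuous_const
  have hev : ∀ᶠ p : ℝ × E in 𝓝[>] (0:ℝ) ×ˢ 𝓝 u, 0 < p.1 ∧ 0 < ⟪p.2, w⟫ := by
    refine Filter.Eventually.and ?_ ?_
    · exact Filter.Eventually.prod_inl
        (eventually_mem_nhdsWithin (a := (0:ℝ)) (s := Ioi 0)) _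
    · have h1 : ∀ᶠ v : E in 𝓝 u, 0 < ⟪v, w⟫ := by
        have : Tendsto (fun v : E => ⟪v, w⟫) (𝓝 u) (𝓝 ⟪u, w⟫) := hcw.tendsto u
        exact this.eventually (lt_mem_nhds (by rw [huw]; exact hu0))
      exact Filter.Eventually.prod_inr h1 _
  have hfilt : Tendsto (fun p : ℝ × E => p) (𝓝[>] (0:ℝ) ×ˢ 𝓝 u) (𝓝 ((0:ℝ), u)) := by
    rw [nhds_prod_eq]
    exact tendsto_id.mono_left (Filter.prod_mono nhdsWithin_le_nhds le_rfl)
  have hfr2 : ∀ᵐ q : (ℝ ∙ u)ᗮ × ℝ, (q.1 : E) ∉ frontier K := by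
    have h1 : ∀ᵐ z : (ℝ ∙ u)ᗮ, (z : E) ∉ frontier K := by
      rw [ae_iff]
      simpa using hfr
    rw [Measure.volume_eq_prod]
    exact Measure.quasiMeasurePreserving_fst.ae h1
  have hDCT : Tendsto (fun p : ℝ × E => ∫ q : (ℝ ∙ u)ᗮ × ℝ, K.indicator (fun _ => (1:ℝ))
      ((q.1 : E) + ((p.1 * q.2 - ⟪p.2, (q.1 : E)⟫) / ⟪p.2, w⟫) • w) * kk 1 q.2)
      (𝓝[>] (0:ℝ) ×ˢ 𝓝 u) (𝓝 (∫ q : (ℝ ∙ u)ᗮ × ℝ,
        K.indicator (fun _ => (1:ℝ)) (q.1 : E) * kk 1 q.2)) := by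
    refine tendsto_integral_filter_of_dominated_convergence
      (fun q : (ℝ ∙ u)ᗮ × ℝ => (closedBall (0 : (ℝ ∙ u)ᗮ) R).indicator (fun _ => (1:ℝ)) q.1 * kk 1 q.2)
      ?_ ?_ ?_ ?_
    · exact Filter.Eventually.of_forall fun p =>
        (ggtendsto_meas_G_h411 K hK w (ℝ ∙ u) p.1 p.2 _).aestronglyMeasurable
    · refine Filter.Eventually.of_forall fun p => Filter.Eventually.of_forall fun q => ?_
      exact ggtendsto_dom_h411 K R hR w hw (ℝ ∙ u) hS q.1 _ q.2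
    · exact ggtendsto_bound_int_h411 (ℝ ∙ u) R
    · filter_upwards [hfr2] with q hq
      refine Tendsto.mul_const _ ?_
      have hP : Tendsto (fun p : ℝ × E => (q.1 : E) +
          ((p.1 * q.2 - ⟪p.2, (q.1 : E)⟫) / ⟪p.2, w⟫) • w) (𝓝[>] (0:ℝ) ×ˢ 𝓝 u) (𝓝 (q.1 : E)) := by
        have hcont : ContinuousAt (fun p : ℝ × E => (q.1 : E) +
          ((p.1 * q.2 - ⟪p.2, (q.1 : E)⟫) / ⟪p.2, w⟫) • w) ((0:ℝ), u) := by
          have h1 : Continuous (fun p : ℝ × E => p.1 * q.2 - ⟪p.2, (q.1 : E)⟫) :=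
            (continuous_fst.mul continuous_const).sub (continuous_snd.inner continuous_const)
          have h2 : Continuous (fun p : ℝ × E => ⟪p.2, w⟫) :=
            continuous_snd.inner continuous_const
          refine continuousAt_const.add (ContinuousAt.smul ?_ continuousAt_const)
          refine h1.continuousAt.div h2.continuousAt ?_
          change ⟪u, w⟫ ≠ 0
          rw [huw]
          exact hu0.ne'
        have h3 := hcont.tendsto.comp hfilt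
        have h4 : (q.1 : E) + (((0:ℝ) * q.2 - ⟪u, (q.1 : E)⟫) / ⟪u, w⟫) • w = (q.1 : E) := by
          rw [(perp_inner u q.1).2]
          simp
        change Tendsto _ _ (𝓝 ((q.1 : E) + (((0:ℝ) * q.2 - ⟪u, (q.1 : E)⟫) / ⟪u, w⟫) • w)) at h3
        rw [h4] at h3
        exact h3
      by_cases hz : (q.1 : E) ∈ K
      · rw [indicator_of_mem hz]
        refine tendsto_const_nhds.congr' ?_
        filter_upwards [hP.eventually (hK.mem_nhds hz)] with p hp
        rw [indicator_of_mem hp]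
      · have hz2 : (q.1 : E) ∉ closure K := by
          intro hcl
          apply hq
          rw [hK.frontier_eq]
          exact ⟨hcl, hz⟩
        rw [indicator_of_notMem hz]
        refine tendsto_const_nhds.congr' ?_
        filter_upwards [hP.eventually (isClosed_closure.isOpen_compl.mem_nhds hz2)] with p hp
        rw [indicator_of_notMem fun h => hp (subset_closure h)]
  have hlim : G0 K u = ‖u‖⁻¹ * ∫ q : (ℝ ∙ u)ᗮ × ℝ,
        K.indicator (fun _ => (1:ℝ)) (q.1 : E) * kk 1 q.2 := by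
    rw [Measure.volume_eq_prod]
    have h1 := integral_prod_mul (μ := (volume : Measure (ℝ ∙ u)ᗮ)) (ν := (volume : Measure ℝ))
      (fun z : (ℝ ∙ u)ᗮ => K.indicator (fun _ => (1:ℝ)) (z : E)) (fun r => kk 1 r)
    rw [h1, ggtendsto_kk1_int_h411.2]
    have hms : MeasurableSet {z : (ℝ ∙ u)ᗮ | (z : E) ∈ K} :=
      (hK.preimage continuous_subtype_val).measurableSet
    have h2 : ∫ z : (ℝ ∙ u)ᗮ, K.indicator (fun _ => (1:ℝ)) (z : E) =
        (volume {z : (ℝ ∙ u)ᗮ | (z : E) ∈ K}).toReal := by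
      have h3 : (fun z : (ℝ ∙ u)ᗮ => K.indicator (fun _ => (1:ℝ)) (z : E)) =
          {z : (ℝ ∙ u)ᗮ | (z : E) ∈ K}.indicator (fun _ => (1:ℝ)) := by
        ext z
        by_cases h : (z : E) ∈ K
        · rw [indicator_of_mem h, indicator_of_mem (show z ∈ {z : (ℝ ∙ u)ᗮ | (z : E) ∈ K} from h)]
        · rw [indicator_of_notMem h,
            indicator_of_notMem (show z ∉ {z : (ℝ ∙ u)ᗮ | (z : E) ∈ K} from h)]
      rw [h3, integral_indicator_const _ hms]
      simp [Measure.real]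
    rw [h2]
    unfold G0
    rw [div_eq_mul_inv]
    ring
  rw [hlim]
  have hinv : Tendsto (fun p : ℝ × E => (⟪p.2, w⟫)⁻¹) (𝓝[>] (0:ℝ) ×ˢ 𝓝 u) (𝓝 ‖u‖⁻¹) := by
    rw [← huw]
    refine Tendsto.inv₀ ?_ (by rw [huw]; exact hu0.ne')
    exact (hcw.tendsto u).comp tendsto_snd
  refine Tendsto.congr' ?_ (hinv.mul hDCT)
  filter_upwards [hev] with p hp
  exact (ggtendsto_gg_formula_h411 K hK R hR w hw (ℝ ∙ u) hS p.1 hp.1 p.2 _ rfl hp.2).symm

end Pool.Agent.Helper734.IB
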