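import Mathlib
import Pool.Agent.Helper734.IB.Defs
import Pool.Agent.Helper734.IB.GgA
import Pool.Agent.Helper734.IB.Ggtendsto
import Pool.Agent.Helper734.IB.Slab

set_option autoImplicit false

namespace Pool.Agent.Helper734.IB

open MeasureTheory Set Filter Topology Metric
open scoped ENNReal NNReal RealInnerProductSpace

variable {E : Type*} [NormedAddCommGroup E] [InnerProductSpace ℝ E] [FiniteDimensional ℝ E]
  [MeasurableSpace E] [BorelSpace E]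

theorem G0cont_gg_tendsto_fixed (K : Set E) (hK : IsOpen K) (hbd : Bornology.IsBounded K) (u : E)
    (hu : u ≠ 0) (hfr : volume {z : (ℝ ∙ u)ᗮ | (z : E) ∈ frontier K} = 0) :
    Tendsto (fun ε : ℝ => gg K ε u) (𝓝[>] (0:ℝ)) (𝓝 (G0 K u)) :=
  (gg_tendsto K hK hbd u hu hfr).comp (tendsto_id.prodMk tendsto_const_nhds)

theorem G0_cont (K : Set E) (hK : IsOpen K) (hbd : Bornology.IsBounded K)
    (hfr : ∀ u : E, u ≠ 0 → volume {z : (ℝ ∙ u)ᗮ | (z : E) ∈ frontier K} = 0) :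
    ContinuousOn (G0 K) {0}ᶜ := by
  intro u hu
  have hu' : u ≠ 0 := hu
  apply ContinuousAt.continuousWithinAt
  rw [ContinuousAt, Metric.tendsto_nhds]
  intro η hη
  have h1 := gg_tendsto K hK hbd u hu' (hfr u hu')
  rw [Metric.tendsto_nhds] at h1
  have h2 := h1 (η / 2) (half_pos hη)
  rw [Filter.eventually_prod_iff] at h2
  obtain ⟨pa, hpa, pb, hpb, h⟩ := h2
  have hne : ∀ᶠ u1 in 𝓝 u, u1 ≠ 0 := isOpen_ne.eventually_mem hu'
  filter_upwards [hpb, hne] with u1 hu1 hu1n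
  have h3 := G0cont_gg_tendsto_fixed K hK hbd u1 hu1n (hfr u1 hu1n)
  have h4 : ∀ᶠ ε in 𝓝[>] (0:ℝ), dist (gg K ε u1) (G0 K u) < η / 2 :=
    hpa.mono fun ε hε => h hε hu1
  have h5 : dist (G0 K u1) (G0 K u) ≤ η / 2 :=
    le_of_tendsto (h3.dist tendsto_const_nhds) (h4.mono fun _ h => h.le)
  linarith

theorem G0_bound (K : Set E) (R : ℝ) (hR : 0 < R) (hK : IsOpen K) (hb : K ⊆ ball 0 R)
    (hfr : ∀ u : E, u ≠ 0 → volume {z : (ℝ ∙ u)ᗮ | (z : E) ∈ frontier K} = 0) :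
    ∃ C : ℝ, 0 < C ∧ ∀ u : E, u ≠ 0 → 0 ≤ G0 K u ∧ G0 K u ≤ C / ‖u‖ := by
  obtain ⟨C, hC, h⟩ := gg_bound K R hR hK hb
  refine ⟨C, hC, fun u hu => ?_⟩
  have hbd : Bornology.IsBounded K := Metric.isBounded_ball.subset hb
  have h3 := G0cont_gg_tendsto_fixed K hK hbd u hu (hfr u hu)
  have hpos : ∀ᶠ ε in 𝓝[>] (0:ℝ), 0 < ε := eventually_mem_nhdsWithin
  exact ⟨ge_of_tendsto h3 (hpos.mono fun ε hε => gg_nonneg K ε u hε),
    le_of_tendsto h3 (hpos.mono fun ε hε => h ε hε u hu)⟩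

end Pool.Agent.Helper734.IB
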