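import Mathlib
import Pool.Agent.Helper734.IB.Defs
import Pool.Agent.Helper734.IB.BasicA
import Pool.Agent.Helper734.IB.G0cont
import Pool.Agent.Helper734.IB.GgA
import Pool.Agent.Helper734.IB.Ggtendsto
import Pool.Agent.Helper734.IB.KkA
import Pool.Agent.Helper734.IB.KkB
import Pool.Agent.Helper734.IB.Ldec
import Pool.Agent.Helper734.IB.Mpdec
import Pool.Agent.Helper734.IB.Rad
import Pool.Agent.Helper734.IB.Slab
import Pool.Agent.Helper734.IB.WwA

set_option autoImplicit false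

namespace Pool.Agent.Helper734.IB

open MeasureTheory Set Filter Topology Metric
open scoped ENNReal NNReal RealInnerProductSpace

variable {E : Type*} [NormedAddCommGroup E] [InnerProductSpace ℝ E] [FiniteDimensional ℝ E]
  [MeasurableSpace E] [BorelSpace E]

theorem WWtendsto_WW_tendsto_aux1 (K : Set E) (hK : IsOpen K) (hbd : Bornology.IsBounded K) (i : ℕ)
    (ε : ℝ) (hε : 0 < ε) (x : E) :
    Integrable (fun u : E => kk ε ⟪u, x⟫ * gg K ε u ^ i * ww u) := by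
  have h0 : Integrable (fun u : E => ww u) := by
    have := ww_int (E := E) 0
    simpa using this
  have h1 : Integrable (fun u : E => (kk ε ⟪u, x⟫ * gg K ε u ^ i) * ww u) := by
    refine Integrable.bdd_mul (c := ε⁻¹ * (ε⁻¹ * (volume K).toReal) ^ i) h0 ?_ ?_
    · apply Continuous.aestronglyMeasurable
      refine Continuous.mul ?_ ((gg_cont K hK hbd ε hε).pow i)
      exact (kk_cont ε).comp (by fun_prop)
    · refine Filter.Eventually.of_forall (fun u => ?_)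
      rw [Real.norm_of_nonneg (mul_nonneg (kk_pos ε _ hε).le (pow_nonneg (gg_nonneg K ε u hε) i))]
      exact mul_le_mul (kk_le ε _ hε) (pow_le_pow_left₀ (gg_nonneg K ε u hε) (gg_le K hK hbd ε hε u) i)
        (pow_nonneg (gg_nonneg K ε u hε) i) (inv_nonneg.2 hε.le)
  exact h1

theorem WWtendsto_WW_tendsto_aux2 (w : E) (hw : ‖w‖ = 1) (i : ℕ) (C : ℝ)
    (hin : i + 2 ≤ Module.finrank ℝ E) :
    Integrable (fun z : (ℝ ∙ w)ᗮ => (C / ‖z‖) ^ i * ww z) := by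
  have hw0 : w ≠ 0 := by rintro rfl; simp at hw
  have hfin := finrank_perp w hw0
  have h := rad_fin (E := ((ℝ ∙ w)ᗮ : Submodule ℝ E)) (i : ℝ) (by positivity)
    (by
      have : i < Module.finrank ℝ ((ℝ ∙ w)ᗮ : Submodule ℝ E) := by omega
      exact_mod_cast this)
  have hint : Integrable (fun z : (ℝ ∙ w)ᗮ => ‖z‖ ^ (-(i : ℝ)) * ww z) := by
    refine ⟨?_, ?_⟩
    · apply Measurable.aestronglyMeasurable
      exact (measurable_norm.pow_const _).mul ww_cont.measurable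
    · rw [hasFiniteIntegral_iff_norm]
      refine lt_of_eq_of_lt ?_ h
      refine lintegral_congr (fun z => ?_)
      rw [Real.norm_of_nonneg (mul_nonneg (Real.rpow_nonneg (norm_nonneg z) _) (ww_pos z).1.le)]
  have h2 := hint.const_mul (C ^ i)
  refine h2.congr (Filter.Eventually.of_forall (fun z => ?_))
  simp only
  rw [Real.rpow_neg (norm_nonneg z), Real.rpow_natCast, div_pow]
  ring


theorem WWtendsto_WW_tendsto_aux3 (w : E) (hw : ‖w‖ = 1) (a : ℝ) (ha : 0 < a) (K : Set E) (i : ℕ)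
    (ε : ℝ) (hε : 0 < ε) (z : (ℝ ∙ w)ᗮ) :
    (∫ r : ℝ, kk ε ⟪(z : E) + r • w, a • w⟫ * gg K ε ((z : E) + r • w) ^ i
        * ww ((z : E) + r • w)) =
      ∫ ρ : ℝ, a⁻¹ * (kk 1 ρ * gg K ε ((z : E) + (ρ * (ε / a)) • w) ^ i
        * (ww (z : E) * ww (ρ * (ε / a)))) := by
  have hc : 0 < ε / a := div_pos hε ha
  have h := Measure.integral_comp_mul_right (fun r : ℝ => kk ε ⟪(z : E) + r • w, a • w⟫ *
    gg K ε ((z : E) + r • w) ^ i * ww ((z : E) + r • w)) (ε / a)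
  have h2 : (∫ r : ℝ, kk ε ⟪(z : E) + r • w, a • w⟫ * gg K ε ((z : E) + r • w) ^ i
        * ww ((z : E) + r • w)) = (ε / a) * ∫ x : ℝ, (fun r : ℝ => kk ε ⟪(z : E) + r • w, a • w⟫ *
    gg K ε ((z : E) + r • w) ^ i * ww ((z : E) + r • w)) (x * (ε / a)) := by
    rw [h, smul_eq_mul, ← mul_assoc, abs_of_pos (inv_pos.2 hc), mul_inv_cancel₀ hc.ne', one_mul]
  rw [h2, ← integral_const_mul]
  refine integral_congr_ae (Filter.Eventually.of_forall (fun ρ => ?_))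
  simp only
  have e1 : ⟪(z : E) + (ρ * (ε / a)) • w, a • w⟫ = ε * ρ := by
    rw [inner_add_left, real_inner_smul_right, (perp_inner w z).1, real_inner_smul_left,
      real_inner_smul_right, real_inner_self_eq_norm_sq, hw]
    field_simp
    ring
  rw [e1, kk_scale ε ρ hε, ww_dec w hw]
  field_simp

theorem WWtendsto_WW_tendsto_aux4 (K : Set E) (hK : IsOpen K) (hbd : Bornology.IsBounded K) (i : ℕ)
    (hfr : ∀ u : E, u ≠ 0 → volume {z : (ℝ ∙ u)ᗮ | (z : E) ∈ frontier K} = 0)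
    (w : E) (hw : ‖w‖ = 1) (a : ℝ) (ha : 0 < a) (z : (ℝ ∙ w)ᗮ) (hz : z ≠ 0)
    (C : ℝ) (hC : 0 < C) (hgg : ∀ (ε : ℝ), 0 < ε → ∀ u : E, u ≠ 0 → gg K ε u ≤ C / ‖u‖) :
    Tendsto (fun ε : ℝ => ∫ ρ : ℝ, a⁻¹ * (kk 1 ρ * gg K ε ((z : E) + (ρ * (ε / a)) • w) ^ i
        * (ww (z : E) * ww (ρ * (ε / a))))) (𝓝[>] (0:ℝ))
      (𝓝 (∫ ρ : ℝ, a⁻¹ * (kk 1 ρ * G0 K (z : E) ^ i * (ww (z : E) * 1)))) := by
  have hz' : (z : E) ≠ 0 := by simpa using hz
  have hzn : 0 < ‖(z : E)‖ := norm_pos_iff.2 hz'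
  have hnorm : ∀ r : ℝ, ‖(z : E)‖ ≤ ‖(z : E) + r • w‖ := by
    intro r
    have := norm_dec w hw z r
    nlinarith [norm_nonneg ((z : E) + r • w), norm_nonneg (z : E), sq_nonneg r,
      abs_le_of_sq_le_sq' (show ‖(z : E)‖ ^ 2 ≤ ‖(z : E) + r • w‖ ^ 2 by rw [this]; nlinarith [sq_nonneg r]) (norm_nonneg _)]
  have hne : ∀ r : ℝ, (z : E) + r • w ≠ 0 := fun r => norm_pos_iff.1 (lt_of_lt_of_le hzn (hnorm r))
  have hk1 : Integrable (fun r : ℝ => kk 1 r) := by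
    have := (kk_int 1 0 1 one_pos one_ne_zero).1
    simpa using this
  refine tendsto_integral_filter_of_dominated_convergence
    (fun ρ : ℝ => a⁻¹ * (kk 1 ρ * (C / ‖(z : E)‖) ^ i * (ww (z : E) * 1))) ?_ ?_ ?_ ?_
  · filter_upwards [self_mem_nhdsWithin] with ε hε
    have hε' : 0 < ε := hε
    apply Continuous.aestronglyMeasurable
    refine continuous_const.mul ((((kk_cont 1)).mul ?_).mul (continuous_const.mul ?_))
    · exact ((gg_cont K hK hbd ε hε').comp (by fun_prop)).pow i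
    · exact ww_cont.comp (by fun_prop)
  · filter_upwards [self_mem_nhdsWithin] with ε hε
    have hε' : 0 < ε := hε
    refine Filter.Eventually.of_forall (fun ρ => ?_)
    have g0 := gg_nonneg K ε ((z : E) + (ρ * (ε / a)) • w) hε'
    have g1 : gg K ε ((z : E) + (ρ * (ε / a)) • w) ≤ C / ‖(z : E)‖ :=
      (hgg ε hε' _ (hne _)).trans (div_le_div_of_nonneg_left hC.le hzn (hnorm _))
    have k0 := (kk_pos 1 ρ one_pos).le
    have w0 := (ww_pos (z : E)).1.le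
    have w1 := (ww_pos (ρ * (ε / a))).1.le
    have w2 := (ww_pos (ρ * (ε / a))).2
    have hCz : 0 ≤ C / ‖(z : E)‖ := div_nonneg hC.le hzn.le
    rw [Real.norm_of_nonneg (by positivity)]
    have i0 : 0 ≤ a⁻¹ := inv_nonneg.2 ha.le
    gcongr
  · exact ((hk1.mul_const _).mul_const _).const_mul _
  · refine Filter.Eventually.of_forall (fun ρ => ?_)
    have t1 : Tendsto (fun ε : ℝ => ρ * (ε / a)) (𝓝[>] (0:ℝ)) (𝓝 0) := by
      have : Continuous (fun ε : ℝ => ρ * (ε / a)) := by fun_prop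
      have h := this.tendsto 0
      simp only [zero_div, mul_zero] at h
      exact h.mono_left nhdsWithin_le_nhds
    have t2 : Tendsto (fun ε : ℝ => (z : E) + (ρ * (ε / a)) • w) (𝓝[>] (0:ℝ)) (𝓝 (z : E)) := by
      have : Tendsto (fun ε : ℝ => (z : E) + (ρ * (ε / a)) • w) (𝓝[>] (0:ℝ))
          (𝓝 ((z : E) + (0:ℝ) • w)) := tendsto_const_nhds.add (t1.smul_const w)
      simpa using this
    have t3 : Tendsto (fun ε : ℝ => gg K ε ((z : E) + (ρ * (ε / a)) • w)) (𝓝[>] (0:ℝ))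
        (𝓝 (G0 K (z : E))) :=
      (gg_tendsto K hK hbd (z : E) hz' (hfr _ hz')).comp (tendsto_id.prodMk t2)
    have t4 : Tendsto (fun ε : ℝ => ww (ρ * (ε / a))) (𝓝[>] (0:ℝ)) (𝓝 1) := by
      have h := (ww_cont (F := ℝ)).tendsto 0
      have h0 : ww (0 : ℝ) = 1 := by simp [ww]
      rw [h0] at h
      exact h.comp t1
    exact tendsto_const_nhds.mul ((tendsto_const_nhds.mul (t3.pow i)).mul
      (tendsto_const_nhds.mul t4))

theorem WWtendsto_WW_tendsto_aux5 (K : Set E) (hK : IsOpen K) (hbd : Bornology.IsBounded K) (i : ℕ)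
    (hin : i + 2 ≤ Module.finrank ℝ E)
    (hfr : ∀ u : E, u ≠ 0 → volume {z : (ℝ ∙ u)ᗮ | (z : E) ∈ frontier K} = 0)
    (w : E) (hw : ‖w‖ = 1) (a : ℝ) (ha : 0 < a) :
    Tendsto (fun ε : ℝ => WW K i ε (a • w)) (𝓝[>] (0:ℝ))
      (𝓝 (Real.sqrt (2 * Real.pi) / a * ∫ y : (ℝ ∙ w)ᗮ, G0 K (y : E) ^ i * ww (y : E))) := by
  have hw0 : w ≠ 0 := by rintro rfl; simp at hw
  obtain ⟨R, hR, hb⟩ : ∃ R : ℝ, 0 < R ∧ K ⊆ ball 0 R := by
    obtain ⟨R, hR⟩ := hbd.subset_ball 0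
    exact ⟨max R 1, lt_of_lt_of_le one_pos (le_max_right _ _),
      hR.trans (ball_subset_ball (le_max_left _ _))⟩
  obtain ⟨C, hC, hgg⟩ := gg_bound K R hR hK hb
  have hfin := finrank_perp w hw0
  haveI : Nontrivial ((ℝ ∙ w)ᗮ : Submodule ℝ E) :=
    Module.nontrivial_of_finrank_pos (R := ℝ) (by omega)
  have hk1 : (∫ r : ℝ, kk 1 r) = Real.sqrt (2 * Real.pi) := by
    have := (kk_int 1 0 1 one_pos one_ne_zero).2
    simpa using this
  have hk1i : Integrable (fun r : ℝ => kk 1 r) := by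
    have := (kk_int 1 0 1 one_pos one_ne_zero).1
    simpa using this
  set J : ℝ → (ℝ ∙ w)ᗮ → ℝ := fun ε z => ∫ ρ : ℝ, a⁻¹ * (kk 1 ρ *
    gg K ε ((z : E) + (ρ * (ε / a)) • w) ^ i * (ww (z : E) * ww (ρ * (ε / a)))) with hJ
  have hW : ∀ ε : ℝ, 0 < ε → WW K i ε (a • w) = ∫ z : (ℝ ∙ w)ᗮ, J ε z := by
    intro ε hε
    have h := (idec w hw _ (WWtendsto_WW_tendsto_aux1 K hK hbd i ε hε (a • w))).1
    rw [WW, h]
    refine integral_congr_ae (Filter.Eventually.of_forall (fun z => ?_))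
    exact WWtendsto_WW_tendsto_aux3 w hw a ha K i ε hε z
  have hlim : (Real.sqrt (2 * Real.pi) / a * ∫ y : (ℝ ∙ w)ᗮ, G0 K (y : E) ^ i * ww (y : E)) =
      ∫ z : (ℝ ∙ w)ᗮ, ∫ ρ : ℝ, a⁻¹ * (kk 1 ρ * G0 K (z : E) ^ i * (ww (z : E) * 1)) := by
    rw [← integral_const_mul]
    refine integral_congr_ae (Filter.Eventually.of_forall (fun z => ?_))
    simp only
    rw [integral_const_mul, integral_mul_const, integral_mul_const, hk1]
    ring
  rw [hlim]
  have hev : (fun ε : ℝ => ∫ z : (ℝ ∙ w)ᗮ, J ε z) =ᶠ[𝓝[>] (0:ℝ)] (fun ε : ℝ => WW K i ε (a • w)) := by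
    filter_upwards [self_mem_nhdsWithin] with ε hε
    exact (hW ε hε).symm
  refine Tendsto.congr' hev ?_
  refine tendsto_integral_filter_of_dominated_convergence
    (fun z : (ℝ ∙ w)ᗮ => a⁻¹ * Real.sqrt (2 * Real.pi) * ((C / ‖z‖) ^ i * ww z)) ?_ ?_ ?_ ?_
  · filter_upwards [self_mem_nhdsWithin] with ε hε
    have hε' : 0 < ε := hε
    have h := (idec w hw _ (WWtendsto_WW_tendsto_aux1 K hK hbd i ε hε' (a • w))).2.2
    have h2 : Integrable (J ε) := by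
      refine h.congr (Filter.Eventually.of_forall (fun z => ?_))
      exact WWtendsto_WW_tendsto_aux3 w hw a ha K i ε hε' z
    exact h2.aestronglyMeasurable
  · filter_upwards [self_mem_nhdsWithin] with ε hε
    have hε' : 0 < ε := hε
    have hae : ∀ᵐ z : (ℝ ∙ w)ᗮ, z ≠ 0 := by
      rw [ae_iff]
      simp
    filter_upwards [hae] with z hz
    have hz' : (z : E) ≠ 0 := by simpa using hz
    have hzn : 0 < ‖(z : E)‖ := norm_pos_iff.2 hz'
    have hnorm : ∀ r : ℝ, ‖(z : E)‖ ≤ ‖(z : E) + r • w‖ := by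
      intro r
      have := norm_dec w hw z r
      exact le_of_sq_le_sq (by rw [this]; nlinarith [sq_nonneg r]) (norm_nonneg _)
    have hne : ∀ r : ℝ, (z : E) + r • w ≠ 0 :=
      fun r => norm_pos_iff.1 (lt_of_lt_of_le hzn (hnorm r))
    have hb1 : ‖J ε z‖ ≤ ∫ ρ : ℝ, a⁻¹ * (kk 1 ρ * (C / ‖(z : E)‖) ^ i * (ww (z : E) * 1)) := by
      refine norm_integral_le_of_norm_le ?_ (Filter.Eventually.of_forall (fun ρ => ?_))
      · exact ((hk1i.mul_const _).mul_const _).const_mul _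
      · have g0 := gg_nonneg K ε ((z : E) + (ρ * (ε / a)) • w) hε'
        have g1 : gg K ε ((z : E) + (ρ * (ε / a)) • w) ≤ C / ‖(z : E)‖ :=
          (hgg ε hε' _ (hne _)).trans (div_le_div_of_nonneg_left hC.le hzn (hnorm _))
        have k0 := (kk_pos 1 ρ one_pos).le
        have w0 := (ww_pos (z : E)).1.le
        have w1 := (ww_pos (ρ * (ε / a))).1.le
        have w2 := (ww_pos (ρ * (ε / a))).2
        have hCz : 0 ≤ C / ‖(z : E)‖ := div_nonneg hC.le hzn.le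
        rw [Real.norm_of_nonneg (by positivity)]
        have i0 : 0 ≤ a⁻¹ := inv_nonneg.2 ha.le
        gcongr
    refine hb1.trans (le_of_eq ?_)
    rw [integral_const_mul, integral_mul_const, integral_mul_const, hk1]
    have : ww z = ww (z : E) := rfl
    rw [this]
    have : ‖z‖ = ‖(z : E)‖ := rfl
    rw [this]
    ring
  · exact (WWtendsto_WW_tendsto_aux2 w hw i C hin).const_mul _
  · have hae : ∀ᵐ z : (ℝ ∙ w)ᗮ, z ≠ 0 := by
      rw [ae_iff]
      simp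
    filter_upwards [hae] with z hz
    exact WWtendsto_WW_tendsto_aux4 K hK hbd i hfr w hw a ha z hz C hC hgg

theorem WWtendsto_WW_tendsto_aux6 (f : E → ℝ) (S T : Submodule ℝ E) (h : S = T) :
    (∫ y : (Sᗮ : Submodule ℝ E), f (y : E)) = ∫ y : (Tᗮ : Submodule ℝ E), f (y : E) := by
  subst h
  rfl

theorem WW_tendsto (K : Set E) (hK : IsOpen K) (hbd : Bornology.IsBounded K) (i : ℕ)
    (hin : i + 2 ≤ Module.finrank ℝ E)
    (hfr : ∀ u : E, u ≠ 0 → volume {z : (ℝ ∙ u)ᗮ | (z : E) ∈ frontier K} = 0)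
    (x : E) (hx : x ≠ 0) :
    Tendsto (fun ε : ℝ => WW K i ε x) (𝓝[>] (0:ℝ)) (𝓝 (W0 K i x)) := by
  have hxn : 0 < ‖x‖ := norm_pos_iff.2 hx
  set w : E := ‖x‖⁻¹ • x with hwdef
  have hw : ‖w‖ = 1 := by
    rw [hwdef, norm_smul, norm_inv, norm_norm, inv_mul_cancel₀ hxn.ne']
  have hxw : x = ‖x‖ • w := by
    rw [hwdef, smul_smul, mul_inv_cancel₀ hxn.ne', one_smul]
  have hspan : (ℝ ∙ x) = (ℝ ∙ w) := by
    rw [hwdef]
    exact (Submodule.span_singleton_smul_eq (IsUnit.mk0 _ (inv_ne_zero hxn.ne')) x).symm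
  have h := WWtendsto_WW_tendsto_aux5 K hK hbd i hin hfr w hw ‖x‖ hxn
  rw [← hxw] at h
  have hF : W0 K i x = Real.sqrt (2 * Real.pi) / ‖x‖ *
      ∫ y : (ℝ ∙ w)ᗮ, G0 K (y : E) ^ i * ww (y : E) := by
    rw [W0, WWtendsto_WW_tendsto_aux6 (fun y => G0 K y ^ i * ww y) _ _ hspan]
  rw [hF]
  exact h

end Pool.Agent.Helper734.IB
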