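import Mathlib
import Pool.Agent.Helper734.IB.Defs
import Pool.Agent.Helper734.IB.BasicA
import Pool.Agent.Helper734.IB.KDmeas
import Pool.Agent.Helper734.IB.Tpbound
import Pool.Agent.Helper734.IB.Tpmeas
import Pool.Agent.Helper734.IB.WWbound
import Pool.Agent.Helper734.IB.WWcont
import Pool.Agent.Helper734.IB.WWderiv
import Pool.Agent.Helper734.IB.WWtendsto

set_option autoImplicit false

namespace Pool.Agent.Helper734.IB

open MeasureTheory Set Filter Topology Metric
open scoped ENNReal NNReal RealInnerProductSpace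

variable {E : Type*} [NormedAddCommGroup E] [InnerProductSpace ℝ E] [FiniteDimensional ℝ E]
  [MeasurableSpace E] [BorelSpace E]

theorem KDlimit_KDL_norm_proj_le (e : E) (he : ‖e‖ = 1) (y : E) : ‖y - ⟪y, e⟫ • e‖ ≤ ‖y‖ := by
  have h1 : ‖y - ⟪y, e⟫ • e‖ ^ 2 = ‖y‖ ^ 2 - ⟪y, e⟫ ^ 2 := by
    rw [norm_sub_sq_real, inner_smul_right, norm_smul, he]
    simp only [Real.norm_eq_abs, mul_one, sq_abs]
    ring
  have h2 : ‖y - ⟪y, e⟫ • e‖ ^ 2 ≤ ‖y‖ ^ 2 := by
    rw [h1]; nlinarith [sq_nonneg ⟪y, e⟫]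
  exact le_of_sq_le_sq h2 (norm_nonneg _)

theorem KDlimit_KDL_proj_shift (e : E) (he : ‖e‖ = 1) (x : E) (t : ℝ) :
    (x + t • e) - ⟪x + t • e, e⟫ • e = x - ⟪x, e⟫ • e := by
  have h : ⟪x + t • e, e⟫ = ⟪x, e⟫ + t := by
    rw [inner_add_left, real_inner_smul_left, real_inner_self_eq_norm_sq, he]
    ring
  rw [h, add_smul]
  abel

theorem KDlimit_KDL_norm_shift (e : E) (he : ‖e‖ = 1) (x : E) (t δ : ℝ)
    (hx : δ < ‖x - ⟪x, e⟫ • e‖) : δ < ‖x + t • e‖ := by
  calc δ < ‖x - ⟪x, e⟫ • e‖ := hx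
    _ = ‖(x + t • e) - ⟪x + t • e, e⟫ • e‖ := by rw [KDlimit_KDL_proj_shift e he]
    _ ≤ ‖x + t • e‖ := KDlimit_KDL_norm_proj_le e he _

theorem KD_limit (K : Set E) (R : ℝ) (hR : 0 < R) (hK : IsOpen K) (hb : K ⊆ ball 0 R) (e : E)
    (he : ‖e‖ = 1) (i : ℕ) (hin : i + 2 ≤ Module.finrank ℝ E)
    (hfr : ∀ u : E, u ≠ 0 → volume {z : (ℝ ∙ u)ᗮ | (z : E) ∈ frontier K} = 0)
    (δ : ℝ) (hδ : 0 < δ) :
    Tendsto (fun ε : ℝ => ∫ x in KD K e δ, aa K e x * VV K i e ε x) (𝓝[>] (0:ℝ))
      (𝓝 (∫ x in KD K e δ, aa K e x * ((W0 K i (x + tp K e x • e) -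
        W0 K i (x - tp K (-e) x • e)) / (tp K e x + tp K (-e) x)))) ∧
    IntegrableOn (fun x => aa K e x * ((W0 K i (x + tp K e x • e) -
        W0 K i (x - tp K (-e) x • e)) / (tp K e x + tp K (-e) x))) (KD K e δ) := by
  have hbd : Bornology.IsBounded K := isBounded_ball.subset hb
  have he' : ‖-e‖ = 1 := by rw [norm_neg, he]
  obtain ⟨C, hC0, hC⟩ := WW_bound K R hR hK hb i hin
  have hmeas : MeasurableSet (KD K e δ) := KD_meas K hK hbd e he δ hδ
  have hsub : KD K e δ ⊆ K := fun x hx => hx.1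
  have hfin : volume (KD K e δ) < ⊤ :=
    lt_of_le_of_lt (measure_mono (hsub.trans hb)) measure_ball_lt_top
  haveI : IsFiniteMeasure (volume.restrict (KD K e δ)) := ⟨by
    rw [Measure.restrict_apply_univ]; exact hfin⟩
  -- the integrand after averaging
  set F : ℝ → E → ℝ := fun ε x => aa K e x * ((WW K i ε (x + tp K e x • e) -
    WW K i ε (x - tp K (-e) x • e)) / (tp K e x + tp K (-e) x)) with hF
  set F0 : E → ℝ := fun x => aa K e x * ((W0 K i (x + tp K e x • e) -
    W0 K i (x - tp K (-e) x • e)) / (tp K e x + tp K (-e) x)) with hF0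
  have hp : ∀ x ∈ KD K e δ, δ < ‖x + tp K e x • e‖ := fun x hx =>
    KDlimit_KDL_norm_shift e he x _ δ hx.2.2
  have hq : ∀ x ∈ KD K e δ, δ < ‖x - tp K (-e) x • e‖ := fun x hx => by
    have := KDlimit_KDL_norm_shift e he x (-(tp K (-e) x)) δ hx.2.2
    rwa [neg_smul, ← sub_eq_add_neg] at this
  have hp0 : ∀ x ∈ KD K e δ, x + tp K e x • e ≠ 0 := fun x hx h0 => by
    have := hp x hx
    rw [h0, norm_zero] at this
    linarith
  have hq0 : ∀ x ∈ KD K e δ, x - tp K (-e) x • e ≠ 0 := fun x hx h0 => by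
    have := hq x hx
    rw [h0, norm_zero] at this
    linarith
  set M : ℝ := R * ((C / δ + C / δ) / δ) with hM
  -- bound
  have hbound : ∀ ε : ℝ, 0 < ε → ∀ x ∈ KD K e δ, ‖F ε x‖ ≤ M := by
    intro ε hε x hx
    have h1 : |aa K e x| ≤ R := (tp_bound K R hb hK e he x hx.1).2.2.1.le
    have h2 : |WW K i ε (x + tp K e x • e)| ≤ C / δ := by
      refine (hC ε hε _ (hp0 x hx)).trans ?_
      exact div_le_div_of_nonneg_left hC0.le hδ (hp x hx).le
    have h3 : |WW K i ε (x - tp K (-e) x • e)| ≤ C / δ := by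
      refine (hC ε hε _ (hq0 x hx)).trans ?_
      exact div_le_div_of_nonneg_left hC0.le hδ (hq x hx).le
    have h4 : δ < tp K e x + tp K (-e) x := hx.2.1
    have h5 : |WW K i ε (x + tp K e x • e) - WW K i ε (x - tp K (-e) x • e)| ≤ C / δ + C / δ :=
      (abs_sub _ _).trans (add_le_add h2 h3)
    have h6 : |(WW K i ε (x + tp K e x • e) - WW K i ε (x - tp K (-e) x • e)) /
        (tp K e x + tp K (-e) x)| ≤ (C / δ + C / δ) / δ := by
      rw [abs_div, abs_of_pos (hδ.trans h4)]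
      exact div_le_div₀ (by positivity) h5 hδ h4.le
    rw [hF, Real.norm_eq_abs, abs_mul]
    exact mul_le_mul h1 h6 (abs_nonneg _) hR.le
  -- pointwise limit
  have hlim : ∀ x ∈ KD K e δ, Tendsto (fun ε => F ε x) (𝓝[>] (0:ℝ)) (𝓝 (F0 x)) := by
    intro x hx
    have h1 := WW_tendsto K hK hbd i hin hfr _ (hp0 x hx)
    have h2 := WW_tendsto K hK hbd i hin hfr _ (hq0 x hx)
    exact ((h1.sub h2).div_const _).const_mul _
  -- measurability
  have hFm : ∀ ε : ℝ, 0 < ε → AEStronglyMeasurable (F ε) (volume.restrict (KD K e δ)) := by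
    intro ε hε
    have hW : Measurable (WW K i ε) := (WW_cont K hK hbd i ε hε).measurable
    have ht := tp_meas K hK hbd e he
    have ht' := tp_meas K hK hbd (-e) he'
    have ha := aa_meas K hK hbd e he
    have hG : Measurable (fun x => K.indicator (aa K e) x *
        ((WW K i ε (x + K.indicator (tp K e) x • e) -
          WW K i ε (x - K.indicator (tp K (-e)) x • e)) /
          (K.indicator (tp K e) x + K.indicator (tp K (-e)) x))) := by
      refine ha.mul (Measurable.div (Measurable.sub ?_ ?_) (ht.add ht'))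
      · exact hW.comp (measurable_id.add (ht.smul_const e))
      · exact hW.comp (measurable_id.sub (ht'.smul_const e))
    refine hG.aestronglyMeasurable.congr ?_
    refine (ae_restrict_iff' hmeas).2 (Eventually.of_forall fun x hx => ?_)
    simp only [hF, Set.indicator_of_mem (hsub hx)]
  have hev : ∀ᶠ ε : ℝ in 𝓝[>] (0:ℝ), 0 < ε := self_mem_nhdsWithin
  have hF0m : AEStronglyMeasurable F0 (volume.restrict (KD K e δ)) := by
    -- use the sequence `1 / (n + 1)`
    have hseq : Tendsto (fun n : ℕ => 1 / ((n : ℝ) + 1)) atTop (𝓝[>] (0:ℝ)) := by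
      refine tendsto_nhdsWithin_iff.2 ⟨tendsto_one_div_add_atTop_nhds_zero_nat, ?_⟩
      exact Eventually.of_forall fun n => by
        show (0:ℝ) < _
        positivity
    refine aestronglyMeasurable_of_tendsto_ae (u := atTop) (f := fun n : ℕ => F (1 / ((n : ℝ) + 1)))
      (fun n => hFm _ (by positivity)) ?_
    refine (ae_restrict_iff' hmeas).2 (Eventually.of_forall fun x hx => ?_)
    exact (hlim x hx).comp hseq
  have hF0b : ∀ x ∈ KD K e δ, ‖F0 x‖ ≤ M := by
    intro x hx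
    refine le_of_tendsto (hlim x hx).norm ?_
    filter_upwards [hev] with ε hε
    exact hbound ε hε x hx
  constructor
  · have h1 : Tendsto (fun ε : ℝ => ∫ x in KD K e δ, F ε x) (𝓝[>] (0:ℝ))
        (𝓝 (∫ x in KD K e δ, F0 x)) := by
      refine tendsto_integral_filter_of_dominated_convergence (fun _ => M) ?_ ?_ ?_ ?_
      · filter_upwards [hev] with ε hε
        exact hFm ε hε
      · filter_upwards [hev] with ε hε
        exact (ae_restrict_iff' hmeas).2 (Eventually.of_forall fun x hx => hbound ε hε x hx)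
      · exact integrable_const _
      · exact (ae_restrict_iff' hmeas).2 (Eventually.of_forall fun x hx => hlim x hx)
    refine h1.congr' ?_
    filter_upwards [hev] with ε hε
    exact (KDavg K hK hbd e he δ hδ (WW K i ε) (VV K i e ε) (VV_cont K hK hbd e i ε hε).1
      (WW_cont K hK hbd i ε hε) (fun x l => WW_deriv K hK hbd e i ε hε x l)).symm
  · refine Integrable.of_bound hF0m M ?_
    exact (ae_restrict_iff' hmeas).2 (Eventually.of_forall fun x hx => hF0b x hx)

end Pool.Agent.Helper734.IB
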