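import Mathlib
import Pool.Agent.Helper734.IB.Defs
import Pool.Agent.Helper734.IB.KDmeas
import Pool.Agent.Helper734.IB.Tpbound
import Pool.Agent.Helper734.IB.Tpmeas

set_option autoImplicit false

namespace Pool.Agent.Helper734.IB

open MeasureTheory Set Filter Topology Metric
open scoped ENNReal NNReal RealInnerProductSpace

variable {E : Type*} [NormedAddCommGroup E] [InnerProductSpace ℝ E] [FiniteDimensional ℝ E]
  [MeasurableSpace E] [BorelSpace E]

theorem KD_small (K : Set E) (hK : IsOpen K) (hbd : Bornology.IsBounded K) (e : E) (he : ‖e‖ = 1)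
    (hn : 2 ≤ Module.finrank ℝ E) :
    Tendsto (fun δ : ℝ => (volume (K \ KD K e δ)).toReal) (𝓝[>] (0:ℝ)) (𝓝 0) := by
  obtain ⟨R, hb⟩ : ∃ R, K ⊆ ball 0 R := by
    obtain ⟨R, hR⟩ := hbd.subset_ball (0 : E)
    exact ⟨R, hR⟩
  have hfin : volume K ≠ ∞ := hbd.measure_lt_top.ne
  have hmeas : ∀ r > (0:ℝ), NullMeasurableSet (K \ KD K e r) (volume : Measure E) := fun r hr =>
    (hK.measurableSet.diff (KD_meas K hK hbd e he r hr)).nullMeasurableSet
  have hmono : ∀ i j : ℝ, 0 < i → i ≤ j → K \ KD K e i ⊆ K \ KD K e j := by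
    intro i j _ hij x hx
    refine ⟨hx.1, fun hxj => hx.2 ⟨hxj.1, lt_of_le_of_lt hij hxj.2.1, lt_of_le_of_lt hij hxj.2.2⟩⟩
  have hlim := tendsto_measure_biInter_gt (μ := (volume : Measure E)) (s := fun δ : ℝ => K \ KD K e δ)
    (a := (0:ℝ)) hmeas hmono ⟨1, one_pos, ne_top_of_le_ne_top hfin (measure_mono sdiff_subset)⟩
  have hne : (-e : E) ≠ 0 := by
    intro h
    rw [neg_eq_zero] at h
    rw [h, norm_zero] at he
    exact zero_ne_one he
  have hspan : (ℝ ∙ e) ≠ ⊤ := by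
    intro h
    have h1 : Module.finrank ℝ (ℝ ∙ e) ≤ 1 := by
      have := finrank_span_le_card (R := ℝ) ({e} : Set E)
      simpa using this
    rw [h, finrank_top] at h1
    omega
  have hsub : (⋂ r > (0:ℝ), K \ KD K e r) ⊆ ((ℝ ∙ e : Submodule ℝ E) : Set E) := by
    intro x hx
    have hx' : ∀ r > (0:ℝ), x ∈ K \ KD K e r := by simpa using hx
    have hxK : x ∈ K := (hx' 1 one_pos).1
    have p1 := (tp_bound K R hb hK e he x hxK).1
    have p2 := (tp_bound K R hb hK (-e) (by rw [norm_neg]; exact he) x hxK).1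
    have hg : ‖x - ⟪x, e⟫ • e‖ = 0 := by
      by_contra hne0
      have hpos : 0 < ‖x - ⟪x, e⟫ • e‖ := lt_of_le_of_ne (norm_nonneg _) (Ne.symm hne0)
      set δ := min (tp K e x + tp K (-e) x) ‖x - ⟪x, e⟫ • e‖ / 2 with hδ
      have hmin : 0 < min (tp K e x + tp K (-e) x) ‖x - ⟪x, e⟫ • e‖ := lt_min (by linarith) hpos
      have hδ0 : 0 < δ := by rw [hδ]; linarith
      refine (hx' δ hδ0).2 ⟨hxK, ?_, ?_⟩
      · have := min_le_left (tp K e x + tp K (-e) x) ‖x - ⟪x, e⟫ • e‖
        rw [hδ]; linarith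
      · have := min_le_right (tp K e x + tp K (-e) x) ‖x - ⟪x, e⟫ • e‖
        rw [hδ]; linarith
    have hx0 : x = ⟪x, e⟫ • e := by
      rw [norm_eq_zero, sub_eq_zero] at hg
      exact hg
    rw [hx0]
    exact Submodule.smul_mem _ _ (Submodule.mem_span_singleton_self e)
  have hzero : volume (⋂ r > (0:ℝ), K \ KD K e r) = 0 :=
    measure_mono_null hsub (Measure.addHaar_submodule _ _ hspan)
  rw [hzero] at hlim
  have := (ENNReal.tendsto_toReal ENNReal.zero_ne_top).comp hlim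
  rw [ENNReal.toReal_zero] at this
  exact this

end Pool.Agent.Helper734.IB
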