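import Mathlib
import Pool.Agent.Helper734.IB.Defs

set_option autoImplicit false

namespace Pool.Agent.Helper734.IB

open MeasureTheory Set Filter Topology Metric
open scoped ENNReal NNReal RealInnerProductSpace

variable {E : Type*} [NormedAddCommGroup E] [InnerProductSpace ℝ E] [FiniteDimensional ℝ E]
  [MeasurableSpace E] [BorelSpace E]

theorem midclosed (S : Set ℝ) (hS : IsClosed S) (hmid : ∀ x ∈ S, ∀ y ∈ S, (x + y) / 2 ∈ S)
    (a b : ℝ) (ha : a ∈ S) (hb : b ∈ S) : Icc a b ⊆ S := by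
  intro x hx
  by_contra hxS
  have hA : IsClosed (S ∩ Iic x) := hS.inter isClosed_Iic
  have hB : IsClosed (S ∩ Ici x) := hS.inter isClosed_Ici
  have hAne : (S ∩ Iic x).Nonempty := ⟨a, ha, hx.1⟩
  have hBne : (S ∩ Ici x).Nonempty := ⟨b, hb, hx.2⟩
  have hAb : BddAbove (S ∩ Iic x) := ⟨x, fun y hy => hy.2⟩
  have hBb : BddBelow (S ∩ Ici x) := ⟨x, fun y hy => hy.2⟩
  have hp := hA.csSup_mem hAne hAb
  have hq := hB.csInf_mem hBne hBb
  set p := sSup (S ∩ Iic x) with hpdef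
  set q := sInf (S ∩ Ici x) with hqdef
  have hpx : p < x := lt_of_le_of_ne hp.2 (fun h => hxS (h ▸ hp.1))
  have hqx : x < q := lt_of_le_of_ne hq.2 (fun h => hxS (h ▸ hq.1))
  have hm := hmid p hp.1 q hq.1
  rcases le_total ((p + q) / 2) x with h | h
  · have := le_csSup hAb ⟨hm, h⟩
    have h2 : (p + q) / 2 ≤ p := this
    linarith
  · have := csInf_le hBb ⟨hm, h⟩
    have h2 : q ≤ (p + q) / 2 := this
    linarith

end Pool.Agent.Helper734.IB
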