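import Mathlib
import Pool.Agent.Helper734.IB.Defs
import Pool.Agent.Helper734.IB.PL

set_option autoImplicit false

namespace Pool.Agent.Helper734.IB

open MeasureTheory Set Filter Topology Metric
open scoped ENNReal NNReal RealInnerProductSpace

variable {E : Type*} [NormedAddCommGroup E] [InnerProductSpace ℝ E] [FiniteDimensional ℝ E]
  [MeasurableSpace E] [BorelSpace E]

theorem plprod_split_mp_8454 (m s : ℕ) :
    MeasurePreserving (fun z : Fin (m + s) → ℝ =>
      ((fun i => z (Fin.castAdd s i), fun j => z (Fin.natAdd m j)) :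
        (Fin m → ℝ) × (Fin s → ℝ))) volume volume := by
  have h1 := (volume_measurePreserving_piCongrLeft (fun _ : Fin (m + s) => ℝ)
    (finSumFinEquiv (m := m) (n := s))).symm
  have h2 := (volume_measurePreserving_sumPiEquivProdPi
    (fun _ : Fin m ⊕ Fin s => ℝ))
  have h3 := h2.comp h1
  convert h3 using 1
  funext z
  refine Prod.ext ?_ ?_
  · funext i
    simp [MeasurableEquiv.sumPiEquivProdPi, MeasurableEquiv.piCongrLeft,
      Equiv.sumPiEquivProdPi, Equiv.piCongrLeft_symm_apply]
  · funext i
    simp [MeasurableEquiv.sumPiEquivProdPi, MeasurableEquiv.piCongrLeft,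
      Equiv.sumPiEquivProdPi, Equiv.piCongrLeft_symm_apply]



theorem plprod {F : Type*} [NormedAddCommGroup F] [InnerProductSpace ℝ F] [FiniteDimensional ℝ F]
    [MeasurableSpace F] [BorelSpace F] (s : ℕ) (f g h : F × (Fin s → ℝ) → ℝ≥0∞)
    (hf : Measurable f) (hg : Measurable g) (hh : Measurable h)
    (H : ∀ p q, f p * g q ≤ h ((2:ℝ)⁻¹ • (p + q)) ^ 2) :
    (∫⁻ p, f p) * (∫⁻ p, g p) ≤ (∫⁻ p, h p) ^ 2 := by
  set m := Module.finrank ℝ F with hm
  set b := stdOrthonormalBasis ℝ F with hb
  have hA : MeasurePreserving (fun y : Fin m → ℝ => b.repr.symm (WithLp.toLp 2 y))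
      volume volume :=
    (b.measurePreserving_repr_symm).comp (PiLp.volume_preserving_toLp (Fin m))
  have hT : MeasurePreserving (fun z : Fin (m + s) → ℝ =>
      ((b.repr.symm (WithLp.toLp 2 (fun i => z (Fin.castAdd s i))),
        fun j => z (Fin.natAdd m j)) : F × (Fin s → ℝ))) volume volume :=
    (hA.prod (MeasurePreserving.id volume)).comp (plprod_split_mp_8454 m s)
  set T : (Fin (m + s) → ℝ) → F × (Fin s → ℝ) := fun z =>
      ((b.repr.symm (WithLp.toLp 2 (fun i => z (Fin.castAdd s i))),
        fun j => z (Fin.natAdd m j)) : F × (Fin s → ℝ)) with hTdef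
  rw [← hT.lintegral_comp hf, ← hT.lintegral_comp hg, ← hT.lintegral_comp hh]
  refine pln (m + s) (fun z => f (T z)) (fun z => g (T z)) (fun z => h (T z))
    (hf.comp hT.measurable) (hg.comp hT.measurable) (hh.comp hT.measurable) ?_
  intro x y
  have key : T (fun i => (x i + y i) / 2) = (2:ℝ)⁻¹ • (T x + T y) := by
    rw [hTdef]
    refine Prod.ext ?_ ?_
    · simp only [Prod.smul_fst, Prod.fst_add]
      rw [← map_add, ← map_smul]
      congr 1
      ext i
      simp
      ring
    · funext j
      simp only [Prod.smul_snd, Prod.snd_add, Pi.smul_apply, Pi.add_apply, smul_eq_mul]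
      ring
  rw [key]
  exact H (T x) (T y)

end Pool.Agent.Helper734.IB
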