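import Mathlib
import Pool.Agent.Helper734.IB.Defs
import Pool.Agent.Helper734.IB.KkA
import Pool.Agent.Helper734.IB.Plprod
import Pool.Agent.Helper734.IB.WwA

set_option autoImplicit false

namespace Pool.Agent.Helper734.IB

open MeasureTheory Set Filter Topology Metric
open scoped ENNReal NNReal RealInnerProductSpace

variable {E : Type*} [NormedAddCommGroup E] [InnerProductSpace ℝ E] [FiniteDimensional ℝ E]
  [MeasurableSpace E] [BorelSpace E]

theorem PhiA_kk_mid (ε a b : ℝ) : kk ε a * kk ε b ≤ kk ε ((a + b) / 2) ^ 2 := by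
  unfold kk
  have h1 : ε⁻¹ * Real.exp (-(a ^ 2) / (2 * ε ^ 2)) * (ε⁻¹ * Real.exp (-(b ^ 2) / (2 * ε ^ 2))) =
      ε⁻¹ ^ 2 * Real.exp (-(a ^ 2 + b ^ 2) / (2 * ε ^ 2)) := by
    rw [show -(a ^ 2 + b ^ 2) / (2 * ε ^ 2) = -(a ^ 2) / (2 * ε ^ 2) + -(b ^ 2) / (2 * ε ^ 2) by ring,
      Real.exp_add]
    ring
  have h2 : (ε⁻¹ * Real.exp (-(((a + b) / 2) ^ 2) / (2 * ε ^ 2))) ^ 2 =
      ε⁻¹ ^ 2 * Real.exp (-(2 * ((a + b) / 2) ^ 2) / (2 * ε ^ 2)) := by
    rw [mul_pow, ← Real.exp_nat_mul]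
    congr 2
    push_cast
    ring
  rw [h1, h2]
  refine mul_le_mul_of_nonneg_left (Real.exp_le_exp.2 ?_) (by positivity)
  refine div_le_div_of_nonneg_right ?_ (by positivity)
  nlinarith [sq_nonneg (a - b)]

theorem PhiA_ww_mid {F : Type*} [NormedAddCommGroup F] [InnerProductSpace ℝ F] (p q : F) :
    ww p * ww q ≤ ww ((2:ℝ)⁻¹ • (p + q)) ^ 2 := by
  unfold ww
  rw [← Real.exp_add, ← Real.exp_nat_mul]
  refine Real.exp_le_exp.2 ?_
  rw [norm_smul, Real.norm_eq_abs, abs_of_pos (by norm_num : (0:ℝ) < 2⁻¹), mul_pow]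
  have := parallelogram_law_with_norm ℝ p q
  push_cast
  nlinarith [sq_nonneg ‖p - q‖, norm_nonneg (p + q)]

theorem Phi_even {F : Type*} [NormedAddCommGroup F] [InnerProductSpace ℝ F]
    [FiniteDimensional ℝ F] [MeasurableSpace F] [BorelSpace F] {s : ℕ} (y : Fin s → F)
    (t ε : ℝ) (c r : Fin s → ℝ) (l : ℝ) : Phi y t ε c r (-l) = Phi y t ε c r l := by
  unfold Phi
  set B : Set (Fin s → ℝ) := Set.pi univ (fun j => Ioo (-(r j)) (r j)) with hB
  have hBm : MeasurableSet B := MeasurableSet.univ_pi fun j => measurableSet_Ioo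
  have hBs : ∀ h : Fin s → ℝ, -h ∈ B ↔ h ∈ B := by
    intro h
    simp only [hB, Set.mem_univ_pi, Pi.neg_apply, mem_Ioo]
    refine forall_congr' fun j => ?_
    constructor <;> rintro ⟨h1, h2⟩ <;> constructor <;> linarith
  rw [← lintegral_neg_eq_self]
  refine lintegral_congr fun v => ?_
  rw [← lintegral_indicator hBm, ← lintegral_indicator hBm, ← lintegral_neg_eq_self]
  refine lintegral_congr fun h => ?_
  by_cases hh : h ∈ B
  · rw [Set.indicator_of_mem ((hBs h).2 hh), Set.indicator_of_mem hh]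
    congr 2
    · refine Finset.prod_congr rfl fun j _ => ?_
      rw [← kk_even]
      congr 1
      rw [inner_neg_left, Pi.neg_apply]
      ring
    · unfold ww
      rw [norm_neg]
  · rw [Set.indicator_of_notMem (fun h' => hh ((hBs h).1 h')), Set.indicator_of_notMem hh]

theorem Phi_mid {F : Type*} [NormedAddCommGroup F] [InnerProductSpace ℝ F]
    [FiniteDimensional ℝ F] [MeasurableSpace F] [BorelSpace F] {s : ℕ} (y : Fin s → F)
    (t ε : ℝ) (hε : 0 < ε) (c r : Fin s → ℝ) (l m : ℝ) :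
    Phi y t ε c r l * Phi y t ε c r m ≤ Phi y t ε c r ((l + m) / 2) ^ 2 := by
  set B : Set (Fin s → ℝ) := Set.pi univ (fun j => Ioo (-(r j)) (r j)) with hB
  have hBm : MeasurableSet B := MeasurableSet.univ_pi fun j => measurableSet_Ioo
  have hBc : Convex ℝ B := convex_pi fun j _ => convex_Ioo _ _
  let G : ℝ → F × (Fin s → ℝ) → ℝ := fun l p =>
    (∏ j, kk ε (⟪p.1, y j⟫ + t * (p.2 j + l * c j))) * ww p.1
  have hGc : ∀ l, Continuous (G l) := by
    intro l
    refine Continuous.mul ?_ (ww_cont.comp continuous_fst)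
    refine continuous_finsetProd _ fun j _ => (kk_cont ε).comp ?_
    fun_prop
  let f : ℝ → F × (Fin s → ℝ) → ℝ≥0∞ := fun l =>
    ((univ : Set F) ×ˢ B).indicator fun p => ENNReal.ofReal (G l p)
  have hfm : ∀ l, Measurable (f l) := fun l =>
    (hGc l).measurable.ennreal_ofReal.indicator (MeasurableSet.univ.prod hBm)
  have hPhi : ∀ l, Phi y t ε c r l = ∫⁻ p, f l p := by
    intro l
    unfold Phi
    rw [Measure.volume_eq_prod, lintegral_prod _ (hfm l).aemeasurable]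
    refine lintegral_congr fun v => ?_
    rw [← hB, ← lintegral_indicator hBm]
    refine lintegral_congr fun h => ?_
    by_cases hh : h ∈ B
    · rw [Set.indicator_of_mem hh]
      change _ = ((univ : Set F) ×ˢ B).indicator _ (v, h)
      rw [Set.indicator_of_mem (show ((v, h) : F × (Fin s → ℝ)) ∈ (univ : Set F) ×ˢ B from ⟨mem_univ _, hh⟩)]
    · rw [Set.indicator_of_notMem hh]
      change _ = ((univ : Set F) ×ˢ B).indicator _ (v, h)
      rw [Set.indicator_of_notMem (fun h' => hh h'.2)]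
  rw [hPhi, hPhi, hPhi]
  refine plprod s _ _ _ (hfm _) (hfm _) (hfm _) fun p q => ?_
  by_cases hp : p ∈ (univ : Set F) ×ˢ B
  swap
  · change ((univ : Set F) ×ˢ B).indicator _ p * _ ≤ _
    rw [Set.indicator_of_notMem hp, zero_mul]
    exact bot_le
  by_cases hq : q ∈ (univ : Set F) ×ˢ B
  swap
  · change _ * ((univ : Set F) ×ˢ B).indicator _ q ≤ _
    rw [Set.indicator_of_notMem hq, mul_zero]
    exact bot_le
  have hpq : (2:ℝ)⁻¹ • (p + q) ∈ (univ : Set F) ×ˢ B := by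
    refine ⟨mem_univ _, ?_⟩
    have := hBc hp.2 hq.2 (a := (2:ℝ)⁻¹) (b := (2:ℝ)⁻¹) (by norm_num) (by norm_num) (by norm_num)
    rw [← smul_add] at this
    exact this
  change ((univ : Set F) ×ˢ B).indicator _ p * ((univ : Set F) ×ˢ B).indicator _ q ≤
    (((univ : Set F) ×ˢ B).indicator _ ((2:ℝ)⁻¹ • (p + q))) ^ 2
  rw [Set.indicator_of_mem hp, Set.indicator_of_mem hq, Set.indicator_of_mem hpq]
  have hG0 : ∀ l p, 0 ≤ G l p := fun l p =>
    mul_nonneg (Finset.prod_nonneg fun j _ => (kk_pos ε _ hε).le) (ww_pos _).1.le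
  rw [← ENNReal.ofReal_mul (hG0 _ _), ← ENNReal.ofReal_pow (hG0 _ _)]
  refine ENNReal.ofReal_le_ofReal ?_
  change (∏ j, kk ε (⟪p.1, y j⟫ + t * (p.2 j + l * c j))) * ww p.1 *
    ((∏ j, kk ε (⟪q.1, y j⟫ + t * (q.2 j + m * c j))) * ww q.1) ≤
    ((∏ j, kk ε (⟪((2:ℝ)⁻¹ • (p + q)).1, y j⟫ + t * (((2:ℝ)⁻¹ • (p + q)).2 j + (l + m) / 2 * c j))) *
      ww ((2:ℝ)⁻¹ • (p + q)).1) ^ 2
  rw [mul_mul_mul_comm, mul_pow, ← Finset.prod_mul_distrib, ← Finset.prod_pow]
  refine mul_le_mul ?_ (PhiA_ww_mid p.1 q.1) (mul_nonneg (ww_pos _).1.le (ww_pos _).1.le)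
    (Finset.prod_nonneg fun j _ => sq_nonneg _)
  refine Finset.prod_le_prod (fun j _ => mul_nonneg (kk_pos ε _ hε).le (kk_pos ε _ hε).le) fun j _ => ?_
  refine (PhiA_kk_mid ε _ _).trans (le_of_eq ?_)
  congr 2
  simp only [Prod.smul_fst, Prod.fst_add, Prod.smul_snd, Prod.snd_add, Pi.smul_apply, Pi.add_apply,
    smul_eq_mul, inner_smul_left, inner_add_left, conj_trivial]
  ring

end Pool.Agent.Helper734.IB
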