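import Mathlib
import Pool.Agent.Helper734.IB.Defs
import Pool.Agent.Helper734.IB.KkA
import Pool.Agent.Helper734.IB.WwA

set_option autoImplicit false

namespace Pool.Agent.Helper734.IB

open MeasureTheory Set Filter Topology Metric
open scoped ENNReal NNReal RealInnerProductSpace

variable {E : Type*} [NormedAddCommGroup E] [InnerProductSpace ℝ E] [FiniteDimensional ℝ E]
  [MeasurableSpace E] [BorelSpace E]

theorem Phi_cont {F : Type*} [NormedAddCommGroup F] [InnerProductSpace ℝ F]
    [FiniteDimensional ℝ F] [MeasurableSpace F] [BorelSpace F] {s : ℕ} (y : Fin s → F)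
    (t ε : ℝ) (hε : 0 < ε) (c r : Fin s → ℝ) : Continuous (Phi y t ε c r) := by
  classical
  set box : Set (Fin s → ℝ) := Set.pi univ (fun j => Ioo (-(r j)) (r j)) with hbox
  -- the integrand
  set g : ℝ → F → (Fin s → ℝ) → ℝ≥0∞ := fun l v h =>
    ENNReal.ofReal ((∏ j, kk ε (⟪v, y j⟫ + t * (h j + l * c j))) * ww v) with hg
  have hfinbox : volume box < ∞ := by
    have hb : Bornology.IsBounded box := by
      refine (Bornology.IsBounded.pi (fun j => ?_)).subset (subset_refl _)
      exact isBounded_Ioo _ _
    exact hb.measure_lt_top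
  have hkk : Continuous (kk ε) := kk_cont ε
  have hww : Continuous (ww : F → ℝ) := ww_cont
  -- joint continuity in (v,h)
  have hjoint : ∀ l, Continuous (fun q : F × (Fin s → ℝ) => g l q.1 q.2) := by
    intro l
    refine ENNReal.continuous_ofReal.comp ?_
    refine Continuous.mul ?_ (hww.comp continuous_fst)
    refine continuous_finsetProd _ (fun j _ => hkk.comp ?_)
    refine Continuous.add ?_ ?_
    · exact continuous_fst.inner continuous_const
    · refine continuous_const.mul ?_
      exact ((continuous_apply j).comp continuous_snd).add continuous_const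
  have hmeas2 : ∀ l, Measurable (fun q : F × (Fin s → ℝ) => g l q.1 q.2) := fun l =>
    (hjoint l).measurable
  have hmv : ∀ l v, Measurable (fun h : Fin s → ℝ => g l v h) := by
    intro l v
    have h1 : Continuous (fun h : Fin s → ℝ => ((v, h) : F × (Fin s → ℝ))) :=
      continuous_const.prodMk continuous_id
    exact ((hjoint l).comp h1).measurable

  have hcl : ∀ v h, Continuous (fun l => g l v h) := by
    intro v h
    refine ENNReal.continuous_ofReal.comp ?_
    refine Continuous.mul ?_ continuous_const
    refine continuous_finsetProd _ (fun j _ => hkk.comp ?_)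
    exact continuous_const.add (continuous_const.mul
      (continuous_const.add (continuous_id.mul continuous_const)))
  have hbd : ∀ l v h, g l v h ≤ ENNReal.ofReal (ε⁻¹ ^ s * ww v) := by
    intro l v h
    refine ENNReal.ofReal_le_ofReal ?_
    refine mul_le_mul_of_nonneg_right ?_ (ww_pos v).1.le
    calc (∏ j, kk ε (⟪v, y j⟫ + t * (h j + l * c j))) ≤ ∏ _j : Fin s, ε⁻¹ :=
          Finset.prod_le_prod (fun j _ => (kk_pos ε _ hε).le) (fun j _ => kk_le ε _ hε)
      _ = ε⁻¹ ^ s := by simp
  have hPhi : Phi y t ε c r = fun l => ∫⁻ v : F, ∫⁻ h in box, g l v h := by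
    funext l
    rfl
  clear_value g
  rw [hPhi, continuous_iff_continuousAt]
  intro l0
  refine tendsto_lintegral_filter_of_dominated_convergence
    (fun v => ENNReal.ofReal (ε⁻¹ ^ s * ww v) * volume box) ?_ ?_ ?_ ?_
  · refine Eventually.of_forall (fun l => ?_)
    exact Measurable.lintegral_prod_right' (hmeas2 l)
  · refine Eventually.of_forall (fun l => Eventually.of_forall (fun v => ?_))
    calc ∫⁻ h in box, g l v h ≤ ∫⁻ _h in box, ENNReal.ofReal (ε⁻¹ ^ s * ww v) :=
          lintegral_mono (fun h => hbd l v h)
      _ = ENNReal.ofReal (ε⁻¹ ^ s * ww v) * volume box := by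
          rw [lintegral_const, Measure.restrict_apply_univ]
  · rw [lintegral_mul_const' _ _ hfinbox.ne]
    refine ENNReal.mul_ne_top ?_ hfinbox.ne
    have hint : Integrable (fun v : F => ε⁻¹ ^ s * ww v) := by
      have := (ww_int (E := F) 0)
      simp only [pow_zero, one_mul] at this
      exact this.const_mul _
    exact hint.lintegral_lt_top.ne
  · refine Eventually.of_forall (fun v => ?_)
    refine tendsto_lintegral_filter_of_dominated_convergence
      (fun _ => ENNReal.ofReal (ε⁻¹ ^ s * ww v)) ?_ ?_ ?_ ?_
    · exact Eventually.of_forall (fun l => hmv l v)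
    · exact Eventually.of_forall (fun l => Eventually.of_forall (fun h => hbd l v h))
    · rw [lintegral_const, Measure.restrict_apply_univ]
      exact ENNReal.mul_ne_top ENNReal.ofReal_ne_top hfinbox.ne
    · exact Eventually.of_forall (fun h => (hcl v h).continuousAt)

end Pool.Agent.Helper734.IB
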