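import Mathlib
import Pool.Agent.Helper734.IB.Defs
import Pool.Agent.Helper734.IB.KkA
import Pool.Agent.Helper734.IB.Midclosed
import Pool.Agent.Helper734.IB.PhiA
import Pool.Agent.Helper734.IB.PhiB
import Pool.Agent.Helper734.IB.WwA

set_option autoImplicit false

namespace Pool.Agent.Helper734.IB

open MeasureTheory Set Filter Topology Metric
open scoped ENNReal NNReal RealInnerProductSpace

variable {E : Type*} [NormedAddCommGroup E] [InnerProductSpace ℝ E] [FiniteDimensional ℝ E]
  [MeasurableSpace E] [BorelSpace E]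

theorem Phi_anti {F : Type*} [NormedAddCommGroup F] [InnerProductSpace ℝ F]
    [FiniteDimensional ℝ F] [MeasurableSpace F] [BorelSpace F] {s : ℕ} (y : Fin s → F)
    (t ε : ℝ) (hε : 0 < ε) (c r : Fin s → ℝ) (l m : ℝ) (hl : 0 ≤ l) (hlm : l ≤ m) :
    Phi y t ε c r m ≤ Phi y t ε c r l := by
  have hS : IsClosed {z : ℝ | Phi y t ε c r m ≤ Phi y t ε c r z} :=
    isClosed_le continuous_const (Phi_cont y t ε hε c r)
  have h := midclosed {z : ℝ | Phi y t ε c r m ≤ Phi y t ε c r z} hS (by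
    intro x hx z hz
    have hx' : Phi y t ε c r m ≤ Phi y t ε c r x := hx
    have hz' : Phi y t ε c r m ≤ Phi y t ε c r z := hz
    show Phi y t ε c r m ≤ Phi y t ε c r ((x + z) / 2)
    have h1 : Phi y t ε c r m ^ 2 ≤ Phi y t ε c r ((x + z) / 2) ^ 2 := by
      calc Phi y t ε c r m ^ 2 = Phi y t ε c r m * Phi y t ε c r m := sq _
        _ ≤ Phi y t ε c r x * Phi y t ε c r z := mul_le_mul' hx' hz'
        _ ≤ _ := Phi_mid y t ε hε c r x z
    exact le_of_not_gt fun hlt => absurd h1 (not_le.2 (ENNReal.pow_lt_pow_left (by norm_num) hlt))) (-m) m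
    (by show Phi y t ε c r m ≤ Phi y t ε c r (-m); rw [Phi_even]) (show Phi y t ε c r m ≤ Phi y t ε c r m from le_rfl)
  exact h ⟨by linarith, hlm⟩

end Pool.Agent.Helper734.IB
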