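import Mathlib
import Pool.Agent.Helper734.IB.Defs
import Pool.Agent.Helper734.IB.BasicA
import Pool.Agent.Helper734.IB.KkA
import Pool.Agent.Helper734.IB.Ldec
import Pool.Agent.Helper734.IB.PhiC
import Pool.Agent.Helper734.IB.WwA

set_option autoImplicit false

namespace Pool.Agent.Helper734.IB

open MeasureTheory Set Filter Topology Metric
open scoped ENNReal NNReal RealInnerProductSpace

variable {E : Type*} [NormedAddCommGroup E] [InnerProductSpace ℝ E] [FiniteDimensional ℝ E]
  [MeasurableSpace E] [BorelSpace E]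

theorem box_transl_h411 {s : ℕ} (c r : Fin s → ℝ) (F : (Fin s → ℝ) → ℝ≥0∞) :
    ∫⁻ h in Set.pi univ (fun j => Ioo (c j - r j) (c j + r j)), F h =
    ∫⁻ h in Set.pi univ (fun j => Ioo (-(r j)) (r j)), F (c + h) := by
  have hm1 : MeasurableSet (Set.pi univ (fun j : Fin s => Ioo (c j - r j) (c j + r j))) :=
    MeasurableSet.univ_pi fun j => measurableSet_Ioo
  have hm2 : MeasurableSet (Set.pi univ (fun j : Fin s => Ioo (-(r j)) (r j))) :=
    MeasurableSet.univ_pi fun j => measurableSet_Ioo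
  rw [← lintegral_indicator hm1, ← lintegral_indicator hm2]
  rw [← lintegral_add_left_eq_self _ c]
  refine lintegral_congr fun h => ?_
  by_cases hh : h ∈ Set.pi univ (fun j : Fin s => Ioo (-(r j)) (r j))
  · have h2 : c + h ∈ Set.pi univ (fun j : Fin s => Ioo (c j - r j) (c j + r j)) := by
      intro j _
      have := hh j (mem_univ j)
      simp only [mem_Ioo, Pi.add_apply] at this ⊢
      constructor <;> linarith [this.1, this.2]
    rw [indicator_of_mem hh, indicator_of_mem h2]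
  · have h2 : c + h ∉ Set.pi univ (fun j : Fin s => Ioo (c j - r j) (c j + r j)) := by
      intro h3
      apply hh
      intro j _
      have := h3 j (mem_univ j)
      simp only [mem_Ioo, Pi.add_apply] at this ⊢
      constructor <;> linarith [this.1, this.2]
    rw [indicator_of_notMem hh, indicator_of_notMem h2]

theorem box_meas_h411 {X : Type*} [MeasurableSpace X] {s : ℕ} (f : X → (Fin s → ℝ) → ℝ≥0∞)
    (hf : Measurable (Function.uncurry f)) (B : Set (Fin s → ℝ)) :
    Measurable (fun x => ∫⁻ h in B, f x h) :=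
  Measurable.lintegral_prod_right' hf

theorem box_swap_h411 (e : E) (he : ‖e‖ = 1) {s : ℕ} (F : E → (Fin s → ℝ) → ℝ≥0∞)
    (hF : Measurable (Function.uncurry F)) (B : Set (Fin s → ℝ)) :
    ∫⁻ u : E, ∫⁻ h in B, F u h =
    ∫⁻ t : ℝ, ∫⁻ z : (ℝ ∙ e)ᗮ, ∫⁻ h in B, F ((z : E) + t • e) h := by
  have hmeas : Measurable (fun u : E => ∫⁻ h in B, F u h) := box_meas_h411 F hF B
  rw [ldec e he _ hmeas]
  have hc : Continuous (fun p : (ℝ ∙ e)ᗮ × ℝ => (p.1 : E) + p.2 • e) := by fun_prop
  have hmeas2 : Measurable (fun p : (ℝ ∙ e)ᗮ × ℝ => ∫⁻ h in B, F ((p.1 : E) + p.2 • e) h) :=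
    hmeas.comp hc.measurable
  rw [lintegral_lintegral_swap hmeas2.aemeasurable]

theorem box_box_eq_h411 (e : E) (he : ‖e‖ = 1) (s : ℕ) (y : Fin s → (ℝ ∙ e)ᗮ) (ε : ℝ) (hε : 0 < ε)
    (c r : Fin s → ℝ) (l : ℝ) :
    ∫⁻ u : E, ∫⁻ h in Set.pi univ (fun j => Ioo (c j - r j) (c j + r j)),
      ENNReal.ofReal ((∏ j, kk ε ⟪u, (y j : E) + (h j + l * c j) • e⟫) * ww u) =
    ∫⁻ t : ℝ, ENNReal.ofReal (ww t) * Phi y t ε c r (1 + l) := by
  have hkc := kk_cont ε
  have hwc : Continuous (ww : E → ℝ) := ww_cont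
  have hcont : Continuous (fun p : E × (Fin s → ℝ) =>
      ENNReal.ofReal ((∏ j, kk ε ⟪p.1, (y j : E) + (p.2 j + l * c j) • e⟫) * ww p.1)) := by
    refine ENNReal.continuous_ofReal.comp ?_
    refine Continuous.mul ?_ (hwc.comp continuous_fst)
    refine continuous_finsetProd _ fun j _ => hkc.comp ?_
    refine continuous_fst.inner ?_
    refine continuous_const.add (Continuous.smul ?_ continuous_const)
    exact (((continuous_apply j).comp continuous_snd)).add continuous_const
  rw [box_swap_h411 e he (fun (u : E) (h : Fin s → ℝ) => ENNReal.ofReal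
    ((∏ j, kk ε ⟪u, (y j : E) + (h j + l * c j) • e⟫) * ww u)) hcont.measurable]
  refine lintegral_congr fun t => ?_
  have hwt : 0 ≤ ww t := (ww_pos t).1.le
  unfold Phi
  rw [← lintegral_const_mul' _ _ ENNReal.ofReal_ne_top]
  refine lintegral_congr fun z => ?_
  rw [← lintegral_const_mul' _ _ ENNReal.ofReal_ne_top]
  rw [box_transl_h411]
  refine lintegral_congr fun h => ?_
  rw [← ENNReal.ofReal_mul hwt, ww_dec e he]
  have hin : ∀ j, ⟪(z : E) + t • e, (y j : E) + ((c + h) j + l * c j) • e⟫ =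
      ⟪z, y j⟫ + t * (h j + (1 + l) * c j) := by
    intro j
    rw [inner_add_left, inner_add_right, inner_add_right, real_inner_smul_left,
      real_inner_smul_left, real_inner_smul_right, real_inner_smul_right,
      (perp_inner e z).1, (perp_inner e (y j)).2, real_inner_self_eq_norm_sq, he,
      Submodule.coe_inner, Pi.add_apply]
    ring
  simp only [hin]
  congr 1
  have : ww (z : E) = ww z := by
    unfold ww
    rw [Submodule.coe_norm]
  rw [this]
  ring



theorem box_anti (e : E) (he : ‖e‖ = 1) (s : ℕ) (y : Fin s → (ℝ ∙ e)ᗮ) (ε : ℝ) (hε : 0 < ε)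
    (c r : Fin s → ℝ) (l : ℝ) (hl : 0 ≤ l) :
    ∫⁻ u : E, ∫⁻ h in Set.pi univ (fun j => Ioo (c j - r j) (c j + r j)),
      ENNReal.ofReal ((∏ j, kk ε ⟪u, (y j : E) + (h j + l * c j) • e⟫) * ww u) ≤
    ∫⁻ u : E, ∫⁻ h in Set.pi univ (fun j => Ioo (c j - r j) (c j + r j)),
      ENNReal.ofReal ((∏ j, kk ε ⟪u, (y j : E) + (h j) • e⟫) * ww u) := by
  have h1 := box_box_eq_h411 e he s y ε hε c r l
  have h2 := box_box_eq_h411 e he s y ε hε c r 0
  simp only [zero_mul, add_zero] at h2
  rw [h1, h2]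
  refine lintegral_mono fun t => ?_
  gcongr
  exact Phi_anti y t ε hε c r 1 (1 + l) zero_le_one (by linarith)

end Pool.Agent.Helper734.IB
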