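import Mathlib
import Pool.Agent.Helper734.IB.Defs
import Pool.Agent.Helper734.IB.Aa_comp
import Pool.Agent.Helper734.IB.BasicA
import Pool.Agent.Helper734.IB.Box
import Pool.Agent.Helper734.IB.Comps
import Pool.Agent.Helper734.IB.KkA
import Pool.Agent.Helper734.IB.WwA

set_option autoImplicit false

namespace Pool.Agent.Helper734.IB

open MeasureTheory Set Filter Topology Metric
open scoped ENNReal NNReal RealInnerProductSpace

variable {E : Type*} [NormedAddCommGroup E] [InnerProductSpace ℝ E] [FiniteDimensional ℝ E]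
  [MeasurableSpace E] [BorelSpace E]

theorem fib_fib_meas (s : ℕ) (e : E) (y : Fin s → (ℝ ∙ e)ᗮ) (ε : ℝ) (d : Fin s → ℝ)
    (B : Set (Fin s → ℝ)) :
    Measurable (fun u : E => ∫⁻ h in B,
      ENNReal.ofReal ((∏ j, kk ε ⟪u, (y j : E) + (h j + d j) • e⟫) * ww u)) := by
  have hk : Continuous (kk ε) := kk_cont ε
  have hw : Continuous (ww : E → ℝ) := ww_cont
  have hc : Continuous (fun p : E × (Fin s → ℝ) =>
      (∏ j, kk ε ⟪p.1, (y j : E) + (p.2 j + d j) • e⟫) * ww p.1) := by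
    refine Continuous.mul ?_ (hw.comp continuous_fst)
    refine continuous_finsetProd _ (fun j _ => ?_)
    refine hk.comp ?_
    refine Continuous.inner continuous_fst ?_
    fun_prop
  exact Measurable.lintegral_prod_right' (ν := volume.restrict B)
    (f := fun p : E × (Fin s → ℝ) =>
      ENNReal.ofReal ((∏ j, kk ε ⟪p.1, (y j : E) + (p.2 j + d j) • e⟫) * ww p.1))
    (ENNReal.measurable_ofReal.comp hc.measurable)

theorem fib_anti (K : Set E) (hK : IsOpen K) (hbd : Bornology.IsBounded K) (e : E)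
    (he : ‖e‖ = 1) (s : ℕ) (y : Fin s → (ℝ ∙ e)ᗮ) (ε : ℝ) (hε : 0 < ε) (l : ℝ) (hl : 0 ≤ l) :
    ∫⁻ u : E, ∫⁻ h in Set.pi univ (fun j => {h : ℝ | (y j : E) + h • e ∈ K}),
      ENNReal.ofReal ((∏ j, kk ε ⟪u, (y j : E) +
        (h j + l * aa K e ((y j : E) + h j • e)) • e⟫) * ww u) ≤
    ∫⁻ u : E, ∫⁻ h in Set.pi univ (fun j => {h : ℝ | (y j : E) + h • e ∈ K}),
      ENNReal.ofReal ((∏ j, kk ε ⟪u, (y j : E) + (h j) • e⟫) * ww u) := by
  classical
  have hyc : ∀ j : Fin s, Continuous (fun h : ℝ => (y j : E) + h • e) := fun j => by fun_prop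
  have hAo : ∀ j, IsOpen {h : ℝ | (y j : E) + h • e ∈ K} := fun j => hK.preimage (hyc j)
  have hAb : ∀ j, Bornology.IsBounded {h : ℝ | (y j : E) + h • e ∈ K} := by
    intro j
    obtain ⟨R, hR⟩ := isBounded_iff_forall_norm_le.1 hbd
    refine isBounded_iff_forall_norm_le.2 ⟨R + ‖(y j : E)‖, fun h hh => ?_⟩
    have h1 := hR _ hh
    have h2 : ‖h • e‖ ≤ ‖(y j : E) + h • e‖ + ‖(y j : E)‖ := by
      calc ‖h • e‖ = ‖((y j : E) + h • e) - (y j : E)‖ := by rw [add_sub_cancel_left]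
        _ ≤ _ := norm_sub_le _ _
    rw [norm_smul, he, mul_one] at h2
    linarith
  choose S hSc hS hSd hSU using fun j => comps _ (hAo j) (hAb j)
  have : ∀ j, Countable (S j) := fun j => (hSc j).to_subtype
  set Bx : (∀ j, S j) → Set (Fin s → ℝ) :=
    fun κ => Set.pi univ (fun j => Ioo (κ j).1.1 (κ j).1.2) with hBx
  have hsubA : ∀ (κ : ∀ j, S j) (j : Fin s) (t : ℝ), t ∈ Ioo (κ j).1.1 (κ j).1.2 →
      (y j : E) + t • e ∈ K := by
    intro κ j t ht
    have h1 : t ∈ {h : ℝ | (y j : E) + h • e ∈ K} := by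
      rw [hSU j]
      exact Set.mem_biUnion (κ j).2 ht
    exact h1
  have hU : Set.pi univ (fun j => {h : ℝ | (y j : E) + h • e ∈ K}) = ⋃ κ, Bx κ := by
    ext h
    constructor
    · intro H
      have h1 : ∀ j, ∃ p : S j, h j ∈ Ioo p.1.1 p.1.2 := by
        intro j
        have h2 : h j ∈ {h : ℝ | (y j : E) + h • e ∈ K} := H j (Set.mem_univ j)
        rw [hSU j] at h2
        obtain ⟨p, hp, hp2⟩ := Set.mem_iUnion₂.1 h2
        exact ⟨⟨p, hp⟩, hp2⟩
      choose κ hκ using h1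
      exact Set.mem_iUnion.2 ⟨κ, fun j _ => hκ j⟩
    · intro H
      obtain ⟨κ, hκ⟩ := Set.mem_iUnion.1 H
      intro j _
      exact hsubA κ j (h j) (hκ j (Set.mem_univ j))
  have hdis : Pairwise (Function.onFun Disjoint Bx) := by
    intro κ κ' hne
    obtain ⟨j, hj⟩ := Function.ne_iff.1 hne
    rw [Function.onFun, Set.disjoint_left]
    intro h h1 h2
    have h3 := h1 j (Set.mem_univ j)
    have h4 := h2 j (Set.mem_univ j)
    have h5 := hSd j (κ j).2 (κ' j).2 (fun h => hj (Subtype.ext h))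
    rw [Function.onFun, Set.disjoint_left] at h5
    exact h5 h3 h4
  have hmeas : ∀ κ, MeasurableSet (Bx κ) := fun κ =>
    MeasurableSet.univ_pi (fun j => measurableSet_Ioo)
  have haa : ∀ (κ : ∀ j, S j) (h : Fin s → ℝ), h ∈ Bx κ → ∀ j,
      aa K e ((y j : E) + h j • e) = ((κ j).1.1 + (κ j).1.2) / 2 := by
    intro κ h hh j
    exact (aa_comp K e he (y j) _ _ (hsubA κ j) (hS j _ (κ j).2).2.1 (hS j _ (κ j).2).2.2 (h j)
      (hh j (Set.mem_univ j))).2.2
  have key1 : ∀ u : E, ∫⁻ h in Set.pi univ (fun j => {h : ℝ | (y j : E) + h • e ∈ K}),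
      ENNReal.ofReal ((∏ j, kk ε ⟪u, (y j : E) +
        (h j + l * aa K e ((y j : E) + h j • e)) • e⟫) * ww u)
      = ∑' κ, ∫⁻ h in Bx κ, ENNReal.ofReal ((∏ j, kk ε ⟪u, (y j : E) +
        (h j + l * (((κ j).1.1 + (κ j).1.2) / 2)) • e⟫) * ww u) := by
    intro u
    rw [hU, lintegral_iUnion hmeas hdis]
    refine tsum_congr (fun κ => ?_)
    refine setLIntegral_congr_fun (hmeas κ) (fun h hh => ?_)
    have h1 := haa κ h hh
    simp only [h1]
  have key2 : ∀ u : E, ∫⁻ h in Set.pi univ (fun j => {h : ℝ | (y j : E) + h • e ∈ K}),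
      ENNReal.ofReal ((∏ j, kk ε ⟪u, (y j : E) + (h j) • e⟫) * ww u)
      = ∑' κ, ∫⁻ h in Bx κ, ENNReal.ofReal ((∏ j, kk ε ⟪u, (y j : E) + (h j) • e⟫) * ww u) := by
    intro u
    rw [hU, lintegral_iUnion hmeas hdis]
  simp_rw [key1, key2]
  rw [lintegral_tsum, lintegral_tsum]
  · refine ENNReal.tsum_le_tsum (fun κ => ?_)
    have h1 := box_anti e he s y ε hε (fun j => ((κ j).1.1 + (κ j).1.2) / 2)
      (fun j => ((κ j).1.2 - (κ j).1.1) / 2) l hl
    have h2 : Set.pi univ (fun j : Fin s => Ioo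
        (((κ j).1.1 + (κ j).1.2) / 2 - ((κ j).1.2 - (κ j).1.1) / 2)
        (((κ j).1.1 + (κ j).1.2) / 2 + ((κ j).1.2 - (κ j).1.1) / 2)) = Bx κ := by
      rw [hBx]
      refine Set.pi_congr rfl (fun j _ => ?_)
      congr 1 <;> ring
    rw [h2] at h1
    exact h1
  · intro κ
    have h1 := fib_fib_meas s e y ε (fun _ => 0) (Bx κ)
    simp only [add_zero] at h1
    exact h1.aemeasurable
  · intro κ
    exact (fib_fib_meas s e y ε (fun j => l * (((κ j).1.1 + (κ j).1.2) / 2)) (Bx κ)).aemeasurable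

end Pool.Agent.Helper734.IB
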