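import Mathlib
import Pool.Agent.Helper734.IB.Defs

set_option autoImplicit false

namespace Pool.Agent.Helper734.IB

open MeasureTheory Set Filter Topology Metric
open scoped ENNReal NNReal RealInnerProductSpace

variable {E : Type*} [NormedAddCommGroup E] [InnerProductSpace ℝ E] [FiniteDimensional ℝ E]
  [MeasurableSpace E] [BorelSpace E]

theorem prod_lint {α : Type*} [MeasureSpace α] [SigmaFinite (volume : Measure α)] (s : ℕ)
    (f : Fin s → α → ℝ≥0∞) (hf : ∀ j, Measurable (f j)) :
    ∏ j, ∫⁻ x, f j x = ∫⁻ x : Fin s → α, ∏ j, f j (x j) := by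
  induction s with
  | zero => 
    simp [lintegral_unique, volume_pi]
  | succ n ih =>
    calc ∏ j, ∫⁻ x, f j x = (∫⁻ x, f 0 x) * ∏ j : Fin n, ∫⁻ x, f j.succ x := Fin.prod_univ_succ _
      _ = (∫⁻ x, f 0 x) * ∫⁻ y : Fin n → α, ∏ j, f j.succ (y j) := by
        rw [ih (fun j => f j.succ) (fun j => hf j.succ)]
      _ = ∫⁻ x : α × (Fin n → α), f 0 x.1 * ∏ j : Fin n, f j.succ (x.2 j) := by
        rw [Measure.volume_eq_prod, ← lintegral_prod_mul (hf 0).aemeasurable]
        apply Measurable.aemeasurable
        exact Finset.measurable_prod _ fun j _ => (hf j.succ).comp (measurable_pi_apply j)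
      _ = ∫⁻ x : Fin (n + 1) → α, ∏ j, f j (x j) := by
        have hmp := (volume_preserving_piFinSuccAbove (fun _ : Fin (n + 1) => α) 0)
        rw [← hmp.lintegral_comp_emb (MeasurableEquiv.measurableEmbedding _)]
        refine lintegral_congr fun x => ?_
        rw [Fin.prod_univ_succ]
        rfl

end Pool.Agent.Helper734.IB
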