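import Mathlib
import Pool.Agent.Helper734.IB.Defs
import Pool.Agent.Helper734.IB.BasicA
import Pool.Agent.Helper734.IB.Fib
import Pool.Agent.Helper734.IB.KkA
import Pool.Agent.Helper734.IB.Ldec
import Pool.Agent.Helper734.IB.Mpdec
import Pool.Agent.Helper734.IB.Prodlint
import Pool.Agent.Helper734.IB.Tpmeas
import Pool.Agent.Helper734.IB.WwA

set_option autoImplicit false

namespace Pool.Agent.Helper734.IB

open MeasureTheory Set Filter Topology Metric
open scoped ENNReal NNReal RealInnerProductSpace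

variable {E : Type*} [NormedAddCommGroup E] [InnerProductSpace ℝ E] [FiniteDimensional ℝ E]
  [MeasurableSpace E] [BorelSpace E]

theorem nn_meas_sec {X Y H : Type*} [MeasurableSpace X] [MeasurableSpace Y] [MeasurableSpace H]
    {F : (X × Y) × H → ℝ≥0∞} (hF : Measurable F) (u : X) :
    Measurable (fun q : Y × H => F ((u, q.1), q.2)) :=
  hF.comp ((measurable_const.prodMk measurable_fst).prodMk measurable_snd)

theorem nn_meas_sec2 {Y H : Type*} [MeasurableSpace Y] [MeasurableSpace H]
    {F : Y × H → ℝ≥0∞} (hF : Measurable F) (u : Y) :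
    Measurable (fun q : H => F (u, q)) :=
  hF.comp (measurable_const.prodMk measurable_id)

theorem nn_nn_core {Z : Type*} [MeasureSpace Z] [SigmaFinite (volume : Measure Z)]
    (c : Z → ℝ → E) (hc : Measurable (fun p : Z × ℝ => c p.1 p.2))
    (hdec : ∀ f : E → ℝ≥0∞, Measurable f → ∫⁻ x, f x = ∫⁻ z, ∫⁻ r, f (c z r))
    (K : Set E) (hK : MeasurableSet K) (s : ℕ) (g : E → E → ℝ)
    (hg : Measurable (fun p : E × E => g p.1 p.2)) (hg0 : ∀ u x, 0 ≤ g u x)
    (w : E → ℝ) (hw : Measurable w) :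
    ∫⁻ u : E, (∫⁻ x in K, ENNReal.ofReal (g u x)) ^ s * ENNReal.ofReal (w u) =
    ∫⁻ y : Fin s → Z, ∫⁻ u : E, ∫⁻ h in Set.pi univ (fun j => {h : ℝ | c (y j) h ∈ K}),
      ENNReal.ofReal ((∏ j, g u (c (y j) (h j))) * w u) := by
  classical
  let G : E → E → ℝ≥0∞ := fun u x => K.indicator (fun x => ENNReal.ofReal (g u x)) x
  have hG0 : Measurable (fun p : E × E => ENNReal.ofReal (g p.1 p.2)) :=
    ENNReal.measurable_ofReal.comp hg
  have hG : Measurable (fun p : E × E => G p.1 p.2) := by
    have : (fun p : E × E => G p.1 p.2) = (Prod.snd ⁻¹' K).indicator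
        (fun p : E × E => ENNReal.ofReal (g p.1 p.2)) := by
      ext p
      simp only [G, Set.indicator, Set.mem_preimage]
    rw [this]
    exact hG0.indicator (measurable_snd hK)
  have hGu : ∀ u, Measurable (G u) := fun u => nn_meas_sec2 hG u
  have h2 : ∀ u, Measurable (fun p : Z × ℝ => G u (c p.1 p.2)) := fun u => (hGu u).comp hc
  have step1 : ∀ u, (∫⁻ x in K, ENNReal.ofReal (g u x)) ^ s =
      ∫⁻ y : Fin s → Z, ∫⁻ h : Fin s → ℝ, ∏ j, G u (c (y j) (h j)) := by
    intro u
    have h1 : (∫⁻ x in K, ENNReal.ofReal (g u x)) = ∫⁻ x, G u x :=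
      (lintegral_indicator hK _).symm
    rw [h1, hdec (G u) (hGu u)]
    have h3 : Measurable (fun z : Z => ∫⁻ r : ℝ, G u (c z r)) := (h2 u).lintegral_prod_right'
    have h4 := prod_lint s (fun _ : Fin s => fun z : Z => ∫⁻ r : ℝ, G u (c z r)) (fun _ => h3)
    rw [Finset.prod_const, Finset.card_univ, Fintype.card_fin] at h4
    rw [h4]
    apply lintegral_congr
    intro y
    exact prod_lint s (fun j : Fin s => fun r : ℝ => G u (c (y j) r))
      (fun j => nn_meas_sec2 (h2 u) (y j))
  have hbig : Measurable (fun p : (E × (Fin s → Z)) × (Fin s → ℝ) =>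
      (∏ j, G p.1.1 (c (p.1.2 j) (p.2 j)))) := by
    apply Finset.measurable_prod
    intro j _
    have h1 : Measurable (fun p : (E × (Fin s → Z)) × (Fin s → ℝ) => 
        (p.1.1, c (p.1.2 j) (p.2 j))) := by
      apply Measurable.prodMk
      · exact measurable_fst.comp measurable_fst
      · have : Measurable (fun p : (E × (Fin s → Z)) × (Fin s → ℝ) => ((p.1.2 j, p.2 j) : Z × ℝ)) :=
          ((measurable_pi_apply j).comp (measurable_snd.comp measurable_fst)).prodMk
            ((measurable_pi_apply j).comp measurable_snd)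
        exact hc.comp this
    exact hG.comp h1
  have hwm : Measurable (fun u : E => ENNReal.ofReal (w u)) := 
    ENNReal.measurable_ofReal.comp hw
  have step2 : ∀ u, (∫⁻ x in K, ENNReal.ofReal (g u x)) ^ s
        * ENNReal.ofReal (w u) = ∫⁻ y : Fin s → Z, ∫⁻ h : Fin s → ℝ, 
          (∏ j, G u (c (y j) (h j))) * ENNReal.ofReal (w u) := by
    intro u
    rw [step1 u]
    have hb1 : Measurable (fun q : (Fin s → Z) × (Fin s → ℝ) => 
        ∏ j, G u (c (q.1 j) (q.2 j))) := nn_meas_sec hbig u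
    rw [← lintegral_mul_const _ hb1.lintegral_prod_right']
    apply lintegral_congr
    intro y
    exact (lintegral_mul_const _ (nn_meas_sec2 hb1 y)).symm
  rw [lintegral_congr step2]
  have hfull : Measurable (fun p : (E × (Fin s → Z)) × (Fin s → ℝ) =>
      (∏ j, G p.1.1 (c (p.1.2 j) (p.2 j))) * ENNReal.ofReal (w p.1.1)) :=
      hbig.mul (hwm.comp (measurable_fst.comp measurable_fst))
  rw [lintegral_lintegral_swap hfull.lintegral_prod_right'.aemeasurable]
  apply lintegral_congr
  intro y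
  apply lintegral_congr
  intro u
  have hms : MeasurableSet (Set.pi univ (fun j => {h : ℝ | c (y j) h ∈ K})) := by
    apply MeasurableSet.univ_pi
    intro j
    have : Measurable (fun h : ℝ => c (y j) h) := hc.comp (measurable_const.prodMk measurable_id)
    exact this hK
  rw [← lintegral_indicator hms]
  apply lintegral_congr
  intro h
  by_cases hh : h ∈ Set.pi univ (fun j => {h : ℝ | c (y j) h ∈ K})
  · rw [Set.indicator_of_mem hh]
    have hj : ∀ j, G u (c (y j) (h j)) = ENNReal.ofReal (g u (c (y j) (h j))) := by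
      intro j
      have hm : c (y j) (h j) ∈ K := hh j (mem_univ j)
      simp only [G]
      rw [Set.indicator_of_mem hm]
    simp only [hj]
    rw [← ENNReal.ofReal_prod_of_nonneg (fun j _ => hg0 _ _), ← ENNReal.ofReal_mul]
    exact Finset.prod_nonneg (fun j _ => hg0 _ _)
  · rw [Set.indicator_of_notMem hh]
    have : ∃ j, c (y j) (h j) ∉ K := by
      by_contra hc'
      push Not at hc'
      exact hh (fun j _ => hc' j)
    obtain ⟨j, hj⟩ := this
    have h0 : G u (c (y j) (h j)) = 0 := by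
      simp only [G]
      exact Set.indicator_of_notMem hj _
    rw [Finset.prod_eq_zero (Finset.mem_univ j) h0, zero_mul]

theorem nn_nn_eq (K : Set E) (hK : IsOpen K) (e : E)
    (he : ‖e‖ = 1) (s : ℕ) (ε : ℝ) (hε : 0 < ε) (l : ℝ) (a : E → ℝ) (ha : Measurable a) :
    ∫⁻ u : E, (∫⁻ x in K, ENNReal.ofReal (kk ε ⟪u, x + (l * a x) • e⟫)) ^ s
        * ENNReal.ofReal (ww u) =
    ∫⁻ y : Fin s → (ℝ ∙ e)ᗮ, ∫⁻ u : E, ∫⁻ h in Set.pi univ (fun j => {h : ℝ | (y j : E) + h • e ∈ K}),
      ENNReal.ofReal ((∏ j, kk ε ⟪u, ((y j : E) + h j • e) +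
        (l * a ((y j : E) + h j • e)) • e⟫) * ww u) := by
  have hpt : Measurable (fun p : (ℝ ∙ e)ᗮ × ℝ => (p.1 : E) + p.2 • e) := by
    exact (measurable_subtype_coe.comp measurable_fst).add (measurable_snd.smul_const e)
  have hg : Measurable (fun p : E × E => kk ε ⟪p.1, p.2 + (l * a p.2) • e⟫) := by
    apply (kk_cont ε).measurable.comp
    apply Measurable.inner measurable_fst
    exact measurable_snd.add (((ha.comp measurable_snd).const_mul l).smul_const e)
  exact nn_nn_core (fun (z : (ℝ ∙ e)ᗮ) r => (z : E) + r • e) hpt (fun f hf => ldec e he f hf) K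
    hK.measurableSet s (fun u x => kk ε ⟪u, x + (l * a x) • e⟫) hg (fun u x => (kk_pos ε _ hε).le)
    ww ww_cont.measurable

theorem nn_anti (K : Set E) (hK : IsOpen K) (hbd : Bornology.IsBounded K) (e : E)
    (he : ‖e‖ = 1) (s : ℕ) (ε : ℝ) (hε : 0 < ε) (l : ℝ) (hl : 0 ≤ l) :
    ∫⁻ u : E, (∫⁻ x in K, ENNReal.ofReal (kk ε ⟪u, x + (l * aa K e x) • e⟫)) ^ s
        * ENNReal.ofReal (ww u) ≤
    ∫⁻ u : E, (∫⁻ x in K, ENNReal.ofReal (kk ε ⟪u, x⟫)) ^ s * ENNReal.ofReal (ww u) := by
  have ha := aa_meas K hK hbd e he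
  have h1 := nn_nn_eq K hK e he s ε hε l _ ha
  have h0 := nn_nn_eq K hK e he s ε hε 0 _ ha
  have e1 : ∫⁻ u : E, (∫⁻ x in K, ENNReal.ofReal (kk ε ⟪u, x + (l * aa K e x) • e⟫)) ^ s
        * ENNReal.ofReal (ww u) = ∫⁻ u : E, (∫⁻ x in K, ENNReal.ofReal (kk ε ⟪u, x + (l * K.indicator (aa K e) x) • e⟫)) ^ s
        * ENNReal.ofReal (ww u) := by
    apply lintegral_congr
    intro u
    congr 2
    apply setLIntegral_congr_fun hK.measurableSet
    intro x hx
    simp only [Set.indicator_of_mem hx]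
  have e0 : ∫⁻ u : E, (∫⁻ x in K, ENNReal.ofReal (kk ε ⟪u, x⟫)) ^ s * ENNReal.ofReal (ww u) =
      ∫⁻ u : E, (∫⁻ x in K, ENNReal.ofReal (kk ε ⟪u, x + (0 * K.indicator (aa K e) x) • e⟫)) ^ s
        * ENNReal.ofReal (ww u) := by
    apply lintegral_congr
    intro u
    simp only [zero_mul, zero_smul, add_zero]
  rw [e1, e0, h1, h0]
  apply lintegral_mono
  intro y
  have hms : MeasurableSet (Set.pi univ (fun j => {h : ℝ | (y j : E) + h • e ∈ K})) := by
    apply MeasurableSet.univ_pi
    intro j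
    apply IsOpen.measurableSet
    exact hK.preimage (continuous_const.add (continuous_id.smul continuous_const))
  have hf := fib_anti K hK hbd e he s y ε hε l hl
  refine le_trans (le_of_eq ?_) (le_trans hf (le_of_eq ?_))
  · apply lintegral_congr
    intro u
    apply setLIntegral_congr_fun hms
    intro h hh
    have : ∀ j, K.indicator (aa K e) ((y j : E) + h j • e) = aa K e ((y j : E) + h j • e) := by
      intro j
      have hm : (y j : E) + h j • e ∈ K := hh j (mem_univ j)
      exact Set.indicator_of_mem hm (aa K e)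
    simp only [this, add_smul, add_assoc]
  · simp only [zero_mul, zero_smul, add_zero]

end Pool.Agent.Helper734.IB
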