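import Mathlib
import Pool.Agent.Helper734.IB.Defs
import Pool.Agent.Helper734.IB.GgA
import Pool.Agent.Helper734.IB.KkA
import Pool.Agent.Helper734.IB.Nn
import Pool.Agent.Helper734.IB.Tpbound
import Pool.Agent.Helper734.IB.Tpmeas
import Pool.Agent.Helper734.IB.WwA

set_option autoImplicit false

namespace Pool.Agent.Helper734.IB

open MeasureTheory Set Filter Topology Metric
open scoped ENNReal NNReal RealInnerProductSpace

variable {E : Type*} [NormedAddCommGroup E] [InnerProductSpace ℝ E] [FiniteDimensional ℝ E]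
  [MeasurableSpace E] [BorelSpace E]

section aux8562

theorem WWanti_bern_8562 (X g : ℝ) (hX : 0 ≤ X) (hg : 0 ≤ g) (i : ℕ) :
    ((i : ℝ) + 1) * (X * g ^ i) ≤ X ^ (i + 1) + i * g ^ (i + 1) := by
  induction i with
  | zero => simp
  | succ i ih =>
    have h1 := mul_le_mul_of_nonneg_left ih hX
    have h2 : 0 ≤ ((i : ℝ) + 1) * g ^ i * (X - g) ^ 2 := by positivity
    push_cast
    have e1 : X ^ (i + 1 + 1) = X * X ^ (i + 1) := by ring
    rw [e1]
    have e2 : g ^ (i + 1) = g ^ i * g := pow_succ g i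
    have e3 : g ^ (i + 1 + 1) = g ^ i * g * g := by rw [pow_succ, pow_succ]
    rw [e3, e2]
    rw [e2] at h1
    nlinarith [h1, h2]

/-- the general statement with a measurable height function -/
theorem WWanti_anti_core_8562 (K : Set E) (hK : IsOpen K) (hbd : Bornology.IsBounded K) (e : E)
    (i : ℕ) (ε : ℝ) (hε : 0 < ε) (b : E → ℝ) (hb : Measurable b)
    (H : ∫⁻ u : E, (∫⁻ x in K, ENNReal.ofReal (kk ε ⟪u, x + b x • e⟫)) ^ (i + 1)
        * ENNReal.ofReal (ww u) ≤
      ∫⁻ u : E, (∫⁻ x in K, ENNReal.ofReal (kk ε ⟪u, x⟫)) ^ (i + 1) * ENNReal.ofReal (ww u)) :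
    ∫ x in K, WW K i ε (x + b x • e) ≤ ∫ x in K, WW K i ε x := by
  have : IsFiniteMeasure (volume.restrict K) :=
    ⟨by rw [Measure.restrict_apply_univ]; exact hbd.measure_lt_top⟩
  set M : ℝ := ε⁻¹ * (volume K).toReal with hM
  have hεi : 0 < ε⁻¹ := inv_pos.mpr hε
  -- general facts for a measurable perturbation
  have hjm : ∀ c : E → ℝ, Measurable c →
      Measurable (fun p : E × E => kk ε ⟪p.2, p.1 + c p.1 • e⟫) := by
    intro c hc
    apply (kk_cont ε).measurable.comp
    apply Measurable.inner measurable_snd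
    exact measurable_fst.add ((hc.comp measurable_fst).smul_const e)
  have hjb : ∀ c : E → ℝ, ∀ p : E × E, ‖kk ε ⟪p.2, p.1 + c p.1 • e⟫‖ ≤ ε⁻¹ := by
    intro c p
    rw [Real.norm_of_nonneg (kk_pos _ _ hε).le]
    exact kk_le _ _ hε
  have hww : Integrable (fun u : E => ww u) := by
    have := ww_int (E := E) 0
    simpa using this
  have hint1 : ∀ c : E → ℝ, Measurable c → ∀ u : E,
      Integrable (fun x => kk ε ⟪u, x + c x • e⟫) (volume.restrict K) := by
    intro c hc u
    refine Integrable.of_bound (C := ε⁻¹) ?_ ?_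
    · exact ((hjm c hc).comp (measurable_id.prodMk measurable_const)).aestronglyMeasurable
    · exact Filter.Eventually.of_forall (fun x => hjb c (x, u))
  have hXm : ∀ c : E → ℝ, Measurable c →
      Measurable (fun u => ∫ x in K, kk ε ⟪u, x + c x • e⟫) := by
    intro c hc
    have h1 : StronglyMeasurable (fun p : E × E => kk ε ⟪p.1, p.2 + c p.2 • e⟫) :=
      ((hjm c hc).comp measurable_swap).stronglyMeasurable
    exact (h1.integral_prod_right (ν := volume.restrict K)).measurable
  have hX0 : ∀ c : E → ℝ, ∀ u : E, 0 ≤ ∫ x in K, kk ε ⟪u, x + c x • e⟫ := by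
    intro c u
    exact integral_nonneg (fun x => (kk_pos _ _ hε).le)
  have hXM : ∀ c : E → ℝ, Measurable c → ∀ u : E, ∫ x in K, kk ε ⟪u, x + c x • e⟫ ≤ M := by
    intro c hc u
    have h1 : ∫ x in K, kk ε ⟪u, x + c x • e⟫ ≤ ∫ x in K, ε⁻¹ := by
      apply integral_mono (hint1 c hc u) (integrable_const _)
      intro x
      exact kk_le _ _ hε
    refine h1.trans (le_of_eq ?_)
    rw [integral_const, hM, smul_eq_mul, mul_comm, Measure.real, Measure.restrict_apply_univ]
  -- conversion
  have hconv : ∀ c : E → ℝ, Measurable c →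
      ∫⁻ u : E, (∫⁻ x in K, ENNReal.ofReal (kk ε ⟪u, x + c x • e⟫)) ^ (i + 1)
        * ENNReal.ofReal (ww u) =
      ENNReal.ofReal (∫ u : E, (∫ x in K, kk ε ⟪u, x + c x • e⟫) ^ (i + 1) * ww u) := by
    intro c hc
    rw [ofReal_integral_eq_lintegral_ofReal]
    · apply lintegral_congr
      intro u
      rw [← ofReal_integral_eq_lintegral_ofReal (hint1 c hc u)
        (Filter.Eventually.of_forall (fun x => (kk_pos _ _ hε).le)),
        ← ENNReal.ofReal_pow (hX0 c u), ← ENNReal.ofReal_mul (pow_nonneg (hX0 c u) _)]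
    · refine Integrable.mono' (hww.const_mul (M ^ (i + 1))) ?_ ?_
      · exact (((hXm c hc).pow_const _).mul ww_cont.measurable).aestronglyMeasurable
      · refine Filter.Eventually.of_forall (fun u => ?_)
        rw [Real.norm_of_nonneg (mul_nonneg (pow_nonneg (hX0 c u) _) (ww_pos u).1.le)]
        exact mul_le_mul_of_nonneg_right (pow_le_pow_left₀ (hX0 c u) (hXM c hc u) _)
          (ww_pos u).1.le
    · exact Filter.Eventually.of_forall
        (fun u => mul_nonneg (pow_nonneg (hX0 c u) _) (ww_pos u).1.le)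
  have hfub : ∀ c : E → ℝ, Measurable c →
      ∫ x in K, WW K i ε (x + c x • e) =
      ∫ u : E, (∫ x in K, kk ε ⟪u, x + c x • e⟫) * gg K ε u ^ i * ww u := by
    intro c hc
    have hI : Integrable (Function.uncurry
        (fun (x u : E) => kk ε ⟪u, x + c x • e⟫ * gg K ε u ^ i * ww u))
        ((volume.restrict K).prod volume) := by
      have h1 : Integrable (fun p : E × E => (ε⁻¹ * M ^ i) * ww p.2)
          ((volume.restrict K).prod volume) :=
        (hww.comp_snd (volume.restrict K)).const_mul _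
      refine Integrable.mono' h1 ?_ ?_
      · apply Measurable.aestronglyMeasurable
        exact ((hjm c hc).mul (((gg_cont K hK hbd ε hε).measurable.comp measurable_snd).pow_const i)).mul
          (ww_cont.measurable.comp measurable_snd)
      · refine Filter.Eventually.of_forall (fun p => ?_)
        have hg0 := gg_nonneg K ε p.2 hε
        have hgM := gg_le K hK hbd ε hε p.2
        simp only [Function.uncurry]
        rw [norm_mul, norm_mul, Real.norm_of_nonneg (pow_nonneg hg0 _),
          Real.norm_of_nonneg (ww_pos p.2).1.le]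
        refine mul_le_mul_of_nonneg_right ?_ (ww_pos p.2).1.le
        exact mul_le_mul (hjb c p) (pow_le_pow_left₀ hg0 hgM _) (pow_nonneg hg0 _) hεi.le
    have := integral_integral_swap hI
    calc ∫ x in K, WW K i ε (x + c x • e)
        = ∫ x in K, ∫ u : E, kk ε ⟪u, x + c x • e⟫ * gg K ε u ^ i * ww u := rfl
      _ = ∫ u : E, ∫ x in K, kk ε ⟪u, x + c x • e⟫ * gg K ε u ^ i * ww u := this
      _ = _ := by
        apply integral_congr_ae
        refine Filter.Eventually.of_forall (fun u => ?_)
        simp only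
        rw [integral_mul_const, integral_mul_const]
  -- specialise
  have hg : ∀ u : E, ∫ x in K, kk ε ⟪u, x + (0 : E → ℝ) x • e⟫ = gg K ε u := by
    intro u
    simp [gg]
  have hz : Measurable (0 : E → ℝ) := measurable_zero
  have H2 := hconv 0 hz
  simp only [hg] at H2
  have H2' : ∫⁻ u : E, (∫⁻ x in K, ENNReal.ofReal (kk ε ⟪u, x⟫)) ^ (i + 1)
      * ENNReal.ofReal (ww u) = ENNReal.ofReal (∫ u : E, gg K ε u ^ (i + 1) * ww u) := by
    rw [← H2]
    simp
  rw [hconv b hb, H2'] at H
  have hgi : Integrable (fun u : E => gg K ε u ^ (i + 1) * ww u) := by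
    refine Integrable.mono' (hww.const_mul (M ^ (i + 1))) ?_ ?_
    · exact (((gg_cont K hK hbd ε hε).measurable.pow_const _).mul
        ww_cont.measurable).aestronglyMeasurable
    · refine Filter.Eventually.of_forall (fun u => ?_)
      have hg0 := gg_nonneg K ε u hε
      have hgM := gg_le K hK hbd ε hε u
      rw [Real.norm_of_nonneg (mul_nonneg (pow_nonneg hg0 _) (ww_pos u).1.le)]
      exact mul_le_mul_of_nonneg_right (pow_le_pow_left₀ hg0 hgM _) (ww_pos u).1.le
  have hXi : Integrable (fun u : E => (∫ x in K, kk ε ⟪u, x + b x • e⟫) ^ (i + 1) * ww u) := by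
    refine Integrable.mono' (hww.const_mul (M ^ (i + 1))) ?_ ?_
    · exact (((hXm b hb).pow_const _).mul ww_cont.measurable).aestronglyMeasurable
    · refine Filter.Eventually.of_forall (fun u => ?_)
      rw [Real.norm_of_nonneg (mul_nonneg (pow_nonneg (hX0 b u) _) (ww_pos u).1.le)]
      exact mul_le_mul_of_nonneg_right (pow_le_pow_left₀ (hX0 b u) (hXM b hb u) _)
        (ww_pos u).1.le
  have hXgi : Integrable
      (fun u : E => (∫ x in K, kk ε ⟪u, x + b x • e⟫) * gg K ε u ^ i * ww u) := by
    refine Integrable.mono' (hww.const_mul (M * M ^ i)) ?_ ?_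
    · exact (((hXm b hb).mul ((gg_cont K hK hbd ε hε).measurable.pow_const _)).mul
        ww_cont.measurable).aestronglyMeasurable
    · refine Filter.Eventually.of_forall (fun u => ?_)
      have hg0 := gg_nonneg K ε u hε
      have hgM := gg_le K hK hbd ε hε u
      rw [Real.norm_of_nonneg (mul_nonneg (mul_nonneg (hX0 b u) (pow_nonneg hg0 _))
        (ww_pos u).1.le)]
      exact mul_le_mul_of_nonneg_right (mul_le_mul (hXM b hb u) (pow_le_pow_left₀ hg0 hgM _)
        (pow_nonneg hg0 _) ((hX0 b u).trans (hXM b hb u))) (ww_pos u).1.le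
  have Hle : ∫ u : E, (∫ x in K, kk ε ⟪u, x + b x • e⟫) ^ (i + 1) * ww u ≤
      ∫ u : E, gg K ε u ^ (i + 1) * ww u := by
    refine (ENNReal.ofReal_le_ofReal_iff ?_).mp H
    exact integral_nonneg (fun u =>
      mul_nonneg (pow_nonneg (gg_nonneg K ε u hε) _) (ww_pos u).1.le)
  have hpt : ((i : ℝ) + 1) * ∫ u : E, (∫ x in K, kk ε ⟪u, x + b x • e⟫) * gg K ε u ^ i * ww u ≤
      (∫ u : E, (∫ x in K, kk ε ⟪u, x + b x • e⟫) ^ (i + 1) * ww u) +
        (i : ℝ) * ∫ u : E, gg K ε u ^ (i + 1) * ww u := by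
    rw [← integral_const_mul, ← integral_const_mul, ← integral_add hXi (hgi.const_mul _)]
    apply integral_mono (hXgi.const_mul _) (hXi.add (hgi.const_mul _))
    intro u
    have h1 := WWanti_bern_8562 _ _ (hX0 b u) (gg_nonneg K ε u hε) i
    have h2 := mul_le_mul_of_nonneg_right h1 (ww_pos u).1.le
    simp only [Pi.add_apply]
    nlinarith [h2]
  have hfin : ∫ u : E, (∫ x in K, kk ε ⟪u, x + b x • e⟫) * gg K ε u ^ i * ww u ≤
      ∫ u : E, gg K ε u ^ (i + 1) * ww u := by
    have hp : (0 : ℝ) < (i : ℝ) + 1 := by positivity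
    have := hpt.trans (add_le_add_left Hle _)
    nlinarith [this]
  rw [hfub b hb]
  have H3 := hfub 0 hz
  simp only [hg] at H3
  have H3' : ∫ x in K, WW K i ε x = ∫ u : E, gg K ε u * gg K ε u ^ i * ww u := by
    rw [← H3]
    simp
  rw [H3']
  refine hfin.trans (le_of_eq ?_)
  congr 1
  funext u
  ring

end aux8562



theorem WW_anti (K : Set E) (hK : IsOpen K) (hbd : Bornology.IsBounded K) (e : E)
    (he : ‖e‖ = 1) (i : ℕ) (ε : ℝ) (hε : 0 < ε) (l : ℝ) (hl : 0 ≤ l) :
    ∫ x in K, WW K i ε (x + (l * aa K e x) • e) ≤ ∫ x in K, WW K i ε x := by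
  have hm : Measurable (fun x => l * K.indicator (aa K e) x) :=
    (aa_meas K hK hbd e he).const_mul l
  have h := WWanti_anti_core_8562 K hK hbd e i ε hε _ hm ?_
  · refine le_trans (le_of_eq ?_) h
    apply setIntegral_congr_fun hK.measurableSet
    intro x hx
    simp only [Set.indicator_of_mem hx]
  · refine le_trans (le_of_eq ?_) (nn_anti K hK hbd e he (i + 1) ε hε l hl)
    apply lintegral_congr
    intro u
    congr 2
    apply setLIntegral_congr_fun hK.measurableSet
    intro x hx
    simp only [Set.indicator_of_mem hx]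

end Pool.Agent.Helper734.IB
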