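import Mathlib
import Pool.Agent.Helper734.IB.Defs
import Pool.Agent.Helper734.IB.Tpbound
import Pool.Agent.Helper734.IB.Tpmeas
import Pool.Agent.Helper734.IB.WWanti
import Pool.Agent.Helper734.IB.WWcont
import Pool.Agent.Helper734.IB.WWderiv

set_option autoImplicit false

namespace Pool.Agent.Helper734.IB

open MeasureTheory Set Filter Topology Metric
open scoped ENNReal NNReal RealInnerProductSpace

variable {E : Type*} [NormedAddCommGroup E] [InnerProductSpace ℝ E] [FiniteDimensional ℝ E]
  [MeasurableSpace E] [BorelSpace E]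

theorem TT_tt_le_zero {ψ : ℝ → ℝ} {d : ℝ} (h : HasDerivAt ψ d 0) (hψ : ∀ l, 0 ≤ l → ψ l ≤ ψ 0) :
    d ≤ 0 := by
  have h1 := (hasDerivWithinAt_iff_tendsto_slope' (by simp : (0 : ℝ) ∉ Ioi (0 : ℝ))).1
    (h.hasDerivWithinAt (s := Ioi (0 : ℝ)))
  refine le_of_tendsto h1 ?_
  filter_upwards [self_mem_nhdsWithin] with l hl
  rw [slope_def_field]
  have hl' : (0 : ℝ) < l := hl
  apply div_nonpos_of_nonpos_of_nonneg
  · linarith [hψ l hl'.le]
  · linarith

theorem TT_nonpos (K : Set E) (hK : IsOpen K) (hbd : Bornology.IsBounded K) (e : E)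
    (he : ‖e‖ = 1) (i : ℕ) (ε : ℝ) (hε : 0 < ε) :
    ∫ x in K, aa K e x * VV K i e ε x ≤ 0 := by
  obtain ⟨R, hR⟩ := hbd.subset_ball (0 : E)
  obtain ⟨hVc, C, hC⟩ := VV_cont K hK hbd e i ε hε
  have hWc := WW_cont K hK hbd i ε hε
  have hKm : MeasurableSet K := hK.measurableSet
  haveI hfin : IsFiniteMeasure (volume.restrict K) := by
    constructor
    rw [Measure.restrict_apply_univ]
    exact hbd.measure_lt_top
  set a' : E → ℝ := K.indicator (aa K e) with ha'
  have ha'm : Measurable a' := aa_meas K hK hbd e he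
  have haK : ∀ x ∈ K, a' x = aa K e x := fun x hx => indicator_of_mem hx _
  have haR : ∀ x, |a' x| ≤ |R| := by
    intro x
    by_cases hx : x ∈ K
    · rw [haK x hx]
      exact ((tp_bound K R hR hK e he x hx).2.2.1.le).trans (le_abs_self R)
    · rw [ha', indicator_of_notMem hx, abs_zero]
      exact abs_nonneg R
  have hC0 : 0 ≤ C := (abs_nonneg _).trans (hC 0)
  let F : ℝ → E → ℝ := fun l x => WW K i ε (x + (l * a' x) • e)
  let F' : ℝ → E → ℝ := fun l x => a' x * VV K i e ε (x + (l * a' x) • e)
  have hmeas : ∀ l : ℝ, Measurable fun x : E => x + (l * a' x) • e := fun l =>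
    measurable_id.add ((ha'm.const_mul l).smul_const e)
  have hmain := hasDerivAt_integral_of_dominated_loc_of_deriv_le (μ := volume.restrict K)
    (F := F) (F' := F') (x₀ := (0 : ℝ)) (s := univ) (bound := fun _ => |R| * C) univ_mem
    (Eventually.of_forall fun l =>
      (hWc.measurable.comp (hmeas l)).aestronglyMeasurable)
    (by
      have h1 : F 0 = WW K i ε := by
        funext x
        simp [F]
      rw [h1]
      have h2 : IntegrableOn (WW K i ε) (closure K) volume :=
        hWc.continuousOn.integrableOn_compact hbd.isCompact_closure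
      exact h2.mono_set subset_closure)
    ((ha'm.mul (hVc.measurable.comp (hmeas 0))).aestronglyMeasurable)
    (Eventually.of_forall fun x l _ => by
      rw [Real.norm_eq_abs, abs_mul]
      exact mul_le_mul (haR x) (hC _) (abs_nonneg _) (abs_nonneg _))
    (integrable_const _)
    (Eventually.of_forall fun x l _ => by
      have h1 := WW_deriv K hK hbd e i ε hε x (l * a' x)
      have h2 : HasDerivAt (fun l : ℝ => l * a' x) (a' x) l := by
        simpa using (hasDerivAt_id l).mul_const (a' x)
      have h3 := HasDerivAt.comp l h1 h2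
      rw [mul_comm] at h3
      exact h3)
  have hd := hmain.2
  have hψ0 : ∀ l : ℝ, ∫ x in K, F l x = ∫ x in K, WW K i ε (x + (l * aa K e x) • e) := by
    intro l
    apply setIntegral_congr_fun hKm
    intro x hx
    simp only [F]
    rw [haK x hx]
  have hle : ∀ l : ℝ, 0 ≤ l → ∫ x in K, F l x ≤ ∫ x in K, F 0 x := by
    intro l hl
    rw [hψ0 l]
    refine (WW_anti K hK hbd e he i ε hε l hl).trans (le_of_eq ?_)
    apply setIntegral_congr_fun hKm
    intro x _
    simp [F]
  have hres := TT_tt_le_zero hd hle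
  have hfinal : ∫ x in K, F' 0 x = ∫ x in K, aa K e x * VV K i e ε x := by
    apply setIntegral_congr_fun hKm
    intro x hx
    simp only [F']
    rw [haK x hx]
    simp
  rw [← hfinal]
  exact hres

end Pool.Agent.Helper734.IB
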