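import Mathlib
import Pool.Agent.Helper734.IB.Defs
import Pool.Agent.Helper734.IB.KDmeas
import Pool.Agent.Helper734.IB.TT
import Pool.Agent.Helper734.IB.Tpbound
import Pool.Agent.Helper734.IB.Tpmeas
import Pool.Agent.Helper734.IB.WWcont

set_option autoImplicit false

namespace Pool.Agent.Helper734.IB

open MeasureTheory Set Filter Topology Metric
open scoped ENNReal NNReal RealInnerProductSpace

variable {E : Type*} [NormedAddCommGroup E] [InnerProductSpace ℝ E] [FiniteDimensional ℝ E]
  [MeasurableSpace E] [BorelSpace E]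

theorem tail_cs833 (S : Set E) (hS : MeasurableSet S) (hfin : volume S ≠ ∞) (V : E → ℝ) (hV : Continuous V)
    (M : ℝ) (hM : ∀ x, |V x| ≤ M) :
    (∫ x in S, |V x|) ^ 2 ≤ (∫ x in S, V x ^ 2) * (volume S).toReal := by
  have hM0 : 0 ≤ M := (abs_nonneg _).trans (hM 0)
  have i1 : IntegrableOn (fun x => |V x|) S := by
    apply Measure.integrableOn_of_bounded (M := M) hfin hV.abs.aestronglyMeasurable
    filter_upwards with x
    rw [Real.norm_eq_abs, abs_abs]
    exact hM x
  have i2 : IntegrableOn (fun x => V x ^ 2) S := by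
    apply Measure.integrableOn_of_bounded (M := M ^ 2) hfin (hV.pow 2).aestronglyMeasurable
    filter_upwards with x
    show ‖V x ^ 2‖ ≤ M ^ 2
    rw [Real.norm_eq_abs, abs_pow]
    exact pow_le_pow_left₀ (abs_nonneg _) (hM x) 2
  rcases eq_or_ne (volume S) 0 with h0 | h0
  · rw [setIntegral_measure_zero _ h0]
    rw [h0]; simp
  · have hv : 0 < (volume S).toReal := ENNReal.toReal_pos h0 hfin
    obtain ⟨I, hI⟩ : ∃ I, I = ∫ x in S, |V x| := ⟨_, rfl⟩
    obtain ⟨A, hA⟩ : ∃ A, A = ∫ x in S, V x ^ 2 := ⟨_, rfl⟩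
    obtain ⟨v, hv'⟩ : ∃ v, v = (volume S).toReal := ⟨_, rfl⟩
    rw [← hI, ← hA, ← hv']
    rw [← hv'] at hv
    have h1 : 0 ≤ ∫ x in S, (|V x| - I / v) ^ 2 := by
      apply integral_nonneg
      intro x
      positivity
    have h2 : ∫ x in S, (|V x| - I / v) ^ 2 = A - 2 * (I / v) * I + (I / v) ^ 2 * v := by
      have e1 : ∀ x, (|V x| - I / v) ^ 2 = (V x ^ 2 - 2 * (I / v) * |V x|) + (I / v) ^ 2 := by
        intro x
        have := sq_abs (V x)
        nlinarith
      simp_rw [e1]
      have j1 : IntegrableOn (fun x => 2 * (I / v) * |V x|) S := i1.const_mul _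
      have j2 : IntegrableOn (fun x => V x ^ 2 - 2 * (I / v) * |V x|) S := i2.sub j1
      have j3 : IntegrableOn (fun _ : E => (I / v) ^ 2) S := integrableOn_const hfin
      have s1 : ∫ x in S, (V x ^ 2 - 2 * (I / v) * |V x| + (I / v) ^ 2) =
          (∫ x in S, (V x ^ 2 - 2 * (I / v) * |V x|)) + ∫ x in S, (I / v) ^ 2 := integral_add j2 j3
      have s2 : ∫ x in S, (V x ^ 2 - 2 * (I / v) * |V x|) = (∫ x in S, V x ^ 2) - ∫ x in S, 2 * (I / v) * |V x| :=
        integral_sub i2 j1
      rw [s1, s2, integral_const_mul, ← hI, ← hA, setIntegral_const, smul_eq_mul, Measure.real, ← hv']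
      ring
    rw [h2] at h1
    have h3 : A - 2 * (I / v) * I + (I / v) ^ 2 * v = A - I ^ 2 / v := by
      field_simp
      ring
    rw [h3] at h1
    have h4 : I ^ 2 / v ≤ A := by linarith
    rwa [div_le_iff₀ hv] at h4

theorem tail_bound (K : Set E) (R : ℝ) (hR : 0 < R) (hK : IsOpen K) (hb : K ⊆ ball 0 R) (e : E)
    (he : ‖e‖ = 1) (i : ℕ) (ε : ℝ) (hε : 0 < ε) (C : ℝ) (hC : 0 < C)
    (h2 : ∫⁻ x in K, ENNReal.ofReal ((VV K i e ε x) ^ 2) ≤ ENNReal.ofReal C) (δ : ℝ)
    (hδ : 0 < δ) :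
    ∫ x in KD K e δ, aa K e x * VV K i e ε x ≤
      R * Real.sqrt C * Real.sqrt (volume (K \ KD K e δ)).toReal := by
  have hbd : Bornology.IsBounded K := isBounded_ball.subset hb
  have hKm : MeasurableSet K := hK.measurableSet
  have hKf : volume K ≠ ∞ := ((measure_mono hb).trans_lt measure_ball_lt_top).ne
  have hKD : MeasurableSet (KD K e δ) := KD_meas K hK hbd e he δ hδ
  have hKDs : KD K e δ ⊆ K := fun x hx => hx.1
  obtain ⟨hVc, M, hM⟩ := VV_cont K hK hbd e i ε hε
  have haa : ∀ x ∈ K, |aa K e x| ≤ R := fun x hx => (tp_bound K R hb hK e he x hx).2.2.1.le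
  have hint : IntegrableOn (fun x => aa K e x * VV K i e ε x) K := by
    have h1 : IntegrableOn (fun x => K.indicator (aa K e) x * VV K i e ε x) K := by
      apply Measure.integrableOn_of_bounded (M := R * M) hKf
        ((aa_meas K hK hbd e he).mul hVc.measurable).aestronglyMeasurable
      filter_upwards [ae_restrict_mem hKm] with x hx
      show ‖K.indicator (aa K e) x * VV K i e ε x‖ ≤ R * M
      rw [Set.indicator_of_mem hx, Real.norm_eq_abs, abs_mul]
      exact mul_le_mul (haa x hx) (hM x) (abs_nonneg _) hR.le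
    apply h1.congr_fun _ hKm
    intro x hx
    show K.indicator (aa K e) x * VV K i e ε x = _
    rw [Set.indicator_of_mem hx]
  have hS : MeasurableSet (K \ KD K e δ) := hKm.diff hKD
  have hSK : K \ KD K e δ ⊆ K := diff_subset
  have hSf : volume (K \ KD K e δ) ≠ ∞ := ((measure_mono hSK).trans_lt hKf.lt_top).ne
  have hsplit : ∫ x in K \ KD K e δ, aa K e x * VV K i e ε x =
      (∫ x in K, aa K e x * VV K i e ε x) - ∫ x in KD K e δ, aa K e x * VV K i e ε x :=
    setIntegral_diff hKD hint hKDs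
  have hT := TT_nonpos K hK hbd e he i ε hε
  have i1 : IntegrableOn (fun x => |VV K i e ε x|) (K \ KD K e δ) := by
    apply Measure.integrableOn_of_bounded (M := M) hSf hVc.abs.aestronglyMeasurable
    filter_upwards with x
    rw [Real.norm_eq_abs, abs_abs]
    exact hM x
  have hb1 : |∫ x in K \ KD K e δ, aa K e x * VV K i e ε x| ≤ R * ∫ x in K \ KD K e δ, |VV K i e ε x| := by
    rw [← integral_const_mul]
    refine (abs_integral_le_integral_abs).trans ?_
    apply setIntegral_mono_on (hint.mono_set hSK).abs (i1.const_mul R) hS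
    intro x hx
    rw [abs_mul]
    exact mul_le_mul_of_nonneg_right (haa x hx.1) (abs_nonneg _)
  have hcs := tail_cs833 (K \ KD K e δ) hS hSf _ hVc M hM
  have hA : ∫ x in K \ KD K e δ, VV K i e ε x ^ 2 ≤ C := by
    rw [integral_eq_lintegral_of_nonneg_ae (Filter.Eventually.of_forall fun x => sq_nonneg _)
      (hVc.pow 2).aestronglyMeasurable]
    have h5 : ∫⁻ x in K \ KD K e δ, ENNReal.ofReal (VV K i e ε x ^ 2) ≤ ENNReal.ofReal C :=
      (lintegral_mono_set hSK).trans h2
    exact ENNReal.toReal_le_of_le_ofReal hC.le h5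
  have hI : ∫ x in K \ KD K e δ, |VV K i e ε x| ≤
      Real.sqrt C * Real.sqrt (volume (K \ KD K e δ)).toReal := by
    rw [← Real.sqrt_mul hC.le]
    apply Real.le_sqrt_of_sq_le
    refine hcs.trans ?_
    exact mul_le_mul_of_nonneg_right hA ENNReal.toReal_nonneg
  have h6 := neg_abs_le (∫ x in K \ KD K e δ, aa K e x * VV K i e ε x)
  have h7 : R * ∫ x in K \ KD K e δ, |VV K i e ε x| ≤
      R * (Real.sqrt C * Real.sqrt (volume (K \ KD K e δ)).toReal) := mul_le_mul_of_nonneg_left hI hR.le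
  rw [mul_assoc]
  linarith

end Pool.Agent.Helper734.IB
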