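import Mathlib
import Pool.Agent.Helper734.IB.Defs
import Pool.Agent.Helper734.IB.BasicA

set_option autoImplicit false

namespace Pool.Agent.Helper734.IB

open MeasureTheory Set Filter Topology Metric
open scoped ENNReal NNReal RealInnerProductSpace

variable {E : Type*} [NormedAddCommGroup E] [InnerProductSpace ℝ E] [FiniteDimensional ℝ E]
  [MeasurableSpace E] [BorelSpace E]

theorem DDmeas_DD_meas_aux : Measurable (fun p : E × E => DD p.1 p.2) := by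
  have hc : Continuous (fun p : E × E => DD p.1 p.2) := by
    unfold DD
    fun_prop
  exact hc.measurable

theorem DD_null (hn : 2 ≤ Module.finrank ℝ E) : ∀ᵐ p : E × E, 0 < DD p.1 p.2 := by
  have hnt : Nontrivial E := Module.nontrivial_of_finrank_pos (R := ℝ) (by omega)
  have hms : MeasurableSet {p : E × E | ¬ 0 < DD p.1 p.2} :=
    (measurableSet_lt measurable_const DDmeas_DD_meas_aux).compl
  rw [ae_iff, Measure.volume_eq_prod, Measure.measure_prod_null hms]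
  have h0 : ∀ᵐ u : E, u ≠ 0 := by
    rw [ae_iff]
    have : {a : E | ¬ a ≠ 0} = {0} := by ext; simp
    rw [this]
    exact measure_singleton 0
  filter_upwards [h0] with u hu
  have hu0 : 0 < ‖u‖ := norm_pos_iff.mpr hu
  have hsub : Prod.mk u ⁻¹' {p : E × E | ¬ 0 < DD p.1 p.2} ⊆ ((ℝ ∙ u : Submodule ℝ E) : Set E) := by
    intro v hv
    have h1 : ¬ 0 < DD u v := hv
    have h2 : ‖u‖ ^ 2 * ‖v‖ ^ 2 - ⟪u, v⟫ ^ 2 ≤ 0 := by
      by_contra h
      push Not at h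
      exact h1 (Real.sqrt_pos.mpr h)
    have h3 : ‖‖u‖ ^ 2 • v - ⟪u, v⟫ • u‖ ^ 2 ≤ 0 := by
      rw [norm_sub_sq_real, norm_smul, norm_smul, real_inner_smul_left, real_inner_smul_right,
        real_inner_comm, Real.norm_eq_abs, Real.norm_eq_abs, mul_pow, mul_pow, sq_abs, sq_abs,
        real_inner_comm u v]
      have h4 : (‖u‖ ^ 2) ^ 2 * ‖v‖ ^ 2 - 2 * (‖u‖ ^ 2 * (⟪u, v⟫ * ⟪u, v⟫)) +
          ⟪u, v⟫ ^ 2 * ‖u‖ ^ 2 = ‖u‖ ^ 2 * (‖u‖ ^ 2 * ‖v‖ ^ 2 - ⟪u, v⟫ ^ 2) := by ring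
      rw [h4]
      exact mul_nonpos_of_nonneg_of_nonpos (sq_nonneg _) h2
    have h5 : ‖u‖ ^ 2 • v - ⟪u, v⟫ • u = 0 := by
      have : ‖‖u‖ ^ 2 • v - ⟪u, v⟫ • u‖ ^ 2 = 0 := le_antisymm h3 (sq_nonneg _)
      exact norm_eq_zero.mp (pow_eq_zero_iff (two_ne_zero) |>.mp this)
    rw [sub_eq_zero] at h5
    rw [SetLike.mem_coe, Submodule.mem_span_singleton]
    refine ⟨(‖u‖ ^ 2)⁻¹ * ⟪u, v⟫, ?_⟩
    rw [mul_smul, ← h5, smul_smul, inv_mul_cancel₀ (by positivity), one_smul]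
  have hne : (ℝ ∙ u : Submodule ℝ E) ≠ ⊤ := by
    intro h
    have h1 := finrank_span_singleton (K := ℝ) hu
    rw [h, finrank_top] at h1
    omega
  exact measure_mono_null hsub (Measure.addHaar_submodule volume _ hne)

theorem DD_meas : Measurable (fun p : E × E => DD p.1 p.2) := DDmeas_DD_meas_aux

theorem DD_dec (u v : E) (w : E) (hw : ‖w‖ = 1) (hu : u = ‖u‖ • w) (z : (ℝ ∙ w)ᗮ) (r : ℝ)
    (hv : v = (z : E) + r • w) : DD u v = ‖u‖ * ‖(z : E)‖ := by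
  have h1 : ⟪u, v⟫ = ‖u‖ * r := by
    rw [hv]
    conv_lhs => rw [hu]
    rw [real_inner_smul_left, inner_add_right, real_inner_smul_right, (perp_inner w z).2,
      real_inner_self_eq_norm_sq, hw]
    ring
  have h2 : ‖v‖ ^ 2 = ‖(z : E)‖ ^ 2 + r ^ 2 := by
    rw [hv]; exact norm_dec w hw z r
  unfold DD
  rw [h1, h2]
  have h3 : ‖u‖ ^ 2 * (‖(z : E)‖ ^ 2 + r ^ 2) - (‖u‖ * r) ^ 2 = (‖u‖ * ‖(z : E)‖) ^ 2 := by ring
  rw [h3, Real.sqrt_sq (by positivity)]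

end Pool.Agent.Helper734.IB
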