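import Mathlib
import Pool.Agent.Helper734.IB.Defs

set_option autoImplicit false

namespace Pool.Agent.Helper734.IB

open MeasureTheory Set Filter Topology Metric
open scoped ENNReal NNReal RealInnerProductSpace

variable {E : Type*} [NormedAddCommGroup E] [InnerProductSpace ℝ E] [FiniteDimensional ℝ E]
  [MeasurableSpace E] [BorelSpace E]

theorem dual_dual_aux (u v : E) (hD : 0 < DD u v) :
    ∃ a : E, ⟪u, a⟫ = 0 ∧ ⟪v, a⟫ = 1 ∧ ‖a‖ = ‖u‖ / DD u v := by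
  have h1 : 0 < ‖u‖ ^ 2 * ‖v‖ ^ 2 - ⟪u, v⟫ ^ 2 := Real.sqrt_pos.1 hD
  have h2 : DD u v ^ 2 = ‖u‖ ^ 2 * ‖v‖ ^ 2 - ⟪u, v⟫ ^ 2 := Real.sq_sqrt h1.le
  have huu : ⟪u, u⟫ = ‖u‖ ^ 2 := real_inner_self_eq_norm_sq u
  have hvv : ⟪v, v⟫ = ‖v‖ ^ 2 := real_inner_self_eq_norm_sq v
  have hvu : ⟪v, u⟫ = ⟪u, v⟫ := real_inner_comm _ _
  set D2 := ‖u‖ ^ 2 * ‖v‖ ^ 2 - ⟪u, v⟫ ^ 2 with hD2
  set a : E := D2⁻¹ • (‖u‖ ^ 2 • v - ⟪u, v⟫ • u) with ha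
  have hua : ⟪u, a⟫ = 0 := by
    rw [ha, inner_smul_right, inner_sub_right, inner_smul_right, inner_smul_right, huu]
    ring
  have hva : ⟪v, a⟫ = 1 := by
    rw [ha, inner_smul_right, inner_sub_right, inner_smul_right, inner_smul_right, hvv, hvu]
    rw [inv_mul_eq_one₀ h1.ne', hD2]; ring
  refine ⟨a, hua, hva, ?_⟩
  have haa : ‖a‖ ^ 2 = ‖u‖ ^ 2 / D2 := by
    rw [← real_inner_self_eq_norm_sq]
    nth_rewrite 1 [ha]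
    rw [inner_smul_left, inner_sub_left, inner_smul_left, inner_smul_left, hua, hva]
    simp only [conj_trivial]
    field_simp
    ring
  have h3 : ‖a‖ ^ 2 = (‖u‖ / DD u v) ^ 2 := by rw [haa, div_pow, h2]
  exact (sq_eq_sq₀ (norm_nonneg _) (by positivity)).1 h3

theorem dual_vecs (u v : E) (hD : 0 < DD u v) :
    ∃ a b : E, ⟪u, a⟫ = 0 ∧ ⟪v, a⟫ = 1 ∧ ⟪u, b⟫ = 1 ∧ ⟪v, b⟫ = 0 ∧
      ‖a‖ = ‖u‖ / DD u v ∧ ‖b‖ = ‖v‖ / DD u v := by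
  have hc : DD v u = DD u v := by
    unfold DD
    rw [real_inner_comm, mul_comm]
  obtain ⟨a, ha1, ha2, ha3⟩ := dual_dual_aux u v hD
  obtain ⟨b, hb1, hb2, hb3⟩ := dual_dual_aux v u (by rw [hc]; exact hD)
  exact ⟨a, b, ha1, ha2, hb2, hb1, ha3, by rw [hb3, hc]⟩

end Pool.Agent.Helper734.IB
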