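import Mathlib
import Pool.Agent.Helper734.IB.Defs
import Pool.Agent.Helper734.IB.KkA
import Pool.Agent.Helper734.IB.WwA

set_option autoImplicit false

namespace Pool.Agent.Helper734.IB

open MeasureTheory Set Filter Topology Metric
open scoped ENNReal NNReal RealInnerProductSpace

variable {E : Type*} [NormedAddCommGroup E] [InnerProductSpace ℝ E] [FiniteDimensional ℝ E]
  [MeasurableSpace E] [BorelSpace E]

theorem parts_ww_line {F : Type*} [NormedAddCommGroup F] [InnerProductSpace ℝ F] (x a : F) :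
    HasLineDerivAt ℝ (ww : F → ℝ) (-⟪x, a⟫ * ww x) x a := by
  unfold HasLineDerivAt
  have h1 : (fun t : ℝ => ww (x + t • a)) =
      fun t : ℝ => Real.exp (-(‖x‖ ^ 2 + 2 * (t * ⟪x, a⟫) + t ^ 2 * ‖a‖ ^ 2) / 2) := by
    funext t
    unfold ww
    rw [norm_add_sq_real, inner_smul_right, norm_smul, mul_pow, Real.norm_eq_abs, sq_abs]
  rw [h1]
  have h2 : HasDerivAt (fun t : ℝ => -(‖x‖ ^ 2 + 2 * (t * ⟪x, a⟫) + t ^ 2 * ‖a‖ ^ 2) / 2)
      (-⟪x, a⟫) 0 := by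
    have h3 := ((((hasDerivAt_id (0 : ℝ)).mul_const (⟪x, a⟫)).const_mul 2).const_add
      (‖x‖ ^ 2)).add (((hasDerivAt_id (0 : ℝ)).pow 2).mul_const (‖a‖ ^ 2))
    have h4 := h3.neg.div_const 2
    refine HasDerivAt.congr_deriv (h4.congr_of_eventuallyEq ?_) ?_
    · exact Filter.Eventually.of_forall fun t => by simp
    · simp; ring
  have h5 := h2.exp
  refine h5.congr_deriv ?_
  unfold ww
  simp
  ring

theorem parts_kk_line (ε : ℝ) (hε : 0 < ε) (x v a : E) :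
    HasLineDerivAt ℝ (fun x : E => kk ε ⟪v, x⟫) (kd ε ⟪v, x⟫ * ⟪v, a⟫) x a := by
  unfold HasLineDerivAt
  have h1 : HasDerivAt (fun t : ℝ => ⟪v, x + t • a⟫) (⟪v, a⟫) 0 := by
    have h2 : (fun t : ℝ => ⟪v, x + t • a⟫) = fun t : ℝ => ⟪v, x⟫ + t * ⟪v, a⟫ := by
      funext t
      rw [inner_add_right, inner_smul_right]
    rw [h2]
    have h3 := ((hasDerivAt_id (0 : ℝ)).mul_const (⟪v, a⟫)).const_add (⟪v, x⟫)
    exact (h3.congr_of_eventuallyEq (Filter.Eventually.of_forall fun t => by simp)).congr_deriv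
      (by simp)
  have h4 : HasDerivAt (kk ε) (kd ε ⟪v, x⟫) (⟪v, x + (0 : ℝ) • a⟫) := by
    rw [zero_smul, add_zero]
    exact kk_deriv ε _ hε
  exact HasDerivAt.comp (h₂ := kk ε) (h := fun t : ℝ => ⟪v, x + t • a⟫) (0 : ℝ) h4 h1

theorem parts_int_of_bound (h : E → ℝ) (hc : Continuous h) (C : ℝ)
    (hb : ∀ x, |h x| ≤ C * ((1 + ‖x‖ ^ 2) * ww x)) : Integrable h := by
  have h0 : Integrable (fun u : E => ww u) := by
    have := ww_int (E := E) 0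
    simpa using this
  have h2 := ww_int (E := E) 2
  have h3 : Integrable (fun x : E => C * ((1 + ‖x‖ ^ 2) * ww x)) := by
    have h4 : (fun x : E => C * ((1 + ‖x‖ ^ 2) * ww x)) =
        fun x : E => C * (ww x + ‖x‖ ^ 2 * ww x) := by
      funext x; ring
    rw [h4]
    exact (h0.add h2).const_mul C
  exact h3.mono' hc.aestronglyMeasurable (Filter.Eventually.of_forall fun x => by
    rw [Real.norm_eq_abs]; exact hb x)

theorem parts_inner_le_aux (x a : E) : |(⟪x, a⟫ : ℝ)| ≤ ‖a‖ * (1 + ‖x‖ ^ 2) := by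
  have h1 := abs_real_inner_le_norm x a
  have h2 : ‖x‖ ≤ 1 + ‖x‖ ^ 2 := by nlinarith [norm_nonneg x, sq_nonneg (‖x‖ - 1)]
  calc |(⟪x, a⟫ : ℝ)| ≤ ‖x‖ * ‖a‖ := h1
    _ ≤ (1 + ‖x‖ ^ 2) * ‖a‖ := mul_le_mul_of_nonneg_right h2 (norm_nonneg _)
    _ = _ := by ring

theorem parts_kk_abs (ε r : ℝ) (hε : 0 < ε) : |kk ε r| ≤ ε⁻¹ := by
  rw [abs_of_pos (kk_pos ε r hε)]
  exact kk_le ε r hε

theorem parts_gen_bound {A B P C1 C2 M : ℝ} {x : E} (h1 : |A| ≤ C1) (h2 : |B| ≤ C2)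
    (h3 : |P| ≤ M * (1 + ‖x‖ ^ 2)) :
    |A * B * (P * ww x)| ≤ C1 * C2 * M * ((1 + ‖x‖ ^ 2) * ww x) := by
  have hw := ww_pos x
  have hC1 : 0 ≤ C1 := (abs_nonneg _).trans h1
  have hC2 : 0 ≤ C2 := (abs_nonneg _).trans h2
  rw [abs_mul, abs_mul, abs_mul, abs_of_pos hw.1]
  calc |A| * |B| * (|P| * ww x) ≤ (C1 * C2) * ((M * (1 + ‖x‖ ^ 2)) * ww x) := by
        apply mul_le_mul (mul_le_mul h1 h2 (abs_nonneg _) hC1)
          (mul_le_mul_of_nonneg_right h3 hw.1.le) (mul_nonneg (abs_nonneg _) hw.1.le)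
          (mul_nonneg hC1 hC2)
    _ = _ := by ring

theorem parts1 (ε : ℝ) (hε : 0 < ε) (u v a : E) (hu : ⟪u, a⟫ = 0) (hv : ⟪v, a⟫ = 1) :
    ∫ x : E, kd ε ⟪u, x⟫ * kd ε ⟪v, x⟫ * ww x =
      ∫ x : E, kd ε ⟪u, x⟫ * kk ε ⟪v, x⟫ * ⟪x, a⟫ * ww x := by
  have hkc := kk_cont ε
  have hdc := kd_cont ε
  have hwc := ww_cont (F := E)
  have hcu : Continuous fun x : E => kd ε ⟪u, x⟫ := hdc.comp (by fun_prop)
  have hcv : Continuous fun x : E => kd ε ⟪v, x⟫ := hdc.comp (by fun_prop)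
  have hkv : Continuous fun x : E => kk ε ⟪v, x⟫ := hkc.comp (by fun_prop)
  have hca : Continuous fun x : E => (⟪x, a⟫ : ℝ) := by fun_prop
  have key := integral_bilinear_hasLineDerivAt_right_eq_neg_left_of_integrable
    (μ := (volume : Measure E)) (B := ContinuousLinearMap.mul ℝ ℝ) (v := a)
    (f := fun x : E => kd ε ⟪u, x⟫ * ww x) (f' := fun x : E => kd ε ⟪u, x⟫ * (-⟪x, a⟫ * ww x))
    (g := fun x : E => kk ε ⟪v, x⟫) (g' := fun x : E => kd ε ⟪v, x⟫)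
    (by
      simp only [ContinuousLinearMap.mul_apply']
      refine parts_int_of_bound _ ((hcu.mul (hca.neg.mul hwc)).mul hkv)
        ((ε ^ 2)⁻¹ * ε⁻¹ * ‖a‖) fun x => ?_
      have := parts_gen_bound (kd_le ε ⟪u, x⟫ hε) (parts_kk_abs ε ⟪v, x⟫ hε)
        (by rw [abs_neg]; exact parts_inner_le_aux x a : |-(⟪x, a⟫ : ℝ)| ≤ ‖a‖ * (1 + ‖x‖ ^ 2))
      convert this using 2
      ring)
    (by
      simp only [ContinuousLinearMap.mul_apply']
      refine parts_int_of_bound _ ((hcu.mul hwc).mul hcv)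
        ((ε ^ 2)⁻¹ * (ε ^ 2)⁻¹ * 1) fun x => ?_
      have := parts_gen_bound (x := x) (P := 1) (M := 1) (kd_le ε ⟪u, x⟫ hε) (kd_le ε ⟪v, x⟫ hε)
        (by rw [abs_one]; nlinarith [sq_nonneg ‖x‖])
      convert this using 2
      ring)
    (by
      simp only [ContinuousLinearMap.mul_apply']
      refine parts_int_of_bound _ ((hcu.mul hwc).mul hkv)
        ((ε ^ 2)⁻¹ * ε⁻¹ * 1) fun x => ?_
      have := parts_gen_bound (x := x) (P := 1) (M := 1) (kd_le ε ⟪u, x⟫ hε) (parts_kk_abs ε ⟪v, x⟫ hε)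
        (by rw [abs_one]; nlinarith [sq_nonneg ‖x‖])
      convert this using 2
      ring)
    (fun x _ => by
      have h1 : HasLineDerivAt ℝ (ww : E → ℝ) (-⟪x, a⟫ * ww x) x a := parts_ww_line x a
      unfold HasLineDerivAt at h1 ⊢
      have h2 := h1.const_mul (kd ε ⟪u, x⟫)
      have h3 : (fun t : ℝ => kd ε ⟪u, x + t • a⟫ * ww (x + t • a)) =
          fun t : ℝ => kd ε ⟪u, x⟫ * ww (x + t • a) := by
        funext t
        rw [inner_add_right, inner_smul_right, hu, mul_zero, add_zero]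
      rw [h3]
      exact h2)
    (fun x _ => by
      have h1 := parts_kk_line ε hε x v a
      rw [hv, mul_one] at h1
      exact h1)
  simp only [ContinuousLinearMap.mul_apply'] at key
  calc ∫ x : E, kd ε ⟪u, x⟫ * kd ε ⟪v, x⟫ * ww x
      = ∫ x : E, kd ε ⟪u, x⟫ * ww x * kd ε ⟪v, x⟫ := by
        congr 1; funext x; ring
    _ = -∫ x : E, kd ε ⟪u, x⟫ * (-⟪x, a⟫ * ww x) * kk ε ⟪v, x⟫ := key
    _ = ∫ x : E, kd ε ⟪u, x⟫ * kk ε ⟪v, x⟫ * ⟪x, a⟫ * ww x := by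
        rw [← integral_neg]
        congr 1; funext x; ring

theorem parts2 (ε : ℝ) (hε : 0 < ε) (u v a b : E) (hu : ⟪u, b⟫ = 1) (hv : ⟪v, b⟫ = 0) :
    ∫ x : E, kd ε ⟪u, x⟫ * kk ε ⟪v, x⟫ * ⟪x, a⟫ * ww x =
      ∫ x : E, kk ε ⟪u, x⟫ * kk ε ⟪v, x⟫ * (⟪x, a⟫ * ⟪x, b⟫ - ⟪a, b⟫) * ww x := by
  have hkc := kk_cont ε
  have hdc := kd_cont ε
  have hwc := ww_cont (F := E)
  have hcu : Continuous fun x : E => kd ε ⟪u, x⟫ := hdc.comp (by fun_prop)
  have hku : Continuous fun x : E => kk ε ⟪u, x⟫ := hkc.comp (by fun_prop)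
  have hkv : Continuous fun x : E => kk ε ⟪v, x⟫ := hkc.comp (by fun_prop)
  have hca : Continuous fun x : E => (⟪x, a⟫ : ℝ) := by fun_prop
  have hcb : Continuous fun x : E => (⟪x, b⟫ : ℝ) := by fun_prop
  have hq : ∀ x : E, |(⟪a, b⟫ : ℝ) - ⟪x, a⟫ * ⟪x, b⟫| ≤ (‖a‖ * ‖b‖) * (1 + ‖x‖ ^ 2) := by
    intro x
    have h1 := abs_real_inner_le_norm x a
    have h2 := abs_real_inner_le_norm x b
    have h3 := abs_real_inner_le_norm a b
    calc |(⟪a, b⟫ : ℝ) - ⟪x, a⟫ * ⟪x, b⟫| ≤ |(⟪a, b⟫ : ℝ)| + |(⟪x, a⟫ : ℝ) * ⟪x, b⟫| := abs_sub _ _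
      _ ≤ ‖a‖ * ‖b‖ + (‖x‖ * ‖a‖) * (‖x‖ * ‖b‖) := by
          rw [abs_mul]
          exact add_le_add h3 (mul_le_mul h1 h2 (abs_nonneg _) (by positivity))
      _ = _ := by ring
  have key := integral_bilinear_hasLineDerivAt_right_eq_neg_left_of_integrable
    (μ := (volume : Measure E)) (B := ContinuousLinearMap.mul ℝ ℝ) (v := b)
    (f := fun x : E => kk ε ⟪v, x⟫ * (⟪x, a⟫ * ww x))
    (f' := fun x : E => kk ε ⟪v, x⟫ * ((⟪a, b⟫ - ⟪x, a⟫ * ⟪x, b⟫) * ww x))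
    (g := fun x : E => kk ε ⟪u, x⟫) (g' := fun x : E => kd ε ⟪u, x⟫)
    (by
      simp only [ContinuousLinearMap.mul_apply']
      refine parts_int_of_bound _ ((hkv.mul ((continuous_const.sub (hca.mul hcb)).mul hwc)).mul hku)
        (ε⁻¹ * ε⁻¹ * (‖a‖ * ‖b‖)) fun x => ?_
      have := parts_gen_bound (parts_kk_abs ε ⟪v, x⟫ hε) (parts_kk_abs ε ⟪u, x⟫ hε) (hq x)
      convert this using 2
      ring)
    (by
      simp only [ContinuousLinearMap.mul_apply']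
      refine parts_int_of_bound _ ((hkv.mul (hca.mul hwc)).mul hcu)
        (ε⁻¹ * (ε ^ 2)⁻¹ * ‖a‖) fun x => ?_
      have := parts_gen_bound (parts_kk_abs ε ⟪v, x⟫ hε) (kd_le ε ⟪u, x⟫ hε) (parts_inner_le_aux x a)
      convert this using 2
      ring)
    (by
      simp only [ContinuousLinearMap.mul_apply']
      refine parts_int_of_bound _ ((hkv.mul (hca.mul hwc)).mul hku)
        (ε⁻¹ * ε⁻¹ * ‖a‖) fun x => ?_
      have := parts_gen_bound (parts_kk_abs ε ⟪v, x⟫ hε) (parts_kk_abs ε ⟪u, x⟫ hε) (parts_inner_le_aux x a)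
      convert this using 2
      ring)
    (fun x _ => by
      have h1 : HasLineDerivAt ℝ (ww : E → ℝ) (-⟪x, b⟫ * ww x) x b := parts_ww_line x b
      unfold HasLineDerivAt at h1 ⊢
      have h5 : HasDerivAt (fun t : ℝ => (⟪x + t • b, a⟫ : ℝ)) (⟪a, b⟫) 0 := by
        have h6 : (fun t : ℝ => (⟪x + t • b, a⟫ : ℝ)) = fun t : ℝ => ⟪x, a⟫ + t * ⟪a, b⟫ := by
          funext t
          rw [inner_add_left, inner_smul_left, real_inner_comm a b]
          simp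
        rw [h6]
        have h7 := ((hasDerivAt_id (0 : ℝ)).mul_const (⟪a, b⟫)).const_add (⟪x, a⟫)
        exact (h7.congr_of_eventuallyEq (Filter.Eventually.of_forall fun t => by simp)).congr_deriv
          (by simp)
      have h8 := (h5.mul h1).const_mul (kk ε ⟪v, x⟫)
      have h3 : (fun t : ℝ => kk ε ⟪v, x + t • b⟫ * (⟪x + t • b, a⟫ * ww (x + t • b))) =
          fun t : ℝ => kk ε ⟪v, x⟫ * (((fun t : ℝ => (⟪x + t • b, a⟫ : ℝ)) *
            fun t : ℝ => ww (x + t • b)) t) := by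
        funext t
        rw [inner_add_right v, inner_smul_right, hv, mul_zero, add_zero]
        rfl
      rw [h3]
      exact h8.congr_deriv (by rw [zero_smul, add_zero]; ring))
    (fun x _ => by
      have h1 := parts_kk_line ε hε x u b
      rw [hu, mul_one] at h1
      exact h1)
  simp only [ContinuousLinearMap.mul_apply'] at key
  calc ∫ x : E, kd ε ⟪u, x⟫ * kk ε ⟪v, x⟫ * ⟪x, a⟫ * ww x
      = ∫ x : E, kk ε ⟪v, x⟫ * (⟪x, a⟫ * ww x) * kd ε ⟪u, x⟫ := by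
        congr 1; funext x; ring
    _ = -∫ x : E, kk ε ⟪v, x⟫ * ((⟪a, b⟫ - ⟪x, a⟫ * ⟪x, b⟫) * ww x) * kk ε ⟪u, x⟫ := key
    _ = ∫ x : E, kk ε ⟪u, x⟫ * kk ε ⟪v, x⟫ * (⟪x, a⟫ * ⟪x, b⟫ - ⟪a, b⟫) * ww x := by
        rw [← integral_neg]
        congr 1; funext x; ring

end Pool.Agent.Helper734.IB
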