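import Mathlib
import Pool.Agent.Helper734.IB.Defs
import Pool.Agent.Helper734.IB.BasicA
import Pool.Agent.Helper734.IB.DDmeas
import Pool.Agent.Helper734.IB.KkA
import Pool.Agent.Helper734.IB.KkB
import Pool.Agent.Helper734.IB.Ldec
import Pool.Agent.Helper734.IB.Slab
import Pool.Agent.Helper734.IB.WwA

set_option autoImplicit false

namespace Pool.Agent.Helper734.IB

open MeasureTheory Set Filter Topology Metric
open scoped ENNReal NNReal RealInnerProductSpace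

variable {E : Type*} [NormedAddCommGroup E] [InnerProductSpace ℝ E] [FiniteDimensional ℝ E]
  [MeasurableSpace E] [BorelSpace E]

theorem twoslab (ε : ℝ) (hε : 0 < ε) (u v : E) (hD : 0 < DD u v) :
    ∫⁻ x : E, ENNReal.ofReal (kk ε ⟪u, x⟫ * kk ε ⟪v, x⟫ * Real.exp (-(‖x‖ ^ 2) / 4)) ≤
      ENNReal.ofReal (2 * Real.pi * (4 * Real.pi) ^ (((Module.finrank ℝ E : ℝ) - 2) / 2)
        / DD u v) := by
  have hu : u ≠ 0 := by
    rintro rfl
    unfold DD at hD
    simp at hD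
  have hun : 0 < ‖u‖ := norm_pos_iff.2 hu
  obtain ⟨w, hw⟩ : ∃ w, w = ‖u‖⁻¹ • u := ⟨_, rfl⟩
  have hwn : ‖w‖ = 1 := by
    rw [hw, norm_smul, norm_inv, norm_norm, inv_mul_cancel₀ hun.ne']
  have huw : u = ‖u‖ • w := by
    rw [hw, smul_smul, mul_inv_cancel₀ hun.ne', one_smul]
  have hw0 : w ≠ 0 := by
    intro h
    rw [h, norm_zero] at hwn
    exact zero_ne_one hwn
  have hww : ⟪w, w⟫ = 1 := by rw [real_inner_self_eq_norm_sq, hwn, one_pow]
  obtain ⟨z1, -, hv⟩ := dec_exists w hwn v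
  obtain ⟨r1, hr1⟩ : ∃ r1 : ℝ, r1 = ⟪v, w⟫ := ⟨_, rfl⟩
  rw [← hr1] at hv
  have hDD := DD_dec u v w hwn huw z1 r1 hv
  have hz1 : 0 < ‖(z1 : E)‖ := by
    rw [hDD] at hD
    exact pos_of_mul_pos_right hD hun.le
  have hz1' : z1 ≠ 0 := by
    rintro rfl
    simp at hz1
  have hin1 : ∀ (z : (ℝ ∙ w)ᗮ) (r : ℝ), ⟪u, (z : E) + r • w⟫ = ‖u‖ * r := by
    intro z r
    nth_rewrite 1 [huw]
    rw [real_inner_smul_left, inner_add_right, (perp_inner w z).2, real_inner_smul_right, hww,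
      zero_add, mul_one]
  have hin2 : ∀ (z : (ℝ ∙ w)ᗮ) (r : ℝ), ⟪v, (z : E) + r • w⟫ = r1 * r + ⟪z1, z⟫ := by
    intro z r
    nth_rewrite 1 [hv]
    rw [inner_add_left, inner_add_right, inner_add_right, real_inner_smul_left,
      real_inner_smul_left, real_inner_smul_right, real_inner_smul_right, (perp_inner w z).2,
      (perp_inner w z1).1, hww, Submodule.coe_inner]
    ring
  have hmeas : Measurable fun x : E =>
      ENNReal.ofReal (kk ε ⟪u, x⟫ * kk ε ⟪v, x⟫ * Real.exp (-(‖x‖ ^ 2) / 4)) := by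
    apply ENNReal.measurable_ofReal.comp
    apply Continuous.measurable
    have h1 : Continuous fun x : E => kk ε ⟪u, x⟫ :=
      (kk_cont ε).comp (continuous_const.inner continuous_id)
    have h2 : Continuous fun x : E => kk ε ⟪v, x⟫ :=
      (kk_cont ε).comp (continuous_const.inner continuous_id)
    have h3 : Continuous fun x : E => Real.exp (-(‖x‖ ^ 2) / 4) := by fun_prop
    exact (h1.mul h2).mul h3
  rw [ldec w hwn _ hmeas]
  have hstep : ∀ (z : (ℝ ∙ w)ᗮ) (r : ℝ),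
      ENNReal.ofReal (kk ε ⟪u, (z : E) + r • w⟫ * kk ε ⟪v, (z : E) + r • w⟫ *
        Real.exp (-(‖(z : E) + r • w‖ ^ 2) / 4)) ≤
      ENNReal.ofReal (kk ε (0 + ‖u‖ * r)) *
        ENNReal.ofReal (kk ε (r1 * r + ⟪z1, z⟫) * Real.exp (-(‖z‖ ^ 2) / 4)) := by
    intro z r
    rw [hin1, hin2, norm_dec w hwn, ← ENNReal.ofReal_mul (kk_pos ε _ hε).le, zero_add]
    apply ENNReal.ofReal_le_ofReal
    rw [mul_assoc]
    apply mul_le_mul_of_nonneg_left _ (kk_pos ε _ hε).le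
    apply mul_le_mul_of_nonneg_left _ (kk_pos ε _ hε).le
    apply Real.exp_le_exp.2
    have h1 : ‖(z : E)‖ = ‖z‖ := Submodule.coe_norm z
    rw [h1]
    have : 0 ≤ r ^ 2 := sq_nonneg r
    linarith
  refine (lintegral_mono fun z => lintegral_mono fun r => hstep z r).trans ?_
  rw [lintegral_lintegral_swap]
  · have hin : ∀ r : ℝ, ∫⁻ z : (ℝ ∙ w)ᗮ, ENNReal.ofReal (kk ε (0 + ‖u‖ * r)) *
        ENNReal.ofReal (kk ε (r1 * r + ⟪z1, z⟫) * Real.exp (-(‖z‖ ^ 2) / 4)) ≤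
        ENNReal.ofReal (kk ε (0 + ‖u‖ * r)) *
        ENNReal.ofReal (Real.sqrt (2 * Real.pi) / ‖z1‖ *
        (4 * Real.pi) ^ (((Module.finrank ℝ (ℝ ∙ w)ᗮ : ℝ) - 1) / 2)) := by
      intro r
      rw [lintegral_const_mul' _ _ ENNReal.ofReal_ne_top]
      gcongr
      exact slab ε (r1 * r) hε z1 hz1'
    refine (lintegral_mono hin).trans ?_
    rw [lintegral_mul_const' _ _ ENNReal.ofReal_ne_top, kk_lint ε 0 ‖u‖ hε hun.ne',
      ← ENNReal.ofReal_mul (by positivity)]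
    apply le_of_eq
    congr 1
    have hfr := finrank_perp w hw0
    have hfr' : ((Module.finrank ℝ (ℝ ∙ w)ᗮ : ℝ) - 1) / 2 =
        ((Module.finrank ℝ E : ℝ) - 2) / 2 := by
      rw [← hfr]; push_cast; ring
    have h1 : ‖(z1 : E)‖ = ‖z1‖ := Submodule.coe_norm z1
    rw [hfr', hDD, h1, abs_of_pos hun]
    rw [h1] at hz1
    have h2 : Real.sqrt (2 * Real.pi) * Real.sqrt (2 * Real.pi) = 2 * Real.pi :=
      Real.mul_self_sqrt (by positivity)
    field_simp
    rw [sq, h2]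
  · apply Measurable.aemeasurable
    have m1 : Measurable fun p : (ℝ ∙ w)ᗮ × ℝ => ENNReal.ofReal (kk ε (0 + ‖u‖ * p.2)) := by
      apply ENNReal.measurable_ofReal.comp
      apply Continuous.measurable
      exact (kk_cont ε).comp (by fun_prop)
    have m2 : Measurable fun p : (ℝ ∙ w)ᗮ × ℝ =>
        ENNReal.ofReal (kk ε (r1 * p.2 + ⟪z1, p.1⟫) * Real.exp (-(‖p.1‖ ^ 2) / 4)) := by
      apply ENNReal.measurable_ofReal.comp
      apply Continuous.measurable
      have h1 : Continuous fun p : (ℝ ∙ w)ᗮ × ℝ => kk ε (r1 * p.2 + ⟪z1, p.1⟫) :=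
        (kk_cont ε).comp ((continuous_const.mul continuous_snd).add
          (continuous_const.inner continuous_fst))
      have h2 : Continuous fun p : (ℝ ∙ w)ᗮ × ℝ => Real.exp (-(‖p.1‖ ^ 2) / 4) := by
        fun_prop
      exact h1.mul h2
    exact m1.mul m2

end Pool.Agent.Helper734.IB
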