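import Mathlib
import Pool.Agent.Helper734.IB.Defs
import Pool.Agent.Helper734.IB.Dual
import Pool.Agent.Helper734.IB.KkA
import Pool.Agent.Helper734.IB.Parts
import Pool.Agent.Helper734.IB.Twoslab
import Pool.Agent.Helper734.IB.WwA

set_option autoImplicit false

namespace Pool.Agent.Helper734.IB

open MeasureTheory Set Filter Topology Metric
open scoped ENNReal NNReal RealInnerProductSpace

variable {E : Type*} [NormedAddCommGroup E] [InnerProductSpace ℝ E] [FiniteDimensional ℝ E]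
  [MeasurableSpace E] [BorelSpace E]

theorem Pbound (ε : ℝ) (hε : 0 < ε) (u v : E) (hD : 0 < DD u v) :
    |∫ x : E, kd ε ⟪u, x⟫ * kd ε ⟪v, x⟫ * ww x| ≤
      4 * Real.pi * (4 * Real.pi) ^ (((Module.finrank ℝ E : ℝ) - 2) / 2) *
        (‖u‖ * ‖v‖ / DD u v ^ 3) := by
  obtain ⟨a, b, hua, hva, hub, hvb, ha, hb⟩ := dual_vecs u v hD
  rw [parts1 ε hε u v a hua hva, parts2 ε hε u v a b hub hvb]
  have hpt : ∀ x : E, ‖kk ε ⟪u, x⟫ * kk ε ⟪v, x⟫ * (⟪x, a⟫ * ⟪x, b⟫ - ⟪a, b⟫) * ww x‖ ≤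
      (2 * (‖a‖ * ‖b‖)) * (kk ε ⟪u, x⟫ * kk ε ⟪v, x⟫ * Real.exp (-(‖x‖ ^ 2) / 4)) := by
    intro x
    have hk1 := kk_pos ε ⟪u, x⟫ hε
    have hk2 := kk_pos ε ⟪v, x⟫ hε
    have hw := (ww_pos x).1
    rw [norm_mul, norm_mul, norm_mul, Real.norm_of_nonneg hk1.le, Real.norm_of_nonneg hk2.le,
      Real.norm_of_nonneg hw.le, Real.norm_eq_abs]
    have h1 : |⟪x, a⟫ * ⟪x, b⟫ - ⟪a, b⟫| ≤ (‖a‖ * ‖b‖) * (1 + ‖x‖ ^ 2) := by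
      have e1 := abs_real_inner_le_norm x a
      have e2 := abs_real_inner_le_norm x b
      have e3 := abs_real_inner_le_norm a b
      calc |⟪x, a⟫ * ⟪x, b⟫ - ⟪a, b⟫| ≤ |⟪x, a⟫ * ⟪x, b⟫| + |⟪a, b⟫| := abs_sub _ _
        _ = |⟪x, a⟫| * |⟪x, b⟫| + |⟪a, b⟫| := by rw [abs_mul]
        _ ≤ (‖x‖ * ‖a‖) * (‖x‖ * ‖b‖) + ‖a‖ * ‖b‖ :=
            add_le_add (mul_le_mul e1 e2 (abs_nonneg _) (by positivity)) e3
        _ = _ := by ring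
    have h2 : (1 + ‖x‖ ^ 2) * ww x ≤ 2 * Real.exp (-(‖x‖ ^ 2) / 4) := by
      have e0 : ww x = Real.exp (-(‖x‖ ^ 2) / 4) * Real.exp (-(‖x‖ ^ 2) / 4) := by
        rw [ww, ← Real.exp_add]; congr 1; ring
      have e1 : 1 + ‖x‖ ^ 2 ≤ 2 * Real.exp (‖x‖ ^ 2 / 4) := by
        have h := Real.quadratic_le_exp_of_nonneg (show (0 : ℝ) ≤ ‖x‖ ^ 2 / 4 by positivity)
        nlinarith [sq_nonneg (1 - ‖x‖ ^ 2 / 4)]
      have e2 : Real.exp (‖x‖ ^ 2 / 4) * Real.exp (-(‖x‖ ^ 2) / 4) = 1 := by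
        rw [← Real.exp_add]
        have : ‖x‖ ^ 2 / 4 + -(‖x‖ ^ 2) / 4 = 0 := by ring
        rw [this, Real.exp_zero]
      have e3 : 0 < Real.exp (-(‖x‖ ^ 2) / 4) := Real.exp_pos _
      rw [e0]
      calc (1 + ‖x‖ ^ 2) * (Real.exp (-(‖x‖ ^ 2) / 4) * Real.exp (-(‖x‖ ^ 2) / 4))
          ≤ (2 * Real.exp (‖x‖ ^ 2 / 4)) *
            (Real.exp (-(‖x‖ ^ 2) / 4) * Real.exp (-(‖x‖ ^ 2) / 4)) :=
            mul_le_mul_of_nonneg_right e1 (by positivity)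
        _ = 2 * (Real.exp (‖x‖ ^ 2 / 4) * Real.exp (-(‖x‖ ^ 2) / 4)) *
            Real.exp (-(‖x‖ ^ 2) / 4) := by ring
        _ = _ := by rw [e2]; ring
    have h3 : 0 ≤ kk ε ⟪u, x⟫ * kk ε ⟪v, x⟫ := by positivity
    calc kk ε ⟪u, x⟫ * kk ε ⟪v, x⟫ * |⟪x, a⟫ * ⟪x, b⟫ - ⟪a, b⟫| * ww x
        ≤ kk ε ⟪u, x⟫ * kk ε ⟪v, x⟫ * ((‖a‖ * ‖b‖) * (1 + ‖x‖ ^ 2)) * ww x :=
          mul_le_mul_of_nonneg_right (mul_le_mul_of_nonneg_left h1 h3) hw.le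
      _ = (kk ε ⟪u, x⟫ * kk ε ⟪v, x⟫ * (‖a‖ * ‖b‖)) * ((1 + ‖x‖ ^ 2) * ww x) := by ring
      _ ≤ (kk ε ⟪u, x⟫ * kk ε ⟪v, x⟫ * (‖a‖ * ‖b‖)) * (2 * Real.exp (-(‖x‖ ^ 2) / 4)) :=
          mul_le_mul_of_nonneg_left h2 (by positivity)
      _ = _ := by ring
  have hlin : ∫⁻ x : E, ENNReal.ofReal
      ‖kk ε ⟪u, x⟫ * kk ε ⟪v, x⟫ * (⟪x, a⟫ * ⟪x, b⟫ - ⟪a, b⟫) * ww x‖ ≤
      ENNReal.ofReal (2 * (‖a‖ * ‖b‖)) *
        ENNReal.ofReal (2 * Real.pi * (4 * Real.pi) ^ (((Module.finrank ℝ E : ℝ) - 2) / 2)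
        / DD u v) := by
    calc _ ≤ ∫⁻ x : E, ENNReal.ofReal (2 * (‖a‖ * ‖b‖)) *
          ENNReal.ofReal (kk ε ⟪u, x⟫ * kk ε ⟪v, x⟫ * Real.exp (-(‖x‖ ^ 2) / 4)) := by
          refine lintegral_mono fun x => ?_
          rw [← ENNReal.ofReal_mul (by positivity)]
          exact ENNReal.ofReal_le_ofReal (hpt x)
      _ = ENNReal.ofReal (2 * (‖a‖ * ‖b‖)) * ∫⁻ x : E,
          ENNReal.ofReal (kk ε ⟪u, x⟫ * kk ε ⟪v, x⟫ * Real.exp (-(‖x‖ ^ 2) / 4)) :=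
          lintegral_const_mul' _ _ ENNReal.ofReal_ne_top
      _ ≤ _ := by gcongr; exact twoslab ε hε u v hD
  have hle := norm_integral_le_lintegral_norm
    (fun x : E => kk ε ⟪u, x⟫ * kk ε ⟪v, x⟫ * (⟪x, a⟫ * ⟪x, b⟫ - ⟪a, b⟫) * ww x) (μ := volume)
  rw [Real.norm_eq_abs] at hle
  refine hle.trans ?_
  have h5 := ENNReal.toReal_mono (ENNReal.mul_ne_top ENNReal.ofReal_ne_top
    ENNReal.ofReal_ne_top) hlin
  refine h5.trans (le_of_eq ?_)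
  have hpi : 0 ≤ 2 * Real.pi * (4 * Real.pi) ^ (((Module.finrank ℝ E : ℝ) - 2) / 2) / DD u v := by
    positivity
  rw [ENNReal.toReal_mul, ENNReal.toReal_ofReal (by positivity), ENNReal.toReal_ofReal hpi, ha, hb]
  field_simp
  ring

end Pool.Agent.Helper734.IB
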