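import Mathlib
import Pool.Agent.Helper734.IB.Defs
import Pool.Agent.Helper734.IB.BasicA
import Pool.Agent.Helper734.IB.Rad
import Pool.Agent.Helper734.IB.WwA

set_option autoImplicit false

namespace Pool.Agent.Helper734.IB

open MeasureTheory Set Filter Topology Metric
open scoped ENNReal NNReal RealInnerProductSpace

variable {E : Type*} [NormedAddCommGroup E] [InnerProductSpace ℝ E] [FiniteDimensional ℝ E]
  [MeasurableSpace E] [BorelSpace E]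

omit [FiniteDimensional ℝ E] [MeasurableSpace E] [BorelSpace E] in
theorem JJ_ww_nn {F : Type*} [NormedAddCommGroup F] (u : F) : 0 ≤ ww u := (Real.exp_pos _).le

theorem JJ_JJ_pt (i : ℕ) (hi : 2 ≤ i) (q : ℝ) (hq0 : 0 ≤ q) (hq : q ≤ (i : ℝ) - 2) (w : E)
    (hw : ‖w‖ = 1) (z : (ℝ ∙ w)ᗮ) (r : ℝ) (hr : r ≠ 0) :
    ‖(z : E) + r • w‖ ^ 2 / (‖(z : E) + r • w‖ ^ i * ‖(z : E)‖ ^ 3) * ww ((z : E) + r • w) ≤
      (‖z‖ ^ (-((i : ℝ) + 1 - q)) * ww z) * (‖r‖ ^ (-q) * ww r) := by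
  have hwz : ww (z : E) = ww z := rfl
  have hnz : ‖(z : E)‖ = ‖z‖ := rfl
  rw [ww_dec w hw z r, hwz]
  have hs2 := norm_dec w hw z r
  rw [hnz] at hs2 ⊢
  obtain ⟨s, hs⟩ : ∃ s, s = ‖(z : E) + r • w‖ := ⟨_, rfl⟩
  obtain ⟨a, ha⟩ : ∃ a, a = ‖z‖ := ⟨_, rfl⟩
  obtain ⟨b, hb⟩ : ∃ b, b = ‖r‖ := ⟨_, rfl⟩
  have hs0 : 0 ≤ s := by rw [hs]; exact norm_nonneg _
  have ha0 : 0 ≤ a := by rw [ha]; exact norm_nonneg _
  have hb0 : 0 < b := by rw [hb]; exact norm_pos_iff.mpr hr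
  have hb2 : r ^ 2 = b ^ 2 := by rw [hb, Real.norm_eq_abs, sq_abs]
  rw [← hs, ← ha, hb2] at hs2
  rw [← hs, ← ha, ← hb]
  have h1 := JJ_ww_nn z
  have h2 := JJ_ww_nn r
  rcases eq_or_lt_of_le ha0 with h0 | h0
  · rw [← h0]
    have h3 : (0 : ℝ) ≤ 0 ^ (-((i : ℝ) + 1 - q)) := Real.rpow_nonneg (le_refl _) _
    have h4 : (0 : ℝ) ≤ b ^ (-q) := Real.rpow_nonneg hb0.le _
    have h5 : s ^ 2 / (s ^ i * (0 : ℝ) ^ 3) * (ww z * ww r) = 0 := by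
      norm_num
    rw [h5]
    positivity
  · have has : a ≤ s := by
      by_contra hcon
      push Not at hcon
      nlinarith
    have hbs : b ≤ s := by
      by_contra hcon
      push Not at hcon
      nlinarith
    have hsp : 0 < s := lt_of_lt_of_le h0 has
    have e1 : s ^ 2 / (s ^ i * a ^ 3) = (s ^ (i - 2))⁻¹ * (a ^ 3)⁻¹ := by
      have : s ^ i = s ^ 2 * s ^ (i - 2) := by rw [← pow_add]; congr 1; omega
      rw [this]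
      field_simp
    have e2 : a ^ ((i : ℝ) - 2 - q) * b ^ q ≤ s ^ (i - 2) := by
      have e3 : s ^ (i - 2) = s ^ ((i : ℝ) - 2 - q) * s ^ q := by
        rw [← Real.rpow_add hsp, ← Real.rpow_natCast s (i - 2), Nat.cast_sub hi]
        congr 1
        push_cast
        ring
      rw [e3]
      exact mul_le_mul (Real.rpow_le_rpow ha0 has (by linarith))
        (Real.rpow_le_rpow hb0.le hbs hq0) (Real.rpow_nonneg hb0.le _) (Real.rpow_nonneg hs0 _)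
    have e4 : (s ^ (i - 2))⁻¹ ≤ (a ^ ((i : ℝ) - 2 - q) * b ^ q)⁻¹ :=
      inv_anti₀ (mul_pos (Real.rpow_pos_of_pos h0 _) (Real.rpow_pos_of_pos hb0 _)) e2
    have e5 : (a ^ ((i : ℝ) - 2 - q) * b ^ q)⁻¹ * (a ^ 3)⁻¹ =
        a ^ (-((i : ℝ) + 1 - q)) * b ^ (-q) := by
      have e6 : (a ^ 3)⁻¹ = a ^ (-(3 : ℝ)) := by
        rw [Real.rpow_neg ha0]
        congr 1
        exact_mod_cast (Real.rpow_natCast a 3).symm
      rw [mul_inv, ← Real.rpow_neg ha0, ← Real.rpow_neg hb0.le, e6, mul_right_comm,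
        ← Real.rpow_add h0]
      congr 2
      ring
    calc s ^ 2 / (s ^ i * a ^ 3) * (ww z * ww r)
        = (s ^ (i - 2))⁻¹ * (a ^ 3)⁻¹ * (ww z * ww r) := by rw [e1]
      _ ≤ (a ^ ((i : ℝ) - 2 - q) * b ^ q)⁻¹ * (a ^ 3)⁻¹ * (ww z * ww r) := by
          have h6 : 0 ≤ (a ^ 3)⁻¹ := by positivity
          have h7 : 0 ≤ ww z * ww r := mul_nonneg h1 h2
          exact mul_le_mul_of_nonneg_right (mul_le_mul_of_nonneg_right e4 h6) h7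
      _ = _ := by rw [e5]; ring

theorem JJ_JJ_one (i : ℕ) (hi : 2 ≤ i) (d : ℕ) (q : ℝ) (hq0 : 0 ≤ q) (hq1 : q < 1)
    (hq : q ≤ (i : ℝ) - 2) (hp : (i : ℝ) + 1 - q < d) :
    ∃ C : ℝ≥0∞, C < ∞ ∧ ∀ (w : E), ‖w‖ = 1 → Module.finrank ℝ E = d + 1 →
      ∫⁻ z : (ℝ ∙ w)ᗮ, ∫⁻ r : ℝ, ENNReal.ofReal (‖(z : E) + r • w‖ ^ 2 /
        (‖(z : E) + r • w‖ ^ i * ‖(z : E)‖ ^ 3) * ww ((z : E) + r • w)) ≤ C := by
  obtain ⟨p, hpd⟩ : ∃ p, p = (i : ℝ) + 1 - q := ⟨_, rfl⟩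
  have hi0 : (2 : ℝ) ≤ i := by exact_mod_cast hi
  have hp0 : 0 ≤ p := by rw [hpd]; linarith
  have hA : ∫⁻ z : EuclideanSpace ℝ (Fin d), ENNReal.ofReal (‖z‖ ^ (-p) * ww z) < ∞ := by
    refine rad_fin p hp0 ?_
    rw [finrank_euclideanSpace_fin, hpd]
    exact hp
  have hB : ∫⁻ r : ℝ, ENNReal.ofReal (‖r‖ ^ (-q) * ww r) < ∞ := by
    refine rad_fin q hq0 ?_
    rw [Module.finrank_self]
    exact_mod_cast hq1
  refine ⟨_, ENNReal.mul_lt_top hA hB, ?_⟩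
  intro w hw hfr
  have hw0 : w ≠ 0 := by
    intro h
    rw [h, norm_zero] at hw
    exact zero_ne_one hw
  have hd' : Module.finrank ℝ ((ℝ ∙ w)ᗮ : Submodule ℝ E) = d := by
    have := finrank_perp w hw0
    omega
  have hfm : Measurable (fun t : ℝ => ENNReal.ofReal (t ^ (-p) * Real.exp (-(t ^ 2) / 2))) := by
    fun_prop
  have hA' : ∫⁻ z : (ℝ ∙ w)ᗮ, ENNReal.ofReal (‖z‖ ^ (-p) * ww z) =
      ∫⁻ z : EuclideanSpace ℝ (Fin d), ENNReal.ofReal (‖z‖ ^ (-p) * ww z) :=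
    rad_eq d hd' _ hfm
  rw [← hA', ← lintegral_mul_const' _ _ hB.ne]
  refine lintegral_mono (fun z => ?_)
  rw [← lintegral_const_mul' _ _ ENNReal.ofReal_ne_top]
  refine lintegral_mono_ae ?_
  have hae : ∀ᵐ r : ℝ, r ≠ 0 := by
    rw [ae_iff]
    simp
  filter_upwards [hae] with r hr
  rw [← ENNReal.ofReal_mul (mul_nonneg (Real.rpow_nonneg (norm_nonneg _) _) (JJ_ww_nn _))]
  refine ENNReal.ofReal_le_ofReal ?_
  rw [hpd]
  exact JJ_JJ_pt i hi q hq0 hq w hw z r hr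

theorem JJ_bound (i : ℕ) (hi : 2 ≤ i) (d : ℕ) (hd : i + 1 ≤ d) (hd4 : 4 ≤ d) :
    ∃ C : ℝ≥0∞, C < ∞ ∧ ∀ (w : E), ‖w‖ = 1 → Module.finrank ℝ E = d + 1 →
      ∫⁻ z : (ℝ ∙ w)ᗮ, ∫⁻ r : ℝ, ENNReal.ofReal (‖(z : E) + r • w‖ ^ 2 /
        (‖(z : E) + r • w‖ ^ i * ‖(z : E)‖ ^ 3) * ww ((z : E) + r • w)) ≤ C := by
  have hdR : (i : ℝ) + 1 ≤ d := by exact_mod_cast hd
  have hd4R : (4 : ℝ) ≤ d := by exact_mod_cast hd4
  rcases Nat.eq_or_lt_of_le hi with h | h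
  · refine JJ_JJ_one i hi d 0 (le_refl _) (by norm_num) ?_ ?_
    · rw [← h]; norm_num
    · rw [← h]; push_cast; linarith
  · have h3 : (3 : ℝ) ≤ i := by exact_mod_cast h
    exact JJ_JJ_one i hi d (1 / 2) (by norm_num) (by norm_num) (by linarith) (by linarith)

end Pool.Agent.Helper734.IB
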