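import Mathlib
import Pool.Agent.Helper734.IB.Defs
import Pool.Agent.Helper734.IB.BasicA
import Pool.Agent.Helper734.IB.DDmeas
import Pool.Agent.Helper734.IB.JJ
import Pool.Agent.Helper734.IB.Ldec
import Pool.Agent.Helper734.IB.Rad
import Pool.Agent.Helper734.IB.WwA

set_option autoImplicit false

namespace Pool.Agent.Helper734.IB

open MeasureTheory Set Filter Topology Metric
open scoped ENNReal NNReal RealInnerProductSpace

variable {E : Type*} [NormedAddCommGroup E] [InnerProductSpace ℝ E] [FiniteDimensional ℝ E]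
  [MeasurableSpace E] [BorelSpace E]

theorem QQfin_QQ_inner (i : ℕ) (C : ℝ≥0∞) (d : ℕ) (hd : Module.finrank ℝ E = d + 1)
    (hC : ∀ (w : E), ‖w‖ = 1 → Module.finrank ℝ E = d + 1 →
      ∫⁻ z : (ℝ ∙ w)ᗮ, ∫⁻ r : ℝ, ENNReal.ofReal (‖(z : E) + r • w‖ ^ 2 /
        (‖(z : E) + r • w‖ ^ i * ‖(z : E)‖ ^ 3) * ww ((z : E) + r • w)) ≤ C) (u : E) :
    ∫⁻ v : E, ENNReal.ofReal (‖u‖ ^ 2 * ‖v‖ ^ 2 / (‖u‖ ^ i * ‖v‖ ^ i * DD u v ^ 3) * (ww u * ww v))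
      ≤ ENNReal.ofReal (‖u‖ ^ (-((i : ℝ) + 1)) * ww u) * C := by
  by_cases hu : u = 0
  · subst hu
    simp
  have hu0 : (0 : ℝ) < ‖u‖ := norm_pos_iff.mpr hu
  set w : E := ‖u‖⁻¹ • u with hw
  have hw1 : ‖w‖ = 1 := by
    rw [hw, norm_smul, norm_inv, norm_norm, inv_mul_cancel₀ hu0.ne']
  have huw : u = ‖u‖ • w := by
    rw [hw, smul_smul, mul_inv_cancel₀ hu0.ne', one_smul]
  have hmeas : Measurable (fun v : E =>
      ENNReal.ofReal (‖u‖ ^ 2 * ‖v‖ ^ 2 / (‖u‖ ^ i * ‖v‖ ^ i * DD u v ^ 3) * (ww u * ww v))) := by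
    have hD : Measurable (fun v : E => DD u v) :=
      (DD_meas (E := E)).comp (measurable_const.prodMk measurable_id)
    have hW : Measurable (fun v : E => ww v) := (ww_cont (F := E)).measurable
    refine ENNReal.measurable_ofReal.comp ?_
    refine Measurable.mul (Measurable.div ?_ ?_) (measurable_const.mul hW)
    · exact measurable_const.mul (measurable_norm.pow_const 2)
    · exact (measurable_const.mul (measurable_norm.pow_const i)).mul (hD.pow_const 3)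
  rw [ldec w hw1 _ hmeas]
  have hpt : ∀ (z : (ℝ ∙ w)ᗮ) (r : ℝ),
      ENNReal.ofReal (‖u‖ ^ 2 * ‖(z : E) + r • w‖ ^ 2 /
        (‖u‖ ^ i * ‖(z : E) + r • w‖ ^ i * DD u ((z : E) + r • w) ^ 3) *
          (ww u * ww ((z : E) + r • w))) =
      ENNReal.ofReal (‖u‖ ^ 2 / (‖u‖ ^ i * ‖u‖ ^ 3) * ww u) *
        ENNReal.ofReal (‖(z : E) + r • w‖ ^ 2 /
        (‖(z : E) + r • w‖ ^ i * ‖(z : E)‖ ^ 3) * ww ((z : E) + r • w)) := by
    intro z r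
    rw [DD_dec u ((z : E) + r • w) w hw1 huw z r rfl]
    rw [← ENNReal.ofReal_mul (mul_nonneg (by positivity) (ww_pos u).1.le)]
    congr 1
    have h1 : ‖u‖ ^ i * ‖(z : E) + r • w‖ ^ i * (‖u‖ * ‖(z : E)‖) ^ 3 =
        (‖u‖ ^ i * ‖u‖ ^ 3) * (‖(z : E) + r • w‖ ^ i * ‖(z : E)‖ ^ 3) := by ring
    rw [h1, ← div_mul_div_comm]
    ring
  simp only [hpt]
  have h2 : ∀ z : (ℝ ∙ w)ᗮ, ∫⁻ r : ℝ, ENNReal.ofReal (‖u‖ ^ 2 / (‖u‖ ^ i * ‖u‖ ^ 3) * ww u) *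
        ENNReal.ofReal (‖(z : E) + r • w‖ ^ 2 /
        (‖(z : E) + r • w‖ ^ i * ‖(z : E)‖ ^ 3) * ww ((z : E) + r • w)) =
      ENNReal.ofReal (‖u‖ ^ 2 / (‖u‖ ^ i * ‖u‖ ^ 3) * ww u) * ∫⁻ r : ℝ,
        ENNReal.ofReal (‖(z : E) + r • w‖ ^ 2 /
        (‖(z : E) + r • w‖ ^ i * ‖(z : E)‖ ^ 3) * ww ((z : E) + r • w)) := by
    intro z
    exact lintegral_const_mul' _ _ ENNReal.ofReal_ne_top
  simp only [h2]
  rw [lintegral_const_mul' _ _ ENNReal.ofReal_ne_top]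
  have h3 : ‖u‖ ^ 2 / (‖u‖ ^ i * ‖u‖ ^ 3) = ‖u‖ ^ (-((i : ℝ) + 1)) := by
    rw [Real.rpow_neg hu0.le, Real.rpow_add hu0, Real.rpow_natCast, Real.rpow_one]
    field_simp
  rw [h3]
  exact mul_le_mul_right (hC w hw1 hd) _

theorem QQ_fin (i : ℕ) (hi : 2 ≤ i) (hin : i + 2 ≤ Module.finrank ℝ E)
    (hn : 5 ≤ Module.finrank ℝ E) : QQ E i < ∞ := by
  obtain ⟨d, hd⟩ : ∃ d, Module.finrank ℝ E = d + 1 := ⟨Module.finrank ℝ E - 1, by omega⟩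
  obtain ⟨C, hC, hJ⟩ := JJ_bound (E := E) i hi d (by omega) (by omega)
  have hrad := rad_fin (E := E) ((i : ℝ) + 1) (by positivity) (by
    have : i + 1 < Module.finrank ℝ E := by omega
    exact_mod_cast this)
  unfold QQ
  calc _ ≤ ∫⁻ u : E, ENNReal.ofReal (‖u‖ ^ (-((i : ℝ) + 1)) * ww u) * C :=
        lintegral_mono fun u => QQfin_QQ_inner i C d hd hJ u
    _ = (∫⁻ u : E, ENNReal.ofReal (‖u‖ ^ (-((i : ℝ) + 1)) * ww u)) * C :=
        lintegral_mul_const' _ _ hC.ne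
    _ < ∞ := ENNReal.mul_lt_top hrad hC

end Pool.Agent.Helper734.IB
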