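import Mathlib
import Pool.Agent.Helper734.IB.Defs
import Pool.Agent.Helper734.IB.GgA
import Pool.Agent.Helper734.IB.KkA
import Pool.Agent.Helper734.IB.WWcont
import Pool.Agent.Helper734.IB.WwA

set_option autoImplicit false

namespace Pool.Agent.Helper734.IB

open MeasureTheory Set Filter Topology Metric
open scoped ENNReal NNReal RealInnerProductSpace

variable {E : Type*} [NormedAddCommGroup E] [InnerProductSpace ℝ E] [FiniteDimensional ℝ E]
  [MeasurableSpace E] [BorelSpace E]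

theorem VV_sq_eq (K : Set E) (hK : IsOpen K) (hbd : Bornology.IsBounded K) (e : E)
    (i : ℕ) (ε : ℝ) (hε : 0 < ε) :
    ∫ x : E, (VV K i e ε x) ^ 2 * ww x =
      ∫ p : E × E, (⟪p.1, e⟫ * ⟪p.2, e⟫ * gg K ε p.1 ^ i * gg K ε p.2 ^ i * (ww p.1 * ww p.2)) *
        ∫ x : E, kd ε ⟪p.1, x⟫ * kd ε ⟪p.2, x⟫ * ww x := by
  set B : ℝ := ε⁻¹ * (volume K).toReal with hB
  set C : ℝ := ‖e‖ * (ε ^ 2)⁻¹ * B ^ i with hC
  have hB0 : 0 ≤ B := mul_nonneg (inv_nonneg.2 hε.le) ENNReal.toReal_nonneg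
  have hC0 : 0 ≤ C := by positivity
  let φ : E → E → ℝ := fun x u => ⟪u, e⟫ * kd ε ⟪u, x⟫ * gg K ε u ^ i * ww u
  have hφc : Continuous (fun z : E × E => φ z.1 z.2) := by
    have h1 := kd_cont ε
    have h2 := gg_cont K hK hbd ε hε
    have h3 : Continuous (ww : E → ℝ) := ww_cont
    show Continuous (fun z : E × E => ⟪z.2, e⟫ * kd ε ⟪z.2, z.1⟫ * gg K ε z.2 ^ i * ww z.2)
    exact (((continuous_snd.inner continuous_const).mul
      (h1.comp (continuous_snd.inner continuous_fst))).mul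
      ((h2.comp continuous_snd).pow i)).mul (h3.comp continuous_snd)
  have hφb : ∀ x u, |φ x u| ≤ C * (‖u‖ * ww u) := by
    intro x u
    have h1 : |⟪u, e⟫| ≤ ‖u‖ * ‖e‖ := abs_real_inner_le_norm u e
    have h2 := kd_le ε ⟪u, x⟫ hε
    have h3 : |gg K ε u ^ i| ≤ B ^ i := by
      rw [abs_pow]
      apply pow_le_pow_left₀ (abs_nonneg _)
      rw [abs_of_nonneg (gg_nonneg K ε u hε)]
      exact gg_le K hK hbd ε hε u
    have h4 : |ww u| = ww u := abs_of_pos (ww_pos u).1
    show |⟪u, e⟫ * kd ε ⟪u, x⟫ * gg K ε u ^ i * ww u| ≤ C * (‖u‖ * ww u)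
    rw [abs_mul, abs_mul, abs_mul, h4]
    calc |⟪u, e⟫| * |kd ε ⟪u, x⟫| * |gg K ε u ^ i| * ww u
        ≤ (‖u‖ * ‖e‖) * (ε ^ 2)⁻¹ * B ^ i * ww u := by
          apply mul_le_mul_of_nonneg_right _ (ww_pos u).1.le
          apply mul_le_mul _ h3 (abs_nonneg _) (by positivity)
          exact mul_le_mul h1 h2 (abs_nonneg _) (by positivity)
      _ = C * (‖u‖ * ww u) := by rw [hC]; ring
  -- the triple function
  let F : E → E × E → ℝ := fun x p => φ x p.1 * φ x p.2 * ww x
  have hFc : Continuous (fun z : E × (E × E) => F z.1 z.2) := by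
    have h3 : Continuous (ww : E → ℝ) := ww_cont
    have h4 : Continuous (fun z : E × (E × E) => φ z.1 z.2.1) :=
      hφc.comp (continuous_fst.prodMk (continuous_fst.comp continuous_snd))
    have h5 : Continuous (fun z : E × (E × E) => φ z.1 z.2.2) :=
      hφc.comp (continuous_fst.prodMk (continuous_snd.comp continuous_snd))
    exact (h4.mul h5).mul (h3.comp continuous_fst)
  have hw0 : Integrable (fun u : E => ww u) := by
    have := ww_int (E := E) 0
    simpa using this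
  have hw1 : Integrable (fun u : E => ‖u‖ * ww u) := by
    have := ww_int (E := E) 1
    simpa using this
  have hFi : Integrable (fun z : E × (E × E) => F z.1 z.2)
      ((volume : Measure E).prod (volume : Measure (E × E))) := by
    have hmaj : Integrable (fun z : E × (E × E) => C ^ 2 * (ww z.1 *
        ((‖z.2.1‖ * ww z.2.1) * (‖z.2.2‖ * ww z.2.2))))
        ((volume : Measure E).prod (volume : Measure (E × E))) :=
      (hw0.mul_prod (hw1.mul_prod hw1)).const_mul _
    refine hmaj.mono' hFc.aestronglyMeasurable ?_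
    filter_upwards with z
    rw [Real.norm_eq_abs]
    show |φ z.1 z.2.1 * φ z.1 z.2.2 * ww z.1| ≤ _
    rw [abs_mul, abs_mul, abs_of_pos (ww_pos z.1).1]
    calc |φ z.1 z.2.1| * |φ z.1 z.2.2| * ww z.1
        ≤ (C * (‖z.2.1‖ * ww z.2.1)) * (C * (‖z.2.2‖ * ww z.2.2)) * ww z.1 := by
          apply mul_le_mul_of_nonneg_right _ (ww_pos z.1).1.le
          refine mul_le_mul (hφb _ _) (hφb _ _) (abs_nonneg _) ?_
          exact mul_nonneg hC0 (mul_nonneg (norm_nonneg _) (ww_pos _).1.le)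
      _ = C ^ 2 * (ww z.1 * ((‖z.2.1‖ * ww z.2.1) * (‖z.2.2‖ * ww z.2.2))) := by ring
  have hL : ∀ x : E, (VV K i e ε x) ^ 2 * ww x = ∫ p : E × E, F x p := by
    intro x
    have h1 : VV K i e ε x = ∫ u, φ x u := rfl
    show (VV K i e ε x) ^ 2 * ww x = ∫ p : E × E, φ x p.1 * φ x p.2 * ww x
    rw [integral_mul_const, h1, sq]
    congr 1
    exact (integral_prod_mul (φ x) (φ x)).symm
  simp_rw [hL]
  rw [integral_integral_swap hFi]
  apply integral_congr_ae
  filter_upwards with p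
  rw [← integral_const_mul]
  apply integral_congr_ae
  filter_upwards with x
  show φ x p.1 * φ x p.2 * ww x = _
  show (⟪p.1, e⟫ * kd ε ⟪p.1, x⟫ * gg K ε p.1 ^ i * ww p.1) *
    (⟪p.2, e⟫ * kd ε ⟪p.2, x⟫ * gg K ε p.2 ^ i * ww p.2) * ww x = _
  ring

end Pool.Agent.Helper734.IB
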