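import Mathlib
import Pool.Agent.Helper734.IB.Defs
import Pool.Agent.Helper734.IB.DDmeas
import Pool.Agent.Helper734.IB.GgA
import Pool.Agent.Helper734.IB.KkA
import Pool.Agent.Helper734.IB.Pbound
import Pool.Agent.Helper734.IB.QQfin
import Pool.Agent.Helper734.IB.Slab
import Pool.Agent.Helper734.IB.VVsqeq
import Pool.Agent.Helper734.IB.WWcont
import Pool.Agent.Helper734.IB.WwA

set_option autoImplicit false

namespace Pool.Agent.Helper734.IB

open MeasureTheory Set Filter Topology Metric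
open scoped ENNReal NNReal RealInnerProductSpace

variable {E : Type*} [NormedAddCommGroup E] [InnerProductSpace ℝ E] [FiniteDimensional ℝ E]
  [MeasurableSpace E] [BorelSpace E]

theorem VVL2_VV_L2_pw (g1 g2 a b U V Wt P Cg CP D : ℝ) (i : ℕ) (hU : 0 < U) (hV : 0 < V)
    (ha : |a| ≤ U) (hb : |b| ≤ V) (hg1 : 0 ≤ g1) (hg2 : 0 ≤ g2) (hg1' : g1 ≤ Cg / U)
    (hg2' : g2 ≤ Cg / V) (hW : 0 ≤ Wt) (hP : |P| ≤ CP * (U * V / D ^ 3)) :
    |(a * b * g1 ^ i * g2 ^ i * Wt) * P| ≤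
      (Cg ^ i * Cg ^ i * CP) * (U ^ 2 * V ^ 2 / (U ^ i * V ^ i * D ^ 3) * Wt) := by
  have h1 : g1 ^ i ≤ (Cg / U) ^ i := pow_le_pow_left₀ hg1 hg1' i
  have h2 : g2 ^ i ≤ (Cg / V) ^ i := pow_le_pow_left₀ hg2 hg2' i
  have hA : |a| * |b| ≤ U * V := mul_le_mul ha hb (abs_nonneg _) hU.le
  have hB : g1 ^ i * g2 ^ i ≤ (Cg / U) ^ i * (Cg / V) ^ i :=
    mul_le_mul h1 h2 (pow_nonneg hg2 i) ((pow_nonneg hg1 i).trans h1)
  have hAB : (|a| * |b|) * (g1 ^ i * g2 ^ i) ≤ (U * V) * ((Cg / U) ^ i * (Cg / V) ^ i) :=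
    mul_le_mul hA hB (mul_nonneg (pow_nonneg hg1 i) (pow_nonneg hg2 i)) (by positivity)
  have hABW : ((|a| * |b|) * (g1 ^ i * g2 ^ i)) * Wt ≤
      ((U * V) * ((Cg / U) ^ i * (Cg / V) ^ i)) * Wt := mul_le_mul_of_nonneg_right hAB hW
  have h3 : |(a * b * g1 ^ i * g2 ^ i * Wt) * P| = (((|a| * |b|) * (g1 ^ i * g2 ^ i)) * Wt) * |P| := by
    rw [abs_mul, abs_mul, abs_mul, abs_mul, abs_mul, abs_of_nonneg hW,
      abs_of_nonneg (pow_nonneg hg1 i), abs_of_nonneg (pow_nonneg hg2 i)]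
    ring
  rw [h3]
  have h4 := mul_le_mul hABW hP (abs_nonneg _) (by
    refine le_trans ?_ hABW
    positivity)
  refine h4.trans (le_of_eq ?_)
  rw [div_pow, div_pow]
  have hU' := hU.ne'
  have hV' := hV.ne'
  by_cases hD : D = 0
  · subst hD
    simp
  · field_simp

theorem VVL2_VV_L2_aux (K : Set E) (R : ℝ) (hR : 0 < R) (hK : IsOpen K) (hb : K ⊆ ball 0 R) (e : E)
    (he : ‖e‖ = 1) (i : ℕ) (hn : 5 ≤ Module.finrank ℝ E) :
    ∃ C : ℝ, ∀ ε : ℝ, 0 < ε → ENNReal.ofReal (∫ x : E, (VV K i e ε x) ^ 2 * ww x) ≤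
      ENNReal.ofReal C * QQ E i := by
  have hbd : Bornology.IsBounded K := Metric.isBounded_ball.subset hb
  obtain ⟨Cg, hCg, hgg⟩ := gg_bound K R hR hK hb
  refine ⟨Cg ^ i * Cg ^ i * (4 * Real.pi * (4 * Real.pi) ^ (((Module.finrank ℝ E : ℝ) - 2) / 2)),
    fun ε hε => ?_⟩
  rw [VV_sq_eq K hK hbd e i ε hε]
  have hmeas : Measurable (fun p : E × E => ENNReal.ofReal (‖p.1‖ ^ 2 * ‖p.2‖ ^ 2 /
      (‖p.1‖ ^ i * ‖p.2‖ ^ i * DD p.1 p.2 ^ 3) * (ww p.1 * ww p.2))) := by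
    have h1 := DD_meas (E := E)
    have h2 : Measurable (fun p : E × E => ww p.1) := (ww_cont.comp continuous_fst).measurable
    have h3 : Measurable (fun p : E × E => ww p.2) := (ww_cont.comp continuous_snd).measurable
    have h4 : Measurable (fun p : E × E => ‖p.1‖) := measurable_fst.norm
    have h5 : Measurable (fun p : E × E => ‖p.2‖) := measurable_snd.norm
    apply Measurable.ennreal_ofReal
    exact (((h4.pow_const 2).mul (h5.pow_const 2)).div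
      (((h4.pow_const i).mul (h5.pow_const i)).mul (h1.pow_const 3))).mul (h2.mul h3)
  have hQQ : QQ E i = ∫⁻ p : E × E, ENNReal.ofReal (‖p.1‖ ^ 2 * ‖p.2‖ ^ 2 /
      (‖p.1‖ ^ i * ‖p.2‖ ^ i * DD p.1 p.2 ^ 3) * (ww p.1 * ww p.2)) := by
    rw [Measure.volume_eq_prod, lintegral_prod _ hmeas.aemeasurable]
    rfl
  rw [hQQ, ← lintegral_const_mul _ hmeas]
  refine le_trans ?_ (lintegral_mono_ae (f := fun p : E × E => ‖(⟪p.1, e⟫ * ⟪p.2, e⟫ *
    gg K ε p.1 ^ i * gg K ε p.2 ^ i * (ww p.1 * ww p.2)) *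
        ∫ x : E, kd ε ⟪p.1, x⟫ * kd ε ⟪p.2, x⟫ * ww x‖ₑ) ?_)
  · refine le_trans ?_ (enorm_integral_le_lintegral_enorm _)
    rw [Real.enorm_eq_ofReal_abs]
    exact ENNReal.ofReal_le_ofReal (le_abs_self _)
  · filter_upwards [DD_null (E := E) (by omega)] with p hp
    rw [Real.enorm_eq_ofReal_abs, ← ENNReal.ofReal_mul (by positivity)]
    apply ENNReal.ofReal_le_ofReal
    have hpos : 0 < ‖p.1‖ ^ 2 * ‖p.2‖ ^ 2 := by
      by_contra hcon
      push Not at hcon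
      have h1 : ‖p.1‖ ^ 2 * ‖p.2‖ ^ 2 - ⟪p.1, p.2⟫ ^ 2 ≤ 0 := by nlinarith [sq_nonneg ⟪p.1, p.2⟫]
      unfold DD at hp
      rw [Real.sqrt_eq_zero'.2 h1] at hp
      exact lt_irrefl _ hp
    have hU : 0 < ‖p.1‖ := by
      rcases (norm_nonneg p.1).eq_or_lt with h | h
      · rw [← h] at hpos
        simp at hpos
      · exact h
    have hV : 0 < ‖p.2‖ := by
      rcases (norm_nonneg p.2).eq_or_lt with h | h
      · rw [← h] at hpos
        simp at hpos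
      · exact h
    apply VVL2_VV_L2_pw _ _ _ _ _ _ _ _ _ _ _ i hU hV
    · have := abs_real_inner_le_norm p.1 e
      rwa [he, mul_one] at this
    · have := abs_real_inner_le_norm p.2 e
      rwa [he, mul_one] at this
    · exact gg_nonneg K ε p.1 hε
    · exact gg_nonneg K ε p.2 hε
    · exact hgg ε hε p.1 (norm_pos_iff.1 hU)
    · exact hgg ε hε p.2 (norm_pos_iff.1 hV)
    · exact mul_nonneg (ww_pos p.1).1.le (ww_pos p.2).1.le
    · exact Pbound ε hε p.1 p.2 hp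

theorem VV_L2 (K : Set E) (R : ℝ) (hR : 0 < R) (hK : IsOpen K) (hb : K ⊆ ball 0 R) (e : E)
    (he : ‖e‖ = 1) (i : ℕ) (hi : 2 ≤ i) (hin : i + 2 ≤ Module.finrank ℝ E)
    (hn : 5 ≤ Module.finrank ℝ E) :
    ∃ C : ℝ, 0 < C ∧ ∀ ε : ℝ, 0 < ε →
      ∫⁻ x in K, ENNReal.ofReal ((VV K i e ε x) ^ 2) ≤ ENNReal.ofReal C := by
  have hbd : Bornology.IsBounded K := Metric.isBounded_ball.subset hb
  obtain ⟨C1, hC1⟩ := VVL2_VV_L2_aux K R hR hK hb e he i hn
  have hQ := QQ_fin (E := E) i hi hin hn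
  have hfin : ENNReal.ofReal (Real.exp (R ^ 2 / 2)) * (ENNReal.ofReal C1 * QQ E i) ≠ ∞ :=
    ENNReal.mul_ne_top ENNReal.ofReal_ne_top (ENNReal.mul_ne_top ENNReal.ofReal_ne_top hQ.ne)
  refine ⟨(ENNReal.ofReal (Real.exp (R ^ 2 / 2)) * (ENNReal.ofReal C1 * QQ E i)).toReal + 1,
    by positivity, fun ε hε => ?_⟩
  obtain ⟨hcont, C2, hC2⟩ := VV_cont K hK hbd e i ε hε
  have hint : Integrable (fun x : E => (VV K i e ε x) ^ 2 * ww x) := by
    have h1 : Integrable (fun x : E => C2 ^ 2 * ww x) := by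
      have h2 := ww_int (E := E) 0
      simp only [pow_zero, one_mul] at h2
      exact h2.const_mul _
    refine h1.mono' ?_ (Filter.Eventually.of_forall fun x => ?_)
    · exact ((hcont.pow 2).mul ww_cont).aestronglyMeasurable
    · rw [Real.norm_eq_abs, abs_mul, abs_of_nonneg (ww_pos x).1.le, abs_pow]
      apply mul_le_mul_of_nonneg_right _ (ww_pos x).1.le
      exact pow_le_pow_left₀ (abs_nonneg _) (hC2 x) 2
  have hnn : ∀ x : E, 0 ≤ (VV K i e ε x) ^ 2 * ww x :=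
    fun x => mul_nonneg (sq_nonneg _) (ww_pos x).1.le
  calc ∫⁻ x in K, ENNReal.ofReal ((VV K i e ε x) ^ 2)
      ≤ ∫⁻ x in K, ENNReal.ofReal (Real.exp (R ^ 2 / 2)) *
          ENNReal.ofReal ((VV K i e ε x) ^ 2 * ww x) := by
        apply setLIntegral_mono' hK.measurableSet
        intro x hx
        rw [← ENNReal.ofReal_mul (Real.exp_pos _).le]
        apply ENNReal.ofReal_le_ofReal
        have hxR : ‖x‖ < R := by
          have := hb hx
          rwa [mem_ball_zero_iff] at this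
        have h1 : Real.exp (-(R ^ 2 / 2)) ≤ ww x := by
          unfold ww
          apply Real.exp_le_exp.2
          have h2 : ‖x‖ ^ 2 ≤ R ^ 2 := pow_le_pow_left₀ (norm_nonneg _) hxR.le 2
          linarith
        have h3 : 1 ≤ Real.exp (R ^ 2 / 2) * ww x := by
          calc (1:ℝ) = Real.exp (R ^ 2 / 2) * Real.exp (-(R ^ 2 / 2)) := by
                rw [← Real.exp_add]; simp
            _ ≤ _ := mul_le_mul_of_nonneg_left h1 (Real.exp_pos _).le
        calc (VV K i e ε x) ^ 2 = (VV K i e ε x) ^ 2 * 1 := (mul_one _).symm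
          _ ≤ (VV K i e ε x) ^ 2 * (Real.exp (R ^ 2 / 2) * ww x) :=
              mul_le_mul_of_nonneg_left h3 (sq_nonneg _)
          _ = _ := by ring
    _ ≤ ∫⁻ x, ENNReal.ofReal (Real.exp (R ^ 2 / 2)) *
          ENNReal.ofReal ((VV K i e ε x) ^ 2 * ww x) := setLIntegral_le_lintegral _ _
    _ = ENNReal.ofReal (Real.exp (R ^ 2 / 2)) *
          ENNReal.ofReal (∫ x : E, (VV K i e ε x) ^ 2 * ww x) := by
        rw [lintegral_const_mul' _ _ ENNReal.ofReal_ne_top,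
          ofReal_integral_eq_lintegral_ofReal hint (Filter.Eventually.of_forall hnn)]
    _ ≤ ENNReal.ofReal (Real.exp (R ^ 2 / 2)) * (ENNReal.ofReal C1 * QQ E i) := by
        gcongr
        exact hC1 ε hε
    _ = ENNReal.ofReal
          (ENNReal.ofReal (Real.exp (R ^ 2 / 2)) * (ENNReal.ofReal C1 * QQ E i)).toReal :=
        (ENNReal.ofReal_toReal hfin).symm
    _ ≤ _ := ENNReal.ofReal_le_ofReal (by linarith)

end Pool.Agent.Helper734.IB
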