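import Mathlib
import Pool.Agent.Helper734.IB.Defs
import Pool.Agent.Helper734.IB.BasicA
import Pool.Agent.Helper734.IB.KDlimit
import Pool.Agent.Helper734.IB.KDmeas
import Pool.Agent.Helper734.IB.KDsmall
import Pool.Agent.Helper734.IB.Tail
import Pool.Agent.Helper734.IB.Tpbound
import Pool.Agent.Helper734.IB.VVL2

set_option autoImplicit false

namespace Pool.Agent.Helper734.IB

open MeasureTheory Set Filter Topology Metric
open scoped ENNReal NNReal RealInnerProductSpace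

variable {E : Type*} [NormedAddCommGroup E] [InnerProductSpace ℝ E] [FiniteDimensional ℝ E]
  [MeasurableSpace E] [BorelSpace E]

/-- the integrand of the limit -/
noncomputable def aazero_FF8920 (K : Set E) (i : ℕ) (e x : E) : ℝ :=
  aa K e x * ((W0 K i (x + tp K e x • e) -
        W0 K i (x - tp K (-e) x • e)) / (tp K e x + tp K (-e) x))

theorem aazero_FF_sign (K : Set E) (R : ℝ) (hK : IsOpen K) (hb : K ⊆ ball 0 R) (e : E)
    (he : ‖e‖ = 1) (i : ℕ) (ψ : ℝ → ℝ) (hψ : StrictMonoOn ψ (Ioi 0))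
    (hW : ∀ x ∈ frontier K, x ≠ 0 → W0 K i x = ψ ‖x‖) (x : E) (hx : x ∈ K)
    (hy : 0 < ‖x - ⟪x, e⟫ • e‖) :
    0 ≤ aazero_FF8920 K i e x ∧ (aazero_FF8920 K i e x = 0 → aa K e x = 0) := by
  obtain ⟨ha, -, -, hfa, -, -⟩ := tp_bound K R hb hK e he x hx
  obtain ⟨hb', -, -, hfb, -, -⟩ := tp_bound K R hb hK (-e) (by rw [norm_neg]; exact he) x hx
  obtain ⟨z, hz, hxz⟩ := dec_exists e he x
  set a := tp K e x with hadef
  set b := tp K (-e) x with hbdef
  set c := ⟪x, e⟫ with hc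
  have hzpos : 0 < ‖(z : E)‖ := by rw [hz]; exact hy
  have hp : x + a • e = (z : E) + (c + a) • e := by
    conv_lhs => rw [hxz]
    rw [add_smul, add_assoc]
  have hm : x - b • e = (z : E) + (c - b) • e := by
    conv_lhs => rw [hxz]
    rw [sub_smul]; abel
  have hpn : ‖x + a • e‖ ^ 2 = ‖(z : E)‖ ^ 2 + (c + a) ^ 2 := by rw [hp]; exact norm_dec e he z _
  have hmn : ‖x - b • e‖ ^ 2 = ‖(z : E)‖ ^ 2 + (c - b) ^ 2 := by rw [hm]; exact norm_dec e he z _
  have hppos : 0 < ‖x + a • e‖ := by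
    have : 0 < ‖x + a • e‖ ^ 2 := by rw [hpn]; positivity
    exact lt_of_le_of_ne (norm_nonneg _) (fun h => by rw [← h] at this; simp at this)
  have hmpos : 0 < ‖x - b • e‖ := by
    have : 0 < ‖x - b • e‖ ^ 2 := by rw [hmn]; positivity
    exact lt_of_le_of_ne (norm_nonneg _) (fun h => by rw [← h] at this; simp at this)
  have hfb' : x - b • e ∈ frontier K := by
    rw [smul_neg, ← sub_eq_add_neg] at hfb
    exact hfb
  have hW1 := hW _ hfa (norm_pos_iff.mp hppos)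
  have hW2 := hW _ hfb' (norm_pos_iff.mp hmpos)
  have haa : aa K e x = c + (a - b) / 2 := rfl
  have hdiff : ‖x + a • e‖ ^ 2 - ‖x - b • e‖ ^ 2 = 2 * (a + b) * aa K e x := by
    rw [hpn, hmn, haa]; ring
  have hF : aazero_FF8920 K i e x = aa K e x * ((ψ ‖x + a • e‖ - ψ ‖x - b • e‖) / (a + b)) := by
    unfold aazero_FF8920
    rw [hW1, hW2]
  have hab : 0 < a + b := by positivity
  rcases lt_trichotomy (aa K e x) 0 with h | h | h
  · have h1 : ‖x + a • e‖ < ‖x - b • e‖ := by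
      apply lt_of_pow_lt_pow_left₀ 2 hmpos.le
      have : 2 * (a + b) * aa K e x < 0 := mul_neg_of_pos_of_neg (by positivity) h
      linarith
    have h2 := hψ (mem_Ioi.mpr hppos) (mem_Ioi.mpr hmpos) h1
    have h3 : 0 < aazero_FF8920 K i e x := by
      rw [hF]
      exact mul_pos_of_neg_of_neg h (div_neg_of_neg_of_pos (by linarith) hab)
    exact ⟨h3.le, fun h4 => absurd h4 h3.ne'⟩
  · refine ⟨?_, fun _ => h⟩
    rw [hF, h, zero_mul]
  · have h1 : ‖x - b • e‖ < ‖x + a • e‖ := by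
      apply lt_of_pow_lt_pow_left₀ 2 hppos.le
      have : 0 < 2 * (a + b) * aa K e x := by positivity
      linarith
    have h2 := hψ (mem_Ioi.mpr hmpos) (mem_Ioi.mpr hppos) h1
    have h3 : 0 < aazero_FF8920 K i e x := by
      rw [hF]
      exact mul_pos h (div_pos (by linarith) hab)
    exact ⟨h3.le, fun h4 => absurd h4 h3.ne'⟩



theorem aa_zero (K : Set E) (R : ℝ) (hR : 0 < R) (hK : IsOpen K) (hb : K ⊆ ball 0 R) (e : E)
    (he : ‖e‖ = 1) (i : ℕ) (hi : 2 ≤ i) (hin : i + 2 ≤ Module.finrank ℝ E)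
    (hn : 5 ≤ Module.finrank ℝ E)
    (hfr : ∀ u : E, u ≠ 0 → volume {z : (ℝ ∙ u)ᗮ | (z : E) ∈ frontier K} = 0)
    (ψ : ℝ → ℝ) (hψ : StrictMonoOn ψ (Ioi 0))
    (hW : ∀ x ∈ frontier K, x ≠ 0 → W0 K i x = ψ ‖x‖) :
    ∀ᵐ x : E, x ∈ K → aa K e x = 0 := by
  have hbd : Bornology.IsBounded K := isBounded_ball.subset hb
  have hsign : ∀ δ : ℝ, 0 < δ → ∀ x ∈ KD K e δ,
      0 ≤ aazero_FF8920 K i e x ∧ (aazero_FF8920 K i e x = 0 → aa K e x = 0) := fun δ hδ x hx =>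
    aazero_FF_sign K R hK hb e he i ψ hψ hW x hx.1 (hδ.trans hx.2.2)
  obtain ⟨C, hC, hV⟩ := VV_L2 K R hR hK hb e he i hi hin hn
  have hlim := fun δ hδ => KD_limit K R hR hK hb e he i hin hfr δ hδ
  have hint : ∀ δ : ℝ, 0 < δ → IntegrableOn (aazero_FF8920 K i e) (KD K e δ) := fun δ hδ => (hlim δ hδ).2
  have hle : ∀ δ : ℝ, 0 < δ → ∫ x in KD K e δ, aazero_FF8920 K i e x ≤
      R * Real.sqrt C * Real.sqrt (volume (K \ KD K e δ)).toReal := by
    intro δ hδ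
    refine le_of_tendsto (hlim δ hδ).1 ?_
    filter_upwards [self_mem_nhdsWithin] with ε hε
    exact tail_bound K R hR hK hb e he i ε hε C hC (hV ε hε) δ hδ
  have htend : Tendsto (fun δ : ℝ => R * Real.sqrt C * Real.sqrt (volume (K \ KD K e δ)).toReal)
      (𝓝[>] (0:ℝ)) (𝓝 0) := by
    have h1 := (KD_small K hK hbd e he (by omega)).sqrt.const_mul (R * Real.sqrt C)
    simpa using h1
  have hmeas : ∀ δ : ℝ, 0 < δ → MeasurableSet (KD K e δ) := fun δ hδ => KD_meas K hK hbd e he δ hδ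
  have hle0 : ∀ δ : ℝ, 0 < δ → ∫ x in KD K e δ, aazero_FF8920 K i e x ≤ 0 := by
    intro δ hδ
    refine ge_of_tendsto htend ?_
    have h2 : ∀ᶠ δ' in 𝓝[>] (0:ℝ), δ' ∈ Ioc 0 δ := Ioc_mem_nhdsGT hδ
    filter_upwards [h2] with δ' hδ'
    have hsub : KD K e δ ⊆ KD K e δ' := by
      intro x hx
      exact ⟨hx.1, lt_of_le_of_lt hδ'.2 hx.2.1, lt_of_le_of_lt hδ'.2 hx.2.2⟩
    refine le_trans ?_ (hle δ' hδ'.1)
    refine setIntegral_mono_set (hint δ' hδ'.1) ?_ (Eventually.of_forall hsub)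
    rw [EventuallyLE, ae_restrict_iff' (hmeas δ' hδ'.1)]
    exact Eventually.of_forall fun x hx => (hsign δ' hδ'.1 x hx).1
  have hzero : ∀ δ : ℝ, 0 < δ → ∀ᵐ x : E, x ∈ KD K e δ → aazero_FF8920 K i e x = 0 := by
    intro δ hδ
    have hnn : 0 ≤ᵐ[volume.restrict (KD K e δ)] aazero_FF8920 K i e := by
      rw [EventuallyLE, ae_restrict_iff' (hmeas δ hδ)]
      exact Eventually.of_forall fun x hx => (hsign δ hδ x hx).1
    have h3 : ∫ x in KD K e δ, aazero_FF8920 K i e x = 0 :=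
      le_antisymm (hle0 δ hδ) (integral_nonneg_of_ae hnn)
    have h4 := (setIntegral_eq_zero_iff_of_nonneg_ae hnn (hint δ hδ)).mp h3
    rw [EventuallyEq, ae_restrict_iff' (hmeas δ hδ)] at h4
    exact h4
  have hall : ∀ᵐ x : E, ∀ m : ℕ, x ∈ KD K e (1 / ((m : ℝ) + 1)) → aazero_FF8920 K i e x = 0 := by
    rw [ae_all_iff]
    intro m
    exact hzero _ (by positivity)
  have hnull : volume (K \ ⋃ m : ℕ, KD K e (1 / ((m : ℝ) + 1))) = 0 := by
    have hfinK : volume K ≠ ⊤ := ne_top_of_le_ne_top measure_ball_lt_top.ne (measure_mono hb)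
    have hfin : volume (K \ ⋃ m : ℕ, KD K e (1 / ((m : ℝ) + 1))) ≠ ⊤ :=
      ne_top_of_le_ne_top hfinK (measure_mono sdiff_subset)
    have h5 : ∀ m : ℕ, (volume (K \ ⋃ m : ℕ, KD K e (1 / ((m : ℝ) + 1)))).toReal ≤
        (volume (K \ KD K e (1 / ((m : ℝ) + 1)))).toReal := by
      intro m
      apply ENNReal.toReal_mono (ne_top_of_le_ne_top hfinK (measure_mono sdiff_subset))
      exact measure_mono (sdiff_subset_sdiff_right (subset_iUnion (fun m : ℕ => KD K e (1 / ((m : ℝ) + 1))) m))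
    have h6 : Tendsto (fun m : ℕ => 1 / ((m : ℝ) + 1)) atTop (𝓝[>] (0:ℝ)) := by
      rw [tendsto_nhdsWithin_iff]
      exact ⟨tendsto_one_div_add_atTop_nhds_zero_nat,
        Eventually.of_forall fun m => mem_Ioi.mpr (by positivity)⟩
    have h7 := (KD_small K hK hbd e he (by omega)).comp h6
    have h8 : (volume (K \ ⋃ m : ℕ, KD K e (1 / ((m : ℝ) + 1)))).toReal ≤ 0 :=
      ge_of_tendsto h7 (Eventually.of_forall h5)
    have h9 := le_antisymm h8 ENNReal.toReal_nonneg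
    rcases (ENNReal.toReal_eq_zero_iff _).mp h9 with h | h
    · exact h
    · exact absurd h hfin
  have hnull' : ∀ᵐ x : E, ¬ (x ∈ K \ ⋃ m : ℕ, KD K e (1 / ((m : ℝ) + 1))) :=
    measure_eq_zero_iff_ae_notMem.mp hnull
  filter_upwards [hall, hnull'] with x hx1 hx2 hxK
  have hx3 : x ∈ ⋃ m : ℕ, KD K e (1 / ((m : ℝ) + 1)) := by
    by_contra h
    exact hx2 ⟨hxK, h⟩
  obtain ⟨m, hm⟩ := mem_iUnion.mp hx3
  exact (hsign _ (by positivity) x hm).2 (hx1 m hm)

end Pool.Agent.Helper734.IB
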