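import Mathlib
import Pool.Agent.Helper734.IB.Defs
import Pool.Agent.Helper734.IB.KDmeas
import Pool.Agent.Helper734.IB.Rad
import Pool.Agent.Helper734.IB.Tpbound
import Pool.Agent.Helper734.IB.Tpmeas
import Pool.Agent.Helper734.IB.WwA

set_option autoImplicit false

namespace Pool.Agent.Helper734.IB

open MeasureTheory Set Filter Topology Metric
open scoped ENNReal NNReal RealInnerProductSpace

variable {E : Type*} [NormedAddCommGroup E] [InnerProductSpace ℝ E] [FiniteDimensional ℝ E]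
  [MeasurableSpace E] [BorelSpace E]

theorem KDsmall4_KD_small4_fin (h3 : 3 ≤ Module.finrank ℝ E) (K : Set E) (hKo : IsOpen K)
    (hbd : Bornology.IsBounded K) : ∫⁻ x in K, ENNReal.ofReal (‖x‖ ^ 2)⁻¹ < ∞ := by
  obtain ⟨R, hR⟩ := hbd.subset_closedBall 0
  have hfin := rad_fin (E := E) 2 (by norm_num) (by
    have : (3 : ℝ) ≤ Module.finrank ℝ E := by exact_mod_cast h3
    linarith)
  have hle : ∫⁻ x in K, ENNReal.ofReal (‖x‖ ^ 2)⁻¹ ≤
      ∫⁻ x in K, ENNReal.ofReal (Real.exp (R ^ 2 / 2)) * ENNReal.ofReal (‖x‖ ^ (-(2 : ℝ)) * ww x) := by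
    refine lintegral_mono_ae ?_
    have hK : ∀ x ∈ K, ENNReal.ofReal (‖x‖ ^ 2)⁻¹ ≤
        ENNReal.ofReal (Real.exp (R ^ 2 / 2)) * ENNReal.ofReal (‖x‖ ^ (-(2 : ℝ)) * ww x) := by
      intro x hx
      rw [← ENNReal.ofReal_mul (Real.exp_pos _).le]
      apply ENNReal.ofReal_le_ofReal
      have h1 : ‖x‖ ≤ R := by simpa using hR hx
      rw [Real.rpow_neg (norm_nonneg x), Real.rpow_two]
      have h2 : 1 ≤ Real.exp (R ^ 2 / 2) * ww x := by
        unfold ww
        rw [← Real.exp_add]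
        apply Real.one_le_exp
        have : ‖x‖ ^ 2 ≤ R ^ 2 := pow_le_pow_left₀ (norm_nonneg x) h1 2
        linarith
      have h3 : 0 ≤ (‖x‖ ^ 2)⁻¹ := by positivity
      calc (‖x‖ ^ 2)⁻¹ = (‖x‖ ^ 2)⁻¹ * 1 := by ring
        _ ≤ (‖x‖ ^ 2)⁻¹ * (Real.exp (R ^ 2 / 2) * ww x) := mul_le_mul_of_nonneg_left h2 h3
        _ = _ := by ring
    exact ae_restrict_of_forall_mem hKo.measurableSet hK
  refine lt_of_le_of_lt hle ?_
  rw [lintegral_const_mul' _ _ ENNReal.ofReal_ne_top]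
  refine ENNReal.mul_lt_top ENNReal.ofReal_lt_top ?_
  exact lt_of_le_of_lt (setLIntegral_le_lintegral _ _) hfin

theorem KD_small4 (h3 : 3 ≤ Module.finrank ℝ E) (K : Set E) (hK : IsOpen K)
    (hbd : Bornology.IsBounded K) (e : E) (he : ‖e‖ = 1) :
    Tendsto (fun δ : ℝ => (∫⁻ x in K \ KD K e δ, ENNReal.ofReal (‖x‖ ^ 2)⁻¹).toReal)
      (𝓝[>] (0:ℝ)) (𝓝 0) ∧ ∫⁻ x in K, ENNReal.ofReal (‖x‖ ^ 2)⁻¹ < ∞ := by
  have hfin := KDsmall4_KD_small4_fin h3 K hK hbd
  refine ⟨?_, hfin⟩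
  set f : E → ℝ≥0∞ := fun x => ENNReal.ofReal (‖x‖ ^ 2)⁻¹ with hf
  set ν : Measure E := volume.withDensity f with hν
  have hms : ∀ δ : ℝ, 0 < δ → MeasurableSet (K \ KD K e δ) := fun δ hδ =>
    hK.measurableSet.diff (KD_meas K hK hbd e he δ hδ)
  have hνs : ∀ δ : ℝ, 0 < δ → ν (K \ KD K e δ) = ∫⁻ x in K \ KD K e δ, f x := fun δ hδ =>
    withDensity_apply f (hms δ hδ)
  obtain ⟨R, hR⟩ := hbd.subset_ball 0
  have hpos : ∀ x ∈ K, 0 < tp K e x + tp K (-e) x := by
    intro x hx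
    have h1 := (tp_bound K R hR hK e he x hx).1
    have h2 := (tp_bound K R hR hK (-e) (by rw [norm_neg, he]) x hx).1
    linarith
  have hzero : ν (⋂ δ > (0 : ℝ), K \ KD K e δ) = 0 := by
    have hac : ν ≪ volume := withDensity_absolutelyContinuous _ _
    apply hac
    refine measure_mono_null (t := ((Submodule.span ℝ {e} : Submodule ℝ E) : Set E)) ?_ ?_
    · intro x hx
      rw [mem_iInter₂] at hx
      have hxK : x ∈ K := (hx 1 one_pos).1
      have h0 : ‖x - ⟪x, e⟫ • e‖ = 0 := by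
        by_contra hne
        have hp : 0 < ‖x - ⟪x, e⟫ • e‖ := lt_of_le_of_ne (norm_nonneg _) (Ne.symm hne)
        have hp2 := hpos x hxK
        set δ := min ‖x - ⟪x, e⟫ • e‖ (tp K e x + tp K (-e) x) / 2 with hδ
        have hm : 0 < min ‖x - ⟪x, e⟫ • e‖ (tp K e x + tp K (-e) x) := lt_min hp hp2
        have hδ0 : 0 < δ := by positivity
        refine (hx δ hδ0).2 ⟨hxK, ?_, ?_⟩
        · have := min_le_right ‖x - ⟪x, e⟫ • e‖ (tp K e x + tp K (-e) x)
          linarith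
        · have := min_le_left ‖x - ⟪x, e⟫ • e‖ (tp K e x + tp K (-e) x)
          linarith
      rw [norm_eq_zero, sub_eq_zero] at h0
      rw [h0]
      exact Submodule.smul_mem _ _ (Submodule.mem_span_singleton_self e)
    · apply Measure.addHaar_submodule
      intro htop
      have h1 : Module.finrank ℝ (Submodule.span ℝ {e} : Submodule ℝ E) ≤ 1 := by
        refine (finrank_span_le_card ({e} : Set E)).trans ?_
        simp
      rw [htop, finrank_top] at h1
      omega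
  have hT := tendsto_measure_biInter_gt (μ := ν) (s := fun δ : ℝ => K \ KD K e δ) (a := 0)
    (fun δ hδ => (hms δ hδ).nullMeasurableSet)
    (fun i j _ hij => by
      intro x hx
      refine ⟨hx.1, fun h => hx.2 ⟨h.1, lt_of_le_of_lt hij h.2.1, lt_of_le_of_lt hij h.2.2⟩⟩)
    ⟨1, one_pos, by
      rw [hνs 1 one_pos]
      refine ne_of_lt (lt_of_le_of_lt ?_ hfin)
      exact lintegral_mono_set sdiff_subset⟩
  rw [hzero] at hT
  have hT2 := (ENNReal.tendsto_toReal ENNReal.zero_ne_top).comp hT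
  rw [ENNReal.toReal_zero] at hT2
  refine hT2.congr' ?_
  filter_upwards [self_mem_nhdsWithin] with δ hδ
  show (ν (K \ KD K e δ)).toReal = _
  rw [hνs δ hδ]

end Pool.Agent.Helper734.IB
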