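import Mathlib
import Pool.Agent.Helper734.IB.Defs
import Pool.Agent.Helper734.IB.KDmeas
import Pool.Agent.Helper734.IB.KDsmall4
import Pool.Agent.Helper734.IB.TT
import Pool.Agent.Helper734.IB.Tpbound
import Pool.Agent.Helper734.IB.Tpmeas
import Pool.Agent.Helper734.IB.WWcont

set_option autoImplicit false

namespace Pool.Agent.Helper734.IB

open MeasureTheory Set Filter Topology Metric
open scoped ENNReal NNReal RealInnerProductSpace

variable {E : Type*} [NormedAddCommGroup E] [InnerProductSpace ℝ E] [FiniteDimensional ℝ E]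
  [MeasurableSpace E] [BorelSpace E]

theorem tail_bound4 (h3 : 3 ≤ Module.finrank ℝ E) (K : Set E) (R : ℝ) (hR : 0 < R)
    (hK : IsOpen K) (hb : K ⊆ ball 0 R) (e : E)
    (he : ‖e‖ = 1) (i : ℕ) (ε : ℝ) (hε : 0 < ε) (C : ℝ) (hC : 0 < C)
    (h2 : ∫⁻ x in K, ENNReal.ofReal ((VV K i e ε x) ^ 2 * ‖x‖ ^ 2) ≤ ENNReal.ofReal C) (δ : ℝ)
    (hδ : 0 < δ) :
    ∫ x in KD K e δ, aa K e x * VV K i e ε x ≤
      R * Real.sqrt C * Real.sqrt (∫⁻ x in K \ KD K e δ, ENNReal.ofReal (‖x‖ ^ 2)⁻¹).toReal := by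
  have hbd : Bornology.IsBounded K := Metric.isBounded_ball.subset hb
  have hnt : Nontrivial E := Module.nontrivial_of_finrank_pos (R := ℝ) (by omega)
  obtain ⟨hVc, CV, hCV⟩ := VV_cont K hK hbd e i ε hε
  obtain ⟨S, hS⟩ : ∃ S, S = K \ KD K e δ := ⟨_, rfl⟩
  obtain ⟨V, hV⟩ : ∃ V : E → ℝ, V = VV K i e ε := ⟨_, rfl⟩
  rw [← hS]
  rw [← hV] at hVc hCV h2 ⊢
  have hT : ∫ x in K, aa K e x * V x ≤ 0 := by rw [hV]; exact TT_nonpos K hK hbd e he i ε hε
  have hKm : MeasurableSet K := hK.measurableSet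
  have hKDm : MeasurableSet (KD K e δ) := KD_meas K hK hbd e he δ hδ
  have hSm : MeasurableSet S := by rw [hS]; exact hKm.diff hKDm
  have hSK : S ⊆ K := by rw [hS]; exact Set.sdiff_subset
  have hKDK : KD K e δ ⊆ K := fun x hx => hx.1
  have hvK : volume K < ∞ := hbd.measure_lt_top
  have hvS : volume S < ∞ := lt_of_le_of_lt (measure_mono hSK) hvK
  have haa : ∀ x ∈ K, |aa K e x| ≤ R := fun x hx => (tp_bound K R hb hK e he x hx).2.2.1.le
  have hJ : ∫⁻ x in K, ENNReal.ofReal (‖x‖ ^ 2)⁻¹ < ∞ := (KD_small4 h3 K hK hbd e he).2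
  have hJS : ∫⁻ x in S, ENNReal.ofReal (‖x‖ ^ 2)⁻¹ ≠ ∞ :=
    ne_of_lt (lt_of_le_of_lt (lintegral_mono_set hSK) hJ)
  -- integrability
  have hfi : IntegrableOn (fun x => aa K e x * V x) K := by
    have h1 : IntegrableOn (fun x => K.indicator (aa K e) x * V x) K := by
      refine Measure.integrableOn_of_bounded (M := R * CV) hvK.ne ?_ ?_
      · exact ((aa_meas K hK hbd e he).mul hVc.measurable).aestronglyMeasurable
      · refine (ae_restrict_iff' hKm).2 (Filter.Eventually.of_forall fun x hx => ?_)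
        rw [Set.indicator_of_mem hx, norm_mul, Real.norm_eq_abs, Real.norm_eq_abs]
        exact mul_le_mul (haa x hx) (hCV x) (abs_nonneg _) hR.le
    refine h1.congr_fun (fun x hx => ?_) hKm
    simp only
    rw [Set.indicator_of_mem hx]
  have hsplit : ∫ x in K, aa K e x * V x =
      (∫ x in KD K e δ, aa K e x * V x) + ∫ x in S, aa K e x * V x := by
    have hK' : K = KD K e δ ∪ S := by rw [hS, Set.union_sdiff_cancel hKDK]
    have hdis : Disjoint (KD K e δ) S := by rw [hS]; exact disjoint_sdiff_right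
    have h1 := setIntegral_union (f := fun x => aa K e x * V x) (μ := volume) hdis hSm
      (hfi.mono_set hKDK) (hfi.mono_set hSK)
    rw [← h1, ← hK']
  have hVint : IntegrableOn (fun x => |V x|) S := by
    refine Measure.integrableOn_of_bounded (M := CV) hvS.ne ?_ ?_
    · exact (hVc.abs).aestronglyMeasurable
    · refine Filter.Eventually.of_forall fun x => ?_
      rw [Real.norm_eq_abs, abs_abs]
      exact hCV x
  have hb1 : |∫ x in S, aa K e x * V x| ≤ R * ∫ x in S, |V x| := by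
    rw [← Real.norm_eq_abs, ← integral_const_mul]
    refine norm_integral_le_of_norm_le (hVint.const_mul R) ?_
    refine (ae_restrict_iff' hSm).2 (Filter.Eventually.of_forall fun x hx => ?_)
    rw [norm_mul, Real.norm_eq_abs, Real.norm_eq_abs]
    exact mul_le_mul_of_nonneg_right (haa x (hSK hx)) (abs_nonneg _)
  -- Cauchy-Schwarz
  have hCS : ∫⁻ x in S, ENNReal.ofReal |V x| ≤
      (ENNReal.ofReal C) ^ (1 / 2 : ℝ) *
        (∫⁻ x in S, ENNReal.ofReal (‖x‖ ^ 2)⁻¹) ^ (1 / 2 : ℝ) := by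
    have h1 : ∫⁻ x in S, ENNReal.ofReal |V x| =
        ∫⁻ x in S, (((fun x => ENNReal.ofReal (|V x| * ‖x‖)) : E → ℝ≥0∞) *
          ((fun x => ENNReal.ofReal ‖x‖⁻¹) : E → ℝ≥0∞)) x := by
      refine lintegral_congr_ae ?_
      have h0 : ∀ᵐ x : E ∂(volume.restrict S), x ≠ 0 := by
        refine ae_restrict_of_ae ?_
        have : ({0} : Set E)ᶜ ∈ ae (volume : Measure E) := compl_mem_ae_iff.2 (measure_singleton 0)
        filter_upwards [this] with x hx using hx
      filter_upwards [h0] with x hx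
      rw [Pi.mul_apply, ← ENNReal.ofReal_mul (by positivity), mul_assoc,
        mul_inv_cancel₀ (norm_ne_zero_iff.2 hx), mul_one]
    rw [h1]
    have h4 := ENNReal.lintegral_mul_le_Lp_mul_Lq (volume.restrict S) Real.HolderConjugate.two_two
      (f := fun x => ENNReal.ofReal (|V x| * ‖x‖)) (g := fun x => ENNReal.ofReal ‖x‖⁻¹)
      (Measurable.aemeasurable (by
        have := hVc.measurable
        fun_prop)) (Measurable.aemeasurable (by fun_prop))
    refine h4.trans ?_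
    have e1 : ∫⁻ x in S, ENNReal.ofReal (|V x| * ‖x‖) ^ (2 : ℝ) ≤ ENNReal.ofReal C := by
      refine le_trans ?_ h2
      refine le_trans (le_of_eq ?_) (lintegral_mono_set hSK)
      refine lintegral_congr fun x => ?_
      rw [ENNReal.ofReal_rpow_of_nonneg (by positivity) (by norm_num), Real.rpow_two, mul_pow,
        sq_abs]
    have e2 : ∫⁻ x in S, ENNReal.ofReal ‖x‖⁻¹ ^ (2 : ℝ) = ∫⁻ x in S, ENNReal.ofReal (‖x‖ ^ 2)⁻¹ := by
      refine lintegral_congr fun x => ?_
      rw [ENNReal.ofReal_rpow_of_nonneg (by positivity) (by norm_num), Real.rpow_two, inv_pow]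
    rw [e2]
    exact mul_le_mul_left (ENNReal.rpow_le_rpow e1 (by norm_num)) _
  have hb2 : ∫ x in S, |V x| ≤ Real.sqrt C *
      Real.sqrt (∫⁻ x in S, ENNReal.ofReal (‖x‖ ^ 2)⁻¹).toReal := by
    rw [integral_eq_lintegral_of_nonneg_ae (Filter.Eventually.of_forall fun x => abs_nonneg _)
      hVc.abs.aestronglyMeasurable]
    have h5 := ENNReal.toReal_mono (ENNReal.mul_ne_top
      (ENNReal.rpow_ne_top_of_nonneg (by norm_num) ENNReal.ofReal_ne_top)
      (ENNReal.rpow_ne_top_of_nonneg (by norm_num) hJS)) hCS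
    refine h5.trans (le_of_eq ?_)
    rw [ENNReal.toReal_mul, ← ENNReal.toReal_rpow, ← ENNReal.toReal_rpow,
      ENNReal.toReal_ofReal hC.le, ← Real.sqrt_eq_rpow, ← Real.sqrt_eq_rpow]
  have h6 := abs_le.1 hb1
  have h7 : R * ∫ x in S, |V x| ≤ R * (Real.sqrt C *
      Real.sqrt (∫⁻ x in S, ENNReal.ofReal (‖x‖ ^ 2)⁻¹).toReal) :=
    mul_le_mul_of_nonneg_left hb2 hR.le
  rw [mul_assoc]
  linarith [h6.1]

end Pool.Agent.Helper734.IB
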