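import Mathlib
import Pool.Agent.Helper734.IB.Defs
import Pool.Agent.Helper734.IB.KkA
import Pool.Agent.Helper734.IB.KkB

set_option autoImplicit false

namespace Pool.Agent.Helper734.IB

open MeasureTheory Set Filter Topology Metric
open scoped ENNReal NNReal RealInnerProductSpace

variable {E : Type*} [NormedAddCommGroup E] [InnerProductSpace ℝ E] [FiniteDimensional ℝ E]
  [MeasurableSpace E] [BorelSpace E]

theorem conv_conv_g0 (b m : ℝ) (hb : 0 < b) :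
    Integrable (fun r : ℝ => Real.exp (-b * (r + m) ^ 2)) ∧
    ∫ r : ℝ, Real.exp (-b * (r + m) ^ 2) = Real.sqrt (Real.pi / b) := by
  constructor
  · exact (integrable_exp_neg_mul_sq hb).comp_add_right m
  · rw [integral_add_right_eq_self (fun x : ℝ => Real.exp (-b * x ^ 2)) m, integral_gaussian]

theorem conv_conv_g1 (b m : ℝ) (hb : 0 < b) :
    Integrable (fun r : ℝ => (r + m) * Real.exp (-b * (r + m) ^ 2)) ∧
    ∫ r : ℝ, (r + m) * Real.exp (-b * (r + m) ^ 2) = 0 := by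
  constructor
  · exact (integrable_mul_exp_neg_mul_sq hb).comp_add_right m
  · rw [integral_add_right_eq_self (fun x : ℝ => x * Real.exp (-b * x ^ 2)) m]
    have h1 := integral_neg_eq_self (fun x : ℝ => x * Real.exp (-b * x ^ 2)) volume
    have h2 : ∀ x : ℝ, -x * Real.exp (-b * (-x) ^ 2) = -(x * Real.exp (-b * x ^ 2)) := by
      intro x
      rw [neg_sq]
      ring
    simp only [h2] at h1
    rw [integral_neg] at h1
    linarith

theorem conv_conv_g2 (b : ℝ) (hb : 0 < b) :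
    ∫ r : ℝ, r ^ 2 * Real.exp (-b * r ^ 2) = 1 / (2 * b) * Real.sqrt (Real.pi / b) := by
  have hi2 : Integrable (fun x : ℝ => x ^ 2 * Real.exp (-b * x ^ 2)) := by
    have := integrable_rpow_mul_exp_neg_mul_sq hb (s := 2) (by norm_num)
    simpa [Real.rpow_two] using this
  have hi0 := integrable_exp_neg_mul_sq hb
  have hi1 := integrable_mul_exp_neg_mul_sq hb
  have hv : ∀ x : ℝ, HasDerivAt (fun x : ℝ => Real.exp (-b * x ^ 2))
      (-(2 * b) * (x * Real.exp (-b * x ^ 2))) x := by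
    intro x
    have h1 : HasDerivAt (fun x : ℝ => -b * x ^ 2) (-b * (2 * x)) x := by
      have := (hasDerivAt_pow 2 x).const_mul (-b)
      simpa using this
    refine h1.exp.congr_deriv ?_
    ring
  have key := integral_mul_deriv_eq_deriv_mul_of_integrable (u := fun x : ℝ => x)
    (u' := fun _ => 1) (v := fun x : ℝ => Real.exp (-b * x ^ 2))
    (v' := fun x : ℝ => -(2 * b) * (x * Real.exp (-b * x ^ 2)))
    (fun x _ => hasDerivAt_id' x) (fun x _ => hv x) (by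
      have := hi2.const_mul (-(2 * b))
      refine this.congr (Eventually.of_forall fun x => ?_)
      simp only [Pi.mul_apply]
      ring) (by
      refine hi0.congr (Eventually.of_forall fun x => ?_)
      simp only [Pi.mul_apply, one_mul]) (by
      refine hi1.congr (Eventually.of_forall fun x => ?_)
      simp only [Pi.mul_apply])
  have e1 : ∫ x : ℝ, x * (-(2 * b) * (x * Real.exp (-b * x ^ 2))) =
      -(2 * b) * ∫ x : ℝ, x ^ 2 * Real.exp (-b * x ^ 2) := by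
    rw [← integral_const_mul]
    congr 1
    funext x
    ring
  rw [e1] at key
  simp only [one_mul] at key
  rw [integral_gaussian] at key
  have hb' : (2 * b) ≠ 0 := by positivity
  have key2 : 2 * b * ∫ x : ℝ, x ^ 2 * Real.exp (-b * x ^ 2) = Real.sqrt (Real.pi / b) := by
    linarith
  rw [← key2, ← mul_assoc, one_div, inv_mul_cancel₀ hb', one_mul]

theorem conv_conv_exp (ε β a r : ℝ) (hε : 0 < ε) :
    kk ε (a + β * r) * Real.exp (-(r ^ 2) / 2) =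
      (ε⁻¹ * Real.exp (-(a ^ 2) / (2 * (β ^ 2 + ε ^ 2)))) *
        Real.exp (-((β ^ 2 + ε ^ 2) / (2 * ε ^ 2)) * (r + a * β / (β ^ 2 + ε ^ 2)) ^ 2) := by
  have hS : β ^ 2 + ε ^ 2 ≠ 0 := by positivity
  unfold kk
  rw [mul_assoc, mul_assoc, ← Real.exp_add, ← Real.exp_add]
  congr 2
  field_simp
  ring

theorem conv_conv_sqrt (ε β : ℝ) (hε : 0 < ε) :
    Real.sqrt (Real.pi / ((β ^ 2 + ε ^ 2) / (2 * ε ^ 2))) =
      Real.sqrt (2 * Real.pi) * (ε / Real.sqrt (β ^ 2 + ε ^ 2)) := by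
  have hS : 0 < β ^ 2 + ε ^ 2 := by positivity
  have e1 : Real.pi / ((β ^ 2 + ε ^ 2) / (2 * ε ^ 2)) =
      (2 * Real.pi) * (ε ^ 2 / (β ^ 2 + ε ^ 2)) := by
    field_simp
  rw [e1, Real.sqrt_mul (by positivity), Real.sqrt_div (by positivity), Real.sqrt_sq hε.le]

theorem conv1 (ε β a : ℝ) (hε : 0 < ε) :
    Integrable (fun r : ℝ => kk ε (a + β * r) * Real.exp (-(r ^ 2) / 2)) ∧
    ∫ r : ℝ, kk ε (a + β * r) * Real.exp (-(r ^ 2) / 2) =
      Real.sqrt (2 * Real.pi) * kk (Real.sqrt (β ^ 2 + ε ^ 2)) a := by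
  have hS : 0 < β ^ 2 + ε ^ 2 := by positivity
  have hsq : 0 < Real.sqrt (β ^ 2 + ε ^ 2) := Real.sqrt_pos.mpr hS
  obtain ⟨h1, h2⟩ := conv_conv_g0 ((β ^ 2 + ε ^ 2) / (2 * ε ^ 2)) (a * β / (β ^ 2 + ε ^ 2))
    (by positivity)
  simp only [conv_conv_exp ε β a _ hε]
  constructor
  · exact h1.const_mul _
  · rw [integral_const_mul, h2, conv_conv_sqrt ε β hε]
    unfold kk
    rw [Real.sq_sqrt hS.le]
    field_simp

theorem conv2 (ε β a : ℝ) (hε : 0 < ε) :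
    Integrable (fun r : ℝ => kd ε (a + β * r) * Real.exp (-(r ^ 2) / 2)) ∧
    ∫ r : ℝ, kd ε (a + β * r) * Real.exp (-(r ^ 2) / 2) =
      Real.sqrt (2 * Real.pi) * kd (Real.sqrt (β ^ 2 + ε ^ 2)) a := by
  have hS : 0 < β ^ 2 + ε ^ 2 := by positivity
  have hsq : 0 < Real.sqrt (β ^ 2 + ε ^ 2) := Real.sqrt_pos.mpr hS
  obtain ⟨h1, h2⟩ := conv_conv_g0 ((β ^ 2 + ε ^ 2) / (2 * ε ^ 2)) (a * β / (β ^ 2 + ε ^ 2))
    (by positivity)
  obtain ⟨h3, h4⟩ := conv_conv_g1 ((β ^ 2 + ε ^ 2) / (2 * ε ^ 2)) (a * β / (β ^ 2 + ε ^ 2))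
    (by positivity)
  have e : ∀ r : ℝ, kd ε (a + β * r) * Real.exp (-(r ^ 2) / 2) =
      (-(β / ε ^ 2) * (ε⁻¹ * Real.exp (-(a ^ 2) / (2 * (β ^ 2 + ε ^ 2))))) *
        ((r + a * β / (β ^ 2 + ε ^ 2)) *
          Real.exp (-((β ^ 2 + ε ^ 2) / (2 * ε ^ 2)) * (r + a * β / (β ^ 2 + ε ^ 2)) ^ 2)) +
      (-(a / (β ^ 2 + ε ^ 2)) * (ε⁻¹ * Real.exp (-(a ^ 2) / (2 * (β ^ 2 + ε ^ 2))))) *
        Real.exp (-((β ^ 2 + ε ^ 2) / (2 * ε ^ 2)) * (r + a * β / (β ^ 2 + ε ^ 2)) ^ 2) := by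
    intro r
    have h := conv_conv_exp ε β a r hε
    unfold kd
    rw [mul_assoc, h]
    have e2 : -((a + β * r) / ε ^ 2) = -(β / ε ^ 2) * (r + a * β / (β ^ 2 + ε ^ 2)) +
        -(a / (β ^ 2 + ε ^ 2)) := by
      field_simp
      ring
    rw [e2]
    ring
  simp only [e]
  constructor
  · exact (h3.const_mul _).add (h1.const_mul _)
  · rw [integral_add (h3.const_mul _) (h1.const_mul _), integral_const_mul, integral_const_mul,
      h2, h4, conv_conv_sqrt ε β hε]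
    unfold kd kk
    rw [Real.sq_sqrt hS.le]
    field_simp
    ring

theorem conv3 (ε σ c α : ℝ) (hε : 0 < ε) (hσ : 0 < σ) :
    ∫ r : ℝ, kd ε (c * r) * kd σ (α * r) * Real.exp (-(r ^ 2) / 2) =
      Real.sqrt (2 * Real.pi) * (c * α) *
        (ε ^ 2 * σ ^ 2 + c ^ 2 * σ ^ 2 + α ^ 2 * ε ^ 2) ^ (-(3:ℝ) / 2) := by
  obtain ⟨D, hD⟩ : ∃ D, D = ε ^ 2 * σ ^ 2 + c ^ 2 * σ ^ 2 + α ^ 2 * ε ^ 2 := ⟨_, rfl⟩
  have hD0 : 0 < D := by rw [hD]; positivity
  have hsq : 0 < Real.sqrt D := Real.sqrt_pos.mpr hD0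
  have hb : 0 < D / (2 * (ε ^ 2 * σ ^ 2)) := by positivity
  have h2 := conv_conv_g2 _ hb
  have e : ∀ r : ℝ, kd ε (c * r) * kd σ (α * r) * Real.exp (-(r ^ 2) / 2) =
      (c * α / (ε ^ 3 * σ ^ 3)) * (r ^ 2 * Real.exp (-(D / (2 * (ε ^ 2 * σ ^ 2))) * r ^ 2)) := by
    intro r
    unfold kd kk
    have e1 : -(D / (2 * (ε ^ 2 * σ ^ 2))) * r ^ 2 = -((c * r) ^ 2) / (2 * ε ^ 2) +
        -((α * r) ^ 2) / (2 * σ ^ 2) + -(r ^ 2) / 2 := by
      rw [hD]
      field_simp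
      ring
    rw [e1, Real.exp_add, Real.exp_add]
    field_simp
  simp only [e]
  rw [integral_const_mul, h2, ← hD]
  have e3 : D ^ (-(3:ℝ) / 2) = (D * Real.sqrt D)⁻¹ := by
    have h3 : (-(3:ℝ) / 2) = -(1 + 1 / 2) := by norm_num
    rw [h3, Real.rpow_neg hD0.le, Real.rpow_add hD0, Real.rpow_one, ← Real.sqrt_eq_rpow]
  have e4 : Real.sqrt (Real.pi / (D / (2 * (ε ^ 2 * σ ^ 2)))) =
      Real.sqrt (2 * Real.pi) * (ε * σ / Real.sqrt D) := by
    have e5 : Real.pi / (D / (2 * (ε ^ 2 * σ ^ 2))) = (2 * Real.pi) * ((ε * σ) ^ 2 / D) := by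
      field_simp
    rw [e5, Real.sqrt_mul (by positivity), Real.sqrt_div (by positivity),
      Real.sqrt_sq (by positivity)]
  rw [e3, e4]
  field_simp

end Pool.Agent.Helper734.IB
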