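import Mathlib
import Pool.Agent.Helper734.IB.Defs
import Pool.Agent.Helper734.IB.BasicA
import Pool.Agent.Helper734.IB.Conv
import Pool.Agent.Helper734.IB.KkA
import Pool.Agent.Helper734.IB.Ldec
import Pool.Agent.Helper734.IB.WwA

set_option autoImplicit false

namespace Pool.Agent.Helper734.IB

open MeasureTheory Set Filter Topology Metric
open scoped ENNReal NNReal RealInnerProductSpace

variable {E : Type*} [NormedAddCommGroup E] [InnerProductSpace ℝ E] [FiniteDimensional ℝ E]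
  [MeasurableSpace E] [BorelSpace E]

theorem Pexact_h167_ww_int : Integrable (fun u : E => ww u) := by
  have := ww_int (E := E) 0
  simpa using this

theorem Pexact_h167_ww_gauss : ∫ z : E, ww z = (2 * Real.pi) ^ ((Module.finrank ℝ E : ℝ) / 2) := by
  have h := GaussianFourier.integral_rexp_neg_mul_sq_norm (V := E) (b := 1 / 2) (by norm_num)
  have e1 : (Real.pi / (1 / 2)) = 2 * Real.pi := by ring
  rw [e1] at h
  rw [← h]
  refine integral_congr_ae (Filter.Eventually.of_forall fun z => ?_)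
  simp only [ww]
  congr 1
  ring

theorem Pexact_h167_ww_real (r : ℝ) : ww r = Real.exp (-(r ^ 2) / 2) := by
  unfold ww
  rw [Real.norm_eq_abs, sq_abs]

theorem Pexact_h167_ww_pos (z : E) : 0 < ww z := Real.exp_pos _

theorem Pexact_h167_unit (y : E) (hy : y ≠ 0) : ∃ w : E, ‖w‖ = 1 ∧ w ≠ 0 ∧ y = ‖y‖ • w ∧
    ∀ (z : (ℝ ∙ w)ᗮ) (r : ℝ), ⟪y, (z : E) + r • w⟫ = ‖y‖ * r := by
  have hy0 : 0 < ‖y‖ := norm_pos_iff.2 hy
  refine ⟨‖y‖⁻¹ • y, ?_, ?_, ?_, ?_⟩
  · rw [norm_smul, norm_inv, norm_norm, inv_mul_cancel₀ hy0.ne']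
  · exact smul_ne_zero (inv_ne_zero hy0.ne') hy
  · rw [smul_smul, mul_inv_cancel₀ hy0.ne', one_smul]
  · intro z r
    have h0 : ⟪‖y‖⁻¹ • y, (z : E)⟫ = 0 := (perp_inner _ z).2
    rw [real_inner_smul_left] at h0
    have h1 : ⟪y, (z : E)⟫ = 0 := by
      rcases mul_eq_zero.1 h0 with h | h
      · exact absurd h (inv_ne_zero hy0.ne')
      · exact h
    rw [inner_add_right, h1, real_inner_smul_right, real_inner_smul_right,
      real_inner_self_eq_norm_sq]
    field_simp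
    ring

theorem Pexact_h167_inner (ε : ℝ) (hε : 0 < ε) (z1 : E) (a : ℝ) :
    ∫ z : E, kd ε (a + ⟪z1, z⟫) * ww z =
      (2 * Real.pi) ^ ((Module.finrank ℝ E : ℝ) / 2) * kd (Real.sqrt (‖z1‖ ^ 2 + ε ^ 2)) a := by
  by_cases hz : z1 = 0
  · subst hz
    simp only [inner_zero_left, add_zero]
    rw [integral_const_mul, Pexact_h167_ww_gauss, norm_zero]
    have : Real.sqrt (0 ^ 2 + ε ^ 2) = ε := by
      rw [zero_pow two_ne_zero, zero_add, Real.sqrt_sq hε.le]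
    rw [this, mul_comm]
  · obtain ⟨w, hw, hw0, -, hdec⟩ := Pexact_h167_unit z1 hz
    have hint : Integrable (fun z : E => kd ε (a + ⟪z1, z⟫) * ww z) := by
      refine Integrable.mono' (Pexact_h167_ww_int.const_mul (ε ^ 2)⁻¹) ?_
        (Filter.Eventually.of_forall fun z => ?_)
      · refine (Continuous.mul ((kd_cont ε).comp ?_) ww_cont).aestronglyMeasurable
        exact continuous_const.add (continuous_const.inner continuous_id)
      · rw [norm_mul, Real.norm_eq_abs, Real.norm_eq_abs, abs_of_pos (Pexact_h167_ww_pos z)]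
        exact mul_le_mul_of_nonneg_right (kd_le ε _ hε) (Pexact_h167_ww_pos z).le
    rw [(idec w hw _ hint).1]
    have h1 : ∀ y : (ℝ ∙ w)ᗮ, ∫ r : ℝ, kd ε (a + ⟪z1, (y : E) + r • w⟫) * ww ((y : E) + r • w) =
        ww y * (Real.sqrt (2 * Real.pi) * kd (Real.sqrt (‖z1‖ ^ 2 + ε ^ 2)) a) := by
      intro y
      rw [← (conv2 ε ‖z1‖ a hε).2, ← integral_const_mul]
      refine integral_congr_ae (Filter.Eventually.of_forall fun r => ?_)
      simp only
      rw [hdec, ww_dec w hw, Pexact_h167_ww_real]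
      have : ww (y : E) = ww y := rfl
      rw [this]; ring
    simp_rw [h1]
    rw [integral_mul_const, Pexact_h167_ww_gauss]
    have hfr := finrank_perp w hw0
    have h2pi : (0 : ℝ) < 2 * Real.pi := by positivity
    rw [← hfr]
    push_cast
    rw [add_div, Real.rpow_add h2pi, Real.sqrt_eq_rpow (2 * Real.pi)]
    ring

theorem Dl_pos (ε : ℝ) (hε : 0 < ε) (u v : E) : 0 < Dl ε u v := by
  unfold Dl
  have h1 := real_inner_mul_inner_self_le u v
  rw [real_inner_self_eq_norm_sq, real_inner_self_eq_norm_sq] at h1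
  have h2 : 0 < ε ^ 4 := by positivity
  have h3 : 0 ≤ ε ^ 2 * (‖u‖ ^ 2 + ‖v‖ ^ 2) := by positivity
  nlinarith

theorem P_exact (ε : ℝ) (hε : 0 < ε) (u v : E) :
    ∫ x : E, kd ε ⟪u, x⟫ * kd ε ⟪v, x⟫ * ww x =
      (2 * Real.pi) ^ ((Module.finrank ℝ E : ℝ) / 2) * ⟪u, v⟫ * (Dl ε u v) ^ (-(3:ℝ) / 2) := by
  by_cases hu : u = 0
  · subst hu
    have h0 : kd ε 0 = 0 := by simp [kd]
    simp [h0]
  obtain ⟨w, hw, hw0, huw, hdec⟩ := Pexact_h167_unit u hu
  obtain ⟨z1, hz1, hz1'⟩ := dec_exists w hw v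
  obtain ⟨α, hα⟩ : ∃ α : ℝ, α = ⟪v, w⟫ := ⟨_, rfl⟩
  rw [← hα] at hz1 hz1'
  have hvdec : ∀ (z : (ℝ ∙ w)ᗮ) (r : ℝ), ⟪v, (z : E) + r • w⟫ = α * r + ⟪z1, z⟫ := by
    intro z r
    conv_lhs => rw [hz1']
    rw [inner_add_right, inner_add_left, inner_add_left, real_inner_smul_left,
      real_inner_smul_left, real_inner_smul_right, real_inner_smul_right, (perp_inner w z).2,
      (perp_inner w z1).1, real_inner_self_eq_norm_sq, hw]
    have : ⟪(z1 : E), (z : E)⟫ = ⟪z1, z⟫ := rfl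
    rw [this]; ring
  have hint : Integrable (fun x : E => kd ε ⟪u, x⟫ * kd ε ⟪v, x⟫ * ww x) := by
    refine Integrable.mono' (Pexact_h167_ww_int.const_mul ((ε ^ 2)⁻¹ * (ε ^ 2)⁻¹)) ?_
      (Filter.Eventually.of_forall fun z => ?_)
    · refine (Continuous.mul (Continuous.mul ((kd_cont ε).comp ?_) ((kd_cont ε).comp ?_))
        ww_cont).aestronglyMeasurable
      · exact continuous_const.inner continuous_id
      · exact continuous_const.inner continuous_id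
    · rw [norm_mul, norm_mul, Real.norm_eq_abs, Real.norm_eq_abs, Real.norm_eq_abs,
        abs_of_pos (Pexact_h167_ww_pos z)]
      refine mul_le_mul_of_nonneg_right ?_ (Pexact_h167_ww_pos z).le
      exact mul_le_mul (kd_le ε _ hε) (kd_le ε _ hε) (abs_nonneg _) (by positivity)
  rw [(idec w hw _ hint).1]
  obtain ⟨σ, hσ⟩ : ∃ σ : ℝ, σ = Real.sqrt (‖z1‖ ^ 2 + ε ^ 2) := ⟨_, rfl⟩
  have hσ0 : 0 < σ := by rw [hσ]; positivity
  have hσ2 : σ ^ 2 = ‖z1‖ ^ 2 + ε ^ 2 := by rw [hσ]; exact Real.sq_sqrt (by positivity)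
  have h1 : ∀ (z : (ℝ ∙ w)ᗮ) (r : ℝ), kd ε ⟪u, (z : E) + r • w⟫ * kd ε ⟪v, (z : E) + r • w⟫ *
      ww ((z : E) + r • w) = (kd ε (‖u‖ * r) * kd ε (α * r + ⟪z1, z⟫)) * (ww z * ww r) := by
    intro z r
    rw [hdec, hvdec, ww_dec w hw]
    rfl
  simp_rw [h1]
  have hprod : Integrable (fun p : (ℝ ∙ w)ᗮ × ℝ =>
      (kd ε (‖u‖ * p.2) * kd ε (α * p.2 + ⟪z1, p.1⟫)) * (ww p.1 * ww p.2))
      ((volume : Measure (ℝ ∙ w)ᗮ).prod (volume : Measure ℝ)) := by
    have hb : Integrable (fun p : (ℝ ∙ w)ᗮ × ℝ => ww p.1 * ww p.2)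
        ((volume : Measure (ℝ ∙ w)ᗮ).prod (volume : Measure ℝ)) :=
      Integrable.mul_prod (Pexact_h167_ww_int (E := (ℝ ∙ w)ᗮ)) (Pexact_h167_ww_int (E := ℝ))
    refine Integrable.mono' (hb.const_mul ((ε ^ 2)⁻¹ * (ε ^ 2)⁻¹)) ?_
      (Filter.Eventually.of_forall fun p => ?_)
    · refine Continuous.aestronglyMeasurable ?_
      refine Continuous.mul (Continuous.mul ((kd_cont ε).comp ?_) ((kd_cont ε).comp ?_))
        (Continuous.mul (ww_cont.comp continuous_fst) (ww_cont.comp continuous_snd))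
      · exact continuous_const.mul continuous_snd
      · exact (continuous_const.mul continuous_snd).add
          (continuous_const.inner continuous_fst)
    · rw [norm_mul, norm_mul, Real.norm_eq_abs, Real.norm_eq_abs, Real.norm_eq_abs,
        abs_of_pos (mul_pos (Pexact_h167_ww_pos p.1) (Pexact_h167_ww_pos p.2))]
      refine mul_le_mul_of_nonneg_right ?_ (mul_pos (Pexact_h167_ww_pos p.1) (Pexact_h167_ww_pos p.2)).le
      exact mul_le_mul (kd_le ε _ hε) (kd_le ε _ hε) (abs_nonneg _) (by positivity)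
  rw [integral_integral_swap hprod]
  have h2 : ∀ r : ℝ, ∫ z : (ℝ ∙ w)ᗮ, (kd ε (‖u‖ * r) * kd ε (α * r + ⟪z1, z⟫)) *
      (ww z * ww r) = (2 * Real.pi) ^ ((Module.finrank ℝ ((ℝ ∙ w)ᗮ : Submodule ℝ E) : ℝ) / 2) *
        (kd ε (‖u‖ * r) * kd σ (α * r) * Real.exp (-(r ^ 2) / 2)) := by
    intro r
    have h3 := Pexact_h167_inner ε hε z1 (α * r)
    rw [← hσ] at h3
    have h4 : ∫ z : (ℝ ∙ w)ᗮ, (kd ε (‖u‖ * r) * kd ε (α * r + ⟪z1, z⟫)) * (ww z * ww r) =
        (kd ε (‖u‖ * r) * ww r) * ∫ z : (ℝ ∙ w)ᗮ, kd ε (α * r + ⟪z1, z⟫) * ww z := by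
      rw [← integral_const_mul]
      refine integral_congr_ae (Filter.Eventually.of_forall fun z => ?_)
      simp only
      ring
    rw [h4, h3, Pexact_h167_ww_real]
    ring
  simp_rw [h2]
  rw [integral_const_mul, conv3 ε σ ‖u‖ α hε hσ0]
  have huv : ⟪u, v⟫ = ‖u‖ * α := by
    rw [hα]
    conv_lhs => rw [huw]
    rw [real_inner_smul_left, real_inner_comm]
  have hnv : ‖v‖ ^ 2 = ‖z1‖ ^ 2 + α ^ 2 := by
    conv_lhs => rw [hz1']
    exact norm_dec w hw z1 α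
  have hD : ε ^ 2 * σ ^ 2 + ‖u‖ ^ 2 * σ ^ 2 + α ^ 2 * ε ^ 2 = Dl ε u v := by
    unfold Dl
    rw [hσ2, hnv, huv]
    ring
  rw [hD, ← huv]
  have hfr := finrank_perp w hw0
  have h2pi : (0 : ℝ) < 2 * Real.pi := by positivity
  rw [← hfr]
  push_cast
  rw [add_div, Real.rpow_add h2pi, Real.sqrt_eq_rpow (2 * Real.pi)]
  ring

end Pool.Agent.Helper734.IB
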