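import Mathlib
import Pool.Agent.Helper734.IB.Defs
import Pool.Agent.Helper734.IB.KkA
import Pool.Agent.Helper734.IB.Pexact
import Pool.Agent.Helper734.IB.WwA

set_option autoImplicit false

namespace Pool.Agent.Helper734.IB

open MeasureTheory Set Filter Topology Metric
open scoped ENNReal NNReal RealInnerProductSpace

variable {E : Type*} [NormedAddCommGroup E] [InnerProductSpace ℝ E] [FiniteDimensional ℝ E]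
  [MeasurableSpace E] [BorelSpace E]

theorem Pdiff_kd_half (ε : ℝ) (hε : 0 < ε) (s : ℝ) :
    kd ε ((Real.sqrt 2)⁻¹ * s) = 2 * kd (Real.sqrt 2 * ε) s := by
  have h2 : Real.sqrt 2 ^ 2 = 2 := Real.sq_sqrt (by norm_num)
  have h2p : 0 < Real.sqrt 2 := Real.sqrt_pos.2 (by norm_num)
  unfold kd kk
  have he : -(((Real.sqrt 2)⁻¹ * s) ^ 2) / (2 * ε ^ 2) = -(s ^ 2) / (2 * (Real.sqrt 2 * ε) ^ 2) := by
    rw [mul_pow, mul_pow, inv_pow, h2]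
    field_simp
  rw [he, mul_pow, h2]
  have h3 : (Real.sqrt 2)⁻¹ = Real.sqrt 2 / 2 := by
    rw [inv_eq_one_div, div_eq_div_iff h2p.ne' (by norm_num)]
    nlinarith
  rw [mul_inv, h3]
  field_simp

theorem Pdiff_ww_half {F : Type*} [NormedAddCommGroup F] [NormedSpace ℝ F] (y : F) :
    (ww ((Real.sqrt 2)⁻¹ • y)) ^ 2 = ww y := by
  have h2 : Real.sqrt 2 ^ 2 = 2 := Real.sq_sqrt (by norm_num)
  have h2p : 0 < Real.sqrt 2 := Real.sqrt_pos.2 (by norm_num)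
  unfold ww
  rw [← Real.exp_nat_mul]
  congr 1
  rw [norm_smul, norm_inv, Real.norm_of_nonneg h2p.le, mul_pow, inv_pow, h2]
  push_cast
  ring

theorem P_exact2 (h4 : Module.finrank ℝ E = 4) (ε : ℝ) (hε : 0 < ε) (u v : E) :
    ∫ x : E, kd ε ⟪u, x⟫ * kd ε ⟪v, x⟫ * (ww x) ^ 2 =
      (2 * Real.pi) ^ 2 * ⟪u, v⟫ * (Dl (Real.sqrt 2 * ε) u v) ^ (-(3:ℝ) / 2) := by
  have h2 : Real.sqrt 2 ^ 2 = 2 := Real.sq_sqrt (by norm_num)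
  have h2p : 0 < Real.sqrt 2 := Real.sqrt_pos.2 (by norm_num)
  have h1 := Measure.integral_comp_smul (volume : Measure E)
    (fun y : E => kd ε ⟪u, (Real.sqrt 2)⁻¹ • y⟫ * kd ε ⟪v, (Real.sqrt 2)⁻¹ • y⟫ *
      (ww ((Real.sqrt 2)⁻¹ • y)) ^ 2) (Real.sqrt 2)
  have h3 : ∀ x : E, (Real.sqrt 2)⁻¹ • (Real.sqrt 2) • x = x := fun x => by
    rw [smul_smul, inv_mul_cancel₀ h2p.ne', one_smul]
  simp only [h3] at h1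
  rw [h1]
  have h5 : (fun y : E => kd ε ⟪u, (Real.sqrt 2)⁻¹ • y⟫ * kd ε ⟪v, (Real.sqrt 2)⁻¹ • y⟫ *
      (ww ((Real.sqrt 2)⁻¹ • y)) ^ 2) =
      fun y : E => 4 * (kd (Real.sqrt 2 * ε) ⟪u, y⟫ * kd (Real.sqrt 2 * ε) ⟪v, y⟫ * ww y) := by
    funext y
    rw [real_inner_smul_right, real_inner_smul_right, Pdiff_kd_half ε hε, Pdiff_kd_half ε hε, Pdiff_ww_half]
    ring
  rw [h5, integral_const_mul, P_exact (Real.sqrt 2 * ε) (by positivity) u v, h4]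
  have h6 : |(Real.sqrt 2 ^ 4)⁻¹| = 1 / 4 := by
    have : Real.sqrt 2 ^ 4 = 4 := by
      have : Real.sqrt 2 ^ 4 = (Real.sqrt 2 ^ 2) ^ 2 := by ring
      rw [this, h2]; norm_num
    rw [this]; norm_num
  have h7 : (2 * Real.pi) ^ (((4 : ℕ) : ℝ) / 2) = (2 * Real.pi) ^ 2 := by
    have : (((4 : ℕ) : ℝ) / 2) = ((2 : ℕ) : ℝ) := by norm_num
    rw [this, Real.rpow_natCast]
  rw [h6, h7, smul_eq_mul]
  ring

theorem Pdiff_pow_diff_aux (a b : ℝ) (ha : 0 < a) (hab : a ≤ b) :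
    0 ≤ a ^ (-(3:ℝ) / 2) - b ^ (-(3:ℝ) / 2) ∧
    a ^ (-(3:ℝ) / 2) - b ^ (-(3:ℝ) / 2) ≤ 3 / 2 * a ^ (-(5:ℝ) / 2) * (b - a) := by
  have hb : 0 < b := ha.trans_le hab
  constructor
  · rw [sub_nonneg]
    exact Real.rpow_le_rpow_of_nonpos ha hab (by norm_num)
  · obtain ⟨t, ht⟩ : ∃ t : ℝ, t = b / a := ⟨_, rfl⟩
    have htp : 0 < t := by rw [ht]; positivity
    have hb' : b = a * t := by rw [ht]; field_simp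
    have h1 : 1 - 3 / 2 * (t - 1) ≤ t ^ (-(3:ℝ) / 2) := by
      rw [Real.rpow_def_of_pos htp]
      have h2 := Real.add_one_le_exp (Real.log t * (-(3:ℝ) / 2))
      have h3 := Real.log_le_sub_one_of_pos htp
      linarith
    have h4 : b ^ (-(3:ℝ) / 2) = a ^ (-(3:ℝ) / 2) * t ^ (-(3:ℝ) / 2) := by
      rw [hb', Real.mul_rpow ha.le htp.le]
    have h5 : a ^ (-(3:ℝ) / 2) = a ^ (-(5:ℝ) / 2) * a := by
      rw [← Real.rpow_add_one ha.ne']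
      congr 1
      norm_num
    have h6 : 0 < a ^ (-(3:ℝ) / 2) := Real.rpow_pos_of_pos ha _
    have h7 : a ^ (-(3:ℝ) / 2) * (1 - 3 / 2 * (t - 1)) ≤ a ^ (-(3:ℝ) / 2) * t ^ (-(3:ℝ) / 2) :=
      mul_le_mul_of_nonneg_left h1 h6.le
    have h8 : 3 / 2 * a ^ (-(5:ℝ) / 2) * (b - a) = a ^ (-(3:ℝ) / 2) * (3 / 2 * (t - 1)) := by
      rw [h5, hb']; ring
    rw [h4, h8]
    linarith

theorem Pdiff_int_kd (ε : ℝ) (hε : 0 < ε) (u v : E) (f : E → ℝ) (hf : Integrable f) :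
    Integrable (fun x : E => kd ε ⟪u, x⟫ * kd ε ⟪v, x⟫ * f x) := by
  have hc : Continuous (fun x : E => kd ε ⟪u, x⟫ * kd ε ⟪v, x⟫) := by
    have h1 : Continuous (fun x : E => kd ε ⟪u, x⟫) := (kd_cont ε).comp (by fun_prop)
    have h2 : Continuous (fun x : E => kd ε ⟪v, x⟫) := (kd_cont ε).comp (by fun_prop)
    exact h1.mul h2
  refine hf.bdd_mul (c := (ε ^ 2)⁻¹ * (ε ^ 2)⁻¹) hc.aestronglyMeasurable
    (Filter.Eventually.of_forall fun x => ?_)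
  rw [norm_mul, Real.norm_eq_abs, Real.norm_eq_abs]
  exact mul_le_mul (kd_le ε _ hε) (kd_le ε _ hε) (abs_nonneg _) (by positivity)

theorem Pdiff (h4 : Module.finrank ℝ E = 4) (ε : ℝ) (hε : 0 < ε) (u v : E) :
    |∫ x : E, kd ε ⟪u, x⟫ * kd ε ⟪v, x⟫ * (ww x - (ww x) ^ 2)| ≤
      5 * (2 * Real.pi) ^ 2 * (‖u‖ * ‖v‖) *
        (ε ^ 2 * (ε ^ 2 + ‖u‖ ^ 2 + ‖v‖ ^ 2) * (Dl ε u v) ^ (-(5:ℝ) / 2)) := by
  have hw : Integrable (ww : E → ℝ) := by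
    have := ww_int (E := E) 0
    simpa using this
  have hw2 : Integrable (fun x : E => (ww x) ^ 2) := by
    refine hw.mono (ww_cont.pow 2).aestronglyMeasurable (Filter.Eventually.of_forall fun x => ?_)
    obtain ⟨h1, h2⟩ := ww_pos x
    rw [Real.norm_of_nonneg h1.le, Real.norm_of_nonneg (by positivity)]
    nlinarith
  have hsplit : ∫ x : E, kd ε ⟪u, x⟫ * kd ε ⟪v, x⟫ * (ww x - (ww x) ^ 2) =
      (∫ x : E, kd ε ⟪u, x⟫ * kd ε ⟪v, x⟫ * ww x) -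
      ∫ x : E, kd ε ⟪u, x⟫ * kd ε ⟪v, x⟫ * (ww x) ^ 2 := by
    rw [← integral_sub (Pdiff_int_kd ε hε u v _ hw) (Pdiff_int_kd ε hε u v _ hw2)]
    congr 1
    funext x
    ring
  have h7 : (2 * Real.pi) ^ (((4 : ℕ) : ℝ) / 2) = (2 * Real.pi) ^ 2 := by
    have : (((4 : ℕ) : ℝ) / 2) = ((2 : ℕ) : ℝ) := by norm_num
    rw [this, Real.rpow_natCast]
  rw [hsplit, P_exact ε hε u v, P_exact2 h4 ε hε u v, h4, h7]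
  have h2 : Real.sqrt 2 ^ 2 = 2 := Real.sq_sqrt (by norm_num)
  have h2' : Real.sqrt 2 ^ 4 = 4 := by
    have : Real.sqrt 2 ^ 4 = (Real.sqrt 2 ^ 2) ^ 2 := by ring
    rw [this, h2]; norm_num
  have hD1 := Dl_pos ε hε u v
  have hdiff : Dl (Real.sqrt 2 * ε) u v - Dl ε u v = 3 * ε ^ 4 + ε ^ 2 * (‖u‖ ^ 2 + ‖v‖ ^ 2) := by
    unfold Dl
    rw [mul_pow, mul_pow, h2, h2']
    ring
  have hdiff0 : 0 ≤ 3 * ε ^ 4 + ε ^ 2 * (‖u‖ ^ 2 + ‖v‖ ^ 2) := by positivity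
  have hle : Dl ε u v ≤ Dl (Real.sqrt 2 * ε) u v := by linarith
  obtain ⟨hA, hB⟩ := Pdiff_pow_diff_aux (Dl ε u v) (Dl (Real.sqrt 2 * ε) u v) hD1 hle
  have hin : |(⟪u, v⟫ : ℝ)| ≤ ‖u‖ * ‖v‖ := abs_real_inner_le_norm u v
  have hpi : 0 ≤ (2 * Real.pi) ^ 2 := by positivity
  have hD5 : 0 ≤ (Dl ε u v) ^ (-(5:ℝ) / 2) := (Real.rpow_pos_of_pos hD1 _).le
  have e1 : (2 * Real.pi) ^ 2 * ⟪u, v⟫ * (Dl ε u v) ^ (-(3:ℝ) / 2) -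
      (2 * Real.pi) ^ 2 * ⟪u, v⟫ * (Dl (Real.sqrt 2 * ε) u v) ^ (-(3:ℝ) / 2) =
      ((2 * Real.pi) ^ 2 * ⟪u, v⟫) *
        ((Dl ε u v) ^ (-(3:ℝ) / 2) - (Dl (Real.sqrt 2 * ε) u v) ^ (-(3:ℝ) / 2)) := by ring
  rw [e1, abs_mul, abs_mul, abs_of_nonneg hpi, abs_of_nonneg hA]
  have hC : (Dl ε u v) ^ (-(3:ℝ) / 2) - (Dl (Real.sqrt 2 * ε) u v) ^ (-(3:ℝ) / 2) ≤
      5 * (ε ^ 2 * (ε ^ 2 + ‖u‖ ^ 2 + ‖v‖ ^ 2) * (Dl ε u v) ^ (-(5:ℝ) / 2)) := by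
    refine hB.trans ?_
    rw [hdiff]
    have h8 : 3 / 2 * (3 * ε ^ 4 + ε ^ 2 * (‖u‖ ^ 2 + ‖v‖ ^ 2)) ≤
        5 * (ε ^ 2 * (ε ^ 2 + ‖u‖ ^ 2 + ‖v‖ ^ 2)) := by
      have h9 : 0 ≤ ε ^ 4 := by positivity
      have h10 : 0 ≤ ε ^ 2 * (‖u‖ ^ 2 + ‖v‖ ^ 2) := by positivity
      have h11 : 5 * (ε ^ 2 * (ε ^ 2 + ‖u‖ ^ 2 + ‖v‖ ^ 2)) =
          5 * ε ^ 4 + 5 * (ε ^ 2 * (‖u‖ ^ 2 + ‖v‖ ^ 2)) := by ring
      rw [h11]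
      linarith
    calc 3 / 2 * (Dl ε u v) ^ (-(5:ℝ) / 2) * (3 * ε ^ 4 + ε ^ 2 * (‖u‖ ^ 2 + ‖v‖ ^ 2)) =
          (3 / 2 * (3 * ε ^ 4 + ε ^ 2 * (‖u‖ ^ 2 + ‖v‖ ^ 2))) * (Dl ε u v) ^ (-(5:ℝ) / 2) := by ring
      _ ≤ (5 * (ε ^ 2 * (ε ^ 2 + ‖u‖ ^ 2 + ‖v‖ ^ 2))) * (Dl ε u v) ^ (-(5:ℝ) / 2) :=
          mul_le_mul_of_nonneg_right h8 hD5
      _ = _ := by ring
  calc (2 * Real.pi) ^ 2 * |(⟪u, v⟫ : ℝ)| *
        ((Dl ε u v) ^ (-(3:ℝ) / 2) - (Dl (Real.sqrt 2 * ε) u v) ^ (-(3:ℝ) / 2))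
      ≤ (2 * Real.pi) ^ 2 * (‖u‖ * ‖v‖) *
        (5 * (ε ^ 2 * (ε ^ 2 + ‖u‖ ^ 2 + ‖v‖ ^ 2) * (Dl ε u v) ^ (-(5:ℝ) / 2))) :=
        mul_le_mul (mul_le_mul_of_nonneg_left hin hpi) hC hA (by positivity)
    _ = _ := by ring

end Pool.Agent.Helper734.IB
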