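import Mathlib
import Pool.Agent.Helper734.IB.Defs
import Pool.Agent.Helper734.IB.BasicA

set_option autoImplicit false

namespace Pool.Agent.Helper734.IB

open MeasureTheory Set Filter Topology Metric
open scoped ENNReal NNReal RealInnerProductSpace

variable {E : Type*} [NormedAddCommGroup E] [InnerProductSpace ℝ E] [FiniteDimensional ℝ E]
  [MeasurableSpace E] [BorelSpace E]

theorem Dl_dec (ε : ℝ) (hε : 0 < ε) (u v : E) (w : E) (hw : ‖w‖ = 1) (hu : u = ‖u‖ • w)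
    (z : (ℝ ∙ w)ᗮ) (r : ℝ) (hv : v = (z : E) + r • w) :
    (ε ^ 2 + ‖u‖ ^ 2) * (ε ^ 2 + ‖(z : E)‖ ^ 2) ≤ Dl ε u v := by
  have h1 := perp_inner w z
  have h2 := norm_dec w hw z r
  have h3 : ⟪u, v⟫ = ‖u‖ * r := by
    conv_lhs => rw [hu, hv]
    rw [real_inner_smul_left, inner_add_right, h1.2, real_inner_smul_right,
      real_inner_self_eq_norm_sq, hw]
    ring
  have h4 : ‖v‖ ^ 2 = ‖(z : E)‖ ^ 2 + r ^ 2 := by
    conv_lhs => rw [hv]
    exact h2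
  rw [Dl, h3, h4]
  have : 0 ≤ ε ^ 2 * r ^ 2 := by positivity
  nlinarith

theorem tail3 : ∃ C : ℝ≥0∞, C < ∞ ∧ ∀ ε : ℝ, 0 < ε →
    ∫⁻ y : EuclideanSpace ℝ (Fin 3),
      ENNReal.ofReal (ε ^ 2 * (ε ^ 2 + ‖y‖ ^ 2) ^ (-(5:ℝ) / 2)) ≤ C := by
  have hI : Integrable (fun x : EuclideanSpace ℝ (Fin 3) => ((1 : ℝ) + ‖x‖ ^ 2) ^ (-(5:ℝ) / 2)) volume := by
    apply integrable_rpow_neg_one_add_norm_sq
    rw [finrank_euclideanSpace, Fintype.card_fin]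
    norm_num
  refine ⟨∫⁻ y : EuclideanSpace ℝ (Fin 3), ENNReal.ofReal ((1 + ‖y‖ ^ 2) ^ (-(5:ℝ) / 2)), ?_, ?_⟩
  · exact hI.lintegral_lt_top
  · intro ε hε
    have hm : Measurable (fun y : EuclideanSpace ℝ (Fin 3) =>
        ENNReal.ofReal ((1 + ‖y‖ ^ 2) ^ (-(5:ℝ) / 2))) := by fun_prop
    have h1 : ∀ y : EuclideanSpace ℝ (Fin 3),
        ENNReal.ofReal (ε ^ 2 * (ε ^ 2 + ‖y‖ ^ 2) ^ (-(5:ℝ) / 2)) =
        ENNReal.ofReal ((ε ^ 3)⁻¹) * ENNReal.ofReal ((1 + ‖ε⁻¹ • y‖ ^ 2) ^ (-(5:ℝ) / 2)) := by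
      intro y
      rw [← ENNReal.ofReal_mul (by positivity)]
      congr 1
      have h2 : ε ^ 2 + ‖y‖ ^ 2 = ε ^ 2 * (1 + ‖ε⁻¹ • y‖ ^ 2) := by
        rw [norm_smul, Real.norm_eq_abs, abs_of_pos (inv_pos.2 hε)]
        field_simp
      rw [h2, Real.mul_rpow (by positivity) (by positivity), ← mul_assoc]
      congr 1
      rw [← Real.rpow_natCast ε 2, ← Real.rpow_mul hε.le, ← Real.rpow_add hε,
        ← Real.rpow_natCast ε 3, ← Real.rpow_neg hε.le]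
      norm_num
    simp only [h1]
    rw [lintegral_const_mul _ (by fun_prop)]
    have h3 : ∫⁻ y : EuclideanSpace ℝ (Fin 3), ENNReal.ofReal ((1 + ‖ε⁻¹ • y‖ ^ 2) ^ (-(5:ℝ) / 2)) =
        ENNReal.ofReal (ε ^ 3) * ∫⁻ y : EuclideanSpace ℝ (Fin 3), ENNReal.ofReal ((1 + ‖y‖ ^ 2) ^ (-(5:ℝ) / 2)) := by
      have h4 := Measure.map_addHaar_smul (volume : Measure (EuclideanSpace ℝ (Fin 3)))
        (r := ε⁻¹) (inv_ne_zero hε.ne')
      have h5 := lintegral_map (μ := (volume : Measure (EuclideanSpace ℝ (Fin 3)))) hm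
        (measurable_const_smul ε⁻¹)
      rw [h4, lintegral_smul_measure] at h5
      rw [← h5, finrank_euclideanSpace, Fintype.card_fin, smul_eq_mul]
      congr 2
      rw [inv_pow, inv_inv, abs_of_pos (by positivity)]
    rw [h3, ← mul_assoc, ← ENNReal.ofReal_mul (by positivity), inv_mul_cancel₀ (by positivity),
      ENNReal.ofReal_one, one_mul]

end Pool.Agent.Helper734.IB
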