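import Mathlib
import Pool.Agent.Helper734.IB.Defs
import Pool.Agent.Helper734.IB.BasicA
import Pool.Agent.Helper734.IB.Ldec
import Pool.Agent.Helper734.IB.Pexact
import Pool.Agent.Helper734.IB.Rad
import Pool.Agent.Helper734.IB.Tail3
import Pool.Agent.Helper734.IB.WwA

set_option autoImplicit false

namespace Pool.Agent.Helper734.IB

open MeasureTheory Set Filter Topology Metric
open scoped ENNReal NNReal RealInnerProductSpace

variable {E : Type*} [NormedAddCommGroup E] [InnerProductSpace ℝ E] [FiniteDimensional ℝ E]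
  [MeasurableSpace E] [BorelSpace E]

theorem QQ4_QQ4_cont_aux (ε : ℝ) : Continuous (fun p : E × E => Dl ε p.1 p.2) := by
  unfold Dl
  fun_prop

theorem QQ4_QQ4_meas_aux (ε : ℝ) : Measurable (fun p : E × E => (Dl ε p.1 p.2) ^ (-(5:ℝ) / 2)) :=
  (QQ4_QQ4_cont_aux ε).measurable.pow_const _

theorem QQ4 (h4 : Module.finrank ℝ E = 4) : ∃ C : ℝ≥0∞, C < ∞ ∧ ∀ ε : ℝ, 0 < ε →
    ∫⁻ p : E × E, ENNReal.ofReal ((ε ^ 2 * (ε ^ 2 + ‖p.1‖ ^ 2 + ‖p.2‖ ^ 2) *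
      (Dl ε p.1 p.2) ^ (-(5:ℝ) / 2)) * (ww p.1 * ww p.2)) ≤ C := by
  obtain ⟨C3, hC3, hC3b⟩ := tail3
  set A : ℝ≥0∞ := ∫⁻ r : ℝ, ENNReal.ofReal (ww r) with hA
  have hAfin : A < ∞ := by
    have h := ww_int (E := ℝ) 0
    simp only [pow_zero, one_mul] at h
    exact h.lintegral_lt_top
  set B : ℝ≥0∞ := ∫⁻ z : E, ENNReal.ofReal (‖z‖ ^ (-(3:ℝ)) * ww z) with hB
  have hBfin : B < ∞ := rad_fin 3 (by norm_num) (by rw [h4]; norm_num)
  refine ⟨2 * (2 * (A * C3) * B), ?_, ?_⟩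
  · exact ENNReal.mul_lt_top (by norm_num) (ENNReal.mul_lt_top
      (ENNReal.mul_lt_top (by norm_num) (ENNReal.mul_lt_top hAfin hC3)) hBfin)
  intro ε hε
  have hwwc : Continuous (ww : E → ℝ) := ww_cont
  set H : E × E → ℝ≥0∞ := fun p => ENNReal.ofReal (2 * (ε ^ 2 * (ε ^ 2 + ‖p.1‖ ^ 2) *
      (Dl ε p.1 p.2) ^ (-(5:ℝ) / 2)) * (ww p.1 * ww p.2)) with hH
  have hHm : Measurable H := by
    rw [hH]
    have h1 := QQ4_QQ4_meas_aux (E := E) ε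
    have h2 : Measurable (fun p : E × E => ww p.1) := (hwwc.comp continuous_fst).measurable
    have h3 : Measurable (fun p : E × E => ww p.2) := (hwwc.comp continuous_snd).measurable
    fun_prop
  have hsymm : ∀ u v : E, Dl ε u v = Dl ε v u := by
    intro u v
    unfold Dl
    rw [real_inner_comm]
    ring
  have hle : ∀ p : E × E, ENNReal.ofReal ((ε ^ 2 * (ε ^ 2 + ‖p.1‖ ^ 2 + ‖p.2‖ ^ 2) *
      (Dl ε p.1 p.2) ^ (-(5:ℝ) / 2)) * (ww p.1 * ww p.2)) ≤ H p + H p.swap := by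
    rintro ⟨u, v⟩
    have hD := Real.rpow_nonneg (Dl_pos ε hε u v).le (-(5:ℝ) / 2)
    have hwu := (ww_pos u).1
    have hwv := (ww_pos v).1
    rcases le_total ‖v‖ ‖u‖ with h | h
    · refine le_trans ?_ le_self_add
      refine ENNReal.ofReal_le_ofReal ?_
      refine mul_le_mul_of_nonneg_right ?_ (by positivity)
      simp only
      have : ε ^ 2 * (ε ^ 2 + ‖u‖ ^ 2 + ‖v‖ ^ 2) ≤ 2 * (ε ^ 2 * (ε ^ 2 + ‖u‖ ^ 2)) := by
        have h2 : ‖v‖ ^ 2 ≤ ‖u‖ ^ 2 := by gcongr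
        nlinarith [sq_nonneg ε, mul_nonneg (sq_nonneg ε) (sq_nonneg ε)]
      calc _ ≤ (2 * (ε ^ 2 * (ε ^ 2 + ‖u‖ ^ 2))) * (Dl ε u v) ^ (-(5:ℝ) / 2) :=
            mul_le_mul_of_nonneg_right this hD
        _ = _ := by ring
    · refine le_trans ?_ le_add_self
      refine ENNReal.ofReal_le_ofReal ?_
      simp only [Prod.swap]
      rw [hsymm v u, mul_comm (ww v) (ww u)]
      refine mul_le_mul_of_nonneg_right ?_ (by positivity)
      have : ε ^ 2 * (ε ^ 2 + ‖u‖ ^ 2 + ‖v‖ ^ 2) ≤ 2 * (ε ^ 2 * (ε ^ 2 + ‖v‖ ^ 2)) := by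
        have h2 : ‖u‖ ^ 2 ≤ ‖v‖ ^ 2 := by gcongr
        nlinarith [sq_nonneg ε, mul_nonneg (sq_nonneg ε) (sq_nonneg ε)]
      calc _ ≤ (2 * (ε ^ 2 * (ε ^ 2 + ‖v‖ ^ 2))) * (Dl ε u v) ^ (-(5:ℝ) / 2) :=
            mul_le_mul_of_nonneg_right this hD
        _ = _ := by ring
  have hswap : ∫⁻ p : E × E, H p.swap = ∫⁻ p : E × E, H p := by
    have hmp : MeasurePreserving (Prod.swap : E × E → E × E) volume volume :=
      Measure.measurePreserving_swap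
    exact hmp.lintegral_comp hHm
  haveI : Nontrivial E := Module.nontrivial_of_finrank_pos (R := ℝ) (by omega)
  have hinner : ∀ u : E, u ≠ 0 → ∫⁻ v : E, H (u, v) ≤
      2 * (A * C3) * ENNReal.ofReal (‖u‖ ^ (-(3:ℝ)) * ww u) := by
    intro u hu
    have hun : 0 < ‖u‖ := norm_pos_iff.mpr hu
    set w : E := ‖u‖⁻¹ • u with hw
    have hw1 : ‖w‖ = 1 := by
      rw [hw, norm_smul, norm_inv, norm_norm, inv_mul_cancel₀ hun.ne']
    have hw0 : w ≠ 0 := by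
      intro h; rw [h, norm_zero] at hw1; exact zero_ne_one hw1
    have huw : u = ‖u‖ • w := by
      rw [hw, smul_smul, mul_inv_cancel₀ hun.ne', one_smul]
    have hf : Module.finrank ℝ ((ℝ ∙ w)ᗮ : Submodule ℝ E) = 3 := by
      have := finrank_perp w hw0
      omega
    rw [ldec w hw1 (fun v => H (u, v)) (hHm.comp measurable_prodMk_left)]
    set c : ℝ := ‖u‖ ^ (-(3:ℝ)) * ww u with hc
    have hc0 : 0 ≤ c := mul_nonneg (Real.rpow_nonneg (norm_nonneg _) _) (ww_pos u).1.le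
    have hpt : ∀ (z : (ℝ ∙ w)ᗮ) (r : ℝ), H (u, (z : E) + r • w) ≤
        ENNReal.ofReal (2 * c) *
          (ENNReal.ofReal (ε ^ 2 * (ε ^ 2 + ‖z‖ ^ 2) ^ (-(5:ℝ) / 2)) * ENNReal.ofReal (ww r)) := by
      intro z r
      have hwz := ww_pos (z : E)
      have hwr := ww_pos r
      have hwu := ww_pos u
      have hz0 : 0 ≤ ε ^ 2 * (ε ^ 2 + ‖z‖ ^ 2) ^ (-(5:ℝ) / 2) := by positivity
      rw [← ENNReal.ofReal_mul hz0, ← ENNReal.ofReal_mul (by positivity)]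
      refine ENNReal.ofReal_le_ofReal ?_
      simp only
      rw [ww_dec w hw1 z r]
      have hD := Dl_dec ε hε u ((z : E) + r • w) w hw1 huw z r rfl
      have hpos1 : 0 < ε ^ 2 + ‖u‖ ^ 2 := by positivity
      have hpos2 : 0 < ε ^ 2 + ‖(z : E)‖ ^ 2 := by positivity
      have h1 : (Dl ε u ((z : E) + r • w)) ^ (-(5:ℝ) / 2) ≤
          (ε ^ 2 + ‖u‖ ^ 2) ^ (-(5:ℝ) / 2) * (ε ^ 2 + ‖(z : E)‖ ^ 2) ^ (-(5:ℝ) / 2) := by
        rw [← Real.mul_rpow hpos1.le hpos2.le]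
        exact Real.rpow_le_rpow_of_nonpos (by positivity) hD (by norm_num)
      have h2 : (ε ^ 2 + ‖u‖ ^ 2) * (ε ^ 2 + ‖u‖ ^ 2) ^ (-(5:ℝ) / 2) ≤ ‖u‖ ^ (-(3:ℝ)) := by
        have e1 : (ε ^ 2 + ‖u‖ ^ 2) * (ε ^ 2 + ‖u‖ ^ 2) ^ (-(5:ℝ) / 2) =
            (ε ^ 2 + ‖u‖ ^ 2) ^ (-(3:ℝ) / 2) := by
          nth_rewrite 1 [← Real.rpow_one (ε ^ 2 + ‖u‖ ^ 2)]
          rw [← Real.rpow_add hpos1]
          norm_num
        have e2 : ‖u‖ ^ (-(3:ℝ)) = (‖u‖ ^ 2) ^ (-(3:ℝ) / 2) := by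
          rw [← Real.rpow_natCast ‖u‖ 2, ← Real.rpow_mul hun.le]
          norm_num
        rw [e1, e2]
        exact Real.rpow_le_rpow_of_nonpos (by positivity) (by nlinarith [sq_nonneg ε]) (by norm_num)
      have hnz : ‖z‖ = ‖(z : E)‖ := rfl
      rw [hnz]
      set P := (ε ^ 2 + ‖u‖ ^ 2) with hP
      set Q := (ε ^ 2 + ‖(z : E)‖ ^ 2) ^ (-(5:ℝ) / 2) with hQ
      have hQ0 : 0 ≤ Q := by positivity
      calc 2 * (ε ^ 2 * P * (Dl ε u ((z : E) + r • w)) ^ (-(5:ℝ) / 2)) *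
            (ww u * (ww (z : E) * ww r))
          ≤ 2 * (ε ^ 2 * P * (P ^ (-(5:ℝ) / 2) * Q)) * (ww u * (1 * ww r)) := by
            have hwr0 := hwr.1.le
            have hwz0 := hwz.1.le
            have hwu0 := hwu.1.le
            have hD0 := Real.rpow_nonneg (Dl_pos ε hε u ((z : E) + r • w)).le (-(5:ℝ) / 2)
            gcongr
            exact hwz.2
        _ = 2 * ((P * P ^ (-(5:ℝ) / 2)) * ww u) * (ε ^ 2 * Q * ww r) := by ring
        _ ≤ 2 * (‖u‖ ^ (-(3:ℝ)) * ww u) * (ε ^ 2 * Q * ww r) := by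
            have hwr0 := hwr.1.le
            have hwu0 := hwu.1.le
            gcongr
        _ = 2 * c * (ε ^ 2 * Q * ww r) := by rw [hc]
    calc ∫⁻ z : (ℝ ∙ w)ᗮ, ∫⁻ r : ℝ, H (u, (z : E) + r • w)
        ≤ ∫⁻ z : (ℝ ∙ w)ᗮ, ∫⁻ r : ℝ, ENNReal.ofReal (2 * c) *
          (ENNReal.ofReal (ε ^ 2 * (ε ^ 2 + ‖z‖ ^ 2) ^ (-(5:ℝ) / 2)) * ENNReal.ofReal (ww r)) :=
          lintegral_mono fun z => lintegral_mono fun r => hpt z r
      _ = ENNReal.ofReal (2 * c) * ((∫⁻ z : (ℝ ∙ w)ᗮ,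
            ENNReal.ofReal (ε ^ 2 * (ε ^ 2 + ‖z‖ ^ 2) ^ (-(5:ℝ) / 2))) * A) := by
          have hm1 : Measurable (fun r : ℝ => ENNReal.ofReal (ww r)) :=
            (ww_cont (F := ℝ)).measurable.ennreal_ofReal
          have hm2 : Measurable (fun z : (ℝ ∙ w)ᗮ =>
              ENNReal.ofReal (ε ^ 2 * (ε ^ 2 + ‖z‖ ^ 2) ^ (-(5:ℝ) / 2))) := by fun_prop
          have e1 : ∀ z : (ℝ ∙ w)ᗮ, ∫⁻ r : ℝ, ENNReal.ofReal (2 * c) *
              (ENNReal.ofReal (ε ^ 2 * (ε ^ 2 + ‖z‖ ^ 2) ^ (-(5:ℝ) / 2)) * ENNReal.ofReal (ww r))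
              = ENNReal.ofReal (2 * c) *
                (ENNReal.ofReal (ε ^ 2 * (ε ^ 2 + ‖z‖ ^ 2) ^ (-(5:ℝ) / 2)) * A) := by
            intro z
            rw [lintegral_const_mul _ (hm1.const_mul _), lintegral_const_mul _ hm1]
          simp_rw [e1]
          rw [lintegral_const_mul _ (hm2.mul_const _), lintegral_mul_const _ hm2]
      _ ≤ ENNReal.ofReal (2 * c) * (C3 * A) := by
          gcongr
          have := rad_eq (F := (ℝ ∙ w)ᗮ) 3 hf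
            (fun t => ENNReal.ofReal (ε ^ 2 * (ε ^ 2 + t ^ 2) ^ (-(5:ℝ) / 2))) (by fun_prop)
          rw [this]
          exact hC3b ε hε
      _ = 2 * (A * C3) * ENNReal.ofReal c := by
          rw [ENNReal.ofReal_mul (by norm_num), ENNReal.ofReal_ofNat]
          ring
  calc ∫⁻ p : E × E, ENNReal.ofReal ((ε ^ 2 * (ε ^ 2 + ‖p.1‖ ^ 2 + ‖p.2‖ ^ 2) *
      (Dl ε p.1 p.2) ^ (-(5:ℝ) / 2)) * (ww p.1 * ww p.2))
      ≤ ∫⁻ p : E × E, (H p + H p.swap) := lintegral_mono hle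
    _ = (∫⁻ p : E × E, H p) + (∫⁻ p : E × E, H p.swap) := lintegral_add_left hHm _
    _ = 2 * ∫⁻ p : E × E, H p := by rw [hswap, two_mul]
    _ = 2 * ∫⁻ u : E, ∫⁻ v : E, H (u, v) := by
        congr 1
        exact lintegral_prod _ hHm.aemeasurable
    _ ≤ 2 * ∫⁻ u : E, 2 * (A * C3) * ENNReal.ofReal (‖u‖ ^ (-(3:ℝ)) * ww u) := by
        gcongr 2 * ?_
        refine lintegral_mono_ae ?_
        have : ∀ᵐ u : E, u ≠ 0 := by
          rw [ae_iff]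
          simp
        filter_upwards [this] with u hu using hinner u hu
    _ = 2 * (2 * (A * C3) * B) := by
        rw [lintegral_const_mul' _ _ (by
          exact (ENNReal.mul_lt_top (by norm_num) (ENNReal.mul_lt_top hAfin hC3)).ne)]

end Pool.Agent.Helper734.IB
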