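import Mathlib
import Pool.Agent.Helper734.IB.Defs
import Pool.Agent.Helper734.IB.GgA
import Pool.Agent.Helper734.IB.KkA
import Pool.Agent.Helper734.IB.WWcont
import Pool.Agent.Helper734.IB.WwA

set_option autoImplicit false

namespace Pool.Agent.Helper734.IB

open MeasureTheory Set Filter Topology Metric
open scoped ENNReal NNReal RealInnerProductSpace

variable {E : Type*} [NormedAddCommGroup E] [InnerProductSpace ℝ E] [FiniteDimensional ℝ E]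
  [MeasurableSpace E] [BorelSpace E]

theorem VVsqeq4_VV_sq_eq4_int (K : Set E) (hK : IsOpen K) (hbd : Bornology.IsBounded K) (e : E)
    (i : ℕ) (ε : ℝ) (hε : 0 < ε) :
    Integrable (Function.uncurry (fun (x : E) (p : E × E) =>
      ((⟪p.1, e⟫ * kd ε ⟪p.1, x⟫ * gg K ε p.1 ^ i * ww p.1) *
       (⟪p.2, e⟫ * kd ε ⟪p.2, x⟫ * gg K ε p.2 ^ i * ww p.2)) * (ww x - (ww x) ^ 2)))
      ((volume : Measure E).prod (volume : Measure (E × E))) := by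
  have : ProperSpace E := FiniteDimensional.proper ℝ E
  have hkd := kd_cont ε
  have hgg := gg_cont K hK hbd ε hε
  have hww : Continuous (ww : E → ℝ) := ww_cont
  set M : ℝ := ε⁻¹ * (volume K).toReal with hM
  have hM0 : 0 ≤ M := by positivity
  set A : ℝ := ‖e‖ * (ε ^ 2)⁻¹ * M ^ i with hA
  have hA0 : 0 ≤ A := by positivity
  have h0 : Integrable (fun u : E => ww u) := by simpa using ww_int (E := E) 0
  have h1 : Integrable (fun u : E => ‖u‖ * ww u) := by simpa using ww_int (E := E) 1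
  have hdom : Integrable (fun z : E × (E × E) =>
      (ww z.1 * ((‖z.2.1‖ * ww z.2.1) * (‖z.2.2‖ * ww z.2.2))) * (A * A))
      ((volume : Measure E).prod (volume : Measure (E × E))) := by
    apply Integrable.mul_const
    exact h0.mul_prod (h1.mul_prod h1)
  refine hdom.mono' ?_ (Eventually.of_forall ?_)
  · apply Continuous.aestronglyMeasurable
    unfold Function.uncurry
    fun_prop
  · rintro ⟨x, p, q⟩
    change ‖((⟪p, e⟫ * kd ε ⟪p, x⟫ * gg K ε p ^ i * ww p) *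
       (⟪q, e⟫ * kd ε ⟪q, x⟫ * gg K ε q ^ i * ww q)) * (ww x - (ww x) ^ 2)‖ ≤
       (ww x * ((‖p‖ * ww p) * (‖q‖ * ww q))) * (A * A)
    have key : ∀ u : E, ‖⟪u, e⟫ * kd ε ⟪u, x⟫ * gg K ε u ^ i * ww u‖ ≤ (‖u‖ * ww u) * A := by
      intro u
      have hw0 : 0 < ww u := (ww_pos u).1
      have hg0 : 0 ≤ gg K ε u := gg_nonneg K ε u hε
      have hg1 : gg K ε u ≤ M := gg_le K hK hbd ε hε u
      rw [norm_mul, norm_mul, norm_mul, Real.norm_eq_abs (ww u), abs_of_pos hw0,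
        Real.norm_eq_abs (gg K ε u ^ i), abs_of_nonneg (pow_nonneg hg0 i)]
      have e1 : ‖⟪u, e⟫‖ ≤ ‖u‖ * ‖e‖ := norm_inner_le_norm u e
      have e2 : ‖kd ε ⟪u, x⟫‖ ≤ (ε ^ 2)⁻¹ := kd_le ε _ hε
      have e3 : gg K ε u ^ i ≤ M ^ i := pow_le_pow_left₀ hg0 hg1 i
      calc ‖⟪u, e⟫‖ * ‖kd ε ⟪u, x⟫‖ * gg K ε u ^ i * ww u
          ≤ (‖u‖ * ‖e‖) * (ε ^ 2)⁻¹ * M ^ i * ww u := by
            gcongr
        _ = (‖u‖ * ww u) * A := by rw [hA]; ring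
    have hx0 : 0 < ww x := (ww_pos x).1
    have hx1 : ww x ≤ 1 := (ww_pos x).2
    have hd : ‖ww x - (ww x) ^ 2‖ ≤ ww x := by
      rw [Real.norm_eq_abs, abs_le]
      constructor <;> nlinarith
    rw [norm_mul, norm_mul]
    have hp0 : 0 ≤ (‖p‖ * ww p) * A :=
      mul_nonneg (mul_nonneg (norm_nonneg _) (ww_pos p).1.le) hA0
    have hq0 : 0 ≤ (‖q‖ * ww q) * A :=
      mul_nonneg (mul_nonneg (norm_nonneg _) (ww_pos q).1.le) hA0
    calc ‖⟪p, e⟫ * kd ε ⟪p, x⟫ * gg K ε p ^ i * ww p‖ *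
          ‖⟪q, e⟫ * kd ε ⟪q, x⟫ * gg K ε q ^ i * ww q‖ * ‖ww x - (ww x) ^ 2‖
        ≤ (((‖p‖ * ww p) * A) * ((‖q‖ * ww q) * A)) * ww x := by
          apply mul_le_mul _ hd (norm_nonneg _) (mul_nonneg hp0 hq0)
          exact mul_le_mul (key p) (key q) (norm_nonneg _) hp0
      _ = _ := by ring

theorem VV_sq_eq4 (K : Set E) (hK : IsOpen K) (hbd : Bornology.IsBounded K) (e : E)
    (i : ℕ) (ε : ℝ) (hε : 0 < ε) :
    ∫ x : E, (VV K i e ε x) ^ 2 * (ww x - (ww x) ^ 2) =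
      ∫ p : E × E, (⟪p.1, e⟫ * ⟪p.2, e⟫ * gg K ε p.1 ^ i * gg K ε p.2 ^ i * (ww p.1 * ww p.2)) *
        ∫ x : E, kd ε ⟪p.1, x⟫ * kd ε ⟪p.2, x⟫ * (ww x - (ww x) ^ 2) := by
  have e1 : ∀ x : E, (VV K i e ε x) ^ 2 * (ww x - (ww x) ^ 2) = ∫ p : E × E,
      ((⟪p.1, e⟫ * kd ε ⟪p.1, x⟫ * gg K ε p.1 ^ i * ww p.1) *
       (⟪p.2, e⟫ * kd ε ⟪p.2, x⟫ * gg K ε p.2 ^ i * ww p.2)) * (ww x - (ww x) ^ 2) := by
    intro x
    rw [integral_mul_const]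
    congr 1
    unfold VV
    rw [sq, Measure.volume_eq_prod, ← integral_prod_mul]
  have e2 : ∀ p : E × E, (⟪p.1, e⟫ * ⟪p.2, e⟫ * gg K ε p.1 ^ i * gg K ε p.2 ^ i *
      (ww p.1 * ww p.2)) * (∫ x : E, kd ε ⟪p.1, x⟫ * kd ε ⟪p.2, x⟫ * (ww x - (ww x) ^ 2)) =
      ∫ x : E, ((⟪p.1, e⟫ * kd ε ⟪p.1, x⟫ * gg K ε p.1 ^ i * ww p.1) *
       (⟪p.2, e⟫ * kd ε ⟪p.2, x⟫ * gg K ε p.2 ^ i * ww p.2)) * (ww x - (ww x) ^ 2) := by
    intro p
    rw [← integral_const_mul]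
    congr 1
    funext x
    ring
  simp_rw [e1, e2]
  exact integral_integral_swap (VVsqeq4_VV_sq_eq4_int K hK hbd e i ε hε)

end Pool.Agent.Helper734.IB
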