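import Mathlib
import Pool.Agent.Helper734.IB.Defs
import Pool.Agent.Helper734.IB.GgA
import Pool.Agent.Helper734.IB.KkA
import Pool.Agent.Helper734.IB.Pdiff
import Pool.Agent.Helper734.IB.Pexact
import Pool.Agent.Helper734.IB.QQ4
import Pool.Agent.Helper734.IB.Slab
import Pool.Agent.Helper734.IB.VVsqeq4
import Pool.Agent.Helper734.IB.WWcont
import Pool.Agent.Helper734.IB.WwA

set_option autoImplicit false

namespace Pool.Agent.Helper734.IB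

open MeasureTheory Set Filter Topology Metric
open scoped ENNReal NNReal RealInnerProductSpace

variable {E : Type*} [NormedAddCommGroup E] [InnerProductSpace ℝ E] [FiniteDimensional ℝ E]
  [MeasurableSpace E] [BorelSpace E]

theorem VVL2w_AB9607 (h4 : Module.finrank ℝ E = 4) (K : Set E) (e : E) (he : ‖e‖ = 1) (Cg : ℝ)
    (hCg : 0 < Cg) (ε : ℝ) (hε : 0 < ε) (hg : ∀ u : E, u ≠ 0 → gg K ε u ≤ Cg / ‖u‖) (p : E × E) :
    |(⟪p.1, e⟫ * ⟪p.2, e⟫ * gg K ε p.1 ^ 2 * gg K ε p.2 ^ 2 * (ww p.1 * ww p.2)) *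
        ∫ x : E, kd ε ⟪p.1, x⟫ * kd ε ⟪p.2, x⟫ * (ww x - (ww x) ^ 2)| ≤
    (5 * (2 * Real.pi) ^ 2 * Cg ^ 4) * ((ε ^ 2 * (ε ^ 2 + ‖p.1‖ ^ 2 + ‖p.2‖ ^ 2) *
      (Dl ε p.1 p.2) ^ (-(5:ℝ) / 2)) * (ww p.1 * ww p.2)) := by
  obtain ⟨u, v⟩ := p
  simp only
  have hQ : 0 ≤ (ε ^ 2 * (ε ^ 2 + ‖u‖ ^ 2 + ‖v‖ ^ 2) * (Dl ε u v) ^ (-(5:ℝ) / 2)) := by
    have := Dl_pos ε hε u v
    positivity
  have hwu := (ww_pos u).1
  have hwv := (ww_pos v).1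
  have hrhs : 0 ≤ (5 * (2 * Real.pi) ^ 2 * Cg ^ 4) * ((ε ^ 2 * (ε ^ 2 + ‖u‖ ^ 2 + ‖v‖ ^ 2) *
      (Dl ε u v) ^ (-(5:ℝ) / 2)) * (ww u * ww v)) := by positivity
  by_cases hu : u = 0
  · subst hu
    rw [inner_zero_left, zero_mul, zero_mul, zero_mul, zero_mul, zero_mul, abs_zero]
    exact hrhs
  by_cases hv : v = 0
  · subst hv
    rw [inner_zero_left, mul_zero, zero_mul, zero_mul, zero_mul, zero_mul, abs_zero]
    exact hrhs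
  have hun : 0 < ‖u‖ := norm_pos_iff.mpr hu
  have hvn : 0 < ‖v‖ := norm_pos_iff.mpr hv
  have hgu := hg u hu
  have hgv := hg v hv
  have hgu0 := gg_nonneg K ε u hε
  have hgv0 := gg_nonneg K ε v hε
  have hP := Pdiff h4 ε hε u v
  have h1 : |(⟪u, e⟫ : ℝ)| ≤ ‖u‖ := by
    have := abs_real_inner_le_norm u e
    rwa [he, mul_one] at this
  have h2 : |(⟪v, e⟫ : ℝ)| ≤ ‖v‖ := by
    have := abs_real_inner_le_norm v e
    rwa [he, mul_one] at this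
  have h3 : gg K ε u ^ 2 ≤ (Cg / ‖u‖) ^ 2 := pow_le_pow_left₀ hgu0 hgu 2
  have h5 : gg K ε v ^ 2 ≤ (Cg / ‖v‖) ^ 2 := pow_le_pow_left₀ hgv0 hgv 2
  rw [abs_mul, abs_mul, abs_mul, abs_mul, abs_mul, abs_of_nonneg (sq_nonneg (gg K ε u)),
    abs_of_nonneg (sq_nonneg (gg K ε v)), abs_of_pos (mul_pos hwu hwv)]
  calc |(⟪u, e⟫ : ℝ)| * |(⟪v, e⟫ : ℝ)| * gg K ε u ^ 2 * gg K ε v ^ 2 * (ww u * ww v) *
        |∫ x : E, kd ε ⟪u, x⟫ * kd ε ⟪v, x⟫ * (ww x - (ww x) ^ 2)|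
      ≤ ‖u‖ * ‖v‖ * (Cg / ‖u‖) ^ 2 * (Cg / ‖v‖) ^ 2 * (ww u * ww v) *
        (5 * (2 * Real.pi) ^ 2 * (‖u‖ * ‖v‖) *
        (ε ^ 2 * (ε ^ 2 + ‖u‖ ^ 2 + ‖v‖ ^ 2) * (Dl ε u v) ^ (-(5:ℝ) / 2))) := by
        gcongr
    _ = _ := by
        field_simp

theorem VVL2w_low9607 (R : ℝ) (x : E) (hx : ‖x‖ < R) :
    ‖x‖ ^ 2 ≤ 2 * Real.exp (R ^ 2) * (ww x - (ww x) ^ 2) := by
  unfold ww
  have h0 : 0 ≤ ‖x‖ := norm_nonneg x
  have h1 : ‖x‖ ^ 2 ≤ R ^ 2 := by nlinarith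
  have h2 : Real.exp (-(‖x‖ ^ 2) / 2) - Real.exp (-(‖x‖ ^ 2) / 2) ^ 2 =
      Real.exp (-(‖x‖ ^ 2)) * (Real.exp (‖x‖ ^ 2 / 2) - 1) := by
    rw [mul_sub, ← Real.exp_add, mul_one, sq (Real.exp _), ← Real.exp_add]
    congr 2 <;> ring
  have h3 : ‖x‖ ^ 2 / 2 ≤ Real.exp (‖x‖ ^ 2 / 2) - 1 := by
    have := Real.add_one_le_exp (‖x‖ ^ 2 / 2)
    linarith
  have h4 : 1 ≤ Real.exp (R ^ 2) * Real.exp (-(‖x‖ ^ 2)) := by
    rw [← Real.exp_add]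
    exact Real.one_le_exp (by linarith)
  have h5 : 0 ≤ ‖x‖ ^ 2 / 2 := by positivity
  rw [h2]
  calc ‖x‖ ^ 2 = 2 * (1 * (‖x‖ ^ 2 / 2)) := by ring
    _ ≤ 2 * ((Real.exp (R ^ 2) * Real.exp (-(‖x‖ ^ 2))) * (Real.exp (‖x‖ ^ 2 / 2) - 1)) := by
        refine mul_le_mul_of_nonneg_left ?_ (by norm_num)
        exact mul_le_mul h4 h3 h5 (by positivity)
    _ = _ := by ring



theorem VV_L2w (h4 : Module.finrank ℝ E = 4) (K : Set E) (R : ℝ) (hR : 0 < R) (hK : IsOpen K)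
    (hb : K ⊆ ball 0 R) (e : E) (he : ‖e‖ = 1) :
    ∃ C : ℝ, 0 < C ∧ ∀ ε : ℝ, 0 < ε →
      ∫⁻ x in K, ENNReal.ofReal ((VV K 2 e ε x) ^ 2 * ‖x‖ ^ 2) ≤ ENNReal.ofReal C := by
  obtain ⟨Cg, hCg, hgb⟩ := gg_bound K R hR hK hb
  obtain ⟨C4, hC4, hQ⟩ := QQ4 (E := E) h4
  set Kc : ℝ := 5 * (2 * Real.pi) ^ 2 * Cg ^ 4 with hKc
  have hKc0 : 0 < Kc := by positivity
  have hbd : Bornology.IsBounded K := Metric.isBounded_ball.subset hb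
  refine ⟨2 * Real.exp (R ^ 2) * (Kc * C4.toReal) + 1, by positivity, fun ε hε => ?_⟩
  obtain ⟨hVc, CV, hCV⟩ := VV_cont K hK hbd e 2 ε hε
  have hww2 : ∀ x : E, 0 ≤ ww x - (ww x) ^ 2 := by
    intro x
    have h := ww_pos x
    nlinarith [h.1, h.2]
  have hint : Integrable (fun x : E => (VV K 2 e ε x) ^ 2 * (ww x - (ww x) ^ 2)) := by
    have h0 : Integrable (fun x : E => CV ^ 2 * ww x) := by
      have := ww_int (E := E) 0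
      simp only [pow_zero, one_mul] at this
      exact this.const_mul _
    refine h0.mono' ?_ (Eventually.of_forall fun x => ?_)
    · exact ((hVc.pow 2).mul (ww_cont.sub (ww_cont.pow 2))).aestronglyMeasurable
    · rw [Real.norm_eq_abs, abs_of_nonneg (mul_nonneg (sq_nonneg _) (hww2 x))]
      have h1 : (VV K 2 e ε x) ^ 2 ≤ CV ^ 2 := by
        rw [← sq_abs]
        exact pow_le_pow_left₀ (abs_nonneg _) (hCV x) 2
      have h2 : ww x - (ww x) ^ 2 ≤ ww x := by nlinarith [sq_nonneg (ww x)]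
      exact mul_le_mul h1 h2 (hww2 x) (sq_nonneg _)
  have hub : ENNReal.ofReal (∫ x : E, (VV K 2 e ε x) ^ 2 * (ww x - (ww x) ^ 2)) ≤
      ENNReal.ofReal Kc * C4 := by
    rw [VV_sq_eq4 K hK hbd e 2 ε hε]
    refine (ENNReal.ofReal_le_ofReal (le_abs_self _)).trans ?_
    rw [← Real.norm_eq_abs, ofReal_norm]
    refine (enorm_integral_le_lintegral_enorm _).trans ?_
    calc ∫⁻ p : E × E, ‖(⟪p.1, e⟫ * ⟪p.2, e⟫ * gg K ε p.1 ^ 2 * gg K ε p.2 ^ 2 *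
          (ww p.1 * ww p.2)) * ∫ x : E, kd ε ⟪p.1, x⟫ * kd ε ⟪p.2, x⟫ * (ww x - (ww x) ^ 2)‖ₑ
        ≤ ∫⁻ p : E × E, ENNReal.ofReal Kc * ENNReal.ofReal ((ε ^ 2 *
          (ε ^ 2 + ‖p.1‖ ^ 2 + ‖p.2‖ ^ 2) *
            (Dl ε p.1 p.2) ^ (-(5:ℝ) / 2)) * (ww p.1 * ww p.2)) := by
          refine lintegral_mono fun p => ?_
          rw [← ENNReal.ofReal_mul hKc0.le, ← ofReal_norm, Real.norm_eq_abs]
          exact ENNReal.ofReal_le_ofReal (VVL2w_AB9607 h4 K e he Cg hCg ε hε (hgb ε hε) p)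
      _ = ENNReal.ofReal Kc * ∫⁻ p : E × E, ENNReal.ofReal ((ε ^ 2 *
          (ε ^ 2 + ‖p.1‖ ^ 2 + ‖p.2‖ ^ 2) *
            (Dl ε p.1 p.2) ^ (-(5:ℝ) / 2)) * (ww p.1 * ww p.2)) :=
          lintegral_const_mul' _ _ ENNReal.ofReal_ne_top
      _ ≤ ENNReal.ofReal Kc * C4 := by gcongr; exact hQ ε hε
  have he2 : 0 ≤ 2 * Real.exp (R ^ 2) := by positivity
  calc ∫⁻ x in K, ENNReal.ofReal ((VV K 2 e ε x) ^ 2 * ‖x‖ ^ 2)
      ≤ ∫⁻ x in K, ENNReal.ofReal (2 * Real.exp (R ^ 2)) *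
          ENNReal.ofReal ((VV K 2 e ε x) ^ 2 * (ww x - (ww x) ^ 2)) := by
        refine setLIntegral_mono' hK.measurableSet fun x hx => ?_
        rw [← ENNReal.ofReal_mul he2]
        refine ENNReal.ofReal_le_ofReal ?_
        have h1 := VVL2w_low9607 R x (by simpa using hb hx)
        calc (VV K 2 e ε x) ^ 2 * ‖x‖ ^ 2
            ≤ (VV K 2 e ε x) ^ 2 * (2 * Real.exp (R ^ 2) * (ww x - (ww x) ^ 2)) :=
              mul_le_mul_of_nonneg_left h1 (sq_nonneg _)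
          _ = _ := by ring
    _ ≤ ∫⁻ x : E, ENNReal.ofReal (2 * Real.exp (R ^ 2)) *
          ENNReal.ofReal ((VV K 2 e ε x) ^ 2 * (ww x - (ww x) ^ 2)) := setLIntegral_le_lintegral _ _
    _ = ENNReal.ofReal (2 * Real.exp (R ^ 2)) *
          ∫⁻ x : E, ENNReal.ofReal ((VV K 2 e ε x) ^ 2 * (ww x - (ww x) ^ 2)) :=
        lintegral_const_mul' _ _ ENNReal.ofReal_ne_top
    _ = ENNReal.ofReal (2 * Real.exp (R ^ 2)) *
          ENNReal.ofReal (∫ x : E, (VV K 2 e ε x) ^ 2 * (ww x - (ww x) ^ 2)) := by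
        rw [ofReal_integral_eq_lintegral_ofReal hint
          (Eventually.of_forall fun x => mul_nonneg (sq_nonneg _) (hww2 x))]
    _ ≤ ENNReal.ofReal (2 * Real.exp (R ^ 2)) * (ENNReal.ofReal Kc * C4) := by gcongr
    _ = ENNReal.ofReal (2 * Real.exp (R ^ 2) * (Kc * C4.toReal)) := by
        rw [ENNReal.ofReal_mul he2, ENNReal.ofReal_mul hKc0.le, ENNReal.ofReal_toReal hC4.ne]
    _ ≤ _ := ENNReal.ofReal_le_ofReal (by linarith)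

end Pool.Agent.Helper734.IB
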