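import Mathlib
import Pool.Agent.Helper734.IB.Defs
import Pool.Agent.Helper734.IB.BasicA
import Pool.Agent.Helper734.IB.KDlimit
import Pool.Agent.Helper734.IB.KDmeas
import Pool.Agent.Helper734.IB.KDsmall
import Pool.Agent.Helper734.IB.KDsmall4
import Pool.Agent.Helper734.IB.Tail4
import Pool.Agent.Helper734.IB.Tpbound
import Pool.Agent.Helper734.IB.VVL2w

set_option autoImplicit false

namespace Pool.Agent.Helper734.IB

open MeasureTheory Set Filter Topology Metric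
open scoped ENNReal NNReal RealInnerProductSpace

variable {E : Type*} [NormedAddCommGroup E] [InnerProductSpace ℝ E] [FiniteDimensional ℝ E]
  [MeasurableSpace E] [BorelSpace E]

theorem aazero4_aa_zero4_norm (e : E) (he : ‖e‖ = 1) (x : E) (t : ℝ) :
    ‖x + t • e‖ ^ 2 = ‖x - ⟪x, e⟫ • e‖ ^ 2 + (⟪x, e⟫ + t) ^ 2 := by
  obtain ⟨z, hz1, hz2⟩ := dec_exists e he x
  have h1 : x + t • e = (z : E) + (⟪x, e⟫ + t) • e := by
    conv_lhs => rw [hz2]
    rw [add_assoc, ← add_smul]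
  rw [h1, norm_dec e he z, hz1]

/-- sign of the integrand -/
theorem aazero4_aa_zero4_sign (K : Set E) (R : ℝ) (hK : IsOpen K)
    (hb : K ⊆ ball 0 R) (e : E) (he : ‖e‖ = 1) (ψ : ℝ → ℝ) (hψ : StrictMonoOn ψ (Ioi 0))
    (hW : ∀ x ∈ frontier K, x ≠ 0 → W0 K 2 x = ψ ‖x‖) (δ : ℝ) (hδ : 0 < δ) (x : E)
    (hx : x ∈ KD K e δ) :
    0 ≤ aa K e x * ((W0 K 2 (x + tp K e x • e) -
        W0 K 2 (x - tp K (-e) x • e)) / (tp K e x + tp K (-e) x)) ∧
    (aa K e x * ((W0 K 2 (x + tp K e x • e) -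
        W0 K 2 (x - tp K (-e) x • e)) / (tp K e x + tp K (-e) x)) = 0 → aa K e x = 0) := by
  obtain ⟨hxK, hx1, hx2⟩ := hx
  have he' : ‖-e‖ = 1 := by rw [norm_neg, he]
  obtain ⟨h1, -, -, h2, -, -⟩ := tp_bound K R hb hK e he x hxK
  obtain ⟨h3, -, -, h4, -, -⟩ := tp_bound K R hb hK (-e) he' x hxK
  set t1 := tp K e x with ht1
  set t2 := tp K (-e) x with ht2
  have h4' : x - t2 • e ∈ frontier K := by
    rw [smul_neg, ← sub_eq_add_neg] at h4
    exact h4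
  have hy : 0 < ‖x - ⟪x, e⟫ • e‖ := hδ.trans hx2
  have n1 := aazero4_aa_zero4_norm e he x t1
  have n2 := aazero4_aa_zero4_norm e he x (-t2)
  rw [neg_smul, ← sub_eq_add_neg, ← sub_eq_add_neg] at n2
  have hp0 : 0 < ‖x + t1 • e‖ := by
    have : 0 < ‖x + t1 • e‖ ^ 2 := by rw [n1]; positivity
    rcases (norm_nonneg (x + t1 • e)).lt_or_eq with h | h
    · exact h
    · rw [← h] at this; norm_num at this
  have hq0 : 0 < ‖x - t2 • e‖ := by
    have : 0 < ‖x - t2 • e‖ ^ 2 := by rw [n2]; positivity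
    rcases (norm_nonneg (x - t2 • e)).lt_or_eq with h | h
    · exact h
    · rw [← h] at this; norm_num at this
  rw [hW _ h2 (norm_pos_iff.1 hp0), hW _ h4' (norm_pos_iff.1 hq0)]
  have haa : aa K e x = ⟪x, e⟫ + (t1 - t2) / 2 := rfl
  have hden : 0 < t1 + t2 := by linarith
  rcases lt_trichotomy (aa K e x) 0 with hneg | hz | hpos
  · have hlt : ‖x + t1 • e‖ < ‖x - t2 • e‖ := by
      apply lt_of_pow_lt_pow_left₀ 2 hq0.le
      rw [n1, n2]
      rw [haa] at hneg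
      nlinarith
    have hψ' := hψ hp0 hq0 hlt
    have : 0 < aa K e x * ((ψ ‖x + t1 • e‖ - ψ ‖x - t2 • e‖) / (t1 + t2)) :=
      mul_pos_of_neg_of_neg hneg (div_neg_of_neg_of_pos (by linarith) hden)
    exact ⟨this.le, fun h => absurd h this.ne'⟩
  · rw [hz]; simp
  · have hlt : ‖x - t2 • e‖ < ‖x + t1 • e‖ := by
      apply lt_of_pow_lt_pow_left₀ 2 hp0.le
      rw [n1, n2]
      rw [haa] at hpos
      nlinarith
    have hψ' := hψ hq0 hp0 hlt
    have : 0 < aa K e x * ((ψ ‖x + t1 • e‖ - ψ ‖x - t2 • e‖) / (t1 + t2)) :=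
      mul_pos hpos (div_pos (by linarith) hden)
    exact ⟨this.le, fun h => absurd h this.ne'⟩

theorem aa_zero4 (h4 : Module.finrank ℝ E = 4) (K : Set E) (R : ℝ) (hR : 0 < R) (hK : IsOpen K)
    (hb : K ⊆ ball 0 R) (e : E) (he : ‖e‖ = 1)
    (hfr : ∀ u : E, u ≠ 0 → volume {z : (ℝ ∙ u)ᗮ | (z : E) ∈ frontier K} = 0)
    (ψ : ℝ → ℝ) (hψ : StrictMonoOn ψ (Ioi 0))
    (hW : ∀ x ∈ frontier K, x ≠ 0 → W0 K 2 x = ψ ‖x‖) :
    ∀ᵐ x : E, x ∈ K → aa K e x = 0 := by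
  have hbd : Bornology.IsBounded K := isBounded_ball.subset hb
  obtain ⟨C, hC, hC2⟩ := VV_L2w h4 K R hR hK hb e he
  set F : E → ℝ := fun x => aa K e x * ((W0 K 2 (x + tp K e x • e) -
        W0 K 2 (x - tp K (-e) x • e)) / (tp K e x + tp K (-e) x)) with hF
  set T : ℝ → ℝ := fun δ => (∫⁻ x in K \ KD K e δ, ENNReal.ofReal (‖x‖ ^ 2)⁻¹).toReal with hT
  have hsign := aazero4_aa_zero4_sign K R hK hb e he ψ hψ hW
  have hmeas := KD_meas K hK hbd e he
  have hlimF := KD_limit K R hR hK hb e he 2 (by omega) hfr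
  -- step 2
  have hbound : ∀ δ, 0 < δ → ∫ x in KD K e δ, F x ≤ R * Real.sqrt C * Real.sqrt (T δ) := by
    intro δ hδ
    refine le_of_tendsto (hlimF δ hδ).1 ?_
    filter_upwards [self_mem_nhdsWithin] with ε hε
    exact tail_bound4 (by omega) K R hR hK hb e he 2 ε hε C hC (hC2 ε hε) δ hδ
  have hmono : ∀ δ' δ, δ' ≤ δ → KD K e δ ⊆ KD K e δ' := by
    rintro δ' δ h x ⟨hx1, hx2, hx3⟩
    exact ⟨hx1, lt_of_le_of_lt h hx2, lt_of_le_of_lt h hx3⟩
  have hT0 : Tendsto T (𝓝[>] (0:ℝ)) (𝓝 0) := (KD_small4 (by omega) K hK hbd e he).1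
  have hzero : ∀ δ, 0 < δ → ∫ x in KD K e δ, F x = 0 := by
    intro δ hδ
    apply le_antisymm
    · have hlim : Tendsto (fun δ' => R * Real.sqrt C * Real.sqrt (T δ')) (𝓝[>] (0:ℝ))
          (𝓝 (R * Real.sqrt C * Real.sqrt 0)) := ((hT0.sqrt).const_mul _)
      rw [Real.sqrt_zero, mul_zero] at hlim
      refine ge_of_tendsto hlim ?_
      filter_upwards [self_mem_nhdsWithin, Ioo_mem_nhdsGT hδ] with δ' hδ' hδ2
      refine le_trans ?_ (hbound δ' hδ')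
      refine setIntegral_mono_set (hlimF δ' hδ').2 ?_ (hmono δ' δ hδ2.2.le).eventuallyLE
      exact ae_restrict_of_forall_mem (hmeas δ' hδ') fun x hx => (hsign δ' hδ' x hx).1
    · exact setIntegral_nonneg (hmeas δ hδ) fun x hx => (hsign δ hδ x hx).1
  have hae : ∀ m : ℕ, ∀ᵐ x : E, x ∈ KD K e (1 / ((m : ℝ) + 1)) → aa K e x = 0 := by
    intro m
    have hδ : (0 : ℝ) < 1 / ((m : ℝ) + 1) := by positivity
    have h1 := (setIntegral_eq_zero_iff_of_nonneg_ae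
      (ae_restrict_of_forall_mem (hmeas _ hδ) fun x hx => (hsign _ hδ x hx).1)
      (hlimF _ hδ).2).1 (hzero _ hδ)
    rw [Filter.EventuallyEq, ae_restrict_iff' (hmeas _ hδ)] at h1
    filter_upwards [h1] with x hx hxK
    exact (hsign _ hδ x hxK).2 (hx hxK)
  have hnull : volume (K \ ⋃ m : ℕ, KD K e (1 / ((m : ℝ) + 1))) = 0 := by
    have hfin : ∀ s : Set E, s ⊆ K → volume s ≠ ∞ := fun s hs =>
      ((measure_mono (hs.trans hb)).trans_lt measure_ball_lt_top).ne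
    have h1 : (volume (K \ ⋃ m : ℕ, KD K e (1 / ((m : ℝ) + 1)))).toReal ≤ 0 := by
      refine ge_of_tendsto (KD_small K hK hbd e he (by omega)) ?_
      filter_upwards [self_mem_nhdsWithin] with δ hδ
      have hδ' : (0 : ℝ) < δ := hδ
      apply ENNReal.toReal_mono (hfin _ sdiff_subset)
      apply measure_mono
      rintro x ⟨hx1, hx2⟩
      refine ⟨hx1, fun h => hx2 ?_⟩
      obtain ⟨m, hm⟩ := exists_nat_one_div_lt hδ'
      exact mem_iUnion.2 ⟨m, hmono _ _ hm.le h⟩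
    have h2 := le_antisymm h1 ENNReal.toReal_nonneg
    rcases (ENNReal.toReal_eq_zero_iff _).1 h2 with h3 | h3
    · exact h3
    · exact absurd h3 (hfin _ sdiff_subset)
  have h5 : ∀ᵐ x : E, x ∉ K \ ⋃ m : ℕ, KD K e (1 / ((m : ℝ) + 1)) := by
    rw [ae_iff]
    have h6 : {a : E | ¬ a ∉ K \ ⋃ m : ℕ, KD K e (1 / ((m : ℝ) + 1))} =
        K \ ⋃ m : ℕ, KD K e (1 / ((m : ℝ) + 1)) := by
      ext a
      rw [Set.mem_ofPred_eq, not_not]
    rw [h6]
    exact hnull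
  filter_upwards [ae_all_iff.2 hae, h5] with x hx1 hx2 hxK
  by_contra hne
  apply hx2
  refine ⟨hxK, fun h => ?_⟩
  obtain ⟨m, hm⟩ := mem_iUnion.1 h
  exact hne (hx1 m hm)

end Pool.Agent.Helper734.IB
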