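import Mathlib
import Pool.Agent.Helper734.IB.Defs
import Pool.Agent.Helper734.IB.Aazero
import Pool.Agent.Helper734.IB.Aazero4

set_option autoImplicit false

namespace Pool.Agent.Helper734.IB

open MeasureTheory Set Filter Topology Metric
open scoped ENNReal NNReal RealInnerProductSpace

variable {E : Type*} [NormedAddCommGroup E] [InnerProductSpace ℝ E] [FiniteDimensional ℝ E]
  [MeasurableSpace E] [BorelSpace E]

theorem aa_zero_all (K : Set E) (R : ℝ) (hR : 0 < R) (hK : IsOpen K) (hb : K ⊆ ball 0 R) (e : E)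
    (he : ‖e‖ = 1) (i : ℕ) (hi : 2 ≤ i) (hin : i + 2 ≤ Module.finrank ℝ E)
    (hfr : ∀ u : E, u ≠ 0 → volume {z : (ℝ ∙ u)ᗮ | (z : E) ∈ frontier K} = 0)
    (ψ : ℝ → ℝ) (hψ : StrictMonoOn ψ (Ioi 0))
    (hW : ∀ x ∈ frontier K, x ≠ 0 → W0 K i x = ψ ‖x‖) :
    ∀ᵐ x : E, x ∈ K → aa K e x = 0 := by
  rcases Nat.lt_or_ge (Module.finrank ℝ E) 5 with h | h
  · have h4 : Module.finrank ℝ E = 4 := by omega
    have hi2 : i = 2 := by omega
    subst hi2
    exact aa_zero4 h4 K R hR hK hb e he hfr ψ hψ hW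
  · exact aa_zero K R hR hK hb e he i hi hin h hfr ψ hψ hW

end Pool.Agent.Helper734.IB
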