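import Mathlib
import Pool.Agent.Helper734.IB.Defs

set_option autoImplicit false

namespace Pool.Agent.Helper734.IB

open MeasureTheory Set Filter Topology Metric
open scoped ENNReal NNReal RealInnerProductSpace

variable {E : Type*} [NormedAddCommGroup E] [InnerProductSpace ℝ E] [FiniteDimensional ℝ E]
  [MeasurableSpace E] [BorelSpace E]

theorem CW_pos (n i : ℕ) : 0 < CW n i := by
  unfold CW
  have h0 : 0 < Real.sqrt (2 * Real.pi) := Real.sqrt_pos.2 (by positivity)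
  apply mul_pos (pow_pos h0 _)
  have h1 := integral_rpow_mul_exp_neg_mul_rpow (p := 2) (q := ((n - 2 - i : ℕ) : ℝ))
    (b := 1 / 2) (by norm_num) (by
      have : (0 : ℝ) ≤ ((n - 2 - i : ℕ) : ℝ) := Nat.cast_nonneg _
      linarith) (by norm_num)
  have h2 : ∫ r in Ioi (0:ℝ), r ^ (n - 2 - i) * Real.exp (-(r ^ 2) / 2) =
      ∫ x in Ioi (0:ℝ), x ^ (((n - 2 - i : ℕ) : ℝ)) * Real.exp (-(1 / 2) * x ^ (2 : ℝ)) := by
    apply setIntegral_congr_fun measurableSet_Ioi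
    intro x hx
    show x ^ (n - 2 - i) * Real.exp (-(x ^ 2) / 2) =
      x ^ (((n - 2 - i : ℕ) : ℝ)) * Real.exp (-(1 / 2) * x ^ (2 : ℝ))
    rw [Real.rpow_natCast, Real.rpow_two]
    congr 2
    ring
  rw [h2, h1]
  have h3 : (0 : ℝ) ≤ ((n - 2 - i : ℕ) : ℝ) := Nat.cast_nonneg _
  have h4 : 0 < Real.Gamma ((((n - 2 - i : ℕ) : ℝ) + 1) / 2) := Real.Gamma_pos_of_pos (by linarith)
  positivity

theorem perp_smul (c : ℝ) (hc : c ≠ 0) (x : E) : (ℝ ∙ (c • x))ᗮ = (ℝ ∙ x)ᗮ := by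
  rw [Submodule.span_singleton_smul_eq (IsUnit.mk0 c hc)]

theorem CWpos_G0_smul_aux (K : Set E) (S T : Submodule ℝ E) (h : S = T) :
    volume {z : S | (z : E) ∈ K} = volume {z : T | (z : E) ∈ K} := by
  subst h
  rfl

theorem G0_smul (K : Set E) (c : ℝ) (hc : 0 < c) (x : E) : G0 K (c • x) = c⁻¹ * G0 K x := by
  unfold G0
  rw [CWpos_G0_smul_aux K _ _ (perp_smul c hc.ne' x), norm_smul, Real.norm_of_nonneg hc.le]
  by_cases hx : ‖x‖ = 0
  · rw [hx]
    simp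
  · field_simp

end Pool.Agent.Helper734.IB
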