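import Mathlib
import Pool.Agent.Helper734.IB.Defs
import Pool.Agent.Helper734.IB.CWpos

set_option autoImplicit false

namespace Pool.Agent.Helper734.IB

open MeasureTheory Set Filter Topology Metric
open scoped ENNReal NNReal RealInnerProductSpace

variable {E : Type*} [NormedAddCommGroup E] [InnerProductSpace ℝ E] [FiniteDimensional ℝ E]
  [MeasurableSpace E] [BorelSpace E]

theorem ordRadial_nonneg {n : ℕ} (hn : 1 ≤ n) (i : ℝ) (L : Set (EuclideanSpace ℝ (Fin n)))
    (u : EuclideanSpace ℝ (Fin n)) : 0 ≤ ordRadial i L u := by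
  unfold ordRadial
  apply mul_nonneg
  · have h : (1 : ℝ) ≤ n := by exact_mod_cast hn
    apply one_div_nonneg.2
    linarith
  · apply integral_nonneg
    intro v
    apply Real.rpow_nonneg
    unfold radial
    apply Real.sSup_nonneg
    intro c hc
    exact hc.1

theorem radial_IBody {n : ℕ} (hn : 1 ≤ n) (i : ℝ) (L : Set (EuclideanSpace ℝ (Fin n)))
    (u : EuclideanSpace ℝ (Fin n)) (hu : ‖u‖ = 1) : radial (IBody i L) u = ordRadial i L u := by
  have h0 := ordRadial_nonneg hn i L u
  have h1 : {c : ℝ | 0 ≤ c ∧ c • u ∈ IBody i L} = Icc 0 (ordRadial i L u) := by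
    ext c
    constructor
    · rintro ⟨hc, u', hu', c', hc', hc'', he⟩
      have hn' : ‖u'‖ = 1 := by simpa using hu'
      have h2 := congrArg norm he
      rw [norm_smul, norm_smul, hu, hn', mul_one, mul_one, Real.norm_of_nonneg hc,
        Real.norm_of_nonneg hc'] at h2
      rcases hc.lt_or_eq with h3 | h3
      · rw [← h2] at he
        have h4 : u = u' := smul_right_injective _ h3.ne' he
        rw [h4]
        exact ⟨hc, by rw [h2]; exact hc''⟩
      · rw [← h3]
        exact ⟨le_rfl, h0⟩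
    · rintro ⟨hc1, hc2⟩
      exact ⟨hc1, u, by simpa using hu, c, hc1, hc2, rfl⟩
  unfold radial
  rw [h1, csSup_Icc h0]

open scoped Pointwise in
theorem radial_smul {F : Type*} [NormedAddCommGroup F] [NormedSpace ℝ F] (L : Set F)
    (r : ℝ) (hr : 0 < r) (u : F) : radial ((fun x => r • x) '' L) u = r * radial L u := by
  have h1 : {c : ℝ | 0 ≤ c ∧ c • u ∈ (fun x => r • x) '' L} = r • {c : ℝ | 0 ≤ c ∧ c • u ∈ L} := by
    ext c
    rw [Set.mem_smul_set]
    constructor
    · rintro ⟨hc, z, hz, he⟩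
      refine ⟨c / r, ⟨div_nonneg hc hr.le, ?_⟩, ?_⟩
      · have h2 : (c / r) • u = z := by
          rw [div_eq_inv_mul, mul_smul, ← he]
          exact inv_smul_smul₀ hr.ne' z
        rw [h2]
        exact hz
      · rw [smul_eq_mul]
        field_simp
    · rintro ⟨c', ⟨hc1, hc2⟩, rfl⟩
      refine ⟨by rw [smul_eq_mul]; positivity, c' • u, hc2, ?_⟩
      show r • (c' • u) = (r • c') • u
      rw [smul_smul, smul_eq_mul]
  unfold radial
  rw [h1, Real.sSup_smul_of_nonneg hr.le, smul_eq_mul]

end Pool.Agent.Helper734.IB
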