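import Mathlib
import Pool.Agent.Helper734.IB.Defs
import Pool.Agent.Helper734.IB.CWpos

set_option autoImplicit false

namespace Pool.Agent.Helper734.IB

open MeasureTheory Set Filter Topology Metric
open scoped ENNReal NNReal RealInnerProductSpace

variable {E : Type*} [NormedAddCommGroup E] [InnerProductSpace ℝ E] [FiniteDimensional ℝ E]
  [MeasurableSpace E] [BorelSpace E]

theorem radial_mem {F : Type*} [NormedAddCommGroup F] [NormedSpace ℝ F] (L : Set F)
    (hL : IsStarBody L) (u : F) (hu : ‖u‖ = 1) (c : ℝ) (hc : 0 ≤ c) :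
    c • u ∈ L ↔ c ≤ radial L u := by
  set S : Set ℝ := {c : ℝ | 0 ≤ c ∧ c • u ∈ L} with hS
  have h0 : (0 : ℝ) ∈ S := ⟨le_rfl, by rw [zero_smul]; exact hL.zero_mem⟩
  obtain ⟨M, hM⟩ := hL.compact.isBounded.exists_norm_le
  have hbd : BddAbove S := ⟨M, fun c hc => by
    have := hM _ hc.2
    rwa [norm_smul, hu, mul_one, Real.norm_of_nonneg hc.1] at this⟩
  have hcl : IsClosed S := by
    have h1 : IsClosed (Ici (0 : ℝ)) := isClosed_Ici
    have h2 : IsClosed ((fun c : ℝ => c • u) ⁻¹' L) :=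
      hL.compact.isClosed.preimage (continuous_id.smul continuous_const)
    exact h1.inter h2
  have hmem : sSup S ∈ S := hcl.csSup_mem ⟨0, h0⟩ hbd
  show c • u ∈ L ↔ c ≤ sSup S
  constructor
  · intro h
    exact le_csSup hbd ⟨hc, h⟩
  · intro h
    rcases eq_or_lt_of_le hmem.1 with h1 | h1
    · have : c = 0 := le_antisymm (h.trans h1.symm.le) hc
      rw [this, zero_smul]
      exact hL.zero_mem
    · have h2 : c • u = (c / sSup S) • (sSup S • u) := by
        rw [smul_smul, div_mul_cancel₀ _ h1.ne']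
      rw [h2]
      exact hL.star.smul_mem hmem.2 (by positivity) ((div_le_one h1).2 h)

theorem radial_bdd {F : Type*} [NormedAddCommGroup F] [NormedSpace ℝ F] (L : Set F)
    (hL : IsStarBody L) : ∃ M : ℝ, 0 < M ∧ ∀ u : F, ‖u‖ = 1 → 0 ≤ radial L u ∧ radial L u ≤ M := by
  obtain ⟨M, hM0, hM⟩ := hL.compact.isBounded.exists_pos_norm_le
  refine ⟨M, hM0, fun u hu => ?_⟩
  have h0 : 0 ≤ radial L u :=
    (radial_mem L hL u hu 0 le_rfl).1 (by rw [zero_smul]; exact hL.zero_mem)
  refine ⟨h0, ?_⟩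
  have h1 := hM _ ((radial_mem L hL u hu _ h0).2 le_rfl)
  rwa [norm_smul, hu, mul_one, Real.norm_of_nonneg h0] at h1

theorem ball_star {F : Type*} [NormedAddCommGroup F] [NormedSpace ℝ F] [FiniteDimensional ℝ F]
    (R : ℝ) (hR : 0 ≤ R) : IsStarBody (closedBall (0 : F) R) ∧
      ∀ u : F, ‖u‖ = 1 → radial (closedBall (0 : F) R) u = R := by
  have hr : ∀ u : F, ‖u‖ = 1 → radial (closedBall (0 : F) R) u = R := by
    intro u hu
    unfold radial
    have h : {c : ℝ | 0 ≤ c ∧ c • u ∈ closedBall (0 : F) R} = Icc 0 R := by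
      ext c
      simp only [mem_ofPred_eq, mem_closedBall_zero_iff, norm_smul, hu, mul_one, mem_Icc]
      constructor
      · rintro ⟨h1, h2⟩
        rw [Real.norm_of_nonneg h1] at h2
        exact ⟨h1, h2⟩
      · rintro ⟨h1, h2⟩
        rw [Real.norm_of_nonneg h1]
        exact ⟨h1, h2⟩
    rw [h, csSup_Icc hR]
  have : ProperSpace F := FiniteDimensional.proper_real F
  have h0 : (0 : F) ∈ closedBall (0 : F) R := mem_closedBall_self hR
  refine ⟨⟨isCompact_closedBall _ _, h0, (convex_closedBall _ _).starConvex h0, ?_⟩, hr⟩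
  refine continuousOn_const.congr (f := fun _ => R) fun u hu => ?_
  exact hr u (mem_sphere_zero_iff_norm.1 hu)

theorem centred_shift {n : ℕ} (A L : Set (EuclideanSpace ℝ (Fin n))) (hA : ∀ x ∈ A, -x ∈ A)
    (hL : ∀ x ∈ L, -x ∈ L) (hne : L.Nonempty) (hb : Bornology.IsBounded L)
    (x : EuclideanSpace ℝ (Fin n)) (r : ℝ) (hr : 0 < r)
    (h : A = (fun z => x + r • z) '' L) : x = 0 := by
  have hstep : ∀ w ∈ L, w + (2 / r) • x ∈ L := by
    intro w hw
    have h1 : x + r • w ∈ A := by rw [h]; exact ⟨w, hw, rfl⟩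
    have h2 := hA _ h1
    rw [h] at h2
    obtain ⟨w', hw', e⟩ := h2
    have h3 := hL w' hw'
    have h4 : -w' = w + (2 / r) • x := by
      have e1 : r • w' = -(x + r • w) - x := by rw [← e]; simp
      have e2 : w' = r⁻¹ • (-(x + r • w) - x) := by
        rw [← e1, smul_smul, inv_mul_cancel₀ hr.ne', one_smul]
      rw [e2, div_eq_mul_inv]
      have e3 : w = r⁻¹ • (r • w) := by rw [smul_smul, inv_mul_cancel₀ hr.ne', one_smul]
      nth_rewrite 2 [e3]
      module
    rwa [h4] at h3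
  obtain ⟨w, hw⟩ := hne
  have hk : ∀ k : ℕ, w + (k * (2 / r)) • x ∈ L := by
    intro k
    induction k with
    | zero => simpa using hw
    | succ k ih =>
      have := hstep _ ih
      have e : w + ((k : ℝ) * (2 / r)) • x + (2 / r) • x = w + (((k + 1 : ℕ) : ℝ) * (2 / r)) • x := by
        push_cast
        module
      rwa [e] at this
  obtain ⟨M, hM⟩ := hb.exists_norm_le
  by_contra hx
  have hx0 : 0 < ‖x‖ := norm_pos_iff.2 hx
  have hpos : 0 < 2 / r * ‖x‖ := by positivity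
  obtain ⟨k, hk'⟩ := exists_nat_gt ((M + M) / (2 / r * ‖x‖))
  rw [div_lt_iff₀ hpos] at hk'
  have h1 := hM _ (hk k)
  have h2 := hM _ hw
  have h3 : ‖((k : ℝ) * (2 / r)) • x‖ ≤ M + M := by
    have e : ((k : ℝ) * (2 / r)) • x = (w + ((k : ℝ) * (2 / r)) • x) - w := by simp
    rw [e]
    exact (norm_sub_le _ _).trans (add_le_add h1 h2)
  rw [norm_smul, Real.norm_of_nonneg (by positivity)] at h3
  linarith

theorem F2_IBody_centred_aux {n : ℕ} (i : ℝ) (L : Set (EuclideanSpace ℝ (Fin n)))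
    (V W : Submodule ℝ (EuclideanSpace ℝ (Fin n))) (h : V = W) :
    ∫ v : sphere (0 : V) 1, (radial L ((v : V) : EuclideanSpace ℝ (Fin n))) ^ i
      ∂((volume : Measure V).toSphere) =
    ∫ v : sphere (0 : W) 1, (radial L ((v : W) : EuclideanSpace ℝ (Fin n))) ^ i
      ∂((volume : Measure W).toSphere) := by
  subst h
  rfl

theorem IBody_centred {n : ℕ} (i : ℝ) (L : Set (EuclideanSpace ℝ (Fin n))) :
    ∀ x ∈ IBody i L, -x ∈ IBody i L := by
  rintro x ⟨u, hu, c, hc0, hc, rfl⟩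
  refine ⟨-u, by simpa using hu, c, hc0, ?_, by rw [smul_neg]⟩
  have h : ordRadial i L (-u) = ordRadial i L u := by
    unfold ordRadial
    congr 1
    have e : (ℝ ∙ (-u))ᗮ = (ℝ ∙ u)ᗮ := by
      have := perp_smul (-1) (by norm_num) u
      rwa [neg_one_smul] at this
    exact F2_IBody_centred_aux i L _ _ e
  rw [h]
  exact hc

end Pool.Agent.Helper734.IB
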