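import Mathlib
import Pool.Agent.Helper734.IB.Defs

set_option autoImplicit false

namespace Pool.Agent.Helper734.IB

open MeasureTheory Set Filter Topology Metric
open scoped ENNReal NNReal RealInnerProductSpace

variable {E : Type*} [NormedAddCommGroup E] [InnerProductSpace ℝ E] [FiniteDimensional ℝ E]
  [MeasurableSpace E] [BorelSpace E]

theorem KS_open (f : E → ℝ) (hc : ContinuousOn f {0}ᶜ) : IsOpen (KS f) := by
  have h1 : ContinuousOn (fun x => f x - ‖x‖) ({0}ᶜ : Set E) :=
    hc.sub continuous_norm.continuousOn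
  have h2 := h1.isOpen_inter_preimage isOpen_compl_singleton (isOpen_Ioi (a := (0:ℝ)))
  have h3 : KS f = ({0}ᶜ : Set E) ∩ (fun x => f x - ‖x‖) ⁻¹' Ioi 0 := by
    ext x
    simp [KS]
  rw [h3]
  exact h2

theorem KS_sub (f : E → ℝ) (R : ℝ) (hR : ∀ x, f x ≤ R) : KS f ⊆ ball 0 R := by
  intro x hx
  rw [mem_ball_zero_iff]
  exact lt_of_lt_of_le hx.2 (hR x)

theorem KS_frontier (f : E → ℝ) (hc : ContinuousOn f {0}ᶜ) (x : E) (hx : x ≠ 0)
    (h : x ∈ frontier (KS f)) : ‖x‖ = f x := by
  have hopen := KS_open f hc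
  rw [hopen.frontier_eq] at h
  obtain ⟨h1, h2⟩ := h
  apply le_antisymm
  · by_contra hlt
    push Not at hlt
    have hcx : ContinuousAt f x := hc.continuousAt (isOpen_compl_singleton.mem_nhds hx)
    have hcx2 : ContinuousAt (fun y => f y - ‖y‖) x := hcx.sub continuous_norm.continuousAt
    have hev : ∀ᶠ y in 𝓝 x, f y - ‖y‖ < 0 :=
      hcx2.eventually (gt_mem_nhds (by linarith : f x - ‖x‖ < 0))
    rw [mem_closure_iff_frequently] at h1
    obtain ⟨y, hy1, hy2⟩ := (h1.and_eventually hev).exists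
    have := hy1.2
    linarith
  · by_contra hlt
    push Not at hlt
    exact h2 ⟨hx, hlt⟩

end Pool.Agent.Helper734.IB
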