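import Mathlib
import Pool.Agent.Helper734.IB.Defs

set_option autoImplicit false

namespace Pool.Agent.Helper734.IB

open MeasureTheory Set Filter Topology Metric
open scoped ENNReal NNReal RealInnerProductSpace

variable {E : Type*} [NormedAddCommGroup E] [InnerProductSpace ℝ E] [FiniteDimensional ℝ E]
  [MeasurableSpace E] [BorelSpace E]

theorem KS_const (f : E → ℝ)
    (hh : ∀ c : ℝ, 0 < c → ∀ x : E, x ≠ 0 → f (c • x) = f x)
    (hr : ∀ e : E, ‖e‖ = 1 → ∀ x : E, x ≠ 0 → f (x - (2 * ⟪x, e⟫) • e) = f x)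
    (x y : E) (hx : x ≠ 0) (hy : y ≠ 0) : f x = f y := by
  have hnx : 0 < ‖x‖ := norm_pos_iff.2 hx
  have hny : 0 < ‖y‖ := norm_pos_iff.2 hy
  set x' : E := ‖x‖⁻¹ • x with hx'
  set y' : E := ‖y‖⁻¹ • y with hy'
  have hfx : f x' = f x := hh _ (inv_pos.2 hnx) x hx
  have hfy : f y' = f y := hh _ (inv_pos.2 hny) y hy
  have h1x : ‖x'‖ = 1 := by
    rw [hx', norm_smul, norm_inv, norm_norm, inv_mul_cancel₀ hnx.ne']
  have h1y : ‖y'‖ = 1 := by
    rw [hy', norm_smul, norm_inv, norm_norm, inv_mul_cancel₀ hny.ne']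
  have hx'0 : x' ≠ 0 := by
    intro h
    rw [h, norm_zero] at h1x
    exact zero_ne_one h1x
  rw [← hfx, ← hfy]
  by_cases hxy : x' = y'
  · rw [hxy]
  · have hne : x' - y' ≠ 0 := sub_ne_zero.2 hxy
    have hn : 0 < ‖x' - y'‖ := norm_pos_iff.2 hne
    have he : ‖‖x' - y'‖⁻¹ • (x' - y')‖ = 1 := by
      rw [norm_smul, norm_inv, norm_norm, inv_mul_cancel₀ hn.ne']
    have hkey : x' - (2 * ⟪x', ‖x' - y'‖⁻¹ • (x' - y')⟫) • (‖x' - y'‖⁻¹ • (x' - y')) = y' := by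
      have h2 : 2 * ⟪x', x' - y'⟫ = ‖x' - y'‖ ^ 2 := by
        rw [inner_sub_right, real_inner_self_eq_norm_sq, norm_sub_sq_real, h1x, h1y]
        ring
      have h3 : (2 * ⟪x', ‖x' - y'‖⁻¹ • (x' - y')⟫) • (‖x' - y'‖⁻¹ • (x' - y')) =
          (x' - y') := by
        rw [real_inner_smul_right, smul_smul]
        have h4 : 2 * (‖x' - y'‖⁻¹ * ⟪x', x' - y'⟫) * ‖x' - y'‖⁻¹ = 1 := by
          have : 2 * (‖x' - y'‖⁻¹ * ⟪x', x' - y'⟫) * ‖x' - y'‖⁻¹ =
              ‖x' - y'‖⁻¹ * ‖x' - y'‖⁻¹ * (2 * ⟪x', x' - y'⟫) := by ring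
          rw [this, h2]
          field_simp
        rw [h4, one_smul]
      rw [h3]
      abel
    have := hr _ he x' hx'0
    rw [hkey] at this
    exact this.symm

end Pool.Agent.Helper734.IB
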