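import Mathlib
import Pool.Agent.Helper734.IB.Defs
import Pool.Agent.Helper734.IB.BasicA
import Pool.Agent.Helper734.IB.KSa

set_option autoImplicit false

namespace Pool.Agent.Helper734.IB

open MeasureTheory Set Filter Topology Metric
open scoped ENNReal NNReal RealInnerProductSpace

variable {E : Type*} [NormedAddCommGroup E] [InnerProductSpace ℝ E] [FiniteDimensional ℝ E]
  [MeasurableSpace E] [BorelSpace E]

open scoped Pointwise in
theorem KSnull_KS_null_aux {F : Type*} [NormedAddCommGroup F] [InnerProductSpace ℝ F]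
    [FiniteDimensional ℝ F] [MeasurableSpace F] [BorelSpace F] (g : F → ℝ) (R : ℝ)
    (hR : ∀ x, g x ≤ R) (hh : ∀ c : ℝ, 0 < c → ∀ x : F, x ≠ 0 → g (c • x) = g x)
    (hBm : MeasurableSet {z : F | z ≠ 0 ∧ ‖z‖ = g z}) :
    volume {z : F | z ≠ 0 ∧ ‖z‖ = g z} = 0 := by
  set B : Set F := {z : F | z ≠ 0 ∧ ‖z‖ = g z} with hBdef
  by_contra hne
  have hpos : 0 < volume B := pos_iff_ne_zero.mpr hne
  let As : (Set.Ioo (1:ℝ) 2) → Set F := fun c => (c : ℝ) • B
  have hAsm : ∀ i, MeasurableSet (As i) := fun i =>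
    hBm.const_smul_of_ne_zero (by have := i.2.1; intro h; linarith)
  have hAsd : Pairwise (Function.onFun Disjoint As) := by
    intro i j hij
    rw [Function.onFun, Set.disjoint_left]
    rintro z ⟨b, hb, hbz⟩ ⟨b', hb', hbz'⟩
    apply hij
    have hi : (0:ℝ) < i := lt_trans one_pos i.2.1
    have hj : (0:ℝ) < j := lt_trans one_pos j.2.1
    simp only at hbz hbz'
    have e1 : g z = g b := by
      rw [← hbz]
      exact hh _ hi _ hb.1
    have e2 : g z = g b' := by
      rw [← hbz']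
      exact hh _ hj _ hb'.1
    have e3 : ‖b‖ = ‖b'‖ := by rw [hb.2, hb'.2, ← e1, ← e2]
    have e4 : ‖z‖ = i * ‖b‖ := by
      rw [← hbz, norm_smul, Real.norm_eq_abs, abs_of_pos hi]
    have e5 : ‖z‖ = j * ‖b'‖ := by
      rw [← hbz', norm_smul, Real.norm_eq_abs, abs_of_pos hj]
    have e6 : ‖b‖ ≠ 0 := norm_ne_zero_iff.mpr hb.1
    rw [e4, ← e3] at e5
    exact Subtype.ext (mul_right_cancel₀ e6 e5)
  have hfin : volume (⋃ i, As i) ≠ ⊤ := by
    refine ne_top_of_le_ne_top (measure_closedBall_lt_top (x := (0 : F)) (r := 2 * |R|)).ne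
      (measure_mono ?_)
    intro z hz
    rw [mem_iUnion] at hz
    obtain ⟨i, b, hb, hbz⟩ := hz
    rw [mem_closedBall_zero_iff, ← hbz]
    simp only
    have hi : (0:ℝ) < i := lt_trans one_pos i.2.1
    rw [norm_smul, Real.norm_eq_abs, abs_of_pos hi, hb.2]
    have h1 : g b ≤ |R| := (hR _).trans (le_abs_self R)
    have h2 : (0:ℝ) ≤ g b := by rw [← hb.2]; exact norm_nonneg _
    have h3 := i.2.2
    nlinarith
  have hF2 := Measure.finite_const_le_meas_of_disjoint_iUnion volume hpos hAsm hAsd hfin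
  have hall : {i : (Set.Ioo (1:ℝ) 2) | volume B ≤ volume (As i)} = univ := by
    rw [eq_univ_iff_forall]
    intro i
    have h1 : (1:ℝ) < i := i.2.1
    simp only [mem_ofPred_eq, As]
    rw [Measure.addHaar_smul]
    have h2 : (1:ℝ≥0∞) ≤ ENNReal.ofReal |(i:ℝ) ^ Module.finrank ℝ F| := by
      rw [← ENNReal.ofReal_one]
      apply ENNReal.ofReal_le_ofReal
      rw [abs_of_pos (by positivity)]
      exact one_le_pow₀ h1.le
    calc volume B = 1 * volume B := (one_mul _).symm
      _ ≤ _ := by gcongr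
  rw [hall] at hF2
  have : (Set.Ioo (1:ℝ) 2).Infinite := Set.Ioo_infinite (by norm_num)
  exact this (Set.finite_coe_iff.mp (Set.finite_univ_iff.mp hF2))

theorem KS_null (hn : 2 ≤ Module.finrank ℝ E) (f : E → ℝ) (hc : ContinuousOn f {0}ᶜ)
    (hh : ∀ c : ℝ, 0 < c → ∀ x : E, x ≠ 0 → f (c • x) = f x) (R : ℝ) (hR : ∀ x, f x ≤ R)
    (u : E) (hu : u ≠ 0) :
    volume {z : (ℝ ∙ u)ᗮ | (z : E) ∈ frontier (KS f)} = 0 := by
  classical
  have hfr := finrank_perp u hu
  have hF : 0 < Module.finrank ℝ ((ℝ ∙ u)ᗮ : Submodule ℝ E) := by omega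
  have hnt : Nontrivial ((ℝ ∙ u)ᗮ : Submodule ℝ E) := Module.finrank_pos_iff.mp hF
  set F := ((ℝ ∙ u)ᗮ : Submodule ℝ E) with hFdef
  have hsub : {z : F | (z : E) ∈ frontier (KS f)} ⊆ {0} ∪ {z : F | z ≠ 0 ∧ ‖z‖ = f (z : E)} := by
    intro z hz
    by_cases h0 : z = 0
    · left; exact h0
    · right
      refine ⟨h0, ?_⟩
      have h1 : (z : E) ≠ 0 := fun h => h0 (by exact_mod_cast h)
      have := KS_frontier f hc (z : E) h1 hz
      simpa using this
  -- B is measurable
  have hgc : ContinuousOn (fun z : F => ‖z‖ - f z) {0}ᶜ := by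
    apply ContinuousOn.sub continuous_norm.continuousOn
    refine hc.comp continuous_subtype_val.continuousOn ?_
    intro z hz h
    apply hz
    simp only [mem_singleton_iff] at h ⊢
    exact_mod_cast h
  have hBm : MeasurableSet {z : F | z ≠ 0 ∧ ‖z‖ = f (z : E)} := by
    obtain ⟨C, hC, hCe⟩ := (continuousOn_iff_isClosed.mp hgc) {0} isClosed_singleton
    have : {z : F | z ≠ 0 ∧ ‖z‖ = f (z : E)} = C ∩ {0}ᶜ := by
      rw [← hCe]
      ext z
      simp only [mem_ofPred_eq, mem_inter_iff, mem_preimage, mem_singleton_iff, mem_compl_iff,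
        sub_eq_zero]
      tauto
    rw [this]
    exact hC.measurableSet.inter (measurableSet_singleton 0).compl
  refine measure_mono_null hsub ?_
  refine measure_union_null (measure_singleton 0) ?_
  refine KSnull_KS_null_aux (fun z : F => f (z : E)) R (fun z => hR _) ?_ hBm
  intro c hcpos x hx
  have h1 : (x : E) ≠ 0 := fun h => hx (by exact_mod_cast h)
  exact hh c hcpos _ h1

end Pool.Agent.Helper734.IB
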