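import Mathlib
import Pool.Agent.Helper734.IB.Defs
import Pool.Agent.Helper734.IB.BasicA
import Pool.Agent.Helper734.IB.KSa
import Pool.Agent.Helper734.IB.Tpbound

set_option autoImplicit false

namespace Pool.Agent.Helper734.IB

open MeasureTheory Set Filter Topology Metric
open scoped ENNReal NNReal RealInnerProductSpace

variable {E : Type*} [NormedAddCommGroup E] [InnerProductSpace ℝ E] [FiniteDimensional ℝ E]
  [MeasurableSpace E] [BorelSpace E]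

theorem KSrefl_rf_inner (e : E) (he : ‖e‖ = 1) (y : E) : ⟪y - (2 * ⟪y, e⟫) • e, e⟫ = -⟪y, e⟫ := by
  rw [inner_sub_left, real_inner_smul_left, real_inner_self_eq_norm_sq, he]
  ring

theorem KSrefl_rf_rf (e : E) (he : ‖e‖ = 1) (y : E) :
    (y - (2 * ⟪y, e⟫) • e) - (2 * ⟪y - (2 * ⟪y, e⟫) • e, e⟫) • e = y := by
  rw [KSrefl_rf_inner e he y]
  have h : (2 * -⟪y, e⟫) • e = -((2 * ⟪y, e⟫) • e) := by
    rw [← neg_smul]; congr 1; ring
  rw [h]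
  abel

theorem KSrefl_rf_norm (e : E) (he : ‖e‖ = 1) (y : E) : ‖y - (2 * ⟪y, e⟫) • e‖ = ‖y‖ := by
  have h : ‖y - (2 * ⟪y, e⟫) • e‖ ^ 2 = ‖y‖ ^ 2 := by
    rw [@norm_sub_sq_real, real_inner_smul_right, norm_smul, he, Real.norm_eq_abs, mul_one, sq_abs]
    ring
  have h2 := congrArg Real.sqrt h
  rwa [Real.sqrt_sq (norm_nonneg _), Real.sqrt_sq (norm_nonneg _)] at h2

theorem KSrefl_rf_smul (e : E) (c : ℝ) (y : E) :
    (c • y) - (2 * ⟪c • y, e⟫) • e = c • (y - (2 * ⟪y, e⟫) • e) := by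
  rw [real_inner_smul_left, smul_sub, smul_smul]
  congr 2
  ring

theorem KSrefl_KS_le (f : E → ℝ) (hc : ContinuousOn f {0}ᶜ)
    (hh : ∀ c : ℝ, 0 < c → ∀ x : E, x ≠ 0 → f (c • x) = f x) (h0 : ∀ x, 0 ≤ f x)
    (R : ℝ) (hR : ∀ x, f x ≤ R) (e : E) (he : ‖e‖ = 1)
    (ha : ∀ᵐ x : E, x ∈ KS f → aa (KS f) e x = 0) (x : E) (hx : x ≠ 0) :
    f x ≤ f (x - (2 * ⟪x, e⟫) • e) := by
  by_contra hlt
  rw [not_le] at hlt
  obtain ⟨η, hη1, hη2⟩ := exists_between hlt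
  have hη0 : 0 < η := lt_of_le_of_lt (h0 _) hη1
  have hnx : 0 < ‖x‖ := norm_pos_iff.2 hx
  have hσc : Continuous (fun y : E => y - (2 * ⟪y, e⟫) • e) := by fun_prop
  have hσ0 : ∀ y : E, y ≠ 0 → y - (2 * ⟪y, e⟫) • e ≠ 0 := by
    intro y hy h
    have h1 := KSrefl_rf_norm e he y
    rw [h, norm_zero] at h1
    exact hy (norm_eq_zero.1 h1.symm)
  set c : ℝ := η / ‖x‖ with hcdef
  have hcpos : 0 < c := div_pos hη0 hnx
  have hx1 : ‖c • x‖ = η := by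
    rw [norm_smul, Real.norm_of_nonneg hcpos.le, hcdef]
    field_simp
  have hcx : c • x ≠ 0 := smul_ne_zero hcpos.ne' hx
  have hfs : ContinuousOn (fun z : E => f (z - (2 * ⟪z, e⟫) • e)) {0}ᶜ := by
    refine hc.comp hσc.continuousOn ?_
    intro y hy
    exact hσ0 y hy
  set V : Set E := {z : E | z ≠ 0 ∧ f (z - (2 * ⟪z, e⟫) • e) < ‖z‖} with hV
  have hVo : IsOpen V := by
    have h1 : IsOpen (({0}ᶜ : Set E) ∩ (fun z : E => ‖z‖ - f (z - (2 * ⟪z, e⟫) • e)) ⁻¹' Ioi 0) :=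
      (continuous_norm.continuousOn.sub hfs).isOpen_inter_preimage isOpen_compl_singleton isOpen_Ioi
    have h2 : V = ({0}ᶜ : Set E) ∩ (fun z : E => ‖z‖ - f (z - (2 * ⟪z, e⟫) • e)) ⁻¹' Ioi 0 := by
      ext z
      constructor
      · rintro ⟨h1, h2⟩
        exact ⟨h1, sub_pos.2 h2⟩
      · rintro ⟨h1, h2⟩
        exact ⟨h1, sub_pos.1 h2⟩
    rw [h2]
    exact h1
  have hKo : IsOpen (KS f) := KS_open f hc
  have hUo : IsOpen (KS f ∩ V) := hKo.inter hVo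
  have hmem : c • x ∈ KS f ∩ V := by
    refine ⟨⟨hcx, ?_⟩, hcx, ?_⟩
    · rw [hx1, hh c hcpos x hx]
      exact hη2
    · rw [hx1, KSrefl_rf_smul, hh c hcpos _ (hσ0 x hx)]
      exact hη1
  have hpos : 0 < (volume : Measure E) (KS f ∩ V) := hUo.measure_pos volume ⟨_, hmem⟩
  obtain ⟨z, hzU, hz0⟩ : ∃ z ∈ KS f ∩ V, aa (KS f) e z = 0 := by
    by_contra hcon
    push Not at hcon
    have h1 : (KS f ∩ V) ⊆ {z : E | ¬ (z ∈ KS f → aa (KS f) e z = 0)} := by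
      intro z hz h
      exact hcon z hz (h hz.1)
    have h2 := measure_mono (μ := (volume : Measure E)) h1
    rw [ae_iff.1 ha] at h2
    exact absurd h2 (not_le.2 hpos)
  obtain ⟨hzK, hzV0, hzV⟩ := hzU
  obtain ⟨ht1, -, -, -, -, ht2⟩ := tp_bound (KS f) R (KS_sub f R hR) hKo e he z hzK
  obtain ⟨hs1, -, -, -, -, hs2⟩ := tp_bound (KS f) R (KS_sub f R hR) hKo (-e)
    (by rw [norm_neg]; exact he) z hzK
  unfold aa at hz0
  have hfin : z - (2 * ⟪z, e⟫) • e ∈ KS f := by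
    rcases le_or_gt ⟪z, e⟫ 0 with h | h
    · have h3 := ht2 (-(2 * ⟪z, e⟫)) ⟨by linarith, by linarith⟩
      rw [neg_smul, ← sub_eq_add_neg] at h3
      exact h3
    · have h3 := hs2 (2 * ⟪z, e⟫) ⟨by linarith, by linarith⟩
      rw [smul_neg, ← sub_eq_add_neg] at h3
      exact h3
  have h4 : ‖z - (2 * ⟪z, e⟫) • e‖ < f (z - (2 * ⟪z, e⟫) • e) := hfin.2
  rw [KSrefl_rf_norm e he z] at h4
  exact absurd h4 (not_lt.2 hzV.le)

theorem KS_refl (f : E → ℝ) (hc : ContinuousOn f {0}ᶜ)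
    (hh : ∀ c : ℝ, 0 < c → ∀ x : E, x ≠ 0 → f (c • x) = f x) (h0 : ∀ x, 0 ≤ f x)
    (R : ℝ) (hR : ∀ x, f x ≤ R) (e : E) (he : ‖e‖ = 1)
    (ha : ∀ᵐ x : E, x ∈ KS f → aa (KS f) e x = 0) (x : E) (hx : x ≠ 0) :
    f (x - (2 * ⟪x, e⟫) • e) = f x := by
  refine le_antisymm ?_ (KSrefl_KS_le f hc hh h0 R hR e he ha x hx)
  have hσ0 : x - (2 * ⟪x, e⟫) • e ≠ 0 := by
    intro h
    have h1 := KSrefl_rf_norm e he x
    rw [h, norm_zero] at h1
    exact hx (norm_eq_zero.1 h1.symm)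
  have h := KSrefl_KS_le f hc hh h0 R hR e he ha _ hσ0
  rw [KSrefl_rf_rf e he x] at h
  exact h

end Pool.Agent.Helper734.IB
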