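import Mathlib
import Pool.Agent.Helper734.IB.Defs

set_option autoImplicit false

namespace Pool.Agent.Helper734.IB

open MeasureTheory Set Filter Topology Metric
open scoped ENNReal NNReal RealInnerProductSpace

variable {E : Type*} [NormedAddCommGroup E] [InnerProductSpace ℝ E] [FiniteDimensional ℝ E]
  [MeasurableSpace E] [BorelSpace E]

theorem polarF {F : Type*} [NormedAddCommGroup F] [InnerProductSpace ℝ F] [FiniteDimensional ℝ F]
    [MeasurableSpace F] [BorelSpace F] [Nontrivial F] (g : F → ℝ) (hg : Integrable g) :
    ∫ y : F, g y = ∫ v : sphere (0 : F) 1,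
      (∫ r in Ioi (0:ℝ), r ^ (Module.finrank ℝ F - 1) * g (r • (v : F)))
        ∂((volume : Measure F).toSphere) := by
  have hmp := (volume : Measure F).measurePreserving_homeomorphUnitSphereProd
  have hemb := (homeomorphUnitSphereProd F).measurableEmbedding
  have hcomp : ∀ x : ({(0 : F)}ᶜ : Set F),
      (fun p : sphere (0 : F) 1 × Ioi (0:ℝ) => g ((p.2 : ℝ) • (p.1 : F)))
        (homeomorphUnitSphereProd F x) = g x := by
    intro x
    show g _ = g x
    congr 1
    have h1 := (homeomorphUnitSphereProd F).symm_apply_apply x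
    have h2 := congrArg Subtype.val h1
    rw [homeomorphUnitSphereProd_symm_apply_coe] at h2
    exact h2
  have hint : Integrable (fun p : sphere (0 : F) 1 × Ioi (0:ℝ) => g ((p.2 : ℝ) • (p.1 : F)))
      ((volume : Measure F).toSphere.prod
        (Measure.volumeIoiPow (Module.finrank ℝ F - 1))) := by
    rw [← hmp.integrable_comp_emb hemb]
    have h1 : IntegrableOn g ({(0 : F)}ᶜ : Set F) := hg.integrableOn
    rw [integrableOn_iff_comap_subtypeVal (measurableSet_singleton _).compl] at h1
    refine h1.congr (Filter.Eventually.of_forall fun x => ?_)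
    exact (hcomp x).symm
  calc ∫ y : F, g y = ∫ x : ({(0 : F)}ᶜ : Set F), g x ∂((volume : Measure F).comap (↑)) := by
        rw [integral_subtype_comap (measurableSet_singleton _).compl g,
          restrict_compl_singleton]
    _ = ∫ x : ({(0 : F)}ᶜ : Set F),
        (fun p : sphere (0 : F) 1 × Ioi (0:ℝ) => g ((p.2 : ℝ) • (p.1 : F)))
          (homeomorphUnitSphereProd F x) ∂((volume : Measure F).comap (↑)) := by
        congr 1
        funext x
        exact (hcomp x).symm
    _ = ∫ p : sphere (0 : F) 1 × Ioi (0:ℝ), g ((p.2 : ℝ) • (p.1 : F))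
          ∂((volume : Measure F).toSphere.prod
            (Measure.volumeIoiPow (Module.finrank ℝ F - 1))) :=
        hmp.integral_comp hemb (fun p : sphere (0 : F) 1 × Ioi (0:ℝ) => g ((p.2 : ℝ) • (p.1 : F)))
    _ = ∫ v : sphere (0 : F) 1, ∫ r : Ioi (0:ℝ), g ((r : ℝ) • (v : F))
          ∂(Measure.volumeIoiPow (Module.finrank ℝ F - 1))
          ∂((volume : Measure F).toSphere) := integral_prod _ hint
    _ = _ := by
        congr 1
        funext v
        simp only [Measure.volumeIoiPow, ENNReal.ofReal]
        rw [integral_withDensity_eq_integral_smul,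
          integral_subtype_comap measurableSet_Ioi
            fun a ↦ Real.toNNReal (a ^ (Module.finrank ℝ F - 1)) • g (a • (v : F)),
          setIntegral_congr_fun measurableSet_Ioi fun x hx ↦ ?_]
        · rw [NNReal.smul_def, Real.coe_toNNReal _ (pow_nonneg (le_of_lt hx) _), smul_eq_mul]
        · exact (measurable_subtype_coe.pow_const _).real_toNNReal

end Pool.Agent.Helper734.IB
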