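import Mathlib
import Pool.Agent.Helper734.IB.Defs
import Pool.Agent.Helper734.IB.BasicA
import Pool.Agent.Helper734.IB.KSa
import Pool.Agent.Helper734.IB.PolarF

set_option autoImplicit false

namespace Pool.Agent.Helper734.IB

open MeasureTheory Set Filter Topology Metric
open scoped ENNReal NNReal RealInnerProductSpace

variable {E : Type*} [NormedAddCommGroup E] [InnerProductSpace ℝ E] [FiniteDimensional ℝ E]
  [MeasurableSpace E] [BorelSpace E]

theorem volpolar_vol_polar_inner (d : ℕ) (hd : 1 ≤ d) (a : ℝ) (ha : 0 ≤ a) (g : ℝ → ℝ)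
    (hg : ∀ r, 0 < r → g r = if r < a then 1 else 0) :
    ∫ r in Ioi (0:ℝ), r ^ (d - 1) * g r = a ^ d / d := by
  have h1 : ∫ r in Ioi (0:ℝ), r ^ (d - 1) * g r =
      ∫ r in Ioi (0:ℝ), (Ioo 0 a).indicator (fun r : ℝ => r ^ (d - 1)) r := by
    apply setIntegral_congr_fun measurableSet_Ioi
    intro r hr
    have hr0 : 0 < r := hr
    simp only [hg r hr0, indicator, mem_Ioo]
    by_cases h : r < a
    · simp [h, hr0]
    · simp [h]
  rw [h1, setIntegral_indicator measurableSet_Ioo, inter_eq_right.mpr Ioo_subset_Ioi_self,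
    ← integral_Ioc_eq_integral_Ioo, ← intervalIntegral.integral_of_le ha, integral_pow]
  obtain ⟨k, rfl⟩ : ∃ k, d = k + 1 := ⟨d - 1, by omega⟩
  simp

theorem vol_polar (hn : 2 ≤ Module.finrank ℝ E) (f : E → ℝ) (hc : ContinuousOn f {0}ᶜ)
    (hh : ∀ c : ℝ, 0 < c → ∀ x : E, x ≠ 0 → f (c • x) = f x) (h0 : ∀ x, 0 ≤ f x)
    (R : ℝ) (hR : ∀ x, f x ≤ R) (u : E) (hu : u ≠ 0) :
    (volume {z : (ℝ ∙ u)ᗮ | (z : E) ∈ KS f}).toReal =
      1 / ((Module.finrank ℝ E : ℝ) - 1) * ∫ v : sphere (0 : (ℝ ∙ u)ᗮ) 1,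
        (f ((v : (ℝ ∙ u)ᗮ) : E)) ^ (Module.finrank ℝ E - 1)
        ∂((volume : Measure (ℝ ∙ u)ᗮ).toSphere) := by
  have hfr := finrank_perp u hu
  set d := Module.finrank ℝ ((ℝ ∙ u)ᗮ : Submodule ℝ E) with hd
  have hd1 : 1 ≤ d := by omega
  have hnt : Nontrivial ((ℝ ∙ u)ᗮ : Submodule ℝ E) :=
    Module.nontrivial_of_finrank_pos (R := ℝ) (by omega)
  set A : Set ((ℝ ∙ u)ᗮ : Submodule ℝ E) := {z | (z : E) ∈ KS f} with hA
  have hAo : IsOpen A := (KS_open f hc).preimage continuous_subtype_val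
  have hAb : A ⊆ ball 0 R := by
    intro z hz
    have := KS_sub f R hR hz
    rw [mem_ball_zero_iff] at this ⊢
    exact this
  have hAfin : volume A ≠ ⊤ := ((measure_mono hAb).trans_lt measure_ball_lt_top).ne
  have hint : Integrable (A.indicator (fun _ => (1 : ℝ))) :=
    (integrable_indicator_iff hAo.measurableSet).mpr (integrableOn_const hAfin)
  have h1 : (volume A).toReal = ∫ y, A.indicator (fun _ => (1 : ℝ)) y := by
    rw [integral_indicator hAo.measurableSet, setIntegral_const]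
    simp [Measure.real]
  rw [h1, polarF _ hint, ← integral_const_mul]
  apply integral_congr_ae
  refine Filter.Eventually.of_forall (fun v => ?_)
  have hv1 : ‖((v : (ℝ ∙ u)ᗮ) : E)‖ = 1 := by
    have := v.2
    rw [mem_sphere_zero_iff_norm] at this
    exact this
  have hv0 : ((v : (ℝ ∙ u)ᗮ) : E) ≠ 0 := by
    intro h
    rw [h, norm_zero] at hv1
    exact zero_ne_one hv1
  have key := volpolar_vol_polar_inner d hd1 (f ((v : (ℝ ∙ u)ᗮ) : E)) (h0 _)
    (fun r => A.indicator (fun _ => (1 : ℝ)) (r • (v : (ℝ ∙ u)ᗮ))) (by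
      intro r hr
      have hmem : r • (v : (ℝ ∙ u)ᗮ) ∈ A ↔ r < f ((v : (ℝ ∙ u)ᗮ) : E) := by
        simp only [hA, KS, mem_ofPred_eq, Submodule.coe_smul]
        rw [hh r hr _ hv0, norm_smul, hv1, mul_one, Real.norm_eq_abs, abs_of_pos hr]
        constructor
        · exact fun h => h.2
        · exact fun h => ⟨smul_ne_zero hr.ne' hv0, h⟩
      by_cases h : r < f ((v : (ℝ ∙ u)ᗮ) : E)
      · simp only [if_pos h]
        rw [indicator_of_mem (hmem.mpr h)]
      · simp only [if_neg h]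
        rw [indicator_of_notMem (fun h' => h (hmem.mp h'))])
  simp only
  rw [key]
  have h2 : (Module.finrank ℝ E : ℝ) - 1 = d := by
    rw [← hfr]; push_cast; ring
  have h3 : Module.finrank ℝ E - 1 = d := by omega
  rw [h2, h3]
  ring

end Pool.Agent.Helper734.IB
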