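import Mathlib
import Pool.Agent.Helper734.IB.Defs
import Pool.Agent.Helper734.IB.BasicA
import Pool.Agent.Helper734.IB.CWpos
import Pool.Agent.Helper734.IB.G0cont
import Pool.Agent.Helper734.IB.PolarF
import Pool.Agent.Helper734.IB.Rad
import Pool.Agent.Helper734.IB.WwA

set_option autoImplicit false

namespace Pool.Agent.Helper734.IB

open MeasureTheory Set Filter Topology Metric
open scoped ENNReal NNReal RealInnerProductSpace

variable {E : Type*} [NormedAddCommGroup E] [InnerProductSpace ℝ E] [FiniteDimensional ℝ E]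
  [MeasurableSpace E] [BorelSpace E]

theorem W0_polar (K : Set E) (R : ℝ) (hR : 0 < R) (hK : IsOpen K) (hb : K ⊆ ball 0 R) (i : ℕ)
    (hin : i + 2 ≤ Module.finrank ℝ E)
    (hfr : ∀ u : E, u ≠ 0 → volume {z : (ℝ ∙ u)ᗮ | (z : E) ∈ frontier K} = 0)
    (x : E) (hx : x ≠ 0) :
    W0 K i x = CW (Module.finrank ℝ E) i / ‖x‖ *
      ∫ v : sphere (0 : (ℝ ∙ x)ᗮ) 1,
        ((volume {z : (ℝ ∙ ((v : (ℝ ∙ x)ᗮ) : E))ᗮ | (z : E) ∈ K}).toReal) ^ i
        ∂((volume : Measure (ℝ ∙ x)ᗮ).toSphere) := by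
  classical
  have hfr1 := finrank_perp x hx
  set m := Module.finrank ℝ ((ℝ ∙ x)ᗮ : Submodule ℝ E) with hm
  have him : i + 1 ≤ m := by omega
  have hmpos : 0 < m := by omega
  have hnt : Nontrivial ((ℝ ∙ x)ᗮ : Submodule ℝ E) := Module.nontrivial_of_finrank_pos (R := ℝ) hmpos
  have hbd : Bornology.IsBounded K := isBounded_ball.subset hb
  obtain ⟨C, hC, hGb⟩ := G0_bound K R hR hK hb hfr
  have hGc := G0_cont K hK hbd hfr
  set g : ((ℝ ∙ x)ᗮ : Submodule ℝ E) → ℝ := fun y => G0 K (y : E) ^ i * ww (y : E) with hg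
  have hgc : ContinuousOn g {0}ᶜ := by
    have h1 : ContinuousOn (fun y : ((ℝ ∙ x)ᗮ : Submodule ℝ E) => G0 K (y : E)) {0}ᶜ := by
      refine hGc.comp continuous_subtype_val.continuousOn ?_
      intro y hy
      simp only [mem_compl_iff, mem_singleton_iff] at hy ⊢
      intro h
      exact hy (Subtype.ext h)
    exact (h1.pow i).mul (ww_cont.comp continuous_subtype_val).continuousOn
  have hgm : Measurable g := measurable_of_continuousOn_compl_singleton 0 hgc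
  have hri : Integrable (fun y : ((ℝ ∙ x)ᗮ : Submodule ℝ E) => ‖y‖ ^ (-(i : ℝ)) * ww y) := by
    have h1 := rad_fin (E := ((ℝ ∙ x)ᗮ : Submodule ℝ E)) (i : ℝ) (Nat.cast_nonneg i)
      (by rw [← hm]; exact_mod_cast him)
    have hmeas : Measurable (fun y : ((ℝ ∙ x)ᗮ : Submodule ℝ E) => ‖y‖ ^ (-(i : ℝ)) * ww y) :=
      (measurable_norm.pow_const _).mul ww_cont.measurable
    refine ⟨hmeas.aestronglyMeasurable, ?_⟩
    rw [hasFiniteIntegral_iff_ofReal (Filter.Eventually.of_forall fun y =>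
      mul_nonneg (Real.rpow_nonneg (norm_nonneg _) _) (ww_pos y).1.le)]
    exact h1
  have hgi : Integrable g := by
    refine (hri.const_mul (C ^ i)).mono' hgm.aestronglyMeasurable ?_
    have h0 : ∀ᵐ y : ((ℝ ∙ x)ᗮ : Submodule ℝ E), y ≠ 0 := by
      rw [ae_iff]; simp
    filter_upwards [h0] with y hy
    have hy' : (y : E) ≠ 0 := fun h => hy (Subtype.ext h)
    obtain ⟨b0, b1⟩ := hGb (y : E) hy'
    have hny : 0 < ‖(y : E)‖ := norm_pos_iff.2 hy'
    have e0 : ww (y : E) = ww y := rfl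
    rw [Real.norm_eq_abs, hg, abs_of_nonneg (mul_nonneg (pow_nonneg b0 i) (ww_pos (y : E)).1.le), e0,
      ← mul_assoc]
    refine mul_le_mul_of_nonneg_right ?_ (ww_pos y).1.le
    calc G0 K (y : E) ^ i ≤ (C / ‖(y : E)‖) ^ i := pow_le_pow_left₀ b0 b1 i
      _ = C ^ i * ‖y‖ ^ (-(i : ℝ)) := by
          rw [Real.rpow_neg (norm_nonneg _), Real.rpow_natCast, div_pow]
          rfl
  unfold W0
  rw [polarF g hgi]
  have hinner : ∀ v : sphere (0 : ((ℝ ∙ x)ᗮ : Submodule ℝ E)) 1,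
      ∫ r in Ioi (0:ℝ), r ^ (Module.finrank ℝ ((ℝ ∙ x)ᗮ : Submodule ℝ E) - 1) *
        g (r • (v : ((ℝ ∙ x)ᗮ : Submodule ℝ E))) =
      (Real.sqrt (2 * Real.pi) ^ i *
        ∫ r in Ioi (0:ℝ), r ^ (Module.finrank ℝ E - 2 - i) * Real.exp (-(r ^ 2) / 2)) *
        ((volume {z : (ℝ ∙ ((v : (ℝ ∙ x)ᗮ) : E))ᗮ | (z : E) ∈ K}).toReal) ^ i := by
    intro v
    rw [← integral_const_mul, ← integral_mul_const]
    refine setIntegral_congr_fun measurableSet_Ioi fun r hr => ?_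
    have hr0 : (0 : ℝ) < r := hr
    have hv1 : ‖((v : ((ℝ ∙ x)ᗮ : Submodule ℝ E)) : E)‖ = 1 := by
      have := v.2
      rw [mem_sphere_zero_iff_norm] at this
      exact this
    have e1 : G0 K (((r • (v : ((ℝ ∙ x)ᗮ : Submodule ℝ E)) : ((ℝ ∙ x)ᗮ : Submodule ℝ E))) : E) =
        r⁻¹ * (Real.sqrt (2 * Real.pi) *
          (volume {z : (ℝ ∙ ((v : (ℝ ∙ x)ᗮ) : E))ᗮ | (z : E) ∈ K}).toReal) := by
      rw [Submodule.coe_smul, G0_smul K r hr0]
      congr 1
      unfold G0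
      rw [hv1, div_one]
    have e2 : ww (((r • (v : ((ℝ ∙ x)ᗮ : Submodule ℝ E)) : ((ℝ ∙ x)ᗮ : Submodule ℝ E))) : E) =
        Real.exp (-(r ^ 2) / 2) := by
      unfold ww
      rw [Submodule.coe_smul, norm_smul, hv1, mul_one, Real.norm_eq_abs, sq_abs]
    simp only [hg]
    rw [e1, e2, mul_pow, mul_pow, ← hm]
    have e3 : r ^ (m - 1) * (r⁻¹) ^ i = r ^ (Module.finrank ℝ E - 2 - i) := by
      have h1 : m - 1 = (Module.finrank ℝ E - 2 - i) + i := by omega
      rw [h1, pow_add, mul_assoc, ← mul_pow, mul_inv_cancel₀ hr0.ne', one_pow, mul_one]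
    rw [← e3]
    ring
  rw [integral_congr_ae (Filter.Eventually.of_forall hinner), integral_const_mul]
  unfold CW
  rw [pow_succ]
  ring

end Pool.Agent.Helper734.IB
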