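import Mathlib
import Pool.Agent.Helper734.IB.Defs
import Pool.Agent.Helper734.IB.AaAll
import Pool.Agent.Helper734.IB.CWpos
import Pool.Agent.Helper734.IB.F1
import Pool.Agent.Helper734.IB.F2
import Pool.Agent.Helper734.IB.KSa
import Pool.Agent.Helper734.IB.KSconst
import Pool.Agent.Helper734.IB.KSnull
import Pool.Agent.Helper734.IB.KSrefl
import Pool.Agent.Helper734.IB.Volpolar
import Pool.Agent.Helper734.IB.W0polar

set_option autoImplicit false

namespace Pool.Agent.Helper734.IB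

open MeasureTheory Set Filter Topology Metric
open scoped ENNReal NNReal RealInnerProductSpace

variable {E : Type*} [NormedAddCommGroup E] [InnerProductSpace ℝ E] [FiniteDimensional ℝ E]
  [MeasurableSpace E] [BorelSpace E]

section Core

/-- integral over the unit sphere of a subspace -/
noncomputable def core_corA {n : ℕ} (S : Submodule ℝ (EuclideanSpace ℝ (Fin n)))
    (g : EuclideanSpace ℝ (Fin n) → ℝ) : ℝ :=
  ∫ v : sphere (0 : S) 1, g ((v : S) : EuclideanSpace ℝ (Fin n)) ∂((volume : Measure S).toSphere)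

theorem core_corA_ordRadial {n : ℕ} (i : ℝ) (L : Set (EuclideanSpace ℝ (Fin n)))
    (u : EuclideanSpace ℝ (Fin n)) :
    ordRadial i L u = 1 / ((n : ℝ) - 1) * core_corA (ℝ ∙ u)ᗮ (fun v => radial L v ^ i) := rfl

theorem core_corA_congr {n : ℕ} (S : Submodule ℝ (EuclideanSpace ℝ (Fin n)))
    {g g' : EuclideanSpace ℝ (Fin n) → ℝ} (h : ∀ v, ‖v‖ = 1 → g v = g' v) :
    core_corA S g = core_corA S g' := by
  unfold core_corA
  congr 1
  funext v
  apply h
  have := v.2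
  rw [mem_sphere_zero_iff_norm] at this
  exact this

/-- the power of the radial function -/
noncomputable def core_corF {n : ℕ} (L : Set (EuclideanSpace ℝ (Fin n))) (s : ℝ)
    (x : EuclideanSpace ℝ (Fin n)) : ℝ :=
  open Classical in if x = 0 then 0 else (radial L (‖x‖⁻¹ • x)) ^ s

theorem core_corF_ne {n : ℕ} (L : Set (EuclideanSpace ℝ (Fin n))) (s : ℝ)
    {x : EuclideanSpace ℝ (Fin n)} (hx : x ≠ 0) : core_corF L s x = (radial L (‖x‖⁻¹ • x)) ^ s := by
  unfold core_corF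
  rw [if_neg hx]

theorem core_cor_unit {n : ℕ} {x : EuclideanSpace ℝ (Fin n)} (hx : x ≠ 0) : ‖‖x‖⁻¹ • x‖ = 1 := by
  rw [norm_smul, norm_inv, norm_norm, inv_mul_cancel₀ (norm_ne_zero_iff.2 hx)]

theorem core_corF_unit {n : ℕ} (L : Set (EuclideanSpace ℝ (Fin n))) (s : ℝ)
    {x : EuclideanSpace ℝ (Fin n)} (hx : ‖x‖ = 1) : core_corF L s x = (radial L x) ^ s := by
  have h0 : x ≠ 0 := by
    intro h; rw [h, norm_zero] at hx; exact zero_ne_one hx
  rw [core_corF_ne L s h0, hx, inv_one, one_smul]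

theorem core {n i : ℕ} (hi : 2 ≤ i) (hin : i + 2 ≤ n)
    (L : Set (EuclideanSpace ℝ (Fin n))) (hL : IsStarBody L) (r : ℝ) (hr : 0 < r)
    (h : IBody (i : ℝ) (IBody (i : ℝ) L) = (fun z => r • z) '' L) :
    ∃ R : ℝ, 0 ≤ R ∧ L = closedBall 0 R := by
  have hfin : Module.finrank ℝ (EuclideanSpace ℝ (Fin n)) = n := finrank_euclideanSpace_fin
  obtain ⟨M, hM, hrad⟩ := radial_bdd L hL
  have hnR : (4 : ℝ) ≤ n := by exact_mod_cast (by omega : 4 ≤ n)
  have hiR : (2 : ℝ) ≤ i := by exact_mod_cast hi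
  have hinR : (i : ℝ) + 2 ≤ n := by exact_mod_cast hin
  have hn1 : (0 : ℝ) < (n : ℝ) - 1 := by linarith
  have hi0 : (0 : ℝ) < i := by linarith
  set s : ℝ := (i : ℝ) / ((n : ℝ) - 1) with hs
  have hs0 : 0 < s := div_pos hi0 hn1
  set f : EuclideanSpace ℝ (Fin n) → ℝ := core_corF L s with hf
  have hfne : ∀ x : EuclideanSpace ℝ (Fin n), x ≠ 0 → f x = (radial L (‖x‖⁻¹ • x)) ^ s :=
    fun x hx => core_corF_ne L s hx
  -- homogeneity
  have hh : ∀ c : ℝ, 0 < c → ∀ x : EuclideanSpace ℝ (Fin n), x ≠ 0 → f (c • x) = f x := by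
    intro c hc x hx
    have hcx : c • x ≠ 0 := smul_ne_zero hc.ne' hx
    rw [hfne _ hcx, hfne x hx]
    congr 2
    rw [norm_smul, Real.norm_of_nonneg hc.le, smul_smul]
    congr 1
    have : ‖x‖ ≠ 0 := norm_ne_zero_iff.2 hx
    field_simp
  -- positivity
  have h0 : ∀ x, 0 ≤ f x := by
    intro x
    by_cases hx : x = 0
    · rw [hx, hf]; unfold core_corF; rw [if_pos rfl]
    · rw [hfne x hx]
      exact Real.rpow_nonneg (hrad _ (core_cor_unit hx)).1 s
  set R : ℝ := M ^ s + 1 with hRdef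
  have hMs : 0 ≤ M ^ s := Real.rpow_nonneg hM.le s
  have hR0 : 0 < R := by rw [hRdef]; linarith
  have hR : ∀ x, f x ≤ R := by
    intro x
    by_cases hx : x = 0
    · rw [hx, hf]; unfold core_corF; rw [if_pos rfl]; exact hR0.le
    · rw [hfne x hx]
      have h1 := hrad _ (core_cor_unit hx)
      have h2 := Real.rpow_le_rpow h1.1 h1.2 hs0.le
      rw [hRdef]
      linarith
  -- continuity
  have hc : ContinuousOn f {0}ᶜ := by
    have h1 : ContinuousOn (fun x : EuclideanSpace ℝ (Fin n) => ‖x‖⁻¹ • x) {0}ᶜ := by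
      have h2 : ContinuousOn (fun x : EuclideanSpace ℝ (Fin n) => ‖x‖⁻¹) {0}ᶜ :=
        continuous_norm.continuousOn.inv₀ (fun x hx => norm_ne_zero_iff.2 hx)
      exact h2.smul (continuousOn_id' _)
    have h2 : ContinuousOn (fun x : EuclideanSpace ℝ (Fin n) => radial L (‖x‖⁻¹ • x)) {0}ᶜ :=
      hL.cont.comp h1 (fun x hx => mem_sphere_zero_iff_norm.2 (core_cor_unit hx))
    have h3 : ContinuousOn (fun x : EuclideanSpace ℝ (Fin n) => (radial L (‖x‖⁻¹ • x)) ^ s) {0}ᶜ :=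
      h2.rpow_const (fun x _ => Or.inr hs0.le)
    exact h3.congr (fun x hx => hfne x hx)
  have hfr : ∀ u : EuclideanSpace ℝ (Fin n), u ≠ 0 →
      volume {z : (ℝ ∙ u)ᗮ | (z : EuclideanSpace ℝ (Fin n)) ∈ frontier (KS f)} = 0 :=
    fun u hu => KS_null (by rw [hfin]; omega) f hc hh R hR u hu
  -- the volumes of the sections
  have hfpow : ∀ v : EuclideanSpace ℝ (Fin n), ‖v‖ = 1 →
      (f v) ^ (n - 1) = radial L v ^ (i : ℝ) := by
    intro v hv
    have h1 : f v = radial L v ^ s := core_corF_unit L s hv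
    rw [h1, ← Real.rpow_natCast, ← Real.rpow_mul (hrad v hv).1]
    congr 1
    rw [Nat.cast_sub (by omega : 1 ≤ n), Nat.cast_one, hs]
    field_simp
  have hvol : ∀ v : EuclideanSpace ℝ (Fin n), ‖v‖ = 1 →
      (volume {z : (ℝ ∙ v)ᗮ | (z : EuclideanSpace ℝ (Fin n)) ∈ KS f}).toReal =
        radial (IBody (i : ℝ) L) v := by
    intro v hv
    have hv0 : v ≠ 0 := by
      intro h; rw [h, norm_zero] at hv; exact zero_ne_one hv
    rw [vol_polar (by rw [hfin]; omega) f hc hh h0 R hR v hv0,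
      radial_IBody (by omega) (i : ℝ) L v hv, core_corA_ordRadial, hfin]
    congr 1
    exact core_corA_congr _ hfpow
  -- the potential
  have hW : ∀ x : EuclideanSpace ℝ (Fin n), x ≠ 0 →
      W0 (KS f) i x = CW n i / ‖x‖ * (((n : ℝ) - 1) * (r * radial L (‖x‖⁻¹ • x))) := by
    intro x hx
    rw [W0_polar (KS f) R hR0 (KS_open f hc) (KS_sub f R hR) i (by rw [hfin]; exact hin) hfr x hx,
      hfin]
    congr 1
    have h1 : (∫ v : sphere (0 : (ℝ ∙ x)ᗮ) 1,
        ((volume {z : (ℝ ∙ ((v : (ℝ ∙ x)ᗮ) : EuclideanSpace ℝ (Fin n)))ᗮ |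
          (z : EuclideanSpace ℝ (Fin n)) ∈ KS f}).toReal) ^ i
        ∂((volume : Measure (ℝ ∙ x)ᗮ).toSphere)) =
        core_corA (ℝ ∙ x)ᗮ (fun v => radial (IBody (i : ℝ) L) v ^ (i : ℝ)) := by
      change core_corA (ℝ ∙ x)ᗮ (fun v => ((volume {z : (ℝ ∙ v)ᗮ |
          (z : EuclideanSpace ℝ (Fin n)) ∈ KS f}).toReal) ^ i) = _
      apply core_corA_congr
      intro v hv
      rw [hvol v hv, Real.rpow_natCast]
    have hu : ‖‖x‖⁻¹ • x‖ = 1 := core_cor_unit hx
    have h2 : (ℝ ∙ (‖x‖⁻¹ • x))ᗮ = (ℝ ∙ x)ᗮ :=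
      perp_smul _ (inv_ne_zero (norm_ne_zero_iff.2 hx)) x
    have h3 : ordRadial (i : ℝ) (IBody (i : ℝ) L) (‖x‖⁻¹ • x) = r * radial L (‖x‖⁻¹ • x) := by
      rw [← radial_IBody (by omega) (i : ℝ) _ _ hu, h, radial_smul L r hr]
    rw [core_corA_ordRadial, h2] at h3
    rw [h1, ← h3]
    field_simp
  set ψ : ℝ → ℝ := fun t => CW n i * (((n : ℝ) - 1) * r) * t ^ (((n : ℝ) - 1) / i - 1) with hψd
  have hexp : 0 < ((n : ℝ) - 1) / i - 1 := by
    rw [sub_pos, lt_div_iff₀ hi0]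
    linarith
  have hCW := CW_pos n i
  have hψ : StrictMonoOn ψ (Ioi 0) := by
    intro a ha b hb hab
    have ha0 : (0 : ℝ) < a := ha
    have h1 : a ^ (((n : ℝ) - 1) / i - 1) < b ^ (((n : ℝ) - 1) / i - 1) :=
      Real.rpow_lt_rpow ha0.le hab hexp
    exact mul_lt_mul_of_pos_left h1 (by positivity)
  have hWf : ∀ x ∈ frontier (KS f), x ≠ 0 → W0 (KS f) i x = ψ ‖x‖ := by
    intro x hxf hx
    have h1 := KS_frontier f hc x hx hxf
    have hxn : 0 < ‖x‖ := norm_pos_iff.2 hx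
    have h2 : radial L (‖x‖⁻¹ • x) = ‖x‖ ^ (((n : ℝ) - 1) / i) := by
      have h3 : ‖x‖ = (radial L (‖x‖⁻¹ • x)) ^ s := by rw [← hfne x hx]; exact h1
      have h4 := (hrad _ (core_cor_unit hx)).1
      conv_rhs => rw [h3]
      rw [← Real.rpow_mul h4]
      have h5 : s * (((n : ℝ) - 1) / i) = 1 := by
        rw [hs]; field_simp
      rw [h5, Real.rpow_one]
    rw [hW x hx, h2, hψd]
    simp only
    rw [Real.rpow_sub_one hxn.ne']
    field_simp
  have hae : ∀ e : EuclideanSpace ℝ (Fin n), ‖e‖ = 1 →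
      ∀ᵐ x : EuclideanSpace ℝ (Fin n), x ∈ KS f → aa (KS f) e x = 0 := fun e he =>
    aa_zero_all (KS f) R hR0 (KS_open f hc) (KS_sub f R hR) e he i hi (by rw [hfin]; exact hin)
      hfr ψ hψ hWf
  have hconst : ∀ x y : EuclideanSpace ℝ (Fin n), x ≠ 0 → y ≠ 0 → f x = f y := fun x y hx hy =>
    KS_const f hh (fun e he x hx => KS_refl f hc hh h0 R hR e he (hae e he) x hx) x y hx hy
  have hradc : ∀ u v : EuclideanSpace ℝ (Fin n), ‖u‖ = 1 → ‖v‖ = 1 → radial L u = radial L v := by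
    intro u v hu hv
    have hu0 : u ≠ 0 := by
      intro h; rw [h, norm_zero] at hu; exact zero_ne_one hu
    have hv0 : v ≠ 0 := by
      intro h; rw [h, norm_zero] at hv; exact zero_ne_one hv
    have h1 := hconst u v hu0 hv0
    rw [hf, core_corF_unit L s hu, core_corF_unit L s hv] at h1
    exact (Real.rpow_left_inj (hrad u hu).1 (hrad v hv).1 hs0.ne').1 h1
  let u0 : EuclideanSpace ℝ (Fin n) := EuclideanSpace.single (⟨0, by omega⟩ : Fin n) (1 : ℝ)
  have hu0 : ‖u0‖ = 1 := by simp [u0]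
  refine ⟨radial L u0, (hrad u0 hu0).1, ?_⟩
  ext x
  rw [mem_closedBall_zero_iff]
  by_cases hx : x = 0
  · rw [hx, norm_zero]
    exact ⟨fun _ => (hrad u0 hu0).1, fun _ => hL.zero_mem⟩
  · have hu : ‖‖x‖⁻¹ • x‖ = 1 := core_cor_unit hx
    have h1 := radial_mem L hL (‖x‖⁻¹ • x) hu ‖x‖ (norm_nonneg _)
    rw [smul_smul, mul_inv_cancel₀ (norm_ne_zero_iff.2 hx), one_smul, hradc _ u0 hu hu0] at h1
    exact h1

end Core

end Pool.Agent.Helper734.IB
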