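import Mathlib
import Pool.Agent.Helper734.IB.Defs
import Pool.Agent.Helper734.IB.CWpos
import Pool.Agent.Helper734.IB.F1
import Pool.Agent.Helper734.IB.F2

set_option autoImplicit false

namespace Pool.Agent.Helper734.IB

open MeasureTheory Set Filter Topology Metric
open scoped ENNReal NNReal RealInnerProductSpace

variable {E : Type*} [NormedAddCommGroup E] [InnerProductSpace ℝ E] [FiniteDimensional ℝ E]
  [MeasurableSpace E] [BorelSpace E]

theorem IBody_ball {n : ℕ} (hn : 2 ≤ n) (i : ℝ) (hi : 0 < i) :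
    ∃ κ : ℝ, 0 < κ ∧ ∀ R : ℝ, 0 ≤ R → IBody i (closedBall (0 : EuclideanSpace ℝ (Fin n)) R) =
      closedBall (0 : EuclideanSpace ℝ (Fin n)) (κ * R ^ i) := by
  obtain ⟨m, rfl⟩ : ∃ m, n = m + 2 := ⟨n - 2, by omega⟩
  have hfact : Fact (Module.finrank ℝ (EuclideanSpace ℝ (Fin (m + 2))) = (m + 1) + 1) := ⟨by simp⟩
  set ω : ℝ := (volume : Measure (EuclideanSpace ℝ (Fin (m + 1)))).real (ball 0 1) with hω
  have hωpos : 0 < ω := by
    rw [hω, Measure.real]
    exact ENNReal.toReal_pos (measure_ball_pos _ _ one_pos).ne' measure_ball_lt_top.ne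
  have hm1 : ((m + 2 : ℕ) : ℝ) - 1 = m + 1 := by push_cast; ring
  have hm0 : (0 : ℝ) < m + 1 := by positivity
  -- the order-i radial function of the ball
  have hord : ∀ R : ℝ, 0 ≤ R → ∀ u : EuclideanSpace ℝ (Fin (m + 2)), ‖u‖ = 1 → 
      ordRadial i (closedBall (0 : EuclideanSpace ℝ (Fin (m + 2))) R) u = ω * R ^ i := by
    intro R hR u hu
    have hu0 : u ≠ 0 := by
      intro h
      rw [h, norm_zero] at hu
      exact zero_ne_one hu
    have hfr : Module.finrank ℝ (ℝ ∙ u)ᗮ = m + 1 := Submodule.finrank_orthogonal_span_singleton hu0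
    have hnt : Nontrivial (ℝ ∙ u)ᗮ := Module.nontrivial_of_finrank_pos (R := ℝ) (by rw [hfr]; omega)
    have hvol : (volume : Measure (ℝ ∙ u)ᗮ).real (ball 0 1) = ω := by
      rw [hω, Measure.real, Measure.real, InnerProductSpace.volume_ball, InnerProductSpace.volume_ball, hfr]
      simp
    have hrad : ∀ v : sphere (0 : (ℝ ∙ u)ᗮ) 1, 
        (radial (closedBall (0 : EuclideanSpace ℝ (Fin (m + 2))) R) ((v : (ℝ ∙ u)ᗮ) : EuclideanSpace ℝ (Fin (m + 2)))) ^ i = R ^ i := by
      intro v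
      rw [(ball_star R hR).2]
      have h1 : ‖(v : (ℝ ∙ u)ᗮ)‖ = 1 := by simp
      exact h1
    unfold ordRadial
    simp_rw [hrad]
    rw [integral_const, Measure.toSphere_real_apply_univ, hvol, hfr, hm1, smul_eq_mul]
    push_cast
    field_simp
  refine ⟨ω, hωpos, fun R hR => ?_⟩
  have hRi : 0 ≤ ω * R ^ i := mul_nonneg hωpos.le (Real.rpow_nonneg hR i)
  ext x
  constructor
  · rintro ⟨u, hu, c, hc0, hc, rfl⟩
    have hu1 : ‖u‖ = 1 := by simpa using hu
    rw [hord R hR u hu1] at hc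
    rw [mem_closedBall, dist_zero_right, norm_smul, hu1, mul_one, Real.norm_eq_abs, abs_of_nonneg hc0]
    exact hc
  · intro hx
    rw [mem_closedBall, dist_zero_right] at hx
    by_cases hx0 : x = 0
    · obtain ⟨u, hu⟩ : ∃ u : EuclideanSpace ℝ (Fin (m + 2)), ‖u‖ = 1 := exists_norm_eq _ zero_le_one
      refine ⟨u, by simpa using hu, 0, le_rfl, ?_, by simp [hx0]⟩
      rw [hord R hR u hu]
      exact hRi
    · have hn : 0 < ‖x‖ := norm_pos_iff.2 hx0
      have hu : ‖‖x‖⁻¹ • x‖ = 1 := by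
        rw [norm_smul, norm_inv, norm_norm, inv_mul_cancel₀ hn.ne']
      refine ⟨‖x‖⁻¹ • x, by simpa using hu, ‖x‖, hn.le, ?_, ?_⟩
      · rw [hord R hR _ hu]
        exact hx
      · rw [smul_smul, mul_inv_cancel₀ hn.ne', one_smul]

end Pool.Agent.Helper734.IB
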