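import Mathlib
import Pool.Agent.Helper734.IB.Defs
import Pool.Agent.Helper734.IB.CWpos
import Pool.Agent.Helper734.IB.Core
import Pool.Agent.Helper734.IB.F1
import Pool.Agent.Helper734.IB.F2
import Pool.Agent.Helper734.IB.F3

set_option autoImplicit false

namespace Pool.Agent.Helper734.IB

open MeasureTheory Set Filter Topology Metric
open scoped ENNReal NNReal RealInnerProductSpace

variable {E : Type*} [NormedAddCommGroup E] [InnerProductSpace ℝ E] [FiniteDimensional ℝ E]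
  [MeasurableSpace E] [BorelSpace E]

theorem finals_aux_radial_nonneg {F : Type*} [NormedAddCommGroup F] [NormedSpace ℝ F] (L : Set F)
    (u : F) : 0 ≤ radial L u := by
  unfold radial
  apply Real.sSup_nonneg
  rintro c ⟨hc, _⟩
  exact hc

theorem finals_aux_ordRadial_smul {n : ℕ} (i : ℝ) (L : Set (EuclideanSpace ℝ (Fin n))) (r : ℝ)
    (hr : 0 < r) (u : EuclideanSpace ℝ (Fin n)) :
    ordRadial i ((fun z => r • z) '' L) u = r ^ i * ordRadial i L u := by
  unfold ordRadial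
  have h1 : ∀ v : sphere (0 : (ℝ ∙ u)ᗮ) 1,
      (radial ((fun z => r • z) '' L) ((v : (ℝ ∙ u)ᗮ) : EuclideanSpace ℝ (Fin n))) ^ i =
      r ^ i * (radial L ((v : (ℝ ∙ u)ᗮ) : EuclideanSpace ℝ (Fin n))) ^ i := by
    intro v
    rw [radial_smul L r hr, Real.mul_rpow hr.le (finals_aux_radial_nonneg _ _)]
  simp_rw [h1]
  rw [integral_const_mul]
  ring

theorem finals_aux_IBody_smul {n : ℕ} (i : ℝ) (L : Set (EuclideanSpace ℝ (Fin n))) (r : ℝ)
    (hr : 0 < r) :
    IBody i ((fun z => r • z) '' L) = (fun z => r ^ i • z) '' IBody i L := by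
  have hri : 0 < r ^ i := Real.rpow_pos_of_pos hr i
  ext x
  constructor
  · rintro ⟨u, hu, c, hc, hcu, rfl⟩
    rw [finals_aux_ordRadial_smul i L r hr] at hcu
    refine ⟨(c / r ^ i) • u, ⟨u, hu, c / r ^ i, by positivity, ?_, rfl⟩, ?_⟩
    · rw [div_le_iff₀ hri]; linarith
    · simp only [smul_smul]
      rw [mul_div_cancel₀ _ hri.ne']
  · rintro ⟨_, ⟨u, hu, c, hc, hcu, rfl⟩, rfl⟩
    refine ⟨u, hu, r ^ i * c, by positivity, ?_, ?_⟩
    · rw [finals_aux_ordRadial_smul i L r hr]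
      exact mul_le_mul_of_nonneg_left hcu hri.le
    · simp only [smul_smul]

theorem finals_aux_image_ball {n : ℕ} (r R : ℝ) (hr : 0 < r) (hR : 0 ≤ R) :
    (fun z => r • z) '' (closedBall (0 : EuclideanSpace ℝ (Fin n)) R) = closedBall 0 (r * R) := by
  have := smul_closedBall r (0 : EuclideanSpace ℝ (Fin n)) hR
  rw [smul_zero, Real.norm_of_nonneg hr.le] at this
  rw [← this]
  rfl

theorem final2 {n i : ℕ} (hi : 2 ≤ i) (hin : i + 2 ≤ n)
    (L : Set (EuclideanSpace ℝ (Fin n))) (hL : IsStarBody L) :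
    ((∃ r : ℝ, 0 < r ∧ IBody (i : ℝ) (IBody (i : ℝ) L) = (fun z => r • z) '' L) ↔
      ∃ R : ℝ, 0 ≤ R ∧ L = closedBall 0 R) ∧
    ((∀ x ∈ L, -x ∈ L) → ((∃ (x : EuclideanSpace ℝ (Fin n)) (r : ℝ), 0 < r ∧
      IBody (i : ℝ) (IBody (i : ℝ) L) = (fun z => x + r • z) '' L) ↔
      ∃ R : ℝ, 0 ≤ R ∧ L = closedBall 0 R)) := by
  have hi0 : (0 : ℝ) < (i : ℝ) := by
    have : 0 < i := by omega
    exact_mod_cast this
  have key : (∃ r : ℝ, 0 < r ∧ IBody (i : ℝ) (IBody (i : ℝ) L) = (fun z => r • z) '' L) ↔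
      ∃ R : ℝ, 0 ≤ R ∧ L = closedBall 0 R := by
    constructor
    · rintro ⟨r, hr, h⟩
      exact core hi hin L hL r hr h
    · rintro ⟨R, hR, rfl⟩
      obtain ⟨κ, hκ, hball⟩ := IBody_ball (n := n) (by omega) (i : ℝ) hi0
      have h1 : 0 ≤ κ * R ^ (i : ℝ) := mul_nonneg hκ.le (Real.rpow_nonneg hR _)
      rcases hR.eq_or_lt with h0 | h0
      · subst h0
        refine ⟨1, one_pos, ?_⟩
        rw [hball 0 le_rfl, Real.zero_rpow hi0.ne', mul_zero, hball 0 le_rfl,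
          Real.zero_rpow hi0.ne', mul_zero, finals_aux_image_ball 1 0 one_pos le_rfl, mul_zero]
      · refine ⟨κ * (κ * R ^ (i : ℝ)) ^ (i : ℝ) / R, ?_, ?_⟩
        · have h2 : 0 < R ^ (i : ℝ) := Real.rpow_pos_of_pos h0 _
          have h3 : 0 < (κ * R ^ (i : ℝ)) ^ (i : ℝ) := Real.rpow_pos_of_pos (mul_pos hκ h2) _
          positivity
        · have h2 : 0 < R ^ (i : ℝ) := Real.rpow_pos_of_pos h0 _
          have h3 : 0 < (κ * R ^ (i : ℝ)) ^ (i : ℝ) := Real.rpow_pos_of_pos (mul_pos hκ h2) _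
          rw [hball R hR, hball _ h1, finals_aux_image_ball _ R (by positivity) hR,
            div_mul_cancel₀ _ h0.ne']
  refine ⟨key, ?_⟩
  intro hsym
  constructor
  · rintro ⟨x, r, hr, h⟩
    have hx : x = 0 := centred_shift _ L (IBody_centred _ _) hsym ⟨0, hL.zero_mem⟩
      hL.compact.isBounded x r hr h
    subst hx
    apply key.1
    refine ⟨r, hr, ?_⟩
    rw [h]
    simp
  · intro h
    obtain ⟨r, hr, h2⟩ := key.2 h
    refine ⟨0, r, hr, ?_⟩
    rw [h2]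
    simp

theorem final1 {n i : ℕ} (hi : 2 ≤ i) (hin : i + 2 ≤ n)
    (L : Set (EuclideanSpace ℝ (Fin n))) (hL : IsStarBody L) :
    ((∃ r : ℝ, 0 < r ∧ IBody (i : ℝ) L = (fun z => r • z) '' L) ↔
      ∃ R : ℝ, 0 ≤ R ∧ L = closedBall 0 R) ∧
    ((∀ x ∈ L, -x ∈ L) → ((∃ (x : EuclideanSpace ℝ (Fin n)) (r : ℝ), 0 < r ∧
      IBody (i : ℝ) L = (fun z => x + r • z) '' L) ↔
      ∃ R : ℝ, 0 ≤ R ∧ L = closedBall 0 R)) := by
  have hi0 : (0 : ℝ) < (i : ℝ) := by
    have : 0 < i := by omega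
    exact_mod_cast this
  have key : (∃ r : ℝ, 0 < r ∧ IBody (i : ℝ) L = (fun z => r • z) '' L) ↔
      ∃ R : ℝ, 0 ≤ R ∧ L = closedBall 0 R := by
    constructor
    · rintro ⟨r, hr, h⟩
      have hri : 0 < r ^ (i : ℝ) := Real.rpow_pos_of_pos hr _
      apply core hi hin L hL (r ^ (i : ℝ) * r) (by positivity)
      rw [h, finals_aux_IBody_smul _ _ _ hr, h, image_image]
      simp only [smul_smul]
    · rintro ⟨R, hR, rfl⟩
      obtain ⟨κ, hκ, hball⟩ := IBody_ball (n := n) (by omega) (i : ℝ) hi0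
      have h1 : 0 ≤ κ * R ^ (i : ℝ) := mul_nonneg hκ.le (Real.rpow_nonneg hR _)
      rcases hR.eq_or_lt with h0 | h0
      · subst h0
        refine ⟨1, one_pos, ?_⟩
        rw [hball 0 le_rfl, Real.zero_rpow hi0.ne', mul_zero,
          finals_aux_image_ball 1 0 one_pos le_rfl, mul_zero]
      · refine ⟨κ * R ^ (i : ℝ) / R, ?_, ?_⟩
        · have h2 : 0 < R ^ (i : ℝ) := Real.rpow_pos_of_pos h0 _
          positivity
        · have h2 : 0 < R ^ (i : ℝ) := Real.rpow_pos_of_pos h0 _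
          rw [hball R hR, finals_aux_image_ball _ R (by positivity) hR,
            div_mul_cancel₀ _ h0.ne']
  refine ⟨key, ?_⟩
  intro hsym
  constructor
  · rintro ⟨x, r, hr, h⟩
    have hx : x = 0 := centred_shift _ L (IBody_centred _ _) hsym ⟨0, hL.zero_mem⟩
      hL.compact.isBounded x r hr h
    subst hx
    apply key.1
    refine ⟨r, hr, ?_⟩
    rw [h]
    simp
  · intro h
    obtain ⟨r, hr, h2⟩ := key.2 h
    refine ⟨0, r, hr, ?_⟩
    rw [h2]
    simp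

end Pool.Agent.Helper734.IB
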